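import Pool.Agent.K6.H23.WA.PieceD

/-!
Piece E: almost optimal families with strictly positive weights and velocities, sorted by slope.
-/

set_option autoImplicit false

namespace Pool.Agent.K6.H23.WA

open Finset

namespace PE

/-- splitting a symmetric double sum over `Fin n` into the part below the diagonal (twice) and the
diagonal -/
theorem sum_symm_split {n : ℕ} (g : Fin n → Fin n → ℝ) (hg : ∀ i j, g i j = g j i) :
    ∑ i, ∑ j, g i j = 2 * ∑ j, ∑ i ∈ univ.filter (· < j), g i j + ∑ i, g i i := by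
  have h1 : ∀ i j : Fin n, g i j = (if i < j then g i j else 0) + (if j < i then g i j else 0)
      + (if i = j then g i j else 0) := by
    intro i j
    rcases lt_trichotomy i j with h | h | h
    · simp [h, h.not_gt, h.ne]
    · simp [h]
    · simp [h, h.not_gt, h.ne']
  have h2 : ∑ i, ∑ j, g i j = ∑ i, ∑ j, ((if i < j then g i j else 0)
      + (if j < i then g i j else 0) + (if i = j then g i j else 0)) :=
    Finset.sum_congr rfl fun i _ => Finset.sum_congr rfl fun j _ => h1 i j
  rw [h2]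
  simp only [Finset.sum_add_distrib]
  have h3 : ∑ i, ∑ j, (if i < j then g i j else 0) = ∑ j, ∑ i ∈ univ.filter (· < j), g i j := by
    rw [Finset.sum_comm]
    exact Finset.sum_congr rfl fun j _ => (Finset.sum_filter _ _).symm
  have h4 : ∑ i, ∑ j, (if j < i then g i j else 0) = ∑ j, ∑ i ∈ univ.filter (· < j), g i j := by
    refine Finset.sum_congr rfl fun j _ => ?_
    rw [Finset.sum_filter]
    exact Finset.sum_congr rfl fun i _ => by rw [hg]
  have h5 : ∑ i, ∑ j, (if i = j then g i j else 0) = ∑ i, g i i := by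
    refine Finset.sum_congr rfl fun i _ => ?_
    simp
  rw [h3, h4, h5]
  ring

/-- sorting by slope -/
theorem exists_sort {ι : Type} [Fintype ι] (x y : ι → ℝ) (hx : ∀ i, 0 < x i) :
    ∃ σ : Fin (Fintype.card ι) ≃ ι, ∀ i j, i ≤ j → y (σ j) * x (σ i) ≤ y (σ i) * x (σ j) := by
  classical
  let e : Fin (Fintype.card ι) ≃ ι := (Fintype.equivFin ι).symm
  let f : Fin (Fintype.card ι) → ℝ := fun i => -(y (e i) / x (e i))
  refine ⟨(Tuple.sort f).trans e, fun i j hij => ?_⟩
  have h := Tuple.monotone_sort f hij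
  simp only [f, Function.comp, neg_le_neg_iff] at h
  rw [div_le_div_iff₀ (hx _) (hx _)] at h
  exact h

/-- sorted family from a family indexed by a finite type -/
theorem sorted_family {ι : Type} [Fintype ι] (t x y : ι → ℝ) (ht : ∀ i, 0 < t i)
    (hx : ∀ i, 0 < x i) (hy : ∀ i, 0 < y i) (hxy : ∀ i, x i + y i < 1) (hsum : ∑ i, t i = 1)
    {r : ℝ} (hr : 0 < r) (htr : ∀ i, t i ≤ 1 / r) {a : ℝ}
    (ha : a + 1 / (2 * r) < (1 / 2) * ∑ i, ∑ j, t i * t j * max (x i * y j) (x j * y i)) :
    ∃ σ : Fin (Fintype.card ι) ≃ ι, (∀ i j, i ≤ j → y (σ j) * x (σ i) ≤ y (σ i) * x (σ j)) ∧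
      a < ∑ j, ∑ i ∈ univ.filter (· < j), t (σ i) * t (σ j) * (y (σ i) * x (σ j)) := by
  classical
  obtain ⟨σ, hσ⟩ := exists_sort x y hx
  refine ⟨σ, hσ, ?_⟩
  have e1 : ∑ i, ∑ j, t i * t j * max (x i * y j) (x j * y i)
      = ∑ i, ∑ j, t (σ i) * t (σ j) * max (x (σ i) * y (σ j)) (x (σ j) * y (σ i)) := by
    rw [← Equiv.sum_comp σ]
    refine Finset.sum_congr rfl fun i _ => ?_
    rw [← Equiv.sum_comp σ]
  have e2 := sum_symm_split (fun i j => t (σ i) * t (σ j) * max (x (σ i) * y (σ j))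
    (x (σ j) * y (σ i))) (by
      intro i j
      rw [max_comm]
      ring)
  have e3 : ∑ j, ∑ i ∈ univ.filter (· < j), t (σ i) * t (σ j) * max (x (σ i) * y (σ j))
      (x (σ j) * y (σ i)) = ∑ j, ∑ i ∈ univ.filter (· < j), t (σ i) * t (σ j) *
        (y (σ i) * x (σ j)) := by
    refine Finset.sum_congr rfl fun j _ => Finset.sum_congr rfl fun i hi => ?_
    have hij : i < j := (Finset.mem_filter.mp hi).2
    have := hσ i j hij.le
    rw [max_eq_right (by linarith [mul_comm (x (σ i)) (y (σ j)), mul_comm (x (σ j)) (y (σ i))])]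
    ring
  have e4 : ∑ i, t (σ i) * t (σ i) * max (x (σ i) * y (σ i)) (x (σ i) * y (σ i)) ≤ 1 / r := by
    calc ∑ i, t (σ i) * t (σ i) * max (x (σ i) * y (σ i)) (x (σ i) * y (σ i))
        ≤ ∑ i, t (σ i) * (1 / r) := by
          refine Finset.sum_le_sum fun i _ => ?_
          rw [max_self, mul_assoc]
          refine mul_le_mul_of_nonneg_left ?_ (ht _).le
          have h1 : x (σ i) * y (σ i) ≤ 1 := by
            have := hx (σ i); have := hy (σ i); have := hxy (σ i)
            nlinarith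
          have h2 : 0 ≤ x (σ i) * y (σ i) := (mul_pos (hx _) (hy _)).le
          calc t (σ i) * (x (σ i) * y (σ i)) ≤ t (σ i) * 1 :=
                mul_le_mul_of_nonneg_left h1 (ht _).le
            _ ≤ 1 / r := by rw [mul_one]; exact htr _
      _ = 1 / r := by
          rw [← Finset.sum_mul, Equiv.sum_comp σ t, hsum, one_mul]
  rw [e1, e2, e3] at ha
  have e5 : (1 : ℝ) / (2 * r) = (1 / 2) * (1 / r) := by field_simp
  rw [e5] at ha
  nlinarith [e4]

end PE

/-- PIECE E -/
theorem family {I : ℝ × ℝ → ℝ} {κ : ℝ} (hI : RateFn I κ) {a : ℝ} (h0 : 0 < a) (h1 : a < 1 / 4)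
    {ε : ℝ} (hε : 0 < ε) : ∃ (m : ℕ) (t : Fin m → ℝ) (v : Fin m → ℝ × ℝ), (∀ i, 0 < t i) ∧
      ∑ i, t i = 1 ∧ (∀ i, 0 < (v i).1 ∧ 0 < (v i).2 ∧ (v i).1 + (v i).2 < 1) ∧
      (∀ i j, i ≤ j → (v j).2 * (v i).1 ≤ (v i).2 * (v j).1) ∧
      a < ∑ j, ∑ i ∈ univ.filter (· < j), t i * t j * ((v i).2 * (v j).1) ∧
      ∑ i, t i * I (v i) ≤ J I a + ε := by
  classical
  obtain ⟨δ, hδ, hδ1, hJ⟩ := J_cont hI h0 h1 (ε := ε / 4) (by linarith)
  have hJ2 : J I (a + δ) ≤ J I a + ε / 4 :=
    hJ.trans (by linarith [J_mono hI (show a - δ ≤ a by linarith) h1.le])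
  -- the costs are nonempty
  have hne : (costs I (a + δ)).Nonempty := by
    refine ⟨_, 2, fun _ => 1 / 2, ![(1, 0), (0, 1)], fun _ => by norm_num, by simp, ?_, ?_, rfl⟩
    · intro i
      fin_cases i <;> simp
    · simp only [Mf, Fin.sum_univ_two, Matrix.cons_val_zero, Matrix.cons_val_one]
      norm_num
      linarith
  obtain ⟨c, ⟨m, t, v, ht, hts, hv, hM, hc⟩, hcJ⟩ :=
    exists_lt_of_csInf_lt hne (show sInf (costs I (a + δ)) < J I (a + δ) + ε / 4 by
      change J I (a + δ) < _; linarith)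
  have hκ : 0 ≤ κ := (hI.nonneg (0, 0) (by simp)).trans (hI.le (0, 0) (by simp))
  have hm : 0 < m := by
    rcases Nat.eq_zero_or_pos m with rfl | h
    · simp at hts
    · exact h
  have hm' : (0 : ℝ) < m := by exact_mod_cast hm
  -- the parameter
  obtain ⟨e, he0, he1, heδ, heκ⟩ : ∃ e : ℝ, 0 < e ∧ e ≤ 1 / 2 ∧ e ≤ δ / 16 ∧ 2 * e * κ ≤ ε / 2 := by
    refine ⟨min (1 / 2) (min (δ / 16) (ε / (4 * (κ + 1)))), ?_, min_le_left _ _,
      (min_le_right _ _).trans (min_le_left _ _), ?_⟩
    · refine lt_min (by norm_num) (lt_min (by linarith) (by positivity))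
    · have h2 : min (1 / 2) (min (δ / 16) (ε / (4 * (κ + 1)))) ≤ ε / (4 * (κ + 1)) :=
        (min_le_right _ _).trans (min_le_right _ _)
      have h3 : min (1 / 2) (min (δ / 16) (ε / (4 * (κ + 1)))) * (4 * (κ + 1)) ≤ ε := by
        rwa [le_div_iff₀ (by positivity)] at h2
      have h4 : 0 ≤ min (1 / 2) (min (δ / 16) (ε / (4 * (κ + 1)))) :=
        le_min (by norm_num) (le_min (by linarith) (by positivity))
      nlinarith
  obtain ⟨r, hr0, hr⟩ : ∃ r : ℕ, 0 < r ∧ 1 / (2 * (r : ℝ)) < δ / 4 := by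
    obtain ⟨r, hr⟩ := exists_nat_gt (2 / δ)
    have hr0 : (0 : ℝ) < r := lt_trans (by positivity) hr
    refine ⟨r, by exact_mod_cast hr0, ?_⟩
    rw [div_lt_iff₀ (by positivity)]
    rw [div_lt_iff₀ hδ] at hr
    nlinarith
  have hr0' : (0 : ℝ) < r := by exact_mod_cast hr0
  -- the new family
  let t' : Fin m → ℝ := fun i => (1 - e) * t i + e / m
  let x' : Fin m → ℝ := fun i => (1 - e) * |(v i).1| + e / 4
  let y' : Fin m → ℝ := fun i => (1 - e) * |(v i).2| + e / 4
  have ht' : ∀ i, 0 < t' i := fun i => by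
    have := ht i
    have h2 : 0 ≤ (1 - e) * t i := mul_nonneg (by linarith) this
    have h3 : 0 < e / m := by positivity
    simp only [t']; linarith
  have hts' : ∑ i, t' i = 1 := by
    simp only [t', Finset.sum_add_distrib, ← Finset.mul_sum, hts, Finset.sum_const,
      Finset.card_univ, Fintype.card_fin, nsmul_eq_mul]
    field_simp
    ring
  have hx' : ∀ i, 0 < x' i := fun i => by
    have h2 : 0 ≤ (1 - e) * |(v i).1| := mul_nonneg (by linarith) (abs_nonneg _)
    simp only [x']; linarith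
  have hy' : ∀ i, 0 < y' i := fun i => by
    have h2 : 0 ≤ (1 - e) * |(v i).2| := mul_nonneg (by linarith) (abs_nonneg _)
    simp only [y']; linarith
  have hxy' : ∀ i, x' i + y' i < 1 := fun i => by
    have h2 : (1 - e) * (|(v i).1| + |(v i).2|) ≤ (1 - e) * 1 :=
      mul_le_mul_of_nonneg_left (hv i) (by linarith)
    simp only [x', y']; nlinarith
  have hIv : ∀ i, I (x' i, y' i) ≤ I (v i) + e * κ := fun i => by
    have hmem1 : (|(v i).1|, |(v i).2|) ∈ {v : ℝ × ℝ | |v.1| + |v.2| ≤ 1} := by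
      simpa [abs_abs] using hv i
    have hmem2 : ((1 / 4 : ℝ), (1 / 4 : ℝ)) ∈ {v : ℝ × ℝ | |v.1| + |v.2| ≤ 1} := by
      simp only [Set.mem_ofPred_eq]
      rw [abs_of_pos (by norm_num : (0 : ℝ) < 1 / 4)]; norm_num
    have h := hI.conv.2 hmem1 hmem2 (show 0 ≤ 1 - e by linarith) he0.le (by ring)
    have h2 : (1 - e) • (|(v i).1|, |(v i).2|) + e • ((1 / 4 : ℝ), (1 / 4 : ℝ)) = (x' i, y' i) := by
      ext
      · simp [x']; ring
      · simp [y']; ring
    rw [h2, hI.abs (v i) (hv i)] at h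
    have h3 := hI.le _ hmem2
    have h4 := hI.nonneg (v i) (hv i)
    simp only [smul_eq_mul] at h
    have h5 : e * I (1 / 4, 1 / 4) ≤ e * κ := mul_le_mul_of_nonneg_left h3 he0.le
    have h6 : (1 - e) * I (v i) ≤ I (v i) := by nlinarith
    linarith
  have hcost : ∑ i, t' i * I (x' i, y' i) ≤ J I a + ε := by
    calc ∑ i, t' i * I (x' i, y' i) ≤ ∑ i, (t i * I (v i) + (e / m) * κ + t' i * (e * κ)) := by
          refine Finset.sum_le_sum fun i _ => ?_
          have h2 : t' i * I (x' i, y' i) ≤ t' i * (I (v i) + e * κ) :=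
            mul_le_mul_of_nonneg_left (hIv i) (ht' i).le
          have h3 : t' i * I (v i) ≤ t i * I (v i) + (e / m) * κ := by
            have h4 := hI.nonneg (v i) (hv i)
            have h5 := hI.le (v i) (hv i)
            have h6 : (1 - e) * t i * I (v i) ≤ t i * I (v i) := by
              have : 0 ≤ e * (t i * I (v i)) := mul_nonneg he0.le (mul_nonneg (ht i) h4)
              nlinarith
            have h7 : (e / m) * I (v i) ≤ (e / m) * κ :=
              mul_le_mul_of_nonneg_left h5 (by positivity)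
            simp only [t']
            nlinarith
          nlinarith
      _ = ∑ i, t i * I (v i) + e * κ + e * κ := by
          rw [Finset.sum_add_distrib, Finset.sum_add_distrib, ← Finset.sum_mul, ← Finset.sum_mul,
            hts', one_mul, Finset.sum_const, Finset.card_univ, Fintype.card_fin, nsmul_eq_mul]
          field_simp
      _ ≤ J I a + ε := by
          rw [← hc]
          linarith
  have hM' : a + 3 * δ / 4 ≤ (1 / 2) * ∑ i, ∑ j, t' i * t' j * max (x' i * y' j) (x' j * y' i) := by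
    have hterm : ∀ i j, (1 - e) ^ 4 * (t i * t j * max (|(v i).1| * |(v j).2|)
        (|(v j).1| * |(v i).2|)) ≤ t' i * t' j * max (x' i * y' j) (x' j * y' i) := by
      intro i j
      have hxx : ∀ i, (1 - e) * |(v i).1| ≤ x' i := fun i => by simp only [x']; linarith
      have hyy : ∀ i, (1 - e) * |(v i).2| ≤ y' i := fun i => by simp only [y']; linarith
      have htt : ∀ i, (1 - e) * t i ≤ t' i := fun i => by
        have h3 : 0 < e / m := by positivity
        simp only [t']; linarith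
      have he : 0 ≤ 1 - e := by linarith
      have g1 : (1 - e) ^ 2 * max (|(v i).1| * |(v j).2|) (|(v j).1| * |(v i).2|)
          ≤ max (x' i * y' j) (x' j * y' i) := by
        rw [mul_max_of_nonneg _ _ (by positivity)]
        refine max_le_max ?_ ?_
        · calc (1 - e) ^ 2 * (|(v i).1| * |(v j).2|) = ((1 - e) * |(v i).1|) * ((1 - e) * |(v j).2|)
                := by ring
            _ ≤ x' i * y' j := mul_le_mul (hxx i) (hyy j) (by positivity) (hx' i).le
        · calc (1 - e) ^ 2 * (|(v j).1| * |(v i).2|) = ((1 - e) * |(v j).1|) * ((1 - e) * |(v i).2|)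
                := by ring
            _ ≤ x' j * y' i := mul_le_mul (hxx j) (hyy i) (by positivity) (hx' j).le
      have g2 : (1 - e) ^ 2 * (t i * t j) ≤ t' i * t' j := by
        calc (1 - e) ^ 2 * (t i * t j) = ((1 - e) * t i) * ((1 - e) * t j) := by ring
          _ ≤ t' i * t' j := mul_le_mul (htt i) (htt j) (mul_nonneg he (ht j)) (ht' i).le
      calc (1 - e) ^ 4 * (t i * t j * max (|(v i).1| * |(v j).2|) (|(v j).1| * |(v i).2|))
          = ((1 - e) ^ 2 * (t i * t j)) * ((1 - e) ^ 2 * max (|(v i).1| * |(v j).2|)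
            (|(v j).1| * |(v i).2|)) := by ring
        _ ≤ (t' i * t' j) * max (x' i * y' j) (x' j * y' i) :=
            mul_le_mul g2 g1 (by positivity) (mul_pos (ht' i) (ht' j)).le
    have hsum : (1 - e) ^ 4 * Mf t v ≤ (1 / 2) * ∑ i, ∑ j, t' i * t' j *
        max (x' i * y' j) (x' j * y' i) := by
      have : (1 - e) ^ 4 * Mf t v = (1 / 2) * ∑ i, ∑ j, (1 - e) ^ 4 * (t i * t j *
          max (|(v i).1| * |(v j).2|) (|(v j).1| * |(v i).2|)) := by
        simp only [Mf, ← Finset.mul_sum]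
        ring
      rw [this]
      exact mul_le_mul_of_nonneg_left (Finset.sum_le_sum fun i _ => Finset.sum_le_sum fun j _ =>
        hterm i j) (by norm_num)
    refine le_trans ?_ hsum
    have hb : 1 - 4 * e ≤ (1 - e) ^ 4 := by
      have := one_add_mul_le_pow (show (-2 : ℝ) ≤ -e by linarith) 4
      have h5 : (1 + -e) ^ 4 = (1 - e) ^ 4 := by ring
      rw [h5] at this
      push_cast at this
      linarith
    have hp : 0 ≤ (1 - e) ^ 4 := by positivity
    calc a + 3 * δ / 4 ≤ (1 - 4 * e) * (a + δ) := by nlinarith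
      _ ≤ (1 - e) ^ 4 * (a + δ) := mul_le_mul_of_nonneg_right hb (by linarith)
      _ ≤ (1 - e) ^ 4 * Mf t v := mul_le_mul_of_nonneg_left hM hp
  -- repeat each index `r` times
  have key : a + 1 / (2 * (r : ℝ)) < (1 / 2) * ∑ p : Fin m × Fin r, ∑ q : Fin m × Fin r,
      (t' p.1 / r) * (t' q.1 / r) * max (x' p.1 * y' q.1) (x' q.1 * y' p.1) := by
    have : ∑ p : Fin m × Fin r, ∑ q : Fin m × Fin r,
      (t' p.1 / r) * (t' q.1 / r) * max (x' p.1 * y' q.1) (x' q.1 * y' p.1)
        = ∑ i, ∑ j, t' i * t' j * max (x' i * y' j) (x' j * y' i) := by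
      rw [Fintype.sum_prod_type]
      refine Finset.sum_congr rfl fun i _ => ?_
      simp only [Fintype.sum_prod_type, Finset.sum_const, Finset.card_univ, Fintype.card_fin,
        nsmul_eq_mul]
      rw [Finset.mul_sum]
      refine Finset.sum_congr rfl fun j _ => ?_
      field_simp
    rw [this]
    linarith
  have ht1 : ∀ i, t' i ≤ 1 := fun i => by
    rw [← hts']
    exact Finset.single_le_sum (f := t') (fun j _ => (ht' j).le) (Finset.mem_univ i)
  obtain ⟨σ, hσ, hσa⟩ := PE.sorted_family (ι := Fin m × Fin r) (fun p => t' p.1 / r)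
    (fun p => x' p.1) (fun p => y' p.1) (fun p => div_pos (ht' _) hr0') (fun p => hx' _)
    (fun p => hy' _) (fun p => hxy' _) (by
      rw [Fintype.sum_prod_type]
      simp only [Finset.sum_const, Finset.card_univ, Fintype.card_fin, nsmul_eq_mul]
      rw [← hts']
      exact Finset.sum_congr rfl fun i _ => by field_simp) hr0' (fun p => by
        exact div_le_div_of_nonneg_right (ht1 _) hr0'.le) key
  refine ⟨_, fun i => t' (σ i).1 / r, fun i => (x' (σ i).1, y' (σ i).1),
    fun i => div_pos (ht' _) hr0', ?_, fun i => ⟨hx' _, hy' _, hxy' _⟩, hσ, hσa, ?_⟩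
  · rw [Equiv.sum_comp σ (fun p => t' p.1 / r), Fintype.sum_prod_type]
    simp only [Finset.sum_const, Finset.card_univ, Fintype.card_fin, nsmul_eq_mul]
    rw [← hts']
    exact Finset.sum_congr rfl fun i _ => by field_simp
  · rw [Equiv.sum_comp σ (fun p => t' p.1 / r * I (x' p.1, y' p.1)), Fintype.sum_prod_type]
    simp only [Finset.sum_const, Finset.card_univ, Fintype.card_fin, nsmul_eq_mul]
    refine le_trans (le_of_eq ?_) hcost
    exact Finset.sum_congr rfl fun i _ => by field_simp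

end Pool.Agent.K6.H23.WA
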