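import Pool.Agent.K6.H23.WA.Defs3
import Pool.Agent.K6.H23.WA.PieceE
set_option autoImplicit false
namespace Pool.Agent.K6.H23.WA
open Pool.Agent.TH795.EP Pool.Agent.TH795.EP2 Pool.Agent.TH795.SE2 Pool.Agent.TH262.SawL H981 Finset
open Pool.Agent.Y981.L2 (Rate an ln)
open Pool.Agent.K6.H5.JW (ps)

theorem rateFn : RateFn Rate (Real.log mu) where
  conv := Pool.Agent.Y981.L2.convex_rate
  abs := fun v hv => Pool.Agent.K6.H5.JW.rate_abs v hv
  swap := fun v _ => Pool.Agent.K6.H5.JW.rate_sw v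
  zero := Pool.Agent.Y981.L2.R_zero
  nonneg := fun v hv => by
    have h2 := Pool.Agent.Y981.L2.le_rate (v := v) hv (0, 0)
    have h3 : Pool.Agent.Y981.L2.Lam (0, 0) = 0 := Pool.Agent.Y981.L2.psi_zero
    rw [h3] at h2
    simpa using h2
  le := fun v hv => Pool.Agent.Y981.L2.rate_le hv

/-- the sum over pairs of a symmetric function is invariant -/
theorem pair_perm {M : ℕ} (f : Fin M → Fin M → ℕ) (hf : ∀ i j, f i j = f j i)
    (σ : Equiv.Perm (Fin M)) :
    ∑ j, ∑ i ∈ univ.filter (· < j), f (σ i) (σ j) = ∑ j, ∑ i ∈ univ.filter (· < j), f i j := by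
  have key : ∀ g : Fin M → Fin M → ℕ, (∀ i j, g i j = g j i) →
      2 * ∑ j, ∑ i ∈ univ.filter (· < j), g i j + ∑ i, g i i = ∑ j, ∑ i, g i j := by
    intro g hg
    have e1 : ∀ j : Fin M, ∑ i, g i j = ∑ i ∈ univ.filter (· < j), g i j +
        (g j j + ∑ i ∈ univ.filter (j < ·), g i j) := by
      intro j
      have h1 := Finset.sum_filter_add_sum_filter_not univ (fun i => i < j) (fun i => g i j)
      rw [← h1]
      congr 1
      have h2 : (univ.filter fun i : Fin M => ¬ i < j) = insert j (univ.filter (j < ·)) := by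
        ext i
        simp only [mem_filter, mem_univ, true_and, mem_insert, not_lt]
        rw [le_iff_eq_or_lt]
        constructor
        · rintro (h | h)
          · exact Or.inl h.symm
          · exact Or.inr h
        · rintro (h | h)
          · exact Or.inl h.symm
          · exact Or.inr h
      rw [h2, Finset.sum_insert (by simp)]
    have e2 : ∑ j, ∑ i ∈ univ.filter (j < ·), g i j = ∑ j, ∑ i ∈ univ.filter (· < j), g i j := by
      simp only [Finset.sum_filter]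
      rw [Finset.sum_comm]
      refine Finset.sum_congr rfl fun i _ => Finset.sum_congr rfl fun j _ => ?_
      rw [hg]
    simp_rw [e1]
    rw [Finset.sum_add_distrib, Finset.sum_add_distrib, e2]
    ring
  have k1 := key (fun i j => f (σ i) (σ j)) (fun i j => hf _ _)
  have k2 := key f hf
  have e3 : ∑ j, ∑ i, f (σ i) (σ j) = ∑ j, ∑ i, f i j := by
    rw [← Equiv.sum_comp σ (fun j => ∑ i, f i j)]
    refine Finset.sum_congr rfl fun j _ => ?_
    exact Equiv.sum_comp σ (fun i => f i (σ j))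
  have e4 : ∑ i, f (σ i) (σ i) = ∑ i, f i i := Equiv.sum_comp σ (fun i => f i i)
  omega

theorem sum_fin_lt {M : ℕ} (g : ℕ → ℕ → ℕ) :
    ∑ j ∈ range M, ∑ i ∈ range j, g i j = ∑ j : Fin M, ∑ i ∈ univ.filter (· < j), g i j := by
  rw [Finset.sum_range]
  refine Finset.sum_congr rfl fun j _ => ?_
  symm
  refine Finset.sum_bij (fun (i : Fin M) _ => (i : ℕ)) ?_ ?_ ?_ ?_
  · intro i hi
    rw [mem_filter] at hi
    rw [Finset.mem_range]
    exact hi.2
  · intro i _ i' _ h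
    exact Fin.ext h
  · intro i hi
    rw [Finset.mem_range] at hi
    exact ⟨⟨i, hi.trans j.2⟩, by rw [mem_filter]; exact ⟨mem_univ _, hi⟩, rfl⟩
  · intro i _
    rfl

/-- the chain for vectors in any order; the area with the optimal order -/
theorem chain_max (hch : ∃ K : ℝ, 0 ≤ K ∧ ∀ n : ℕ, 2 ≤ n → ∀ M : ℕ, 1 ≤ M → ∀ k l m : ℕ → ℕ,
    (∀ i < M, 1 ≤ k i ∧ 1 ≤ l i ∧ 2 ≤ m i ∧ (k i + l i) % 2 = m i % 2 ∧ k i + l i ≤ m i) →
    (∀ i j, i ≤ j → j < M → l j * k i ≤ l i * k j) → 2 * ∑ i ∈ range M, m i ≤ n →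
    ∃ (X : ℤ) (D : ℤ → ℤ), 2 ≤ X ∧ (∀ x, 0 < x → x < X → 1 ≤ D x ∧ D (X - x) = D x) ∧
      ((4 * ∑ j ∈ range M, ∑ i ∈ range j, l i * k j : ℕ) : ℤ) ≤ ∑ x ∈ Ioo 0 X, 2 * D x ∧
      ∃ m' ≤ 2 * ∑ i ∈ range M, m i, mu ^ m' *
        Real.exp (-(2 * ∑ i ∈ range M, m i * Rate ((k i : ℝ) / m i, (l i : ℝ) / m i) +
          K * M * Real.log n ^ 2)) ≤ ss X D m') :
    ∃ K : ℝ, 0 ≤ K ∧ ∀ n : ℕ, 2 ≤ n → ∀ M : ℕ, 1 ≤ M → ∀ k l m : Fin M → ℕ,
    (∀ i, 1 ≤ k i ∧ 1 ≤ l i ∧ 2 ≤ m i ∧ (k i + l i) % 2 = m i % 2 ∧ k i + l i ≤ m i) →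
    2 * ∑ i, m i ≤ n →
    ∃ (X : ℤ) (D : ℤ → ℤ), 2 ≤ X ∧ (∀ x, 0 < x → x < X → 1 ≤ D x ∧ D (X - x) = D x) ∧
      ((4 * ∑ j, ∑ i ∈ univ.filter (· < j), max (l i * k j) (l j * k i) : ℕ) : ℤ) ≤
        ∑ x ∈ Ioo 0 X, 2 * D x ∧
      ∃ m' ≤ 2 * ∑ i, m i, mu ^ m' *
        Real.exp (-(2 * ∑ i, m i * Rate ((k i : ℝ) / m i, (l i : ℝ) / m i) +
          K * M * Real.log n ^ 2)) ≤ ss X D m' := by
  obtain ⟨K, hK, h⟩ := hch
  refine ⟨K, hK, ?_⟩
  intro n hn M hM k l m hkl hs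
  let σ : Equiv.Perm (Fin M) := Tuple.sort (fun i => -((l i : ℚ) / k i))
  have hmono : Monotone ((fun i => -((l i : ℚ) / k i)) ∘ σ) := Tuple.monotone_sort _
  have hsl : ∀ i j : Fin M, i ≤ j → l (σ j) * k (σ i) ≤ l (σ i) * k (σ j) := by
    intro i j hij
    have h1 := hmono hij
    simp only [Function.comp_apply, neg_le_neg_iff] at h1
    have h2 : (0 : ℚ) < k (σ i) := by exact_mod_cast (hkl (σ i)).1
    have h3 : (0 : ℚ) < k (σ j) := by exact_mod_cast (hkl (σ j)).1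
    rw [div_le_div_iff₀ h3 h2] at h1
    exact_mod_cast h1
  let e : (Fin M → ℕ) → ℕ → ℕ := fun g i => if h : i < M then g (σ ⟨i, h⟩) else 0
  have he : ∀ (g : Fin M → ℕ) (i : Fin M), e g i = g (σ i) := by
    intro g i
    simp [e]
  have hsum : ∀ g : Fin M → ℕ, ∑ i ∈ range M, e g i = ∑ i, g i := by
    intro g
    rw [Finset.sum_range, ← Equiv.sum_comp σ g]
    exact Finset.sum_congr rfl fun i _ => he g i
  obtain ⟨X, D, hX, hD, hA, m', hm', hlow⟩ := h n hn M hM (e k) (e l) (e m)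
    (by
      intro i hi
      have := hkl (σ ⟨i, hi⟩)
      have e1 := he k ⟨i, hi⟩
      have e2 := he l ⟨i, hi⟩
      have e3 := he m ⟨i, hi⟩
      simp only at e1 e2 e3
      rw [e1, e2, e3]
      exact this)
    (by
      intro i j hij hj
      have e1 := he k ⟨i, by omega⟩
      have e2 := he l ⟨i, by omega⟩
      have e3 := he k ⟨j, hj⟩
      have e4 := he l ⟨j, hj⟩
      simp only at e1 e2 e3 e4
      rw [e1, e2, e3, e4]
      exact hsl _ _ hij)
    (by rw [hsum]; exact hs)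
  refine ⟨X, D, hX, hD, le_trans ?_ hA, m', by rw [hsum] at hm'; exact hm', ?_⟩
  · have e1 := sum_fin_lt (M := M) (fun i j => e l i * e k j)
    simp only [he] at e1
    have e2 : ∑ j, ∑ i ∈ univ.filter (· < j), max (l i * k j) (l j * k i) ≤
        ∑ j : Fin M, ∑ i ∈ univ.filter (· < j), l (σ i) * k (σ j) := by
      have h1 := pair_perm (fun i j : Fin M => max (l i * k j) (l j * k i))
        (fun i j => max_comm _ _) σ
      calc ∑ j, ∑ i ∈ univ.filter (· < j), max (l i * k j) (l j * k i)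
          = ∑ j, ∑ i ∈ univ.filter (· < j), max (l (σ i) * k (σ j)) (l (σ j) * k (σ i)) :=
            h1.symm
        _ ≤ _ := by
            refine Finset.sum_le_sum fun j _ => Finset.sum_le_sum fun i hi => ?_
            rw [mem_filter] at hi
            exact max_le le_rfl (hsl i j hi.2.le)
    rw [e1]
    exact_mod_cast Nat.mul_le_mul_left 4 e2
  · have e3 : ∑ i ∈ range M, (e m i : ℝ) * Rate ((e k i : ℝ) / e m i, (e l i : ℝ) / e m i) =
        ∑ i, (m i : ℝ) * Rate ((k i : ℝ) / m i, (l i : ℝ) / m i) := by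
      rw [Finset.sum_range,
        ← Equiv.sum_comp σ (fun i => (m i : ℝ) * Rate ((k i : ℝ) / m i, (l i : ℝ) / m i))]
      exact Finset.sum_congr rfl fun i _ => by rw [he, he, he]
    rw [e3] at hlow
    exact hlow

end Pool.Agent.K6.H23.WA
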