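import Mathlib

/-!
Large deviations of the area of self-avoiding polygons at the scale `n^2`: definitions.

`area m f` is the number of unit cells enclosed by the closed lattice loop `f : ZMod m → ℤ × ℤ`
(odd number of edges above the cell), as in `Pool.Agent.Y981.L2.Area1`.
-/

set_option autoImplicit false

namespace Pool.Agent.K6.H23.WA

open Finset

/-- the `k`-th edge of the loop crosses the column `a` above the cell `(a, b)` -/
def Above (m : ℕ) (f : ZMod m → ℤ × ℤ) (a b : ℤ) (k : ZMod m) : Prop :=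
  (((f k).1 = a ∧ (f (k + 1)).1 = a + 1) ∨ ((f k).1 = a + 1 ∧ (f (k + 1)).1 = a)) ∧ b < (f k).2

/-- the unit cell `[a, a+1] × [b, b+1]` is enclosed by the loop -/
def Encl (m : ℕ) (f : ZMod m → ℤ × ℤ) (c : ℤ × ℤ) : Prop :=
  Odd (Nat.card {k : ZMod m // Above m f c.1 c.2 k})

/-- the number of unit cells enclosed by the loop -/
noncomputable def area (m : ℕ) (f : ZMod m → ℤ × ℤ) : ℕ := Nat.card {c : ℤ × ℤ // Encl m f c}

/-- the steps of `f` are nearest-neighbour steps -/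
def NN (m : ℕ) (f : ZMod m → ℤ × ℤ) : Prop :=
  ∀ i : ZMod m, |(f (i+1)).1 - (f i).1| + |(f (i+1)).2 - (f i).2| = 1

/-- sampling times: `M` times in each period of length `m`, gaps at most `r` -/
structure Samp (m M r : ℕ) (T : ℕ → ℕ) : Prop where
  per : ∀ i, T (i + M) = T i + m
  mono : ∀ i, T i ≤ T (i + 1)
  gap : ∀ i, T (i + 1) ≤ T i + r

/-- horizontal displacement (absolute value) of the loop between two sampling times -/
def hX {m : ℕ} (f : ZMod m → ℤ × ℤ) (T : ℕ → ℕ) (i : ℕ) : ℤ :=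
  |(f ((T (i + 1) : ℕ) : ZMod m)).1 - (f ((T i : ℕ) : ZMod m)).1|

/-- vertical displacement (absolute value) of the loop between two sampling times -/
def hY {m : ℕ} (f : ZMod m → ℤ × ℤ) (T : ℕ → ℕ) (i : ℕ) : ℤ :=
  |(f ((T (i + 1) : ℕ) : ZMod m)).2 - (f ((T i : ℕ) : ZMod m)).2|

/-- abstract properties of the rate function of the end point of the self-avoiding walk -/
structure RateFn (I : ℝ × ℝ → ℝ) (κ : ℝ) : Prop where
  conv : ConvexOn ℝ {v : ℝ × ℝ | |v.1| + |v.2| ≤ 1} I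
  abs : ∀ v : ℝ × ℝ, |v.1| + |v.2| ≤ 1 → I (|v.1|, |v.2|) = I v
  swap : ∀ v : ℝ × ℝ, |v.1| + |v.2| ≤ 1 → I (v.2, v.1) = I v
  zero : I (0, 0) = 0
  nonneg : ∀ v : ℝ × ℝ, |v.1| + |v.2| ≤ 1 → 0 ≤ I v
  le : ∀ v : ℝ × ℝ, |v.1| + |v.2| ≤ 1 → I v ≤ κ

/-- area (in units of `n^2`) of the largest closed curve that can be made from edges `2 t_i v_i`
by reflections and rearrangement -/
noncomputable def Mf {m : ℕ} (t : Fin m → ℝ) (v : Fin m → ℝ × ℝ) : ℝ :=
  (1 / 2) * ∑ i, ∑ j, t i * t j * max (|(v i).1| * |(v j).2|) (|(v j).1| * |(v i).2|)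

/-- the costs of the families with area at least `a` -/
def costs (I : ℝ × ℝ → ℝ) (a : ℝ) : Set ℝ :=
  {c | ∃ (m : ℕ) (t : Fin m → ℝ) (v : Fin m → ℝ × ℝ), (∀ i, 0 ≤ t i) ∧ ∑ i, t i = 1 ∧
    (∀ i, |(v i).1| + |(v i).2| ≤ 1) ∧ a ≤ Mf t v ∧ c = ∑ i, t i * I (v i)}

/-- the rate function of the area -/
noncomputable def J (I : ℝ × ℝ → ℝ) (a : ℝ) : ℝ := sInf (costs I a)

end Pool.Agent.K6.H23.WA
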