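import Pool.Agent.K6.H5.JW.Cor
import Pool.Agent.Y981.L2.Area5
import Pool.Agent.K6.H23.WA.Defs

/-!
Large deviations of the area of self-avoiding polygons: classes of words in regions.
-/

set_option autoImplicit false

namespace Pool.Agent.K6.H23.WA

open Pool.Agent.TH795.EP Pool.Agent.TH795.EP2 Pool.Agent.TH795.SE2 Pool.Agent.TH262.SawL H981 Finset
open Pool.Agent.Y981.L2 (Rate an ln)
open Pool.Agent.K6.H5.JW (ps)

/-- the number of self-avoiding words of length `m` with displacement `z` in the region `R` -/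
noncomputable def wr (R : ℤ × ℤ → Prop) (z : ℤ × ℤ) (m : ℕ) : ℕ :=
  (fs (fun w => Saw w ∧ dx w = z.1 ∧ dy w = z.2 ∧ ∀ i, R (path w i)) m).card

/-- self-avoiding words from `(0, 0)` to `(X, 0)` which, strictly between the abscissae `0` and `X`,
have depth at least `D` -/
def SS (X : ℤ) (D : ℤ → ℤ) (w : List St) : Prop :=
  Saw w ∧ dx w = X ∧ dy w = 0 ∧
    ∀ i, 0 < (path w i).1 → (path w i).1 < X → (path w i).2 ≤ -D (path w i).1

noncomputable def ss (X : ℤ) (D : ℤ → ℤ) (m : ℕ) : ℕ := (fs (SS X D) m).card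

end Pool.Agent.K6.H23.WA
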