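import Pool.Agent.K6.H23.WA.InflT
set_option autoImplicit false
namespace Pool.Agent.K6.H23.WA
open Pool.Agent.TH795.EP Pool.Agent.TH795.EP2 Pool.Agent.TH795.SE2 Pool.Agent.TH262.SawL H981 Finset
open Pool.Agent.Y981.L2 (Rate an ln par loops_finite)
open Filter Topology

/-- the mean of `exp (p area)` -/
noncomputable def Zf (n : ℕ) (p : ℝ) : ℝ :=
  (∑ᶠ f ∈ {f : ZMod (2 * n) → ℤ × ℤ | IsLoop (2 * n) f},
      Real.exp (p * (Pool.Agent.Y981.L2.area (2 * n) f : ℝ))) /
    ({f : ZMod (2 * n) → ℤ × ℤ | IsLoop (2 * n) f}.ncard : ℝ)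

/-- the mean area under the weight `exp (p area)` -/
noncomputable def Af (n : ℕ) (p : ℝ) : ℝ :=
  (∑ᶠ f ∈ {f : ZMod (2 * n) → ℤ × ℤ | IsLoop (2 * n) f},
      (Pool.Agent.Y981.L2.area (2 * n) f : ℝ) *
        Real.exp (p * (Pool.Agent.Y981.L2.area (2 * n) f : ℝ))) /
    (∑ᶠ f ∈ {f : ZMod (2 * n) → ℤ × ℤ | IsLoop (2 * n) f},
      Real.exp (p * (Pool.Agent.Y981.L2.area (2 * n) f : ℝ)))

theorem Zf_eq {n : ℕ} (hn : 1 ≤ n) (p : ℝ) : Zf n p = SZ n hn p / (LP n hn).card := by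
  unfold Zf SZ
  rw [finsum_mem_eq_finite_toFinset_sum _ (loops_finite hn)]
  congr 1
  rw [← Set.ncard_coe_finset]
  congr 1
  congr 1
  ext f
  rw [Finset.mem_coe, mem_LP]
  rfl

theorem Af_eq {n : ℕ} (hn : 1 ≤ n) (p : ℝ) : Af n p = SA n hn p / SZ n hn p := by
  unfold Af SZ SA
  rw [finsum_mem_eq_finite_toFinset_sum _ (loops_finite hn),
    finsum_mem_eq_finite_toFinset_sum _ (loops_finite hn)]
  rfl

theorem Zf_pos {n : ℕ} (hn : 2 ≤ n) (p : ℝ) : 0 < Zf n p := by
  rw [Zf_eq (by omega)]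
  exact div_pos (SZ_pos hn p) (by exact_mod_cast LP_pos hn)

theorem tilt_f {n : ℕ} (hn : 2 ≤ n) (p q : ℝ) :
    (q - p) * Af n p ≤ Real.log (Zf n q) - Real.log (Zf n p) := by
  have h := tilt hn p q
  have hc : (0 : ℝ) < ((LP n (by omega)).card : ℝ) := by exact_mod_cast LP_pos hn
  rw [Af_eq (by omega), Zf_eq (by omega), Zf_eq (by omega), Real.log_div (SZ_pos hn q).ne' hc.ne',
    Real.log_div (SZ_pos hn p).ne' hc.ne']
  linarith

theorem Zf_unif : ∃ K C : ℝ, 0 ≤ K ∧ 0 ≤ C ∧ ∀ n : ℕ, 2 ≤ n → ∀ M : ℕ, 1 ≤ M →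
    16 * M ^ 2 ≤ n → ∀ p : ℝ, 0 ≤ p →
    |Real.log (Zf n p) - 2 * n * Leg Rate (p * n / 2)| ≤
      p * n ^ 2 * (C / M) + K * M * Real.log n ^ 2 := by
  obtain ⟨K, C, hK, hC, h⟩ := infl_unif
  refine ⟨K, C, hK, hC, ?_⟩
  intro n hn M hM hMn p hp
  rw [Zf_eq (by omega)]
  exact h n hn M hM hMn p hp

theorem Zf_tendsto {h : ℝ} (hh : 0 ≤ h) :
    Tendsto (fun n : ℕ => Real.log (Zf n (2 * h / n)) / (2 * n)) atTop (𝓝 (Leg Rate h)) := by
  obtain ⟨K, C, hK, hC, hu⟩ := Zf_unif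
  rw [Metric.tendsto_atTop']
  intro ε hε
  obtain ⟨M, hM⟩ := exists_nat_gt (h * C / (ε / 2) + 1)
  have hM1 : 1 ≤ M := by
    have : (1 : ℝ) < M := by
      have : 0 ≤ h * C / (ε / 2) := by positivity
      linarith
    exact_mod_cast this.le
  have hM0 : (0 : ℝ) < M := by exact_mod_cast hM1
  have hCM : h * (C / M) < ε / 2 := by
    rw [← mul_div_assoc, div_lt_iff₀ hM0]
    have h2 : h * C / (ε / 2) < M := by linarith
    rw [div_lt_iff₀ (by linarith)] at h2
    linarith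
  have hlog : Tendsto (fun n : ℕ => (K * M / 2) * (Real.log n ^ 2 / (n : ℝ))) atTop (𝓝 0) := by
    simpa using log_sq_div.const_mul (K * M / 2)
  obtain ⟨N0, hN0⟩ := eventually_atTop.1
    (hlog.eventually (gt_mem_nhds (show (0 : ℝ) < ε / 2 by linarith)))
  refine ⟨max N0 (16 * M ^ 2), ?_⟩
  intro n hn
  have hn1 : N0 ≤ n := (le_max_left _ _).trans hn.le
  have hn2 : 16 * M ^ 2 ≤ n := (le_max_right _ _).trans hn.le
  have hM2 : 1 ≤ M ^ 2 := Nat.one_le_pow _ _ hM1
  have hn3 : 2 ≤ n := by omega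
  have hnr : (0 : ℝ) < n := by exact_mod_cast (by omega : 0 < n)
  have g1 := hu n hn3 M hM1 hn2 (2 * h / n) (by positivity)
  have e1 : 2 * h / (n : ℝ) * n / 2 = h := by field_simp
  rw [e1] at g1
  have e2 : Real.log (Zf n (2 * h / n)) / (2 * n) - Leg Rate h =
      (Real.log (Zf n (2 * h / n)) - 2 * n * Leg Rate h) / (2 * n) := by field_simp
  rw [Real.dist_eq, e2, abs_div, abs_of_pos (show (0 : ℝ) < 2 * n by positivity),
    div_lt_iff₀ (by positivity)]
  refine lt_of_le_of_lt g1 ?_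
  have herr := hN0 n hn1
  have e3 : 2 * h / (n : ℝ) * n ^ 2 * (C / M) = h * (C / M) * (2 * n) := by field_simp
  have e4 : K * M * Real.log (n : ℝ) ^ 2 = K * M / 2 * (Real.log n ^ 2 / n) * (2 * n) := by
    field_simp
  rw [e3, e4, ← add_mul]
  apply mul_lt_mul_of_pos_right _ (by positivity)
  linarith

/-- limits of derivatives of convex functions -/
theorem slope_lim {A : ℕ → ℝ} {φ : ℝ → ℕ → ℝ} {ψ : ℝ → ℝ} {d : ℝ}
    (h1 : ∀ s : ℝ, |s| < 1 → ∀ᶠ n in atTop, s * A n ≤ φ s n - φ 0 n)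
    (h2 : ∀ s : ℝ, |s| < 1 → Tendsto (φ s) atTop (𝓝 (ψ s))) (hd : HasDerivAt ψ d 0) :
    Tendsto A atTop (𝓝 d) := by
  have hs := hasDerivAt_iff_tendsto_slope.1 hd
  have h3 := h2 0 (by norm_num)
  rw [tendsto_order]
  constructor
  · intro c hc
    have g1 : ∀ᶠ s in 𝓝[<] (0 : ℝ), c < slope ψ 0 s :=
      (hs.mono_left (nhdsWithin_mono _ (fun x hx => ne_of_lt hx))).eventually (lt_mem_nhds hc)
    have g2 : ∀ᶠ s in 𝓝[<] (0 : ℝ), s < 0 := self_mem_nhdsWithin
    have g3 : ∀ᶠ s in 𝓝[<] (0 : ℝ), -1 < s :=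
      nhdsWithin_le_nhds (lt_mem_nhds (by norm_num))
    obtain ⟨s, k1, k2, k3⟩ := (g1.and (g2.and g3)).exists
    have hs1 : |s| < 1 := by rw [abs_lt]; constructor <;> linarith
    rw [slope_def_field, sub_zero] at k1
    have g4 : Tendsto (fun n => (φ s n - φ 0 n) / s) atTop (𝓝 ((ψ s - ψ 0) / s)) :=
      ((h2 s hs1).sub h3).div_const s
    filter_upwards [h1 s hs1, g4.eventually (lt_mem_nhds k1)] with n m1 m2
    refine lt_of_lt_of_le m2 ?_
    rw [div_le_iff_of_neg k2]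
    linarith
  · intro c hc
    have g1 : ∀ᶠ s in 𝓝[>] (0 : ℝ), slope ψ 0 s < c :=
      (hs.mono_left (nhdsWithin_mono _ (fun x hx => ne_of_gt hx))).eventually (gt_mem_nhds hc)
    have g2 : ∀ᶠ s in 𝓝[>] (0 : ℝ), 0 < s := self_mem_nhdsWithin
    have g3 : ∀ᶠ s in 𝓝[>] (0 : ℝ), s < 1 :=
      nhdsWithin_le_nhds (gt_mem_nhds (by norm_num))
    obtain ⟨s, k1, k2, k3⟩ := (g1.and (g2.and g3)).exists
    have hs1 : |s| < 1 := by rw [abs_lt]; constructor <;> linarith
    rw [slope_def_field, sub_zero] at k1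
    have g4 : Tendsto (fun n => (φ s n - φ 0 n) / s) atTop (𝓝 ((ψ s - ψ 0) / s)) :=
      ((h2 s hs1).sub h3).div_const s
    filter_upwards [h1 s hs1, g4.eventually (gt_mem_nhds k1)] with n m1 m2
    refine lt_of_le_of_lt ?_ m2
    rw [le_div_iff₀ k2]
    linarith

theorem Af_tendsto {h d : ℝ} (hh : 0 < h) (hd : HasDerivAt (Leg Rate) d h) :
    Tendsto (fun n : ℕ => Af n (2 * h / n) / (n : ℝ) ^ 2) atTop (𝓝 d) := by
  have h1 : Tendsto (fun n : ℕ => h * (Af n (2 * h / n) / (n : ℝ) ^ 2)) atTop (𝓝 (h * d)) := by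
    apply slope_lim (φ := fun s n => Real.log (Zf n (2 * ((1 + s) * h) / n)) / (2 * n))
      (ψ := fun s => Leg Rate ((1 + s) * h))
    · intro s _
      filter_upwards [eventually_ge_atTop 2] with n hn
      have hn0 : (0 : ℝ) < n := by exact_mod_cast (by omega : 0 < n)
      have g := tilt_f hn (2 * h / n) (2 * ((1 + s) * h) / n)
      simp only [add_zero, one_mul]
      rw [← sub_div, le_div_iff₀ (by positivity)]
      refine le_trans (le_of_eq ?_) g
      field_simp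
      ring
    · intro s hs
      rw [abs_lt] at hs
      exact Zf_tendsto (h := (1 + s) * h) (mul_nonneg (by linarith) hh.le)
    · have e1 : HasDerivAt (fun s : ℝ => (1 + s) * h) h 0 := by
        have := ((hasDerivAt_id (0 : ℝ)).const_add 1).mul_const h
        simpa using this
      have hd' : HasDerivAt (Leg Rate) d ((1 + 0) * h) := by simpa using hd
      have := hd'.comp (0 : ℝ) e1
      rw [mul_comm] at this
      exact this
  have h2 := h1.const_mul (1 / h)
  have e1 : 1 / h * (h * d) = d := by field_simp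
  rw [e1] at h2
  refine h2.congr fun n => ?_
  field_simp

theorem Leg_lip {I : ℝ × ℝ → ℝ} {κ : ℝ} (hI : RateFn I κ) : LipschitzWith 1 (Leg I) := by
  apply LipschitzWith.of_le_add_mul
  intro x y
  refine Leg_le fun a g1 g2 => ?_
  have h1 := le_Leg hI y g1 g2
  have h2 : (x - y) * a ≤ |x - y| * 1 := by
    calc (x - y) * a ≤ |x - y| * a := mul_le_mul_of_nonneg_right (le_abs_self _) g1
      _ ≤ |x - y| * 1 := mul_le_mul_of_nonneg_left (by linarith) (abs_nonneg _)
  rw [Real.dist_eq]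
  simp only [NNReal.coe_one, one_mul]
  linarith

theorem Leg_ae {I : ℝ × ℝ → ℝ} {κ : ℝ} (hI : RateFn I κ) :
    ∀ᵐ h : ℝ, DifferentiableAt ℝ (Leg I) h :=
  (Leg_lip hI).ae_differentiableAt

theorem Leg_asymp {I : ℝ × ℝ → ℝ} {κ : ℝ} (hI : RateFn I κ) {c : ℝ} (hc : 0 < c)
    (hJ : Tendsto (fun a : ℝ => J I a / a ^ 2) (𝓝[>] 0) (𝓝 c)) :
    Tendsto (fun h : ℝ => Leg I h / h ^ 2) (𝓝[>] 0) (𝓝 (1 / (4 * c))) := by
  have hnear : ∀ P : ℝ → Prop, (∀ᶠ a in 𝓝[>] (0 : ℝ), P a) → ∃ ρ > 0, ∀ a, 0 < a → a < ρ → P a := by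
    intro P hP
    obtain ⟨ρ, hρ, h⟩ := mem_nhdsGT_iff_exists_Ioo_subset.1 hP
    exact ⟨ρ, hρ, fun a h1 h2 => h ⟨h1, h2⟩⟩
  rw [tendsto_order]
  constructor
  · intro b hb
    obtain ⟨ε, hε⟩ : ∃ ε, ε = 2 * c ^ 2 * (1 / (4 * c) - b) := ⟨_, rfl⟩
    have hε0 : 0 < ε := by
      rw [hε]
      have : 0 < 1 / (4 * c) - b := by linarith
      positivity
    obtain ⟨ρ, hρ, hup⟩ := hnear _ (hJ.eventually (gt_mem_nhds (show c < c + ε by linarith)))
    have hmem : ∀ᶠ h in 𝓝[>] (0 : ℝ), h < min (2 * c * ρ) (c / 2) :=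
      nhdsWithin_le_nhds (gt_mem_nhds (lt_min (by positivity) (by positivity)))
    filter_upwards [hmem, self_mem_nhdsWithin] with h h1 h2
    have h2' : (0 : ℝ) < h := h2
    have h3 : h / (2 * c) < ρ := by
      rw [div_lt_iff₀ (by positivity)]
      have := h1.trans_le (min_le_left _ _)
      linarith
    have h4 : h / (2 * c) ≤ 1 / 4 := by
      rw [div_le_iff₀ (by positivity)]
      have := h1.trans_le (min_le_right _ _)
      linarith
    have h5 := hup (h / (2 * c)) (by positivity) h3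
    rw [div_lt_iff₀ (by positivity)] at h5
    have h6 := le_Leg hI h (a := h / (2 * c)) (by positivity) h4
    rw [lt_div_iff₀ (by positivity)]
    have e1 : h * (h / (2 * c)) - (c + ε) * (h / (2 * c)) ^ 2 =
        (1 / (4 * c) - ε / (4 * c ^ 2)) * h ^ 2 := by
      field_simp
      ring
    have e2 : 1 / (4 * c) - ε / (4 * c ^ 2) = (1 / (4 * c) + b) / 2 := by
      rw [hε]
      field_simp
      ring
    have e3 : b * h ^ 2 < (1 / (4 * c) + b) / 2 * h ^ 2 := by
      apply mul_lt_mul_of_pos_right _ (by positivity)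
      linarith
    rw [e2] at e1
    linarith
  · intro b hb
    have hb0 : 0 < b := lt_trans (by positivity) hb
    obtain ⟨c', hc'⟩ : ∃ c', c' = (c + 1 / (4 * b)) / 2 := ⟨_, rfl⟩
    have h1b : 1 / (4 * b) < c := by
      have hb2 : 1 / (4 * c) < b := hb
      rw [div_lt_iff₀ (by positivity)] at hb2 ⊢
      linarith
    have hc'0 : 0 < c' := by rw [hc']; positivity
    have hc'1 : c' < c := by rw [hc']; linarith
    have hc'2 : 1 / (4 * c') < b := by
      have : 1 / (4 * b) < c' := by rw [hc']; linarith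
      rw [div_lt_iff₀ (by positivity)] at this ⊢
      linarith
    obtain ⟨ρ, hρ, hlow⟩ := hnear _ (hJ.eventually (lt_mem_nhds hc'1))
    obtain ⟨a0, ha0⟩ : ∃ a0, a0 = min (ρ / 2) (1 / 4) := ⟨_, rfl⟩
    have ha00 : 0 < a0 := by rw [ha0]; exact lt_min (by positivity) (by norm_num)
    have ha01 : a0 < ρ := by
      have : a0 ≤ ρ / 2 := by rw [ha0]; exact min_le_left _ _
      linarith
    have ha02 : a0 ≤ 1 / 4 := by rw [ha0]; exact min_le_right _ _
    have hJ0 : 0 < J I a0 := by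
      have h5 := hlow a0 ha00 ha01
      rw [lt_div_iff₀ (by positivity)] at h5
      exact lt_trans (by positivity) h5
    have hmem : ∀ᶠ h in 𝓝[>] (0 : ℝ), h < J I a0 := nhdsWithin_le_nhds (gt_mem_nhds hJ0)
    filter_upwards [hmem, self_mem_nhdsWithin] with h h1 h2
    have h2' : (0 : ℝ) < h := h2
    have h3 : Leg I h ≤ 1 / (4 * c') * h ^ 2 := by
      refine Leg_le fun a g1 g2 => ?_
      rcases le_or_gt a0 a with g3 | g3
      · have g4 := J_mono hI g3 g2
        have g5 : h * a ≤ h * (1 / 4) := by gcongr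
        have g6 : 0 ≤ 1 / (4 * c') * h ^ 2 := by positivity
        linarith
      · rcases g1.eq_or_lt with g4 | g4
        · rw [← g4, J_of_nonpos hI (le_refl 0)]
          have g6 : 0 ≤ 1 / (4 * c') * h ^ 2 := by positivity
          linarith
        · have g5 := hlow a g4 (g3.trans ha01)
          rw [lt_div_iff₀ (by positivity)] at g5
          have g6 : h * a - c' * a ^ 2 ≤ 1 / (4 * c') * h ^ 2 := by
            rw [one_div_mul_eq_div, le_div_iff₀ (by positivity)]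
            nlinarith [sq_nonneg (h - 2 * c' * a)]
          linarith
    rw [div_lt_iff₀ (by positivity)]
    refine lt_of_le_of_lt h3 ?_
    apply mul_lt_mul_of_pos_right hc'2 (by positivity)

theorem Zf_mod {c : ℝ} (hc : 0 < c)
    (hJ : Tendsto (fun a : ℝ => J Rate a / a ^ 2) (𝓝[>] 0) (𝓝 c))
    {p : ℕ → ℝ} (hp : ∀ᶠ n in atTop, 0 < p n) (h0 : Tendsto (fun n : ℕ => p n * n) atTop (𝓝 0))
    (h1 : Tendsto (fun n : ℕ => (p n) ^ 3 * (n : ℝ) ^ 4 / Real.log n ^ 2) atTop atTop) :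
    Tendsto (fun n : ℕ => Real.log (Zf n (p n)) / ((p n) ^ 2 * (n : ℝ) ^ 3)) atTop
      (𝓝 (1 / (8 * c))) := by
  obtain ⟨K, C, hK, hC, hu⟩ := Zf_unif
  have hL := Leg_asymp rateFn hc hJ
  set x : ℕ → ℝ := fun n => (p n) ^ 3 * (n : ℝ) ^ 4 / Real.log n ^ 2 with hx
  set M : ℕ → ℕ := fun n => ⌈√(x n) / (p n * n)⌉₊ with hM
  have hsx : Tendsto (fun n => √(x n)) atTop atTop := Real.tendsto_sqrt_atTop.comp h1
  have hlogt : Tendsto (fun n : ℕ => Real.log (n : ℝ)) atTop atTop :=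
    Real.tendsto_log_atTop.comp tendsto_natCast_atTop_atTop
  have hb : Tendsto (fun n : ℕ => p n * n / 2) atTop (𝓝[>] 0) := by
    rw [tendsto_nhdsWithin_iff]
    constructor
    · simpa using h0.div_const 2
    · filter_upwards [hp, eventually_ge_atTop 1] with n g1 g2
      have : (0 : ℝ) < n := by exact_mod_cast g2
      show (0 : ℝ) < p n * n / 2
      positivity
  have hL2 : Tendsto (fun n : ℕ => 2 * n * Leg Rate (p n * n / 2) / ((p n) ^ 2 * (n : ℝ) ^ 3)) atTop
      (𝓝 (1 / (8 * c))) := by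
    have h2 := (hL.comp hb).const_mul (1 / 2)
    have e1 : (1 / 2 : ℝ) * (1 / (4 * c)) = 1 / (8 * c) := by ring
    rw [e1] at h2
    refine h2.congr' ?_
    filter_upwards [hp, eventually_ge_atTop 1] with n g1 g2
    have : (0 : ℝ) < n := by exact_mod_cast g2
    simp only [Function.comp_apply]
    field_simp
  have herr : Tendsto (fun n : ℕ => (Real.log (Zf n (p n)) - 2 * n * Leg Rate (p n * n / 2)) /
      ((p n) ^ 2 * (n : ℝ) ^ 3)) atTop (𝓝 0) := by
    refine squeeze_zero_norm' ?_ (hsx.const_div_atTop (C + 2 * K))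
    filter_upwards [hp, hsx.eventually_ge_atTop 1, eventually_ge_atTop 2,
      hlogt.eventually_ge_atTop 8, h0.eventually (gt_mem_nhds (show (0 : ℝ) < 1 by norm_num))]
      with n g1 g2 g3 g4 g5
    have hn0 : (0 : ℝ) < n := by exact_mod_cast (by omega : 0 < n)
    have hl0 : (0 : ℝ) < Real.log n := by linarith
    have hxp : 0 < x n := by
      show 0 < (p n) ^ 3 * (n : ℝ) ^ 4 / Real.log n ^ 2
      positivity
    have hsx0 : 0 < √(x n) := by linarith
    have hss : √(x n) * √(x n) = x n := Real.mul_self_sqrt hxp.le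
    have hpn : 0 < p n * n := by positivity
    have hM1 : √(x n) / (p n * n) ≤ M n := Nat.le_ceil _
    have hM2 : (M n : ℝ) < √(x n) / (p n * n) + 1 := Nat.ceil_lt_add_one (by positivity)
    have hone : 1 ≤ √(x n) / (p n * n) := by
      rw [le_div_iff₀ hpn]
      linarith
    have hM3 : (M n : ℝ) ≤ 2 * (√(x n) / (p n * n)) := by linarith
    have hM4 : 1 ≤ M n := by
      have : (1 : ℝ) ≤ M n := hone.trans hM1
      exact_mod_cast this
    have hM0 : (0 : ℝ) < M n := by exact_mod_cast hM4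
    have hxe : x n * Real.log n ^ 2 = (p n) ^ 3 * (n : ℝ) ^ 4 := by
      show (p n) ^ 3 * (n : ℝ) ^ 4 / Real.log n ^ 2 * Real.log n ^ 2 = _
      field_simp
    have hM5 : 16 * (M n) ^ 2 ≤ n := by
      have h3 : (16 : ℝ) * (M n : ℝ) ^ 2 ≤ n := by
        calc (16 : ℝ) * (M n : ℝ) ^ 2 ≤ 16 * (2 * (√(x n) / (p n * n))) ^ 2 := by gcongr
          _ = 64 * (√(x n) * √(x n) / (p n * n) ^ 2) := by
              field_simp
              ring
          _ = 64 * (x n / (p n * n) ^ 2) := by rw [hss]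
          _ = (p n * n) * (n * (64 / Real.log n ^ 2)) := by
              have e3 : x n = (p n) ^ 3 * (n : ℝ) ^ 4 / Real.log n ^ 2 := rfl
              rw [e3]
              field_simp
          _ ≤ 1 * (n * 1) := by
              gcongr
              rw [div_le_one (by positivity)]
              nlinarith
          _ = n := by ring
      exact_mod_cast h3
    have b1 := hu n g3 (M n) hM4 hM5 (p n) g1.le
    have hD : 0 < (p n) ^ 2 * (n : ℝ) ^ 3 := by positivity
    rw [Real.norm_eq_abs, abs_div, abs_of_pos hD, div_le_iff₀ hD]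
    refine b1.trans ?_
    have e4 : p n * (n : ℝ) ^ 2 * (C / M n) ≤ C / √(x n) * ((p n) ^ 2 * (n : ℝ) ^ 3) := by
      have h5 : C / (M n : ℝ) ≤ C / (√(x n) / (p n * n)) := by gcongr
      calc p n * (n : ℝ) ^ 2 * (C / M n) ≤ p n * (n : ℝ) ^ 2 * (C / (√(x n) / (p n * n))) := by
            gcongr
        _ = _ := by field_simp
    have e5 : K * M n * Real.log (n : ℝ) ^ 2 ≤ 2 * K / √(x n) * ((p n) ^ 2 * (n : ℝ) ^ 3) := by
      calc K * M n * Real.log (n : ℝ) ^ 2 ≤ K * (2 * (√(x n) / (p n * n))) * Real.log n ^ 2 := by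
            gcongr
        _ = 2 * K / √(x n) * ((√(x n) * √(x n)) * Real.log n ^ 2 / (p n * n)) := by field_simp
        _ = 2 * K / √(x n) * ((x n * Real.log n ^ 2) / (p n * n)) := by rw [hss]
        _ = _ := by
            rw [hxe]
            field_simp
    have e6 : (C + 2 * K) / √(x n) * ((p n) ^ 2 * (n : ℝ) ^ 3) =
        C / √(x n) * ((p n) ^ 2 * (n : ℝ) ^ 3) + 2 * K / √(x n) * ((p n) ^ 2 * (n : ℝ) ^ 3) := by
      ring
    rw [e6]
    linarith
  have h3 := hL2.add herr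
  rw [add_zero] at h3
  refine h3.congr fun n => ?_
  rw [← add_div]
  congr 1
  ring

theorem Af_mod {c : ℝ} (hc : 0 < c)
    (hJ : Tendsto (fun a : ℝ => J Rate a / a ^ 2) (𝓝[>] 0) (𝓝 c))
    {p : ℕ → ℝ} (hp : ∀ᶠ n in atTop, 0 < p n) (h0 : Tendsto (fun n : ℕ => p n * n) atTop (𝓝 0))
    (h1 : Tendsto (fun n : ℕ => (p n) ^ 3 * (n : ℝ) ^ 4 / Real.log n ^ 2) atTop atTop) :
    Tendsto (fun n : ℕ => Af n (p n) / (p n * (n : ℝ) ^ 3)) atTop (𝓝 (1 / (4 * c))) := by
  apply slope_lim (φ := fun s n => Real.log (Zf n ((1 + s) * p n)) / ((p n) ^ 2 * (n : ℝ) ^ 3))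
    (ψ := fun s => (1 + s) ^ 2 * (1 / (8 * c)))
  · intro s _
    filter_upwards [eventually_ge_atTop 2, hp] with n hn hpn
    have hn0 : (0 : ℝ) < n := by exact_mod_cast (by omega : 0 < n)
    have g := tilt_f hn (p n) ((1 + s) * p n)
    simp only [add_zero, one_mul]
    rw [← sub_div, le_div_iff₀ (by positivity)]
    refine le_trans (le_of_eq ?_) g
    field_simp
    ring
  · intro s hs
    rw [abs_lt] at hs
    have hs1 : 0 < 1 + s := by linarith
    have h2 := Zf_mod hc hJ (p := fun n => (1 + s) * p n)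
      (hp.mono fun n h => mul_pos hs1 h)
      (by
        have := h0.const_mul (1 + s)
        rw [mul_zero] at this
        refine this.congr fun n => ?_
        ring)
      (by
        have := h1.const_mul_atTop (show 0 < (1 + s) ^ 3 by positivity)
        refine this.congr fun n => ?_
        ring)
    have h3 := h2.const_mul ((1 + s) ^ 2)
    refine h3.congr fun n => ?_
    field_simp
  · have e1 : HasDerivAt (fun s : ℝ => (1 + s) ^ 2 * (1 / (8 * c))) (2 * (1 + 0) * (1 / (8 * c))) 0 := by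
      have := (((hasDerivAt_id (0 : ℝ)).const_add 1).pow 2).mul_const (1 / (8 * c))
      simpa using this
    have e2 : 2 * (1 + 0) * (1 / (8 * c)) = 1 / (4 * c) := by
      field_simp
      norm_num
    rw [e2] at e1
    exact e1

end Pool.Agent.K6.H23.WA
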