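import Pool.Agent.K6.H23.WA.ModT
set_option autoImplicit false
namespace Pool.Agent.K6.H23.WA
open Pool.Agent.TH795.EP Pool.Agent.TH795.EP2 Pool.Agent.TH795.SE2 Pool.Agent.TH262.SawL H981 Finset
open Pool.Agent.Y981.L2 (Rate an ln par loops_finite)
open Filter Topology

theorem J_nonneg {I : ℝ × ℝ → ℝ} {κ : ℝ} (hI : RateFn I κ) (a : ℝ) : 0 ≤ J I a :=
  Real.sInf_nonneg fun _ hc => PieceD.costs_nonneg hI hc

theorem J_of_nonpos {I : ℝ × ℝ → ℝ} {κ : ℝ} (hI : RateFn I κ) {a : ℝ} (ha : a ≤ 0) : J I a = 0 := by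
  apply le_antisymm _ (J_nonneg hI a)
  refine csInf_le (PieceD.costs_bdd hI a) ?_
  refine ⟨1, fun _ => 1, fun _ => (0, 0), fun _ => zero_le_one, by simp, by simp, ?_, ?_⟩
  · refine ha.trans ?_
    simp [Mf]
  · simp only [Finset.univ_unique, Finset.sum_const, Finset.card_singleton, one_smul, one_mul]
    exact hI.zero.symm

/-- the Legendre transform of the rate function of the area -/
noncomputable def Leg (I : ℝ × ℝ → ℝ) (h : ℝ) : ℝ :=
  sSup ((fun a => h * a - J I a) '' Set.Icc (0 : ℝ) (1 / 4))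

theorem Leg_bdd {I : ℝ × ℝ → ℝ} {κ : ℝ} (hI : RateFn I κ) (h : ℝ) :
    BddAbove ((fun a => h * a - J I a) '' Set.Icc (0 : ℝ) (1 / 4)) := by
  refine ⟨|h|, ?_⟩
  rintro _ ⟨a, ⟨ha0, ha1⟩, rfl⟩
  have h1 := J_nonneg hI a
  have h2 : h * a ≤ |h| * 1 := by
    calc h * a ≤ |h| * a := mul_le_mul_of_nonneg_right (le_abs_self h) ha0
      _ ≤ |h| * 1 := mul_le_mul_of_nonneg_left (by linarith) (abs_nonneg h)
  simp only
  linarith

theorem le_Leg {I : ℝ × ℝ → ℝ} {κ : ℝ} (hI : RateFn I κ) (h : ℝ) {a : ℝ} (ha0 : 0 ≤ a)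
    (ha1 : a ≤ 1 / 4) : h * a - J I a ≤ Leg I h :=
  le_csSup (Leg_bdd hI h) ⟨a, ⟨ha0, ha1⟩, rfl⟩

theorem Leg_le {I : ℝ × ℝ → ℝ} {h b : ℝ} (hb : ∀ a : ℝ, 0 ≤ a → a ≤ 1 / 4 → h * a - J I a ≤ b) :
    Leg I h ≤ b := by
  refine csSup_le ⟨_, 0, ⟨le_refl _, by norm_num⟩, rfl⟩ ?_
  rintro _ ⟨a, ⟨ha0, ha1⟩, rfl⟩
  exact hb a ha0 ha1

theorem Leg_nonneg {I : ℝ × ℝ → ℝ} {κ : ℝ} (hI : RateFn I κ) (h : ℝ) : 0 ≤ Leg I h := by
  have h1 := le_Leg hI h (le_refl 0) (by norm_num)
  rw [J_of_nonpos hI (le_refl 0)] at h1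
  linarith

theorem Leg_convex {I : ℝ × ℝ → ℝ} {κ : ℝ} (hI : RateFn I κ) : ConvexOn ℝ Set.univ (Leg I) := by
  refine ⟨convex_univ, ?_⟩
  intro x _ y _ s t hs ht hst
  refine Leg_le fun a ha0 ha1 => ?_
  have h1 := mul_le_mul_of_nonneg_left (le_Leg hI x ha0 ha1) hs
  have h2 := mul_le_mul_of_nonneg_left (le_Leg hI y ha0 ha1) ht
  simp only [smul_eq_mul]
  have e1 : (s * x + t * y) * a - J I a = s * (x * a - J I a) + t * (y * a - J I a) := by
    have : J I a = (s + t) * J I a := by rw [hst, one_mul]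
    linear_combination this * (-1)
  rw [e1]
  linarith

theorem Leg_zero {I : ℝ × ℝ → ℝ} {κ : ℝ} (hI : RateFn I κ) : Leg I 0 = 0 := by
  apply le_antisymm _ (Leg_nonneg hI 0)
  refine Leg_le fun a _ _ => ?_
  have := J_nonneg hI a
  linarith

open Classical in
/-- the loops with `2 n` steps -/
noncomputable def LP (n : ℕ) (hn : 1 ≤ n) : Finset (ZMod (2 * n) → ℤ × ℤ) := (loops_finite hn).toFinset

theorem mem_LP {n : ℕ} (hn : 1 ≤ n) {f : ZMod (2 * n) → ℤ × ℤ} :
    f ∈ LP n hn ↔ IsLoop (2 * n) f := by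
  unfold LP
  rw [Set.Finite.mem_toFinset]
  rfl

open Classical in
theorem par_LP {n : ℕ} (hn : 1 ≤ n) (r : ℝ) : par n r =
    (((LP n hn).filter (fun f => r ≤ (Pool.Agent.Y981.L2.area (2 * n) f : ℝ))).card : ℝ) /
      ((LP n hn).card : ℝ) := by
  unfold Pool.Agent.Y981.L2.par
  rw [← Set.ncard_coe_finset, ← Set.ncard_coe_finset]
  congr 2
  · congr 1
    ext f
    rw [Finset.coe_filter]
    constructor
    · rintro ⟨h1, h2⟩
      exact ⟨(mem_LP hn).2 h1, h2⟩
    · rintro ⟨h1, h2⟩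
      exact ⟨(mem_LP hn).1 h1, h2⟩
  · congr 1
    ext f
    rw [Finset.mem_coe, mem_LP hn]
    rfl

theorem LP_pos {n : ℕ} (hn : 2 ≤ n) : 0 < (LP n (by omega)).card := by
  obtain ⟨K3, hK3, hln⟩ := Pool.Agent.K6.H5.JW.ln_law
  have h1 := (hln n hn).1
  have h2 : ln n = (LP n (by omega)).card := by
    unfold Pool.Agent.Y981.L2.ln
    rw [← Set.ncard_coe_finset]
    congr 1
    ext f
    rw [Finset.mem_coe, mem_LP]
    rfl
  rw [← h2]
  exact_mod_cast h1

/-- the area of a loop -/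
noncomputable def ar (n : ℕ) (f : ZMod (2 * n) → ℤ × ℤ) : ℕ := Pool.Agent.Y981.L2.area (2 * n) f

/-- the sum of `exp (p area)` -/
noncomputable def SZ (n : ℕ) (hn : 1 ≤ n) (p : ℝ) : ℝ := ∑ f ∈ LP n hn, Real.exp (p * ar n f)

/-- the sum of `area exp (p area)` -/
noncomputable def SA (n : ℕ) (hn : 1 ≤ n) (p : ℝ) : ℝ :=
  ∑ f ∈ LP n hn, (ar n f : ℝ) * Real.exp (p * ar n f)

theorem SZ_pos {n : ℕ} (hn : 2 ≤ n) (p : ℝ) : 0 < SZ n (by omega) p := by
  unfold SZ
  apply Finset.sum_pos (fun f _ => Real.exp_pos _)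
  exact Finset.card_pos.1 (LP_pos hn)

theorem infl_unif : ∃ K C : ℝ, 0 ≤ K ∧ 0 ≤ C ∧ ∀ n : ℕ, ∀ hn : 2 ≤ n, ∀ M : ℕ, 1 ≤ M →
    16 * M ^ 2 ≤ n → ∀ p : ℝ, 0 ≤ p →
    |Real.log (SZ n (by omega) p / (LP n (by omega)).card) - 2 * n * Leg Rate (p * n / 2)| ≤
      p * n ^ 2 * (C / M) + K * M * Real.log n ^ 2 := by
  classical
  obtain ⟨K, C, hK, hC, h⟩ := par_unif3
  have hlog2 : 0 < Real.log 2 := Real.log_pos (by norm_num)
  obtain ⟨K', hK'⟩ : ∃ K', K' = 2 / Real.log 2 + Real.log (C + 2) / Real.log 2 ^ 2 := ⟨_, rfl⟩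
  have hlC : 0 ≤ Real.log (C + 2) := Real.log_nonneg (by linarith)
  have hK'0 : 0 ≤ K' := by rw [hK']; positivity
  refine ⟨K + K', C, by positivity, hC, ?_⟩
  intro n hn M hM hMn p hp
  have hn0 : (0 : ℝ) < n := by exact_mod_cast (by omega : 0 < n)
  have hn2 : (2 : ℝ) ≤ n := by exact_mod_cast hn
  have hM0 : (0 : ℝ) < M := by exact_mod_cast hM
  have hM1 : (1 : ℝ) ≤ M := by exact_mod_cast hM
  obtain ⟨δ, hδ⟩ : ∃ δ, δ = C / (M : ℝ) := ⟨_, rfl⟩
  have hδ0 : 0 ≤ δ := by rw [hδ]; positivity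
  have hδC : δ ≤ C := by rw [hδ]; exact div_le_self hC hM1
  obtain ⟨E, hE⟩ : ∃ E, E = K * M * Real.log n ^ 2 := ⟨_, rfl⟩
  have hE0 : 0 ≤ E := by rw [hE]; positivity
  obtain ⟨L, hL⟩ : ∃ L, L = 2 * n * Leg Rate (p * n / 2) := ⟨_, rfl⟩
  have hL0 : 0 ≤ L := by
    rw [hL]
    have := Leg_nonneg rateFn (p * n / 2)
    positivity
  obtain ⟨s, hs⟩ : ∃ s, s = LP n (by omega) := ⟨_, rfl⟩
  obtain ⟨S, hS⟩ : ∃ S : ℝ, S = s.card := ⟨_, rfl⟩
  have hsc : (0 : ℝ) < S := by
    rw [hS, hs]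
    exact_mod_cast LP_pos hn
  have hpar : ∀ r : ℝ, par n r = ((s.filter (fun f => r ≤ (ar n f : ℝ))).card : ℝ) / S := by
    intro r
    rw [hS, hs]
    exact par_LP (by omega) r
  have hmain := fun r hr => h n hn M hM hMn r hr
  rw [← hδ, ← hE] at hmain
  have hpn : ∀ x : ℝ, p * x = 2 * n * ((p * n / 2) * (x / n ^ 2)) := by
    intro x
    field_simp
  -- upper bound
  have hU : SZ n (by omega) p / S ≤ (n : ℝ) ^ 2 * (C + 2) * Real.exp (L + p * n ^ 2 * δ + E) := by
    obtain ⟨N, hN⟩ : ∃ N : ℕ, N = ⌊(n : ℝ) ^ 2 * (1 / 4 + δ)⌋₊ := ⟨_, rfl⟩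
    have hNr : (N : ℝ) ≤ (n : ℝ) ^ 2 * (1 / 4 + δ) := by
      rw [hN]
      exact Nat.floor_le (by positivity)
    have hAN : ∀ f ∈ s, ar n f ≤ N := by
      intro f hf
      have hp1 : 0 < par n (ar n f) := by
        rw [hpar]
        apply div_pos _ hsc
        exact_mod_cast Finset.card_pos.2 ⟨f, by simp [hf]⟩
      have h1 := (hmain (ar n f) (Nat.cast_nonneg _)).1.2 hp1
      rw [hN]
      apply Nat.le_floor
      rw [tsub_le_iff_right, div_le_iff₀ (by positivity)] at h1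
      linarith
    have hterm : ∀ k ∈ range (N + 1), Real.exp (p * k) *
        ((s.filter (fun f => (k : ℝ) ≤ (ar n f : ℝ))).card : ℝ) ≤
        S * Real.exp (L + p * n ^ 2 * δ + E) := by
      intro k _
      have e1 : ((s.filter (fun f => (k : ℝ) ≤ (ar n f : ℝ))).card : ℝ) = S * par n k := by
        rw [hpar, mul_div_cancel₀ _ hsc.ne']
      rw [e1]
      rcases lt_or_ge 0 (par n k) with h0 | h0
      · obtain ⟨⟨g1, g2⟩, -⟩ := hmain k (Nat.cast_nonneg _)
        have g3 := g2 h0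
        have g4 : (p * n / 2) * ((k : ℝ) / n ^ 2 - δ) - J Rate ((k : ℝ) / n ^ 2 - δ) ≤
            Leg Rate (p * n / 2) := by
          rcases le_or_gt 0 ((k : ℝ) / n ^ 2 - δ) with g5 | g5
          · exact le_Leg rateFn _ g5 g3
          · have g6 := Leg_nonneg rateFn (p * n / 2)
            have g7 := J_nonneg rateFn ((k : ℝ) / n ^ 2 - δ)
            have g8 : (p * n / 2) * ((k : ℝ) / n ^ 2 - δ) ≤ 0 :=
              mul_nonpos_of_nonneg_of_nonpos (by positivity) g5.le
            linarith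
        have g9 := mul_le_mul_of_nonneg_left g4 (show (0 : ℝ) ≤ 2 * n by positivity)
        rw [← hL] at g9
        calc Real.exp (p * k) * (S * par n k) = S * (Real.exp (p * k) * par n k) := by ring
          _ ≤ S * (Real.exp (p * k) *
              Real.exp (-(2 * n * J Rate ((k : ℝ) / n ^ 2 - δ) - E))) := by gcongr
          _ ≤ S * Real.exp (L + p * n ^ 2 * δ + E) := by
              rw [← Real.exp_add]
              apply mul_le_mul_of_nonneg_left _ hsc.le
              apply Real.exp_le_exp.2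
              rw [hpn k]
              have e2 : 2 * (n : ℝ) * ((p * n / 2) * ((k : ℝ) / n ^ 2)) =
                  2 * n * ((p * n / 2) * ((k : ℝ) / n ^ 2 - δ)) + p * n ^ 2 * δ := by ring
              rw [e2]
              linarith
      · have h1 : Real.exp (p * k) * (S * par n k) ≤ 0 :=
          mul_nonpos_of_nonneg_of_nonpos (Real.exp_pos _).le
            (mul_nonpos_of_nonneg_of_nonpos hsc.le h0)
        exact h1.trans (by positivity)
    have hsum : SZ n (by omega) p ≤ ∑ k ∈ range (N + 1), Real.exp (p * k) *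
        ((s.filter (fun f => (k : ℝ) ≤ (ar n f : ℝ))).card : ℝ) := by
      unfold SZ
      rw [← hs]
      have e1 : ∀ k ∈ range (N + 1), Real.exp (p * k) *
          ((s.filter (fun f => (k : ℝ) ≤ (ar n f : ℝ))).card : ℝ) =
          ∑ f ∈ s, if (k : ℝ) ≤ (ar n f : ℝ) then Real.exp (p * k) else 0 := by
        intro k _
        rw [← Finset.sum_filter, Finset.sum_const, nsmul_eq_mul, mul_comm]
      rw [Finset.sum_congr rfl e1, Finset.sum_comm]
      refine Finset.sum_le_sum fun f hf => ?_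
      have h1 := Finset.single_le_sum (f := fun k : ℕ =>
        if (k : ℝ) ≤ (ar n f : ℝ) then Real.exp (p * k) else 0) (s := range (N + 1))
        (fun k _ => by positivity) (Finset.mem_range.2 (Nat.lt_succ_of_le (hAN f hf)))
      simpa using h1
    have hsum2 := hsum.trans (Finset.sum_le_sum hterm)
    rw [Finset.sum_const, Finset.card_range, nsmul_eq_mul] at hsum2
    rw [div_le_iff₀ hsc]
    refine hsum2.trans ?_
    have hN1 : (((N + 1 : ℕ) : ℕ) : ℝ) ≤ (n : ℝ) ^ 2 * (C + 2) := by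
      push_cast
      nlinarith
    calc ((N + 1 : ℕ) : ℝ) * (S * Real.exp (L + p * n ^ 2 * δ + E)) ≤
        ((n : ℝ) ^ 2 * (C + 2)) * (S * Real.exp (L + p * n ^ 2 * δ + E)) := by gcongr
      _ = _ := by ring
  -- lower bound
  have hZpos := SZ_pos hn p
  have hLow : L - p * n ^ 2 * δ - E ≤ Real.log (SZ n (by omega) p / S) := by
    have key : ∀ a : ℝ, 0 ≤ a → a ≤ 1 / 4 → (p * n / 2) * a - J Rate a ≤
        (Real.log (SZ n (by omega) p / S) + p * n ^ 2 * δ + E) / (2 * n) := by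
      intro a ha0 ha1
      rw [le_div_iff₀ (by positivity)]
      rcases le_or_gt δ a with h1 | h1
      · obtain ⟨-, g1⟩ := hmain ((n : ℝ) ^ 2 * (a - δ)) (by
          have : 0 ≤ a - δ := by linarith
          positivity)
        have e1 : (n : ℝ) ^ 2 * (a - δ) / n ^ 2 + δ = a := by
          field_simp
          ring
        rw [e1] at g1
        have g2 := g1 ha1
        have g3 : Real.exp (p * ((n : ℝ) ^ 2 * (a - δ))) * par n ((n : ℝ) ^ 2 * (a - δ)) ≤
            SZ n (by omega) p / S := by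
          rw [hpar, ← mul_div_assoc]
          apply div_le_div_of_nonneg_right _ hsc.le
          unfold SZ
          rw [← hs]
          calc Real.exp (p * ((n : ℝ) ^ 2 * (a - δ))) *
              ((s.filter (fun f => (n : ℝ) ^ 2 * (a - δ) ≤ (ar n f : ℝ))).card : ℝ)
              = ∑ f ∈ s.filter (fun f => (n : ℝ) ^ 2 * (a - δ) ≤ (ar n f : ℝ)),
                Real.exp (p * ((n : ℝ) ^ 2 * (a - δ))) := by
                rw [Finset.sum_const, nsmul_eq_mul, mul_comm]
            _ ≤ ∑ f ∈ s.filter (fun f => (n : ℝ) ^ 2 * (a - δ) ≤ (ar n f : ℝ)),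
                Real.exp (p * ar n f) := by
                refine Finset.sum_le_sum fun f hf => ?_
                rw [Finset.mem_filter] at hf
                exact Real.exp_le_exp.2 (mul_le_mul_of_nonneg_left hf.2 hp)
            _ ≤ _ := Finset.sum_le_sum_of_subset_of_nonneg (Finset.filter_subset _ _)
                (fun _ _ _ => (Real.exp_pos _).le)
        have g4 : Real.exp (p * ((n : ℝ) ^ 2 * (a - δ)) + -(2 * n * J Rate a + E)) ≤
            SZ n (by omega) p / S := by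
          rw [Real.exp_add]
          exact (mul_le_mul_of_nonneg_left g2 (Real.exp_pos _).le).trans g3
        have g5 := Real.log_le_log (Real.exp_pos _) g4
        rw [Real.log_exp] at g5
        have e2 : ((p * n / 2) * a - J Rate a) * (2 * n) =
            p * ((n : ℝ) ^ 2 * (a - δ)) + p * n ^ 2 * δ - 2 * n * J Rate a := by ring
        rw [e2]
        linarith
      · have g1 : 1 ≤ SZ n (by omega) p / S := by
          rw [le_div_iff₀ hsc, one_mul, hS]
          unfold SZ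
          rw [← hs]
          calc (s.card : ℝ) = ∑ f ∈ s, (1 : ℝ) := by simp
            _ ≤ _ := Finset.sum_le_sum fun f _ => Real.one_le_exp (by positivity)
        have g2 := Real.log_nonneg g1
        have g3 := J_nonneg rateFn a
        have e2 : ((p * n / 2) * a - J Rate a) * (2 * n) =
            p * n ^ 2 * a - 2 * n * J Rate a := by ring
        rw [e2]
        have g4 : p * (n : ℝ) ^ 2 * a ≤ p * n ^ 2 * δ := by gcongr
        have g5 : 0 ≤ 2 * n * J Rate a := by positivity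
        linarith
    have h1 := Leg_le (I := Rate) (h := p * n / 2) key
    rw [le_div_iff₀ (by positivity)] at h1
    rw [hL]
    linarith
  have hlogn : Real.log 2 ≤ Real.log n := Real.log_le_log (by norm_num) hn2
  have hU2 : Real.log (SZ n (by omega) p / S) ≤ L + p * n ^ 2 * δ + E + K' * Real.log n ^ 2 := by
    have h1 := Real.log_le_log (div_pos hZpos hsc) hU
    rw [Real.log_mul (by positivity) (by positivity), Real.log_exp,
      Real.log_mul (by positivity) (by positivity), Real.log_pow] at h1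
    have h2 : (2 : ℕ) * Real.log (n : ℝ) ≤ 2 / Real.log 2 * Real.log n ^ 2 := by
      push_cast
      rw [div_mul_eq_mul_div, le_div_iff₀ hlog2]
      nlinarith
    have h3 : Real.log (C + 2) ≤ Real.log (C + 2) / Real.log 2 ^ 2 * Real.log n ^ 2 := by
      rw [div_mul_eq_mul_div, le_div_iff₀ (by positivity)]
      have : Real.log 2 ^ 2 ≤ Real.log n ^ 2 := by gcongr
      exact mul_le_mul_of_nonneg_left this hlC
    rw [hK']
    linarith
  rw [← hs, ← hS, ← hL, ← hδ, abs_le]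
  have z1 : K' * Real.log (n : ℝ) ^ 2 ≤ K' * M * Real.log n ^ 2 := by
    have : K' * 1 * Real.log (n : ℝ) ^ 2 ≤ K' * M * Real.log n ^ 2 := by gcongr
    linarith
  have z2 : 0 ≤ K' * M * Real.log (n : ℝ) ^ 2 := by positivity
  have z3 : (K + K') * M * Real.log (n : ℝ) ^ 2 = E + K' * M * Real.log n ^ 2 := by rw [hE]; ring
  rw [z3]
  constructor
  · linarith
  · linarith

/-- Jensen's inequality for the tilted measures -/
theorem tilt {n : ℕ} (hn : 2 ≤ n) (p q : ℝ) : (q - p) * (SA n (by omega) p / SZ n (by omega) p) ≤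
    Real.log (SZ n (by omega) q) - Real.log (SZ n (by omega) p) := by
  have hp := SZ_pos hn p
  have hq := SZ_pos hn q
  obtain ⟨m, hm⟩ : ∃ m, m = (q - p) * (SA n (by omega) p / SZ n (by omega) p) := ⟨_, rfl⟩
  rw [← hm, ← Real.log_div hq.ne' hp.ne', Real.le_log_iff_exp_le (div_pos hq hp), le_div_iff₀ hp]
  have h1 : ∀ f ∈ LP n (by omega), Real.exp m * ((1 - m) * Real.exp (p * ar n f) +
      (q - p) * (ar n f * Real.exp (p * ar n f))) ≤ Real.exp (q * ar n f) := by
    intro f _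
    have h2 := Real.add_one_le_exp ((q - p) * ar n f - m)
    have e1 : Real.exp (q * ar n f) = Real.exp m * Real.exp (p * ar n f) *
        Real.exp ((q - p) * ar n f - m) := by
      rw [← Real.exp_add, ← Real.exp_add]
      congr 1
      ring
    rw [e1]
    have h3 := mul_le_mul_of_nonneg_left h2
      (show 0 ≤ Real.exp m * Real.exp (p * ar n f) by positivity)
    refine le_trans (le_of_eq ?_) h3
    ring
  have h2 := Finset.sum_le_sum h1
  rw [← Finset.mul_sum, Finset.sum_add_distrib, ← Finset.mul_sum, ← Finset.mul_sum] at h2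
  have e3 : (1 - m) * SZ n (by omega) p + (q - p) * SA n (by omega) p = SZ n (by omega) p := by
    have : (q - p) * SA n (by omega) p = m * SZ n (by omega) p := by
      rw [hm]
      field_simp
    rw [this]
    ring
  unfold SZ SA at e3
  rw [e3] at h2
  exact h2

end Pool.Agent.K6.H23.WA
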