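import Pool.Agent.K6.H23.WA.Defs

/-!
Piece D: three facts on the rate function `J` of the area.
-/

set_option autoImplicit false

namespace Pool.Agent.K6.H23.WA

open Finset

namespace PieceD

theorem costs_nonneg {I : ℝ × ℝ → ℝ} {κ : ℝ} (hI : RateFn I κ) {a c : ℝ} (hc : c ∈ costs I a) :
    0 ≤ c := by
  obtain ⟨m, t, v, ht, -, hv, -, rfl⟩ := hc
  exact Finset.sum_nonneg fun i _ => mul_nonneg (ht i) (hI.nonneg _ (hv i))

theorem costs_bdd {I : ℝ × ℝ → ℝ} {κ : ℝ} (hI : RateFn I κ) (a : ℝ) : BddBelow (costs I a) :=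
  ⟨0, fun _ hc => costs_nonneg hI hc⟩

theorem costs_ne (I : ℝ × ℝ → ℝ) {b : ℝ} (hb : b ≤ 1 / 4) : (costs I b).Nonempty := by
  refine ⟨_, 2, ![1 / 2, 1 / 2], ![(1, 0), (0, 1)], ?_, ?_, ?_, ?_, rfl⟩
  · intro i; fin_cases i <;> norm_num
  · norm_num [Fin.sum_univ_two]
  · intro i; fin_cases i <;> norm_num
  · refine hb.trans ?_
    norm_num [Mf, Fin.sum_univ_two]

theorem costs_anti (I : ℝ × ℝ → ℝ) {a b : ℝ} (hab : a ≤ b) : costs I b ⊆ costs I a := by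
  rintro c ⟨m, t, v, ht, h1, hv, h2, h3⟩
  exact ⟨m, t, v, ht, h1, hv, hab.trans h2, h3⟩

/-- `Mf` is at most the product of the mean extents -/
theorem Mf_le {m : ℕ} (t : Fin m → ℝ) (v : Fin m → ℝ × ℝ) (ht : ∀ i, 0 ≤ t i) :
    Mf t v ≤ (∑ i, t i * |(v i).1|) * (∑ i, t i * |(v i).2|) := by
  have h : ∑ i, ∑ j, t i * t j * max (|(v i).1| * |(v j).2|) (|(v j).1| * |(v i).2|)
      ≤ ∑ i, ∑ j, ((t i * |(v i).1|) * (t j * |(v j).2|) + (t i * |(v i).2|) * (t j * |(v j).1|)) := by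
    refine Finset.sum_le_sum fun i _ => Finset.sum_le_sum fun j _ => ?_
    have h1 : max (|(v i).1| * |(v j).2|) (|(v j).1| * |(v i).2|)
        ≤ |(v i).1| * |(v j).2| + |(v j).1| * |(v i).2| := by
      apply max_le
      · have := mul_nonneg (abs_nonneg (v j).1) (abs_nonneg (v i).2)
        linarith
      · have := mul_nonneg (abs_nonneg (v i).1) (abs_nonneg (v j).2)
        linarith
    have h2 := mul_le_mul_of_nonneg_left h1 (mul_nonneg (ht i) (ht j))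
    refine h2.trans (le_of_eq ?_)
    ring
  have h2 : ∑ i, ∑ j, ((t i * |(v i).1|) * (t j * |(v j).2|) + (t i * |(v i).2|) * (t j * |(v j).1|))
      = 2 * ((∑ i, t i * |(v i).1|) * (∑ i, t i * |(v i).2|)) := by
    rw [two_mul]
    nth_rewrite 2 [mul_comm]
    rw [Finset.sum_mul_sum, Finset.sum_mul_sum, ← Finset.sum_add_distrib]
    refine Finset.sum_congr rfl fun i _ => ?_
    rw [← Finset.sum_add_distrib]
  unfold Mf
  linarith

theorem Mf_nonneg {m : ℕ} (t : Fin m → ℝ) (v : Fin m → ℝ × ℝ) (ht : ∀ i, 0 ≤ t i) :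
    0 ≤ Mf t v := by
  unfold Mf
  refine mul_nonneg (by norm_num) (Finset.sum_nonneg fun i _ => Finset.sum_nonneg fun j _ => ?_)
  exact mul_nonneg (mul_nonneg (ht i) (ht j))
    (le_max_of_le_left (mul_nonneg (abs_nonneg _) (abs_nonneg _)))

/-- the family mixed with the two unit vectors -/
theorem Mf_mix {m : ℕ} (t : Fin m → ℝ) (v : Fin m → ℝ × ℝ) (e : ℝ) :
    Mf (Fin.cons (e / 2) (Fin.cons (e / 2) (fun i => (1 - e) * t i) : Fin (m + 1) → ℝ) :
        Fin (m + 2) → ℝ)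
      (Fin.cons (1, 0) (Fin.cons (0, 1) v : Fin (m + 1) → ℝ × ℝ) : Fin (m + 2) → ℝ × ℝ)
      = (1 - e) ^ 2 * Mf t v + e ^ 2 / 4
        + e * (1 - e) / 2 * ((∑ i, t i * |(v i).1|) + (∑ i, t i * |(v i).2|)) := by
  unfold Mf
  simp only [Fin.sum_univ_succ, Fin.cons_zero, Fin.cons_succ, abs_one, abs_zero, mul_zero,
    zero_mul, one_mul, mul_one, max_self, zero_add]
  have ex : ∀ i, max |(v i).1| 0 = |(v i).1| := fun i => max_eq_left (abs_nonneg _)
  have ex' : ∀ i, max 0 |(v i).1| = |(v i).1| := fun i => max_eq_right (abs_nonneg _)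
  have ey : ∀ i, max |(v i).2| 0 = |(v i).2| := fun i => max_eq_left (abs_nonneg _)
  have ey' : ∀ i, max 0 |(v i).2| = |(v i).2| := fun i => max_eq_right (abs_nonneg _)
  have o1 : max (1 : ℝ) 0 = 1 := by norm_num
  have o2 : max (0 : ℝ) 1 = 1 := by norm_num
  simp only [ex, ex', ey, ey', o1, o2]
  have s1 : ∑ j, e / 2 * ((1 - e) * t j) * |(v j).2| = e / 2 * (1 - e) * ∑ j, t j * |(v j).2| := by
    rw [Finset.mul_sum]; exact Finset.sum_congr rfl fun j _ => by ring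
  have s2 : ∑ j, e / 2 * ((1 - e) * t j) * |(v j).1| = e / 2 * (1 - e) * ∑ j, t j * |(v j).1| := by
    rw [Finset.mul_sum]; exact Finset.sum_congr rfl fun j _ => by ring
  have s3 : ∑ i, ((1 - e) * t i * (e / 2) * |(v i).2| + ((1 - e) * t i * (e / 2) * |(v i).1|
      + ∑ j, (1 - e) * t i * ((1 - e) * t j) *
        max (|(v i).1| * |(v j).2|) (|(v j).1| * |(v i).2|)))
      = e / 2 * (1 - e) * (∑ j, t j * |(v j).2|) + (e / 2 * (1 - e) * (∑ j, t j * |(v j).1|)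
        + (1 - e) ^ 2 * ∑ i, ∑ j, t i * t j *
          max (|(v i).1| * |(v j).2|) (|(v j).1| * |(v i).2|)) := by
    rw [Finset.sum_add_distrib, Finset.sum_add_distrib, Finset.mul_sum, Finset.mul_sum,
      Finset.mul_sum]
    congr 1
    · exact Finset.sum_congr rfl fun j _ => by ring
    congr 1
    · exact Finset.sum_congr rfl fun j _ => by ring
    · refine Finset.sum_congr rfl fun i _ => ?_
      rw [Finset.mul_sum]
      exact Finset.sum_congr rfl fun j _ => by ring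
  rw [s1, s2, s3]
  ring

theorem sqrt_le_mix {m : ℕ} (t : Fin m → ℝ) (v : Fin m → ℝ × ℝ) (ht : ∀ i, 0 ≤ t i) {e : ℝ}
    (he0 : 0 ≤ e) (he1 : e ≤ 1) :
    ((1 - e) * √(Mf t v) + e / 2) ^ 2 ≤
      (1 - e) ^ 2 * Mf t v + e ^ 2 / 4
        + e * (1 - e) / 2 * ((∑ i, t i * |(v i).1|) + (∑ i, t i * |(v i).2|)) := by
  obtain ⟨x, hx⟩ : ∃ x, x = ∑ i, t i * |(v i).1| := ⟨_, rfl⟩
  obtain ⟨y, hy⟩ : ∃ y, y = ∑ i, t i * |(v i).2| := ⟨_, rfl⟩
  have hx0 : 0 ≤ x := by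
    rw [hx]; exact Finset.sum_nonneg fun i _ => mul_nonneg (ht i) (abs_nonneg _)
  have hy0 : 0 ≤ y := by
    rw [hy]; exact Finset.sum_nonneg fun i _ => mul_nonneg (ht i) (abs_nonneg _)
  have h1 : Mf t v ≤ x * y := by rw [hx, hy]; exact Mf_le t v ht
  have h0 := Mf_nonneg t v ht
  have h2 : √(Mf t v) ≤ (x + y) / 2 := by
    refine Real.sqrt_le_iff.2 ⟨by positivity, ?_⟩
    nlinarith [sq_nonneg (x - y)]
  rw [← hx, ← hy]
  have h3 : √(Mf t v) ^ 2 = Mf t v := Real.sq_sqrt h0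
  have h4 : 0 ≤ e * (1 - e) := mul_nonneg he0 (by linarith)
  have h5 : e * (1 - e) * √(Mf t v) ≤ e * (1 - e) * ((x + y) / 2) :=
    mul_le_mul_of_nonneg_left h2 h4
  calc ((1 - e) * √(Mf t v) + e / 2) ^ 2
      = (1 - e) ^ 2 * √(Mf t v) ^ 2 + e ^ 2 / 4 + e * (1 - e) * √(Mf t v) := by ring
    _ ≤ _ := by rw [h3]; linarith

end PieceD

open PieceD

/-- PIECE D1 -/
theorem J_mono {I : ℝ × ℝ → ℝ} {κ : ℝ} (hI : RateFn I κ) {a b : ℝ} (hab : a ≤ b) (hb : b ≤ 1 / 4) :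
    J I a ≤ J I b :=
  csInf_le_csInf (costs_bdd hI a) (costs_ne I hb) (costs_anti I hab)

/-- PIECE D2 -/
theorem J_cont {I : ℝ × ℝ → ℝ} {κ : ℝ} (hI : RateFn I κ) {a : ℝ} (h0 : 0 < a) (h1 : a < 1 / 4)
    {ε : ℝ} (hε : 0 < ε) : ∃ δ, 0 < δ ∧ a + δ < 1 / 4 ∧ J I (a + δ) ≤ J I (a - δ) + ε := by
  have e10 : |((1 : ℝ), (0 : ℝ)).1| + |((1 : ℝ), (0 : ℝ)).2| ≤ 1 := by norm_num
  have e01 : |((0 : ℝ), (1 : ℝ)).1| + |((0 : ℝ), (1 : ℝ)).2| ≤ 1 := by norm_num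
  have hκ : 0 ≤ κ := (hI.nonneg _ e10).trans (hI.le _ e10)
  obtain ⟨e, he⟩ : ∃ e, e = min (1 / 2) (ε / (2 * (κ + 1))) := ⟨_, rfl⟩
  have he0 : 0 < e := by rw [he]; exact lt_min (by norm_num) (by positivity)
  have he1 : e ≤ 1 / 2 := by rw [he]; exact min_le_left _ _
  have heκ : e * κ ≤ ε / 2 := by
    have h2 : e ≤ ε / (2 * (κ + 1)) := by rw [he]; exact min_le_right _ _
    calc e * κ ≤ ε / (2 * (κ + 1)) * (κ + 1) :=
          mul_le_mul h2 (by linarith) hκ (by positivity)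
      _ = ε / 2 := by field_simp
  have hsq : √a < 1 / 2 := by
    rw [Real.sqrt_lt' (by norm_num)]
    norm_num; linarith
  have hg : Continuous fun δ : ℝ => (1 - e) * √(a - δ) + e / 2 - √(a + δ) := by fun_prop
  have hg0 : 0 < (1 - e) * √(a - 0) + e / 2 - √(a + 0) := by
    rw [sub_zero, add_zero]
    nlinarith
  have hev : ∀ᶠ δ : ℝ in nhds 0, 0 < (1 - e) * √(a - δ) + e / 2 - √(a + δ) :=
    (hg.tendsto 0).eventually (lt_mem_nhds hg0)
  have hev2 : ∀ᶠ δ : ℝ in nhds 0, δ < min a (1 / 4 - a) :=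
    gt_mem_nhds (lt_min h0 (by linarith))
  obtain ⟨δ, ⟨hδ1, hδ2⟩, hδ3⟩ := (((hev.and hev2).filter_mono nhdsWithin_le_nhds).and
    (self_mem_nhdsWithin : Set.Ioi (0 : ℝ) ∈ nhdsWithin (0 : ℝ) (Set.Ioi 0))).exists
  have hδ0 : 0 < δ := hδ3
  have hδa : δ < a := hδ2.trans_le (min_le_left _ _)
  have hδb : a + δ < 1 / 4 := by
    have := hδ2.trans_le (min_le_right _ _)
    linarith
  refine ⟨δ, hδ0, hδb, ?_⟩
  obtain ⟨c, ⟨m, t, v, ht, hs, hv, hM, rfl⟩, hc⟩ :=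
    exists_lt_of_csInf_lt (costs_ne I (b := a - δ) (by linarith))
      (lt_add_of_pos_right (sInf (costs I (a - δ))) (half_pos hε))
  have hc' : ∑ i, t i * I (v i) < J I (a - δ) + ε / 2 := hc
  have hc0 : 0 ≤ ∑ i, t i * I (v i) :=
    Finset.sum_nonneg fun i _ => mul_nonneg (ht i) (hI.nonneg _ (hv i))
  have hmem : e / 2 * I (1, 0) + (e / 2 * I (0, 1) + ∑ i, (1 - e) * t i * I (v i)) ∈
      costs I (a + δ) := by
    refine ⟨m + 2, Fin.cons (e / 2) (Fin.cons (e / 2) (fun i => (1 - e) * t i)),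
      Fin.cons (1, 0) (Fin.cons (0, 1) v), ?_, ?_, ?_, ?_, ?_⟩
    · intro i
      refine Fin.cases ?_ (fun i => Fin.cases ?_ (fun i => ?_) i) i
      · simp only [Fin.cons_zero]; linarith
      · simp only [Fin.cons_succ, Fin.cons_zero]; linarith
      · simp only [Fin.cons_succ]
        exact mul_nonneg (by linarith) (ht i)
    · simp only [Fin.sum_univ_succ, Fin.cons_zero, Fin.cons_succ]
      rw [← Finset.mul_sum, hs]
      ring
    · intro i
      refine Fin.cases ?_ (fun i => Fin.cases ?_ (fun i => ?_) i) i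
      · simp only [Fin.cons_zero]; norm_num
      · simp only [Fin.cons_succ, Fin.cons_zero]; norm_num
      · simp only [Fin.cons_succ]
        exact hv i
    · rw [Mf_mix]
      refine le_trans ?_ (sqrt_le_mix t v ht he0.le (by linarith))
      have h2 : √(a + δ) ≤ (1 - e) * √(Mf t v) + e / 2 := by
        have h3 : √(a - δ) ≤ √(Mf t v) := Real.sqrt_le_sqrt hM
        have h4 : (1 - e) * √(a - δ) ≤ (1 - e) * √(Mf t v) :=
          mul_le_mul_of_nonneg_left h3 (by linarith)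
        linarith
      calc a + δ = √(a + δ) ^ 2 := (Real.sq_sqrt (by linarith)).symm
        _ ≤ _ := pow_le_pow_left₀ (Real.sqrt_nonneg _) h2 2
    · simp only [Fin.sum_univ_succ, Fin.cons_zero, Fin.cons_succ]
  have h5 : J I (a + δ) ≤ e / 2 * I (1, 0) + (e / 2 * I (0, 1) + ∑ i, (1 - e) * t i * I (v i)) :=
    csInf_le (costs_bdd hI _) hmem
  have h6 : ∑ i, (1 - e) * t i * I (v i) = (1 - e) * ∑ i, t i * I (v i) := by
    rw [Finset.mul_sum]; exact Finset.sum_congr rfl fun i _ => by ring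
  have h7 : e / 2 * I (1, 0) ≤ e / 2 * κ :=
    mul_le_mul_of_nonneg_left (hI.le _ e10) (by linarith)
  have h8 : e / 2 * I (0, 1) ≤ e / 2 * κ :=
    mul_le_mul_of_nonneg_left (hI.le _ e01) (by linarith)
  have h9 : 0 ≤ e * ∑ i, t i * I (v i) := mul_nonneg he0.le hc0
  rw [h6] at h5
  nlinarith

/-- `I (l v) ≤ I v` on the diagonal -/
theorem PieceD.diag_mono {I : ℝ × ℝ → ℝ} {κ : ℝ} (hI : RateFn I κ) {r s : ℝ} (hr : 0 ≤ r)
    (hrs : r ≤ s) (hs : 2 * s ≤ 1) : I (r, r) ≤ I (s, s) := by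
  have hs0 : 0 ≤ s := hr.trans hrs
  have hsm : ((s, s) : ℝ × ℝ) ∈ {v : ℝ × ℝ | |v.1| + |v.2| ≤ 1} := by
    show |s| + |s| ≤ 1
    rw [abs_of_nonneg hs0]; linarith
  have h0m : ((0, 0) : ℝ × ℝ) ∈ {v : ℝ × ℝ | |v.1| + |v.2| ≤ 1} := by
    show |(0 : ℝ)| + |(0 : ℝ)| ≤ 1
    norm_num
  rcases hs0.eq_or_lt with h | h
  · have : r = s := le_antisymm hrs (by rw [← h]; exact hr)
    rw [this]
  · have hl0 : 0 ≤ r / s := by positivity
    have hl1 : r / s ≤ 1 := (div_le_one h).2 hrs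
    have hc := hI.conv.2 hsm h0m hl0 (sub_nonneg.2 hl1) (by ring)
    have he : (r / s) • ((s, s) : ℝ × ℝ) + (1 - r / s) • ((0, 0) : ℝ × ℝ) = (r, r) := by
      ext <;> simp [h.ne']
    rw [he, hI.zero, smul_eq_mul, smul_eq_mul, mul_zero, add_zero] at hc
    have hn := hI.nonneg _ hsm
    nlinarith

/-- PIECE D3 -/
theorem J_sandwich {I : ℝ × ℝ → ℝ} {κ : ℝ} (hI : RateFn I κ) {a : ℝ} (h0 : 0 ≤ a) :
    (a ≤ 1 / 4 → I (√a, √a) ≤ J I a) ∧ (a ≤ 1 / 8 → J I a ≤ I (√(2 * a), √(2 * a))) := by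
  constructor
  · intro ha
    refine le_csInf (costs_ne I ha) ?_
    rintro c ⟨m, t, v, ht, hs, hv, hM, rfl⟩
    obtain ⟨x, hx⟩ : ∃ x, x = ∑ i, t i * |(v i).1| := ⟨_, rfl⟩
    obtain ⟨y, hy⟩ : ∃ y, y = ∑ i, t i * |(v i).2| := ⟨_, rfl⟩
    have hx0 : 0 ≤ x := by
      rw [hx]; exact Finset.sum_nonneg fun i _ => mul_nonneg (ht i) (abs_nonneg _)
    have hy0 : 0 ≤ y := by
      rw [hy]; exact Finset.sum_nonneg fun i _ => mul_nonneg (ht i) (abs_nonneg _)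
    have hxy : x + y ≤ 1 := by
      rw [hx, hy, ← Finset.sum_add_distrib, ← hs]
      refine Finset.sum_le_sum fun i _ => ?_
      have := mul_le_mul_of_nonneg_left (hv i) (ht i)
      linarith
    have h1 : a ≤ x * y := by rw [hx, hy]; exact hM.trans (Mf_le t v ht)
    have hpm : ∀ i ∈ (univ : Finset (Fin m)), ((|(v i).1|, |(v i).2|) : ℝ × ℝ) ∈
        {v : ℝ × ℝ | |v.1| + |v.2| ≤ 1} := by
      intro i _
      show |(|(v i).1|)| + |(|(v i).2|)| ≤ 1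
      rw [abs_abs, abs_abs]
      exact hv i
    have hj := hI.conv.map_sum_le (t := univ) (w := t) (p := fun i => (|(v i).1|, |(v i).2|))
      (fun i _ => ht i) hs hpm
    have hw : ∑ i, t i • ((|(v i).1|, |(v i).2|) : ℝ × ℝ) = (x, y) := by
      rw [hx, hy]
      refine Prod.ext ?_ ?_
      · rw [Prod.fst_sum]; simp
      · rw [Prod.snd_sum]; simp
    have hj' : I (x, y) ≤ ∑ i, t i * I (v i) := by
      rw [hw] at hj
      refine hj.trans (le_of_eq (Finset.sum_congr rfl fun i _ => ?_))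
      rw [smul_eq_mul, hI.abs _ (hv i)]
    refine le_trans ?_ hj'
    have hxym : ((x, y) : ℝ × ℝ) ∈ {v : ℝ × ℝ | |v.1| + |v.2| ≤ 1} := by
      show |x| + |y| ≤ 1
      rw [abs_of_nonneg hx0, abs_of_nonneg hy0]; exact hxy
    have hyxm : ((y, x) : ℝ × ℝ) ∈ {v : ℝ × ℝ | |v.1| + |v.2| ≤ 1} := by
      show |y| + |x| ≤ 1
      rw [abs_of_nonneg hx0, abs_of_nonneg hy0]; linarith
    have hc := hI.conv.2 hxym hyxm (by norm_num : (0 : ℝ) ≤ 1 / 2) (by norm_num : (0 : ℝ) ≤ 1 / 2)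
      (by norm_num)
    have he : (1 / 2 : ℝ) • ((x, y) : ℝ × ℝ) + (1 / 2 : ℝ) • ((y, x) : ℝ × ℝ)
        = ((x + y) / 2, (x + y) / 2) := by
      refine Prod.ext ?_ ?_
      · simp; ring
      · simp; ring
    have hsw : I (y, x) = I (x, y) := hI.swap (x, y) hxym
    rw [he, hsw, smul_eq_mul] at hc
    have hr : √a ≤ (x + y) / 2 := by
      refine Real.sqrt_le_iff.2 ⟨by positivity, ?_⟩
      nlinarith [sq_nonneg (x - y)]
    have hd := PieceD.diag_mono hI (Real.sqrt_nonneg a) hr (by linarith)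
    linarith
  · intro ha
    have hs0 := Real.sqrt_nonneg (2 * a)
    have hs2 : √(2 * a) ^ 2 = 2 * a := Real.sq_sqrt (by linarith)
    have hs1 : √(2 * a) ≤ 1 / 2 := by
      refine Real.sqrt_le_iff.2 ⟨by norm_num, ?_⟩
      norm_num; linarith
    refine csInf_le (costs_bdd hI a) ⟨1, fun _ => 1, fun _ => (√(2 * a), √(2 * a)), ?_, ?_, ?_,
      ?_, ?_⟩
    · intro i; norm_num
    · simp
    · intro i
      show |√(2 * a)| + |√(2 * a)| ≤ 1
      rw [abs_of_nonneg hs0]; linarith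
    · unfold Mf
      simp only [Fin.sum_univ_one, abs_of_nonneg hs0, max_self]
      nlinarith
    · simp

end Pool.Agent.K6.H23.WA
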