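import Pool.Agent.K6.H23.WA.Defs3

/-!
Loop extraction for general regions: two words below and above a region make a polygon that
encloses it.
-/

set_option autoImplicit false

namespace Pool.Agent.K6.H23.WA

open Pool.Agent.TH795.EP Pool.Agent.TH795.EP2 Pool.Agent.TH795.SE2 Pool.Agent.TH262.SawL H981 Finset
open Pool.Agent.Y981.L2 (Rate an ln)
open Pool.Agent.K6.H5.JW (ps)
open Pool.Agent.Y981.L2 (ix ccr ix_shift ccr_ins adj_path bot_of_min path_ge path_zero' path_rot tele
  loop_close card_above' word_ext loops_finite finite_encl Ix one_le_q)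

/-- the closed word encloses the region `0 < a < X`, `-D a ≤ b < D a` -/
def EncR (X : ℤ) (D : ℤ → ℤ) (V : List St) : Prop := ∃ a0 b0 : ℤ, ∀ a b : ℤ, 0 < a → a < X →
  -D a ≤ b → b < D a → (∃ i, (path V i).2 ≤ b0 + b) ∧ Odd (ccr (a0 + a) (b0 + b) V)

/-- the words of the polygons that enclose the region -/
def CR' (X : ℤ) (D : ℤ → ℤ) (V : List St) : Prop :=
  Saw V ∧ |dx V| + |dy V| = 1 ∧ 2 ≤ V.length ∧ EncR X D V

/-- the same with a bottom edge -/
def CR (X : ℤ) (D : ℤ → ℤ) (V : List St) : Prop :=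
  Saw V ∧ |dx V| + |dy V| = 1 ∧ 2 ≤ V.length ∧ EncR X D V ∧ Bot V

noncomputable def rc' (X : ℤ) (D : ℤ → ℤ) (m : ℕ) : ℕ := (fs (CR' X D) m).card

noncomputable def rc (X : ℤ) (D : ℤ → ℤ) (m : ℕ) : ℕ := (fs (CR X D) m).card

/-- edges of the lower word do not cross above the region -/
theorem ix_lowR {X : ℤ} {D : ℤ → ℤ} {p q : ℤ × ℤ} (hp : 0 < p.1 → p.1 < X → p.2 ≤ -D p.1)
    (hq : 0 < q.1 → q.1 < X → q.2 ≤ -D q.1)
    (hadj : |q.1 - p.1| + |q.2 - p.2| = 1) {a b : ℤ} (ha0 : 0 < a) (ha : a < X) (hb : -D a ≤ b) :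
    ix a b p q = 0 := by
  unfold ix
  rw [if_neg]
  rintro ⟨h1, h2⟩
  have h3 : |q.1 - p.1| = 1 := by
    rcases h1 with h | h
    · rw [h.1, h.2]; simp
    · rw [h.1, h.2]; simp
  have h4 : |q.2 - p.2| = 0 := by omega
  rw [abs_eq_zero] at h4
  rcases h1 with h | h
  · have h5 := hp (by omega) (by omega)
    rw [h.1] at h5
    omega
  · have h5 := hq (by omega) (by omega)
    rw [h.2] at h5
    omega

/-- edges of the upper word that cross are above the region -/
theorem ix_highR {X : ℤ} {D : ℤ → ℤ} {p q : ℤ × ℤ} (hp : 0 < p.1 → p.1 < X → D p.1 ≤ p.2)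
    (hq : 0 < q.1 → q.1 < X → D q.1 ≤ q.2)
    (hadj : |q.1 - p.1| + |q.2 - p.2| = 1) {a b : ℤ} (ha0 : 0 < a) (ha : a < X) (hb : b < D a) :
    ((ix a b p q : ℕ) : ZMod 2) =
      (if p.1 ≤ a then 1 else 0) + (if q.1 ≤ a then 1 else 0) := by
  have h3 : |q.1 - p.1| ≤ 1 := by
    have := abs_nonneg (q.2 - p.2)
    omega
  rw [abs_le] at h3
  unfold ix
  by_cases h4 : p.1 ≤ a <;> by_cases h5 : q.1 ≤ a
  · rw [if_neg (by rintro ⟨h1, h2⟩; omega), if_pos h4, if_pos h5]
    decide
  · have e1 : p.1 = a := by omega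
    have e2 : q.1 = a + 1 := by omega
    have e5 := hp (by omega) (by omega)
    rw [e1] at e5
    rw [if_pos ⟨Or.inl ⟨e1, e2⟩, by omega⟩, if_pos h4, if_neg h5]
    decide
  · have e1 : p.1 = a + 1 := by omega
    have e2 : q.1 = a := by omega
    have e3 : |q.1 - p.1| = 1 := by rw [e1, e2]; simp
    have e4 : |q.2 - p.2| = 0 := by omega
    rw [abs_eq_zero] at e4
    have e5 := hq (by omega) (by omega)
    rw [e2] at e5
    rw [if_pos ⟨Or.inr ⟨e1, e2⟩, by omega⟩, if_neg h4, if_pos h5]
    decide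
  · rw [if_neg (by rintro ⟨h1, h2⟩; omega), if_neg h4, if_neg h5]
    decide

/-- the loop made of the two words -/
theorem loop_existsR {X : ℤ} {D : ℤ → ℤ} (hX : 2 ≤ X)
    (hD : ∀ x, 0 < x → x < X → 1 ≤ D x ∧ D (X - x) = D x) {u v : List St}
    (hu : SS X D u) (hv : SS X D v) :
    ∃ j1 m2 j3 m1, j1 + m2 ≤ u.length ∧ j3 + m1 ≤ v.length ∧
      CR' X D (ng (sg ((v.drop j3).take m1)) ++ (u.drop j1).take m2) := by
  classical
  obtain ⟨hu1, hux, huy, hur⟩ := hu
  obtain ⟨hv1, hvx, hvy, hvr⟩ := hv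
  have hP : ∃ i, X ≤ (path u i).1 ∧
      ∃ j, j ≤ v.length ∧ path u i = (X - (path v j).1, -(path v j).2) := by
    refine ⟨u.length, ?_, 0, Nat.zero_le _, ?_⟩
    · rw [path_len, hux]
    · rw [path_len, hux, huy, path_zero']; simp
  obtain ⟨i2, hi2⟩ : ∃ i2, i2 = Nat.find hP := ⟨_, rfl⟩
  have hspec := Nat.find_spec hP
  rw [← hi2] at hspec
  obtain ⟨n1, j3, hj3, hj3e⟩ := hspec
  have hmin2 : ∀ i, X ≤ (path u i).1 →
      (∃ j, j ≤ v.length ∧ path u i = (X - (path v j).1, -(path v j).2)) →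
      i2 ≤ i := by
    intro i g1 g3
    rw [hi2]
    exact Nat.find_min' hP ⟨g1, g3⟩
  have hi2l : i2 ≤ u.length := by
    apply hmin2
    · rw [path_len, hux]
    · exact ⟨0, Nat.zero_le _, by rw [path_len, hux, huy, path_zero']; simp⟩
  have hj3l : j3 < v.length := by
    rcases Nat.lt_or_ge j3 v.length with h | h
    · exact h
    · exfalso
      have h1 : j3 = v.length := le_antisymm hj3 h
      rw [h1, path_len, hvx, hvy] at hj3e
      have h2 := congrArg Prod.fst hj3e
      simp only at h2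
      omega
  have hQ : ∃ j, j3 < j ∧ j ≤ v.length ∧
      ∃ i, i ≤ i2 ∧ path u i = (X - (path v j).1, -(path v j).2) :=
    ⟨v.length, hj3l, le_rfl, 0, Nat.zero_le _, by rw [path_zero', path_len, hvx, hvy]; simp⟩
  obtain ⟨i4, hi4⟩ : ∃ i4, i4 = Nat.find hQ := ⟨_, rfl⟩
  have hspec4 := Nat.find_spec hQ
  rw [← hi4] at hspec4
  obtain ⟨q1, q2, j1, hj1, hj1e⟩ := hspec4
  have hmin4 : ∀ j, j3 < j → j < i4 → ∀ i ≤ i2,
      path u i ≠ (X - (path v j).1, -(path v j).2) := by
    intro j g1 g2 i g3 g4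
    rw [hi4] at g2
    exact Nat.find_min hQ g2 ⟨g1, by omega, i, g3, g4⟩
  -- the second common point is on the left
  have hnear : (path u j1).1 ≤ 0 := by
    have e1 := congrArg Prod.fst hj1e
    have e2 := congrArg Prod.snd hj1e
    simp only at e1 e2
    by_contra hcon
    push Not at hcon
    rcases lt_or_ge (path u j1).1 X with h | h
    · have g1 := hur j1 hcon h
      have g2 := hvr i4 (by omega) (by omega)
      have g3 : (path v i4).1 = X - (path u j1).1 := by omega
      obtain ⟨g4, g5⟩ := hD _ hcon h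
      rw [g3, g5] at g2
      omega
    · have h3 := hmin2 j1 h ⟨i4, q2, hj1e⟩
      have h4 : j1 = i2 := le_antisymm hj1 h3
      rw [h4] at e1 e2
      have e3 := congrArg Prod.fst hj3e
      have e4 := congrArg Prod.snd hj3e
      simp only at e3 e4
      exact saw_iff'.1 hv1 j3 i4 q1 q2 (Prod.ext (by omega) (by omega))
  have hj12 : j1 + 2 ≤ i2 := by
    by_contra hcon
    rcases Nat.lt_or_ge j1 i2 with h | h
    · have h1 : i2 = j1 + 1 := by omega
      have h2 := adj_path (w := u) (i := j1) (by omega)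
      rw [← h1] at h2
      have h3 := le_abs_self ((path u i2).1 - (path u j1).1)
      have h4 := abs_nonneg ((path u i2).2 - (path u j1).2)
      omega
    · have h1 : i2 = j1 := le_antisymm h hj1
      rw [h1] at n1
      omega
  obtain ⟨m2, hm2⟩ : ∃ m2, m2 = i2 - 1 - j1 := ⟨_, rfl⟩
  obtain ⟨m1, hm1⟩ : ∃ m1, m1 = i4 - j3 := ⟨_, rfl⟩
  refine ⟨j1, m2, j3, m1, by omega, by omega, ?_⟩
  obtain ⟨P1, hP1⟩ : ∃ P1, P1 = ng (sg ((v.drop j3).take m1)) := ⟨_, rfl⟩
  obtain ⟨P2, hP2⟩ : ∃ P2, P2 = (u.drop j1).take m2 := ⟨_, rfl⟩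
  rw [← hP1, ← hP2]
  have hl1 : P1.length = m1 := by
    rw [hP1, length_ng, length_sg, List.length_take, List.length_drop]; omega
  have hl2 : P2.length = m2 := by
    rw [hP2, List.length_take, List.length_drop]; omega
  obtain ⟨z, hz⟩ : ∃ z, z = path u i2 := ⟨_, rfl⟩
  rw [← hz] at n1 hj3e
  have hz1 := congrArg Prod.fst hj3e
  have hz2 := congrArg Prod.snd hj3e
  simp only at hz1 hz2
  -- positions
  have pos1 : ∀ s ≤ m1, path (P1 ++ P2) s =
      (X - (path v (j3 + s)).1 - z.1, -(path v (j3 + s)).2 - z.2) := by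
    intro s hs
    rw [path_append_left (by omega), hP1, path_rot, path_take hs]
    have h1 := path_drop v j3 s
    rw [h1]
    apply Prod.ext
    · simp only; omega
    · simp only; omega
  have hd1 : dx P1 = (path u j1).1 - z.1 ∧ dy P1 = (path u j1).2 - z.2 := by
    have h1 := pos1 m1 le_rfl
    rw [path_append_left (by omega), ← hl1, path_len, hl1] at h1
    have e1 := congrArg Prod.fst hj1e
    have e2 := congrArg Prod.snd hj1e
    simp only at e1 e2
    have h2 := congrArg Prod.fst h1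
    have h3 := congrArg Prod.snd h1
    simp only at h2 h3
    rw [show j3 + m1 = i4 by omega] at h2 h3
    omega
  have pos2 : ∀ t ≤ m2, path (P1 ++ P2) (m1 + t) =
      ((path u (j1 + t)).1 - z.1, (path u (j1 + t)).2 - z.2) := by
    intro t ht
    have h1 := path_append_right P1 P2 t
    rw [hl1] at h1
    rw [h1, hP2, path_take ht]
    have h2 := path_drop u j1 t
    rw [h2]
    apply Prod.ext
    · simp only; omega
    · simp only; omega
  have hlen : (P1 ++ P2).length = m1 + m2 := by rw [List.length_append, hl1, hl2]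
  have hend : (dx (P1 ++ P2), dy (P1 ++ P2)) =
      ((path u (i2 - 1)).1 - z.1, (path u (i2 - 1)).2 - z.2) := by
    have h1 := pos2 m2 le_rfl
    rw [← hlen, path_len, show j1 + m2 = i2 - 1 by omega] at h1
    exact h1
  have hadj := adj_path (w := u) (i := i2 - 1) (by omega)
  rw [show i2 - 1 + 1 = i2 by omega, ← hz] at hadj
  have hsaw : Saw (P1 ++ P2) := by
    rw [saw_iff']
    intro i j hij hj
    rw [hlen] at hj
    rcases le_or_gt j m1 with h1 | h1
    · rw [pos1 i (by omega), pos1 j h1]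
      intro he
      obtain ⟨e1, e2⟩ := Prod.mk.inj he
      exact saw_iff'.1 hv1 (j3 + i) (j3 + j) (by omega) (by omega) (Prod.ext (by omega) (by omega))
    · obtain ⟨t, rfl⟩ : ∃ t, j = m1 + t := ⟨j - m1, by omega⟩
      rw [pos2 t (by omega)]
      rcases Nat.lt_or_ge i m1 with h2 | h2
      · rw [pos1 i h2.le]
        intro he
        obtain ⟨e1, e2⟩ := Prod.mk.inj he
        rcases Nat.eq_zero_or_pos i with h3 | h3
        · subst h3
          rw [add_zero] at e1 e2
          exact saw_iff'.1 hu1 (j1 + t) i2 (by omega) hi2l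
            (Prod.ext (by rw [← hz]; omega) (by rw [← hz]; omega))
        · exact hmin4 (j3 + i) (by omega) (by omega) (j1 + t) (by omega)
            (Prod.ext (by simp only; omega) (by simp only; omega))
      · obtain ⟨s, rfl⟩ : ∃ s, i = m1 + s := ⟨i - m1, by omega⟩
        rw [pos2 s (by omega)]
        intro he
        obtain ⟨e1, e2⟩ := Prod.mk.inj he
        exact saw_iff'.1 hu1 (j1 + s) (j1 + t) (by omega) (by omega)
          (Prod.ext (by omega) (by omega))
  refine ⟨hsaw, ?_, by omega, ?_⟩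
  · have e1 := congrArg Prod.fst hend
    have e2 := congrArg Prod.snd hend
    simp only at e1 e2
    rw [e1, e2]
    have h1 : |(path u (i2 - 1)).1 - z.1| = |z.1 - (path u (i2 - 1)).1| := abs_sub_comm _ _
    have h2 : |(path u (i2 - 1)).2 - z.2| = |z.2 - (path u (i2 - 1)).2| := abs_sub_comm _ _
    rw [h1, h2]
    exact hadj
  · refine ⟨-z.1, -z.2, ?_⟩
    intro a b ha0 ha1 hb0 hb1
    constructor
    · -- the lower word has a point with abscissa `a`
      have hT : ∃ t, a ≤ (path u (j1 + t)).1 := by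
        refine ⟨m2, ?_⟩
        rw [show j1 + m2 = i2 - 1 by omega]
        have h3 := le_abs_self (z.1 - (path u (i2 - 1)).1)
        have h4 := abs_nonneg (z.2 - (path u (i2 - 1)).2)
        omega
      have hle : Nat.find hT ≤ m2 := by
        apply Nat.find_min'
        rw [show j1 + m2 = i2 - 1 by omega]
        have h3 := le_abs_self (z.1 - (path u (i2 - 1)).1)
        have h4 := abs_nonneg (z.2 - (path u (i2 - 1)).2)
        omega
      obtain ⟨t, ht⟩ : ∃ t, t = Nat.find hT := ⟨_, rfl⟩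
      have hs := Nat.find_spec hT
      rw [← ht] at hle hs
      have ht0 : 0 < t := by
        rcases Nat.eq_zero_or_pos t with h | h
        · rw [h, add_zero] at hs
          omega
        · exact h
      have hm : ¬ a ≤ (path u (j1 + (t - 1))).1 := by
        apply Nat.find_min hT
        omega
      have h2 := adj_path (w := u) (i := j1 + (t - 1)) (by omega)
      rw [show j1 + (t - 1) + 1 = j1 + t by omega] at h2
      have h3 := le_abs_self ((path u (j1 + t)).1 - (path u (j1 + (t - 1))).1)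
      have h4 := abs_nonneg ((path u (j1 + t)).2 - (path u (j1 + (t - 1))).2)
      have h5 : (path u (j1 + t)).1 = a := by omega
      have h6 := hur (j1 + t) (by omega) (by omega)
      rw [h5] at h6
      refine ⟨m1 + t, ?_⟩
      rw [pos2 t hle]
      simp only
      omega
    · unfold ccr
      rw [hlen, Finset.sum_range_add]
      have hS2 : ∑ t ∈ range m2, ix (-z.1 + a) (-z.2 + b) (path (P1 ++ P2) (m1 + t))
          (path (P1 ++ P2) (m1 + t + 1)) = 0 := by
        apply Finset.sum_eq_zero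
        intro t ht
        rw [Finset.mem_range] at ht
        rw [pos2 t ht.le, show m1 + t + 1 = m1 + (t + 1) by ring, pos2 (t + 1) (by omega), ix_shift]
        exact ix_lowR (hur _) (hur _) (adj_path (w := u) (i := j1 + t) (by omega)) ha0 ha1 hb0
      have hS3 : ix (-z.1 + a) (-z.2 + b) (path (P1 ++ P2) (m1 + m2)) (0, 0) = 0 := by
        rw [pos2 m2 le_rfl, show j1 + m2 = i2 - 1 by omega]
        have h0 : ((0, 0) : ℤ × ℤ) = (z.1 - z.1, z.2 - z.2) := by simp
        rw [h0, ix_shift]
        apply ix_lowR (hur _) _ hadj ha0 ha1 hb0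
        rw [hz]
        exact hur _
      rw [hS2, hS3, add_zero, add_zero, ← ZMod.natCast_eq_one_iff_odd]
      have hS1 : ((∑ s ∈ range m1, ix (-z.1 + a) (-z.2 + b) (path (P1 ++ P2) s)
          (path (P1 ++ P2) (s + 1)) : ℕ) : ZMod 2) =
          ∑ s ∈ range m1, ((if X - (path v (j3 + s)).1 ≤ a then 1 else 0 : ZMod 2) +
            (if X - (path v (j3 + (s + 1))).1 ≤ a then 1 else 0)) := by
        rw [Nat.cast_sum]
        apply Finset.sum_congr rfl
        intro s hs
        rw [Finset.mem_range] at hs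
        rw [pos1 s hs.le, pos1 (s + 1) (by omega)]
        have h1 := ix_shift a b z (X - (path v (j3 + s)).1, -(path v (j3 + s)).2)
          (X - (path v (j3 + (s + 1))).1, -(path v (j3 + (s + 1))).2)
        simp only at h1
        rw [h1]
        have h2 := adj_path (w := v) (i := j3 + s) (by omega)
        have hup : ∀ i, 0 < X - (path v i).1 → X - (path v i).1 < X →
            D (X - (path v i).1) ≤ -(path v i).2 := by
          intro i g1 g2
          have g3 := hvr i (by omega) (by omega)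
          rw [(hD (path v i).1 (by omega) (by omega)).2]
          omega
        apply ix_highR (X := X) (D := D) (hup _) (hup _) _ ha0 ha1 hb1
        simp only
        rw [show j3 + (s + 1) = j3 + s + 1 by ring]
        have e1 : X - (path v (j3 + s + 1)).1 - (X - (path v (j3 + s)).1) =
          -((path v (j3 + s + 1)).1 - (path v (j3 + s)).1) := by ring
        have e2 : -(path v (j3 + s + 1)).2 - (-(path v (j3 + s)).2) =
          -((path v (j3 + s + 1)).2 - (path v (j3 + s)).2) := by ring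
        rw [e1, e2, abs_neg, abs_neg]
        exact h2
      rw [hS1, tele (fun s => if X - (path v (j3 + s)).1 ≤ a then 1 else 0) m1]
      simp only [add_zero]
      have e1 := congrArg Prod.fst hj1e
      simp only at e1
      rw [if_neg (by omega), if_pos (by rw [show j3 + m1 = i4 by omega]; omega)]
      decide

/-! ### rotation of a closed word by one step -/

/-- the closing step -/
def cl (V : List St) : St :=
  if dx V = 1 then .W else if dx V = -1 then .E else if dy V = 1 then .S else .N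

theorem cl_spec {V : List St} (hadj : |dx V| + |dy V| = 1) :
    (cl V).x = -dx V ∧ (cl V).y = -dy V := by
  have h1 : (dx V = 1 ∧ dy V = 0) ∨ (dx V = -1 ∧ dy V = 0) ∨ (dx V = 0 ∧ dy V = 1) ∨
      (dx V = 0 ∧ dy V = -1) := by
    rcases abs_cases (dx V) with h | h <;> rcases abs_cases (dy V) with h' | h' <;> omega
  unfold cl
  rcases h1 with h | h | h | h
  · rw [if_pos h.1, h.1, h.2]; simp
  · rw [if_neg (by omega), if_pos h.1, h.1, h.2]; simp
  · rw [if_neg (by omega), if_neg (by omega), if_pos h.2, h.1, h.2]; simp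
  · rw [if_neg (by omega), if_neg (by omega), if_neg (by omega), h.1, h.2]; simp

theorem st_ext {s t : St} (hx : s.x = t.x) (hy : s.y = t.y) : s = t := by
  cases s <;> cases t <;> simp_all

/-- rotation by one step -/
def rt (V : List St) : List St := V.drop 1 ++ [cl V]

theorem length_rt {V : List St} (hl : 1 ≤ V.length) : (rt V).length = V.length := by
  unfold rt
  rw [List.length_append, List.length_drop, List.length_singleton]
  omega

theorem path_rt {V : List St} {i : ℕ} (hi : i + 1 ≤ V.length) :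
    path (rt V) i = ((path V (i + 1)).1 - (path V 1).1, (path V (i + 1)).2 - (path V 1).2) := by
  unfold rt
  rw [path_append_left (by rw [List.length_drop]; omega), add_comm i 1, path_drop V 1 i]
  apply Prod.ext
  · simp only; omega
  · simp only; omega

theorem path_rt_last {V : List St} (hl : 1 ≤ V.length) (hadj : |dx V| + |dy V| = 1) :
    path (rt V) V.length = (0 - (path V 1).1, 0 - (path V 1).2) := by
  have h1 : path (rt V) V.length = path (rt V) (rt V).length := by rw [length_rt hl]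
  rw [h1, path_len]
  obtain ⟨h2, h3⟩ := cl_spec hadj
  have h4 : (dx V, dy V) = path V V.length := (path_len V).symm
  have h5 := path_drop V 1 (V.length - 1)
  rw [show 1 + (V.length - 1) = V.length by omega, ← h4] at h5
  have h6 : path (V.drop 1) (V.length - 1) = (dx (V.drop 1), dy (V.drop 1)) := by
    rw [← path_len, List.length_drop]
  rw [h6] at h5
  have h7 := congrArg Prod.fst h5
  have h8 := congrArg Prod.snd h5
  simp only at h7 h8
  unfold rt
  rw [dx_append, dy_append]
  simp only [dx_cons, dx_nil, dy_cons, dy_nil, add_zero, h2, h3]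
  apply Prod.ext
  · simp only; omega
  · simp only; omega

theorem disp_rt {V : List St} (hl : 1 ≤ V.length) (hadj : |dx V| + |dy V| = 1) :
    dx (rt V) = -(path V 1).1 ∧ dy (rt V) = -(path V 1).2 := by
  have h1 := path_rt_last hl hadj
  have h2 : path (rt V) V.length = path (rt V) (rt V).length := by rw [length_rt hl]
  rw [h2, path_len] at h1
  have h7 := congrArg Prod.fst h1
  have h8 := congrArg Prod.snd h1
  simp only at h7 h8
  omega

theorem adj_rt {V : List St} (hl : 1 ≤ V.length) (hadj : |dx V| + |dy V| = 1) :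
    |dx (rt V)| + |dy (rt V)| = 1 := by
  obtain ⟨h1, h2⟩ := disp_rt hl hadj
  rw [h1, h2, abs_neg, abs_neg]
  have h3 := adj_path (w := V) (i := 0) (by omega)
  rw [path_zero', zero_add, sub_zero, sub_zero] at h3
  exact h3

theorem saw_rt {V : List St} (hl : 1 ≤ V.length) (hV : Saw V) (hadj : |dx V| + |dy V| = 1) :
    Saw (rt V) := by
  rw [saw_iff']
  intro i j hij hj
  rw [length_rt hl] at hj
  rcases Nat.lt_or_ge j V.length with h | h
  · rw [path_rt (by omega), path_rt (by omega)]
    intro he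
    obtain ⟨e1, e2⟩ := Prod.mk.inj he
    exact saw_iff'.1 hV (i + 1) (j + 1) (by omega) (by omega) (Prod.ext (by omega) (by omega))
  · have hj' : j = V.length := le_antisymm hj h
    subst hj'
    rw [path_rt (by omega), path_rt_last hl hadj]
    intro he
    obtain ⟨e1, e2⟩ := Prod.mk.inj he
    refine saw_iff'.1 hV 0 (i + 1) (by omega) (by omega) (Prod.ext ?_ ?_)
    · rw [path_zero']; simp only; omega
    · rw [path_zero']; simp only; omega

/-- every point of the closed word is on the rotated one -/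
theorem exists_rt {V : List St} (hl : 1 ≤ V.length) (hadj : |dx V| + |dy V| = 1) (i : ℕ) :
    ∃ j, path (rt V) j = ((path V i).1 - (path V 1).1, (path V i).2 - (path V 1).2) := by
  rcases Nat.eq_zero_or_pos i with h | h
  · subst h
    exact ⟨V.length, by rw [path_rt_last hl hadj, path_zero']⟩
  · rcases le_or_gt i V.length with h1 | h1
    · refine ⟨i - 1, ?_⟩
      rw [path_rt (by omega), show i - 1 + 1 = i by omega]
    · refine ⟨V.length - 1, ?_⟩
      rw [path_rt (by omega), show V.length - 1 + 1 = V.length by omega, path_ge (k := i) h1.le]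

theorem ccr_rt {V : List St} (hl : 1 ≤ V.length) (hadj : |dx V| + |dy V| = 1) (a b : ℤ) :
    ccr (-(path V 1).1 + a) (-(path V 1).2 + b) (rt V) = ccr a b V := by
  unfold ccr
  rw [length_rt hl]
  obtain ⟨L, hL⟩ : ∃ L, V.length = L + 1 := ⟨V.length - 1, by omega⟩
  rw [hL, Finset.sum_range_succ, Finset.sum_range_succ']
  have h1 : ∑ j ∈ range L, ix (-(path V 1).1 + a) (-(path V 1).2 + b) (path (rt V) j)
      (path (rt V) (j + 1)) = ∑ j ∈ range L, ix a b (path V (j + 1)) (path V (j + 1 + 1)) := by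
    apply Finset.sum_congr rfl
    intro j hj
    rw [Finset.mem_range] at hj
    rw [path_rt (i := j) (by omega), path_rt (i := j + 1) (by omega), ix_shift]
  have h2 : ix (-(path V 1).1 + a) (-(path V 1).2 + b) (path (rt V) L) (path (rt V) (L + 1)) =
      ix a b (path V (L + 1)) (0, 0) := by
    have e1 := path_rt_last hl hadj
    rw [hL] at e1
    rw [e1, path_rt (i := L) (by omega)]
    exact ix_shift a b (path V 1) (path V (L + 1)) (0, 0)
  have h3 : ix (-(path V 1).1 + a) (-(path V 1).2 + b) (path (rt V) (L + 1)) (0, 0) =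
      ix a b (path V 0) (path V (0 + 1)) := by
    have e1 := path_rt_last hl hadj
    rw [hL] at e1
    rw [e1, path_zero']
    have h0 : ((0, 0) : ℤ × ℤ) = ((path V 1).1 - (path V 1).1, (path V 1).2 - (path V 1).2) := by
      simp
    have e2 := ix_shift a b (path V 1) (0, 0) (path V 1)
    simp only at e2
    rw [← h0] at e2
    rw [e2]
  rw [h1, h2, h3]
  ring

theorem encR_rt {X : ℤ} {D : ℤ → ℤ} {V : List St} (hl : 1 ≤ V.length)
    (hadj : |dx V| + |dy V| = 1) (h : EncR X D V) : EncR X D (rt V) := by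
  obtain ⟨a0, b0, h⟩ := h
  refine ⟨-(path V 1).1 + a0, -(path V 1).2 + b0, ?_⟩
  intro a b h1 h2 h3 h4
  obtain ⟨⟨i, hi⟩, h5⟩ := h a b h1 h2 h3 h4
  constructor
  · obtain ⟨j, hj⟩ := exists_rt hl hadj i
    refine ⟨j, ?_⟩
    rw [hj]
    simp only
    omega
  · rw [add_assoc, add_assoc, ccr_rt hl hadj]
    exact h5

/-- one of the two has a bottom edge -/
theorem bot_or {V : List St} (hl : 2 ≤ V.length) (hV : Saw V) (hadj : |dx V| + |dy V| = 1) :
    Bot V ∨ Bot (rt V) := by
  obtain ⟨i0, hi0, hmax⟩ : ∃ i ∈ range (V.length + 1),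
      ∀ k ∈ range (V.length + 1), (path V i).2 ≤ (path V k).2 :=
    Finset.exists_min_image (range (V.length + 1)) (fun k => (path V k).2) ⟨0, by simp⟩
  rw [Finset.mem_range] at hi0
  have hmin : ∀ k, (path V i0).2 ≤ (path V k).2 := by
    intro k
    rcases le_or_gt k V.length with h | h
    · exact hmax k (by rw [Finset.mem_range]; omega)
    · rw [path_ge h.le]
      exact hmax _ (by rw [Finset.mem_range]; omega)
  -- the end is a lowest point
  have hlast : (∀ k, (path V V.length).2 ≤ (path V k).2) → Bot (rt V) := by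
    intro h
    have e1 : path (rt V) (V.length - 1) =
        ((path V V.length).1 - (path V 1).1, (path V V.length).2 - (path V 1).2) := by
      rw [path_rt (by omega), show V.length - 1 + 1 = V.length by omega]
    apply bot_of_min (saw_rt (by omega) hV hadj) (i := V.length - 1) (by omega)
      (by rw [length_rt (by omega)]; omega)
    intro k
    rw [e1]
    simp only
    rcases Nat.lt_or_ge k V.length with h1 | h1
    · rw [path_rt (by omega)]
      have := h (k + 1)
      simp only
      omega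
    · have h2 : path (rt V) k = path (rt V) V.length := by
        rw [path_ge (w := rt V) (k := k) (by rw [length_rt (by omega)]; exact h1),
          length_rt (by omega)]
      rw [h2, path_rt_last (by omega) hadj]
      have := h 0
      rw [path_zero'] at this
      simp only at this ⊢
      omega
  rcases Nat.eq_zero_or_pos i0 with h0 | h0
  · subst h0
    rw [path_zero'] at hmin
    simp only at hmin
    have hs1 := path_succ (w := V) (i := 0) (by omega)
    rw [path_zero'] at hs1
    simp only [zero_add] at hs1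
    rcases hc : V[0] with _ | _ | _ | _
    · left
      exact ⟨0, by omega, Or.inl hc, fun k => by rw [path_zero']; exact hmin k⟩
    · left
      exact ⟨0, by omega, Or.inr hc, fun k => by rw [path_zero']; exact hmin k⟩
    · rw [hc, St.x_N, St.y_N] at hs1
      right
      apply hlast
      have h1 := hmin V.length
      have h2 := path_len V
      have h3 := congrArg Prod.fst h2
      have h4 := congrArg Prod.snd h2
      simp only at h3 h4
      have h5 : dy V = 0 := by
        by_contra hne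
        have h6 : dy V = 1 ∧ dx V = 0 := by
          rcases abs_cases (dx V) with g | g <;> rcases abs_cases (dy V) with g' | g' <;> omega
        exact saw_iff'.1 hV 1 V.length (by omega) le_rfl
          (Prod.ext (by omega) (by omega))
      intro k
      have := hmin k
      omega
    · exfalso
      rw [hc, St.x_S, St.y_S] at hs1
      have := hmin 1
      omega
  · rcases Nat.lt_or_ge i0 V.length with h1 | h1
    · left
      exact bot_of_min hV h0 h1 hmin
    · right
      have h2 : i0 = V.length := by omega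
      rw [h2] at hmin
      exact hlast hmin

theorem rc'_le (X : ℤ) (D : ℤ → ℤ) (m : ℕ) : rc' X D m ≤ 2 * rc X D m := by
  classical
  unfold rc rc'
  have h1 : fs (CR' X D) m ⊆ fs (CR X D) m ∪
      (fs (CR X D) m).image (fun W => cl W :: W.dropLast) := by
    intro V hV
    rw [mem_fs] at hV
    obtain ⟨⟨h1, h2, h3, h4⟩, h5⟩ := hV
    rw [Finset.mem_union, Finset.mem_image]
    rcases bot_or h3 h1 h2 with h | h
    · left
      rw [mem_fs]
      exact ⟨⟨h1, h2, h3, h4, h⟩, h5⟩
    · right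
      refine ⟨rt V, ?_, ?_⟩
      · rw [mem_fs, length_rt (by omega)]
        exact ⟨⟨saw_rt (by omega) h1 h2, adj_rt (by omega) h2, by rw [length_rt (by omega)]; exact h3,
          encR_rt (by omega) h2 h4, h⟩, h5⟩
      · obtain ⟨g1, g2⟩ := cl_spec (adj_rt (V := V) (by omega) h2)
        obtain ⟨g3, g4⟩ := disp_rt (V := V) (by omega) h2
        obtain ⟨g5, g6⟩ := path_succ (w := V) (i := 0) (by omega)
        rw [path_zero'] at g5 g6
        simp only [zero_add] at g5 g6
        have g7 : cl (rt V) = V[0] := st_ext (by omega) (by omega)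
        have g8 : (rt V).dropLast = V.drop 1 := by
          unfold rt
          exact List.dropLast_concat
        rw [g7, g8]
        have := List.drop_eq_getElem_cons (l := V) (i := 0) (by omega)
        rw [List.drop_zero, zero_add] at this
        exact this.symm
  calc (fs (CR' X D) m).card ≤ _ := Finset.card_le_card h1
    _ ≤ _ := Finset.card_union_le _ _
    _ ≤ (fs (CR X D) m).card + (fs (CR X D) m).card :=
        Nat.add_le_add_left Finset.card_image_le _
    _ = _ := by ring

/-! ### counting -/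

theorem pair_leR {X : ℤ} {D : ℤ → ℤ} (hX : 2 ≤ X)
    (hD : ∀ x, 0 < x → x < X → 1 ≤ D x ∧ D (X - x) = D x) (m m' : ℕ) :
    ss X D m * ss X D m' ≤ ∑ p ∈ Ix m m', rc' X D (p.2.2 + p.1.2) *
      ((c p.1.1 * c (m - p.1.1 - p.1.2)) * (c p.2.1 * c (m' - p.2.1 - p.2.2))) := by
  classical
  unfold ss rc' c
  have e : ∀ p : (ℕ × ℕ) × (ℕ × ℕ),
      (fs (CR' X D) (p.2.2 + p.1.2)).card * (((fs Saw p.1.1).card *
        (fs Saw (m - p.1.1 - p.1.2)).card) * ((fs Saw p.2.1).card *
        (fs Saw (m' - p.2.1 - p.2.2)).card)) =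
      (fs (CR' X D) (p.2.2 + p.1.2) ×ˢ ((fs Saw p.1.1 ×ˢ fs Saw (m - p.1.1 - p.1.2)) ×ˢ
        (fs Saw p.2.1 ×ˢ fs Saw (m' - p.2.1 - p.2.2)))).card := by
    intro p
    rw [Finset.card_product, Finset.card_product, Finset.card_product, Finset.card_product]
  simp only [e]
  rw [← Finset.card_product, ← Finset.card_sigma]
  apply card_le_of_decode (fun q : (_ : (ℕ × ℕ) × (ℕ × ℕ)) ×
      (List St × ((List St × List St) × (List St × List St))) =>
    (q.2.2.1.1 ++ (q.2.1.drop q.1.2.2 ++ q.2.2.1.2),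
      q.2.2.2.1 ++ (ng (sg (q.2.1.take q.1.2.2)) ++ q.2.2.2.2)))
  rintro ⟨u, v⟩ h
  rw [Finset.mem_product, mem_fs, mem_fs] at h
  obtain ⟨⟨hu, hul⟩, hv, hvl⟩ := h
  simp only at hu hul hv hvl
  obtain ⟨j1, m2, j3, m1, h1, h2, h3⟩ := loop_existsR hX hD hu hv
  have hl1 : (ng (sg ((v.drop j3).take m1))).length = m1 := by
    rw [length_ng, length_sg, List.length_take, List.length_drop]; omega
  have hl2 : ((u.drop j1).take m2).length = m2 := by
    rw [List.length_take, List.length_drop]; omega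
  refine ⟨⟨((j1, m2), (j3, m1)), (ng (sg ((v.drop j3).take m1)) ++ (u.drop j1).take m2,
    ((u.take j1, u.drop (j1 + m2)), (v.take j3, v.drop (j3 + m1))))⟩, ?_, ?_⟩
  · rw [Finset.mem_sigma]
    unfold Ix
    rw [Finset.mem_filter, Finset.mem_product, Finset.mem_product, Finset.mem_product,
      Finset.mem_product, Finset.mem_product, Finset.mem_product, Finset.mem_product,
      mem_fs, mem_fs, mem_fs, mem_fs, mem_fs, Finset.mem_range, Finset.mem_range,
      Finset.mem_range, Finset.mem_range]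
    simp only
    refine ⟨⟨⟨⟨by omega, by omega⟩, by omega, by omega⟩, by omega, by omega⟩, ⟨h3, ?_⟩,
      ⟨⟨?_, ?_⟩, ?_, ?_⟩, ⟨?_, ?_⟩, ?_, ?_⟩
    · rw [List.length_append, hl1, hl2]
    · exact hu.1.subw (List.take_prefix _ _).isInfix
    · rw [List.length_take]; omega
    · exact hu.1.subw (List.drop_suffix _ _).isInfix
    · rw [List.length_drop]; omega
    · exact hv.1.subw (List.take_prefix _ _).isInfix
    · rw [List.length_take]; omega
    · exact hv.1.subw (List.drop_suffix _ _).isInfix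
    · rw [List.length_drop]; omega
  · simp only
    have g1 := List.take_left (l₁ := ng (sg ((v.drop j3).take m1))) (l₂ := (u.drop j1).take m2)
    have g2 := List.drop_left (l₁ := ng (sg ((v.drop j3).take m1))) (l₂ := (u.drop j1).take m2)
    rw [hl1] at g1 g2
    rw [g1, g2]
    have g3 : ∀ w : List St, ng (sg (ng (sg w))) = w := by
      intro w
      rw [show sg (ng (sg w)) = ng (sg (sg w)) by
        unfold sg ng
        rw [List.map_map, List.map_map, List.map_map, List.map_map]
        congr 1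
        funext s
        cases s <;> rfl, sg_sg, ng_ng]
    rw [g3]
    have g4 : ∀ (w : List St) (i l : ℕ), w.take i ++ ((w.drop i).take l ++ w.drop (i + l)) = w := by
      intro w i l
      rw [← List.drop_drop, List.take_append_drop, List.take_append_drop]
    rw [g4, g4]

theorem rc_le_rc' (X : ℤ) (D : ℤ → ℤ) (m : ℕ) : rc X D m ≤ rc' X D m := by
  unfold rc rc'
  apply Finset.card_le_card
  intro w hw
  rw [mem_fs] at hw ⊢
  exact ⟨⟨hw.1.1, hw.1.2.1, hw.1.2.2.1, hw.1.2.2.2.1⟩, hw.2⟩

theorem rc_mul_ar (X : ℤ) (D : ℤ → ℤ) (m L : ℕ) :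
    rc X D m * ar L ≤ m * rc' X D (m + L + 1) := by
  classical
  unfold rc rc' ar
  have e : m * (fs (CR' X D) (m + L + 1)).card = (range m ×ˢ fs (CR' X D) (m + L + 1)).card := by
    rw [Finset.card_product, Finset.card_range]
  rw [← Finset.card_product, e]
  apply card_le_of_decode (fun q => (q.2.take q.1 ++
    ((if dx ((q.2.drop (q.1 + 1)).take L) = 1 then St.E else St.W) ::
      q.2.drop (q.1 + 1 + L + 1)),
    (if dx ((q.2.drop (q.1 + 1)).take L) = 1 then (q.2.drop (q.1 + 1)).take L else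
      sg ((q.2.drop (q.1 + 1)).take L))))
  rintro ⟨w, t⟩ h
  rw [Finset.mem_product, mem_fs, mem_fs] at h
  obtain ⟨⟨⟨hw, hadj, hw2, henc, hbot⟩, hwl⟩, ⟨ht, htx, hty, htn⟩, htl⟩ := h
  simp only at hw hadj hw2 hbot henc hwl ht htx hty htn htl
  obtain ⟨i, hi, hs, hmin⟩ := hbot
  have hx : dx (tw w[i] t) = (w[i]).x := dx_tw hs htx
  have hy : dy (tw w[i] t) = (w[i]).y := by
    rw [dy_tw, hty]
    rcases hs with h | h <;> rw [h] <;> rfl
  have hlt : (tw w[i] t).length = L := by rw [length_tw, htl]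
  have hd := disp_ins hi hx hy
  have hneg : ∀ k, (path (tw w[i] t) k).2 ≤ 0 := fun k => by rw [path_tw_snd]; exact htn k
  refine ⟨(i, ins w i (tw w[i] t)), ?_, ?_⟩
  · rw [Finset.mem_product, mem_fs, Finset.mem_range]
    refine ⟨by omega, ⟨saw_ins hw hi (saw_tw ht) hx hy hmin hneg, ?_, ?_, ?_⟩, ?_⟩
    · rw [hd.1, hd.2]; exact hadj
    · simp only
      rw [length_ins hi]; omega
    · obtain ⟨a0, b0, henc⟩ := henc
      refine ⟨a0, b0, ?_⟩
      intro a b ha0 ha1 hb1 hb2
      obtain ⟨⟨i0, hi0⟩, hodd⟩ := henc a b ha0 ha1 hb1 hb2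
      have hb0 : (path w i).2 ≤ b0 + b := (hmin i0).trans hi0
      refine ⟨⟨i, ?_⟩, ?_⟩
      · rw [path_ins_left hi _ le_rfl]; exact hb0
      · rw [ccr_ins hi hx hy hneg hb0]
        exact hodd
    · simp only
      rw [length_ins hi, hlt, hwl]
  · simp only
    have hlen : (w.take i).length = i := by rw [List.length_take]; omega
    have g1 : (ins w i (tw w[i] t)).take i = w.take i := by
      unfold ins
      have := List.take_left (l₁ := w.take i)
        (l₂ := St.S :: (tw w[i] t ++ (St.N :: w.drop (i + 1))))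
      rwa [hlen] at this
    have g2 : (ins w i (tw w[i] t)).drop (i + 1) = tw w[i] t ++ (St.N :: w.drop (i + 1)) := by
      unfold ins
      have := List.drop_left (l₁ := w.take i)
        (l₂ := St.S :: (tw w[i] t ++ (St.N :: w.drop (i + 1))))
      rw [hlen] at this
      rw [← List.drop_drop, this, List.drop_succ_cons, List.drop_zero]
    have g3 : ((ins w i (tw w[i] t)).drop (i + 1)).take L = tw w[i] t := by
      rw [g2]
      have := List.take_left (l₁ := tw w[i] t) (l₂ := St.N :: w.drop (i + 1))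
      rwa [hlt] at this
    have g4 : (ins w i (tw w[i] t)).drop (i + 1 + L + 1) = w.drop (i + 1) := by
      have := List.drop_left (l₁ := tw w[i] t) (l₂ := St.N :: w.drop (i + 1))
      rw [hlt] at this
      rw [show i + 1 + L + 1 = (i + 1) + L + 1 by ring, ← List.drop_drop, ← List.drop_drop, g2,
        this, List.drop_succ_cons, List.drop_zero]
    rw [g1, g3, g4, hx]
    have hw2 : w.take i ++ (w[i] :: w.drop (i + 1)) = w := by
      rw [← List.drop_eq_getElem_cons hi, List.take_append_drop]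
    rcases hs with h | h
    · rw [h, St.x_E, if_pos rfl, if_pos rfl]
      rw [h] at hw2
      simp only [hw2, tw, if_true]
    · rw [h, St.x_W, if_neg (by norm_num), if_neg (by norm_num)]
      rw [h] at hw2
      have : tw St.W t = sg t := by simp [tw]
      rw [hw2, this, sg_sg]

theorem rc_lengthen {n : ℕ} (hn : 2 ≤ n) {K : ℝ} (hK0 : 0 ≤ K)
    (hlow : ∀ j : ℕ, 2 ≤ j → j ≤ n → mu ^ (2 * j) * q n (-K) ≤ ar (2 * j - 1))
    {X : ℤ} {D : ℤ → ℤ} {m j : ℕ} (hmn : m + 2 * j ≤ n) :
    (rc X D m : ℝ) * mu ^ (2 * j) ≤ q n (K + 21) * rc' X D (m + 2 * j) := by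
  have hmu := mu_pos
  have hn0 : (2 : ℝ) ≤ n := by exact_mod_cast hn
  have hmn' : (m : ℝ) ≤ n := by exact_mod_cast (by omega : m ≤ n)
  rcases Nat.eq_zero_or_pos j with h0 | h0
  · subst h0
    simp only [mul_zero, pow_zero, mul_one, add_zero]
    have h1 := one_le_q hn (by linarith : (0 : ℝ) ≤ K + 21)
    have h2 : (rc X D m : ℝ) ≤ rc' X D m := by exact_mod_cast rc_le_rc' X D m
    have h3 : (0 : ℝ) ≤ rc' X D m := Nat.cast_nonneg _
    nlinarith
  · rcases Nat.lt_or_ge j 2 with h1 | h1
    · obtain rfl : j = 1 := by omega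
      have h2 := rc_mul_ar X D m 1
      have h3 := one_le_ar (j := 1) le_rfl
      norm_num at h3
      have h4 : (rc X D m : ℝ) ≤ m * rc' X D (m + 2) := by
        have : rc X D m ≤ m * rc' X D (m + 2) := by
          calc rc X D m = rc X D m * 1 := (mul_one _).symm
            _ ≤ rc X D m * ar 1 := Nat.mul_le_mul_left _ h3
            _ ≤ _ := h2
        exact_mod_cast this
      have h5 : mu ^ 2 ≤ 16 := by
        have := mu_le_four
        nlinarith
      have h6 : (n : ℝ) ^ 7 ≤ q n (K + 21) := by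
        have h7 := pow_le_q hn 7
        norm_num at h7
        exact h7.trans (q_mono hn (by linarith))
      have hA : (0 : ℝ) ≤ rc' X D (m + 2) := Nat.cast_nonneg _
      have h8 : (16 : ℝ) * m ≤ (n : ℝ) ^ 7 := by
        have h9 : (16 : ℝ) ≤ (n : ℝ) ^ 6 := by
          calc (16 : ℝ) ≤ 2 ^ 6 := by norm_num
            _ ≤ (n : ℝ) ^ 6 := pow_le_pow_left₀ (by norm_num) hn0 6
        calc (16 : ℝ) * m ≤ (n : ℝ) ^ 6 * n := mul_le_mul h9 hmn' (Nat.cast_nonneg _) (by positivity)
          _ = (n : ℝ) ^ 7 := by ring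
      calc (rc X D m : ℝ) * mu ^ (2 * 1) ≤ (m * rc' X D (m + 2)) * 16 := by
            rw [mul_one]
            exact mul_le_mul h4 h5 (by positivity) (by positivity)
        _ = (16 * m) * rc' X D (m + 2) := by ring
        _ ≤ q n (K + 21) * rc' X D (m + 2) := mul_le_mul_of_nonneg_right (h8.trans h6) hA
        _ = _ := by norm_num
    · have h2 := hlow j h1 (by omega)
      have h3 := rc_mul_ar X D m (2 * j - 1)
      rw [show m + (2 * j - 1) + 1 = m + 2 * j by omega] at h3
      have h4 : (rc X D m : ℝ) * ar (2 * j - 1) ≤ m * rc' X D (m + 2 * j) := by exact_mod_cast h3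
      have hA : (0 : ℝ) ≤ rc' X D (m + 2 * j) := Nat.cast_nonneg _
      have hA' : (0 : ℝ) ≤ rc X D m := Nat.cast_nonneg _
      have hq := q_pos n K
      have h5 : (rc X D m : ℝ) * (mu ^ (2 * j) * q n (-K)) ≤ m * rc' X D (m + 2 * j) :=
        (mul_le_mul_of_nonneg_left h2 hA').trans h4
      have h6 : (m : ℝ) ≤ q n 9 := by
        have h7 := pow_le_q hn 3
        norm_num at h7
        refine le_trans ?_ h7
        nlinarith [sq_nonneg ((n : ℝ) - 1)]
      calc (rc X D m : ℝ) * mu ^ (2 * j)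
          = ((rc X D m : ℝ) * (mu ^ (2 * j) * q n (-K))) * q n K := by
            rw [show (rc X D m : ℝ) * (mu ^ (2 * j) * q n (-K)) * q n K =
              (rc X D m : ℝ) * mu ^ (2 * j) * (q n K * q n (-K)) by ring, q_cancel, mul_one]
        _ ≤ (m * rc' X D (m + 2 * j)) * q n K := mul_le_mul_of_nonneg_right h5 hq.le
        _ ≤ (q n 9 * rc' X D (m + 2 * j)) * q n K := by gcongr
        _ = (q n K * q n 9) * rc' X D (m + 2 * j) := by ring
        _ = q n (K + 9) * rc' X D (m + 2 * j) := by rw [q_mul]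
        _ ≤ _ := mul_le_mul_of_nonneg_right (q_mono hn (by linarith)) hA

theorem rc'_odd {X : ℤ} {D : ℤ → ℤ} {m : ℕ} (h : 0 < rc' X D m) : m % 2 = 1 := by
  unfold rc' at h
  obtain ⟨w, hw⟩ := Finset.card_pos.1 h
  rw [mem_fs] at hw
  obtain ⟨⟨-, hadj, -⟩, hl⟩ := hw
  have h1 := parity w
  rcases abs_cases (dx w) with h2 | h2 <;> rcases abs_cases (dy w) with h3 | h3 <;> omega

/-! ### the area -/

theorem area_geR {m : ℕ} [NeZero m] {f : ZMod m → ℤ × ℤ}
    (hs : ∀ i : ZMod m, |(f (i+1)).1 - (f i).1| + |(f (i+1)).2 - (f i).2| = 1)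
    {X : ℤ} {D : ℤ → ℤ} {a0 b0 : ℤ} (hD : ∀ x, 0 < x → x < X → 0 ≤ D x)
    (h : ∀ a b : ℤ, 0 < a → a < X → -D a ≤ b → b < D a → Y981.L2.Encl m f (a0 + a, b0 + b)) :
    (∑ x ∈ Ioo 0 X, 2 * D x).toNat ≤ Y981.L2.area m f := by
  classical
  unfold Y981.L2.area
  have hfin := finite_encl hs
  have e1 : Nat.card {c : ℤ × ℤ // Y981.L2.Encl m f c} = {c : ℤ × ℤ | Y981.L2.Encl m f c}.ncard :=
    Nat.card_coe_set_eq _
  rw [e1]
  obtain ⟨T, hT⟩ : ∃ T : Finset (ℤ × ℤ), T =
      ((Ioo 0 X).sigma fun a => Ico (-D a) (D a)).image (fun p => (a0 + p.1, b0 + p.2)) := ⟨_, rfl⟩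
  have hc : T.card = (∑ x ∈ Ioo 0 X, 2 * D x).toNat := by
    rw [hT, Finset.card_image_of_injective, Finset.card_sigma]
    · apply Int.natCast_inj.1
      have hnn : 0 ≤ ∑ x ∈ Ioo 0 X, 2 * D x := by
        apply Finset.sum_nonneg
        intro x hx
        rw [Finset.mem_Ioo] at hx
        have := hD x hx.1 hx.2
        omega
      rw [Int.toNat_of_nonneg hnn, Nat.cast_sum]
      apply Finset.sum_congr rfl
      intro x hx
      rw [Finset.mem_Ioo] at hx
      have := hD x hx.1 hx.2
      rw [Int.card_Ico]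
      omega
    · rintro ⟨x, y⟩ ⟨x', y'⟩ he
      obtain ⟨h1, h2⟩ := Prod.mk.inj he
      simp only at h1 h2
      have h3 : x = x' := by omega
      have h4 : y = y' := by omega
      subst h3; subst h4; rfl
  rw [← hc, ← Set.ncard_coe_finset]
  apply Set.ncard_le_ncard _ hfin
  intro p hp
  rw [Finset.mem_coe, hT, Finset.mem_image] at hp
  obtain ⟨⟨x, y⟩, hxy, rfl⟩ := hp
  rw [Finset.mem_sigma, Finset.mem_Ioo, Finset.mem_Ico] at hxy
  exact h x y hxy.1.1 hxy.1.2 hxy.2.1 hxy.2.2

theorem rc_loop {X : ℤ} {D : ℤ → ℤ} {M : ℕ} {V : List St} (hD : ∀ x, 0 < x → x < X → 0 ≤ D x)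
    (hM : M = V.length + 1) (hV : CR' X D V) :
    IsLoop M (fun i : ZMod M => path V i.val) ∧
    (∑ x ∈ Ioo 0 X, 2 * D x).toNat ≤ Y981.L2.area M (fun i : ZMod M => path V i.val) := by
  obtain ⟨hs, hadj, hl, a0, b0, henc⟩ := hV
  have : NeZero M := ⟨by omega⟩
  have hloop := loop_close hM (by omega) hs hadj
  refine ⟨hloop, ?_⟩
  refine area_geR (m := M) (f := fun i : ZMod M => path V i.val) hloop.2.2 (a0 := a0) (b0 := b0)
    hD (fun a b ha0 ha1 hb0 hb1 => ?_)
  unfold Y981.L2.Encl
  rw [card_above' hM]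
  exact (henc a b ha0 ha1 hb0 hb1).2

theorem rc_le_an {n : ℕ} (hn : 1 ≤ n) {X : ℤ} {D : ℤ → ℤ} (hD : ∀ x, 0 < x → x < X → 0 ≤ D x) :
    rc' X D (2 * n - 1) ≤ an n (∑ x ∈ Ioo 0 X, 2 * D x).toNat := by
  classical
  have hfin := loops_finite hn
  have hfin2 : {f : ZMod (2 * n) → ℤ × ℤ | IsLoop (2 * n) f ∧
      (∑ x ∈ Ioo 0 X, 2 * D x).toNat ≤ Y981.L2.area (2 * n) f}.Finite :=
    hfin.subset (fun f hf => hf.1)
  unfold rc' an
  have hinj : ((fs (CR' X D) (2 * n - 1)).image
      (fun V : List St => fun i : ZMod (2 * n) => path V i.val)).card =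
      (fs (CR' X D) (2 * n - 1)).card := by
    apply Finset.card_image_of_injOn
    intro V hV V' hV' he
    rw [Finset.mem_coe, mem_fs] at hV hV'
    apply word_ext (by omega)
    intro j hj
    have h1 := congrFun he (j : ZMod (2 * n))
    simp only at h1
    rwa [ZMod.val_cast_of_lt (by omega)] at h1
  rw [← hinj, ← Set.ncard_coe_finset]
  apply Set.ncard_le_ncard _ hfin2
  intro f hf
  rw [Finset.mem_coe, Finset.mem_image] at hf
  obtain ⟨V, hV, rfl⟩ := hf
  rw [mem_fs] at hV
  obtain ⟨hV1, hV2⟩ := hV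
  exact rc_loop hD (by omega) hV1

/-- PIECE P2 -/
theorem ss_bound : ∃ K : ℝ, 0 ≤ K ∧ ∀ n : ℕ, 1 ≤ n → ∀ (X : ℤ) (D : ℤ → ℤ), 2 ≤ X →
    (∀ x, 0 < x → x < X → 1 ≤ D x ∧ D (X - x) = D x) → ∀ m m' : ℕ, m + m' ≤ 2 * n →
    (ss X D m : ℝ) * ss X D m' * mu ^ (2 * n - (m + m')) ≤
      q (2 * n) K * an n (∑ x ∈ Ioo 0 X, 2 * D x).toNat := by
  obtain ⟨K, hK, hup, hlow⟩ := exists_K
  refine ⟨4 * K + (K + 21) + 36, by positivity, ?_⟩
  intro n hn X D hX hD m m' hmm
  have han : (rc' X D (2 * n - 1) : ℝ) ≤ an n (∑ x ∈ Ioo 0 X, 2 * D x).toNat := by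
    exact_mod_cast rc_le_an hn (fun x h1 h2 => by have := (hD x h1 h2).1; omega)
  obtain ⟨N, hN⟩ : ∃ N, N = 2 * n := ⟨_, rfl⟩
  rw [← hN] at hmm han ⊢
  refine le_trans ?_ (mul_le_mul_of_nonneg_left han (q_pos _ _).le)
  have hN2 : 2 ≤ N := by omega
  have hmu := mu_pos
  have hpair : (ss X D m : ℝ) * ss X D m' ≤ ∑ p ∈ Ix m m', (rc' X D (p.2.2 + p.1.2) : ℝ) *
      ((c p.1.1 * c (m - p.1.1 - p.1.2)) * (c p.2.1 * c (m' - p.2.1 - p.2.2))) := by
    exact_mod_cast pair_leR hX hD m m'
  have hA : (0 : ℝ) ≤ rc' X D (N - 1) := Nat.cast_nonneg _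
  have hterm : ∀ p ∈ Ix m m', (rc' X D (p.2.2 + p.1.2) : ℝ) *
      ((c p.1.1 * c (m - p.1.1 - p.1.2)) * (c p.2.1 * c (m' - p.2.1 - p.2.2))) *
      mu ^ (N - (m + m')) ≤ q N (4 * K) * (8 * (q N (K + 21) * rc' X D (N - 1))) := by
    rintro ⟨⟨j1, m2⟩, ⟨j3, m1⟩⟩ hp
    unfold Ix at hp
    rw [Finset.mem_filter] at hp
    obtain ⟨-, h1, h2⟩ := hp
    simp only at h1 h2 ⊢
    rcases Nat.eq_zero_or_pos (rc' X D (m1 + m2)) with h0 | h0
    · rw [h0, Nat.cast_zero, zero_mul, zero_mul]
      have := q_pos N (4 * K)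
      have := q_pos N (K + 21)
      positivity
    · have hodd := rc'_odd h0
      obtain ⟨j, hj⟩ : ∃ j, m1 + m2 + 2 * j = N - 1 := ⟨(N - 1 - (m1 + m2)) / 2, by omega⟩
      have g0 := rc_lengthen hN2 hK (hlow N hN2) (X := X) (D := D) (m := m1 + m2) (j := j)
        (by omega)
      rw [hj] at g0
      have g1 : (rc' X D (m1 + m2) : ℝ) * mu ^ (2 * j) ≤
          2 * (q N (K + 21) * rc' X D (N - 1)) := by
        have g : (rc' X D (m1 + m2) : ℝ) ≤ 2 * rc X D (m1 + m2) := by
          exact_mod_cast rc'_le X D (m1 + m2)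
        calc (rc' X D (m1 + m2) : ℝ) * mu ^ (2 * j) ≤ (2 * rc X D (m1 + m2)) * mu ^ (2 * j) :=
              mul_le_mul_of_nonneg_right g (pow_pos hmu _).le
          _ = 2 * (rc X D (m1 + m2) * mu ^ (2 * j)) := by ring
          _ ≤ _ := by linarith
      have hc : ∀ i ≤ N, (c i : ℝ) ≤ mu ^ i * q N K := fun i hi => hup N hN2 i hi
      have hc0 : ∀ i, (0 : ℝ) ≤ c i := fun i => Nat.cast_nonneg _
      have hq := q_pos N K
      have g2 : ((c j1 : ℝ) * c (m - j1 - m2)) * (c j3 * c (m' - j3 - m1)) ≤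
          mu ^ (m + m' - (m1 + m2)) * q N (4 * K) := by
        calc ((c j1 : ℝ) * c (m - j1 - m2)) * (c j3 * c (m' - j3 - m1))
            ≤ ((mu ^ j1 * q N K) * (mu ^ (m - j1 - m2) * q N K)) *
              ((mu ^ j3 * q N K) * (mu ^ (m' - j3 - m1) * q N K)) := by
              apply mul_le_mul _ _ (mul_nonneg (hc0 _) (hc0 _)) (by positivity)
              · exact mul_le_mul (hc _ (by omega)) (hc _ (by omega)) (hc0 _) (by positivity)
              · exact mul_le_mul (hc _ (by omega)) (hc _ (by omega)) (hc0 _) (by positivity)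
          _ = (mu ^ j1 * mu ^ (m - j1 - m2) * mu ^ j3 * mu ^ (m' - j3 - m1)) *
              ((q N K * q N K) * (q N K * q N K)) := by ring
          _ = _ := by
              rw [← pow_add, ← pow_add, ← pow_add, q_mul, q_mul]
              congr 2
              · omega
              · ring
      have h4 := mu_le_four
      calc (rc' X D (m1 + m2) : ℝ) * ((c j1 * c (m - j1 - m2)) * (c j3 * c (m' - j3 - m1))) *
            mu ^ (N - (m + m'))
          ≤ (rc' X D (m1 + m2) : ℝ) * (mu ^ (m + m' - (m1 + m2)) * q N (4 * K)) *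
            mu ^ (N - (m + m')) := by
            apply mul_le_mul_of_nonneg_right _ (pow_pos hmu _).le
            exact mul_le_mul_of_nonneg_left g2 (Nat.cast_nonneg _)
        _ = q N (4 * K) * ((rc' X D (m1 + m2) : ℝ) *
            (mu ^ (m + m' - (m1 + m2)) * mu ^ (N - (m + m')))) := by ring
        _ = q N (4 * K) * (((rc' X D (m1 + m2) : ℝ) * mu ^ (2 * j)) * mu) := by
            have e1 : m + m' - (m1 + m2) + (N - (m + m')) = 2 * j + 1 := by omega
            rw [← pow_add, mul_assoc (rc' X D (m1 + m2) : ℝ), ← pow_succ, e1]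
        _ ≤ q N (4 * K) * ((2 * (q N (K + 21) * rc' X D (N - 1))) * 4) := by
            apply mul_le_mul_of_nonneg_left _ (q_pos _ _).le
            exact mul_le_mul g1 h4 hmu.le
              (mul_nonneg (by norm_num) (mul_nonneg (q_pos _ _).le hA))
        _ = _ := by ring
  have hsum := Finset.sum_le_card_nsmul _ _ _ hterm
  rw [nsmul_eq_mul, ← Finset.sum_mul] at hsum
  have hn0 : (2 : ℝ) ≤ N := by exact_mod_cast hN2
  have hcard : (8 : ℝ) * ((Ix m m').card : ℝ) ≤ q N 36 := by
    have h1 : (Ix m m').card ≤ (N + 1) ^ 4 := by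
      unfold Ix
      refine (Finset.card_filter_le _ _).trans ?_
      rw [Finset.card_product, Finset.card_product, Finset.card_product, Finset.card_range,
        Finset.card_range]
      calc (m + 1) * (m + 1) * ((m' + 1) * (m' + 1)) ≤
            (N + 1) * (N + 1) * ((N + 1) * (N + 1)) := by gcongr <;> omega
        _ = _ := by ring
    have h2 : ((Ix m m').card : ℝ) ≤ ((N : ℝ) + 1) ^ 4 := by exact_mod_cast h1
    have h3 : (N : ℝ) + 1 ≤ (N : ℝ) ^ 2 := by nlinarith
    have h4 : ((N : ℝ) + 1) ^ 4 ≤ (N : ℝ) ^ 8 := by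
      calc ((N : ℝ) + 1) ^ 4 ≤ ((N : ℝ) ^ 2) ^ 4 := pow_le_pow_left₀ (by positivity) h3 4
        _ = _ := by ring
    have h5 : (8 : ℝ) ≤ (N : ℝ) ^ 3 := by
      calc (8 : ℝ) = 2 ^ 3 := by norm_num
        _ ≤ (N : ℝ) ^ 3 := pow_le_pow_left₀ (by norm_num) hn0 3
    have h6 := pow_le_q hN2 12
    norm_num at h6
    calc (8 : ℝ) * ((Ix m m').card : ℝ) ≤ (N : ℝ) ^ 3 * (N : ℝ) ^ 8 :=
          mul_le_mul h5 (h2.trans h4) (Nat.cast_nonneg _) (by positivity)
      _ = (N : ℝ) ^ 11 := by ring
      _ ≤ (N : ℝ) ^ 12 := pow_le_pow_right₀ (by linarith) (by norm_num)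
      _ ≤ _ := h6
  have hQ1 := q_pos N (4 * K)
  have hQ2 := q_pos N (K + 21)
  calc (ss X D m : ℝ) * ss X D m' * mu ^ (N - (m + m')) ≤ _ :=
        (mul_le_mul_of_nonneg_right hpair (pow_pos hmu _).le).trans hsum
    _ = (8 * ((Ix m m').card : ℝ)) * ((q N (4 * K) * q N (K + 21)) * rc' X D (N - 1)) := by ring
    _ ≤ q N 36 * ((q N (4 * K) * q N (K + 21)) * rc' X D (N - 1)) :=
        mul_le_mul_of_nonneg_right hcard (by positivity)
    _ = ((q N (4 * K) * q N (K + 21)) * q N 36) * rc' X D (N - 1) := by ring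
    _ = _ := by rw [q_mul, q_mul]

end Pool.Agent.K6.H23.WA
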