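import Mathlib

/-!
Convex chains: the region below a convex chain and its reflection (geometry only).
-/

set_option autoImplicit false
namespace Pool.Agent.K6.H23.WA.P3

open Finset

variable (k l : ℕ → ℕ) (M : ℕ)

/-- abscissae / depths of the vertices -/
def xs (j : ℕ) : ℤ := ∑ i ∈ range j, (k i : ℤ)

def ys (j : ℕ) : ℕ := ∑ i ∈ range j, l i

/-- the width of the region -/
def Xw : ℤ := 2 * xs k M

/-- the depth -/
noncomputable def dep (x : ℤ) : ℤ :=
  max 1 ((((range M).filter (fun j => xs k j ≤ x ∧ x ≤ Xw k M - xs k j)).sup (ys l) : ℕ) : ℤ)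

variable {k l M}

theorem xs_succ (j : ℕ) : xs k (j + 1) = xs k j + k j := by
  unfold xs; rw [sum_range_succ]

theorem ys_succ (j : ℕ) : ys l (j + 1) = ys l j + l j := by
  unfold ys; rw [sum_range_succ]

theorem xs_zero : xs k 0 = 0 := by simp [xs]

theorem ys_zero : ys l 0 = 0 := by simp [ys]

theorem one_le_dep (x : ℤ) : 1 ≤ dep k l M x := le_max_left _ _

theorem dep_symm (x : ℤ) : dep k l M (Xw k M - x) = dep k l M x := by
  unfold dep
  congr 3
  apply Finset.filter_congr
  intro j _
  constructor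
  · rintro ⟨h1, h2⟩; constructor <;> linarith
  · rintro ⟨h1, h2⟩; constructor <;> linarith

theorem dep_le {x b : ℤ} (h1 : 1 ≤ b)
    (h : ∀ j < M, xs k j ≤ x → x ≤ Xw k M - xs k j → (ys l j : ℤ) ≤ b) : dep k l M x ≤ b := by
  unfold dep
  apply max_le h1
  have hb : b = ((b.toNat : ℕ) : ℤ) := by omega
  rw [hb]
  have : ((range M).filter (fun j => xs k j ≤ x ∧ x ≤ Xw k M - xs k j)).sup (ys l) ≤ b.toNat := by
    apply Finset.sup_le
    intro j hj
    rw [mem_filter, mem_range] at hj
    have := h j hj.1 hj.2.1 hj.2.2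
    omega
  exact_mod_cast this

theorem le_dep {x : ℤ} {j : ℕ} (hj : j < M) (h1 : xs k j ≤ x) (h2 : x ≤ Xw k M - xs k j) :
    (ys l j : ℤ) ≤ dep k l M x := by
  unfold dep
  refine le_trans ?_ (le_max_right _ _)
  have : ys l j ≤ ((range M).filter (fun j => xs k j ≤ x ∧ x ≤ Xw k M - xs k j)).sup (ys l) :=
    Finset.le_sup (f := ys l) (mem_filter.2 ⟨mem_range.2 hj, h1, h2⟩)
  exact_mod_cast this

theorem xs_mono {i j : ℕ} (h : i ≤ j) : xs k i ≤ xs k j := by
  unfold xs
  apply Finset.sum_le_sum_of_subset_of_nonneg (range_subset_range.2 h)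
  intro i _ _
  positivity

/-- convexity of the chain -/
theorem chord (hc : ∀ i j, i ≤ j → j < M → l j * k i ≤ l i * k j) {i : ℕ} (hi : i < M) {j : ℕ}
    (hj : j ≤ M) : (k i : ℤ) * ((ys l j : ℤ) - ys l i) ≤ l i * (xs k j - xs k i) := by
  have h0 : ∀ d, i + d ≤ M →
      (k i : ℤ) * ((ys l (i + d) : ℤ) - ys l i) ≤ l i * (xs k (i + d) - xs k i) := by
    intro d
    induction d with
    | zero => intro _; simp
    | succ d ih =>
      intro hd
      have h1 := ih (by omega)
      have h2 := hc i (i + d) (by omega) (by omega)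
      have h3 : (l (i + d) : ℤ) * k i ≤ l i * k (i + d) := by exact_mod_cast h2
      rw [← add_assoc, ys_succ, xs_succ]
      push_cast
      nlinarith
  have h1 : ∀ d, d ≤ i →
      (k i : ℤ) * ((ys l (i - d) : ℤ) - ys l i) ≤ l i * (xs k (i - d) - xs k i) := by
    intro d
    induction d with
    | zero => intro _; simp
    | succ d ih =>
      intro hd
      have h1 := ih (by omega)
      have h2 := hc (i - (d + 1)) i (by omega) hi
      have h3 : (l i : ℤ) * k (i - (d + 1)) ≤ l (i - (d + 1)) * k i := by exact_mod_cast h2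
      have e : i - d = (i - (d + 1)) + 1 := by omega
      rw [e, ys_succ, xs_succ] at h1
      push_cast at h1
      nlinarith
  rcases le_total i j with h | h
  · have := h0 (j - i) (by omega)
    rwa [show i + (j - i) = j by omega] at this
  · have := h1 (i - j) (by omega)
    rwa [show i - (i - j) = j by omega] at this

/-- points below the line through the side `i` are deep -/
theorem below (hk : ∀ i < M, 1 ≤ k i) (hl : ∀ i < M, 1 ≤ l i)
    (hc : ∀ i j, i ≤ j → j < M → l j * k i ≤ l i * k j) {i : ℕ} (hi : i < M) {x y : ℤ}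
    (h : (k i : ℤ) * (y + ys l i) + l i * (x - xs k i) ≤ 0) (hx : 0 < x) :
    y ≤ -dep k l M x := by
  have hk1 : (1 : ℤ) ≤ k i := by exact_mod_cast hk i hi
  have hl1 : (1 : ℤ) ≤ l i := by exact_mod_cast hl i hi
  have hmain : ∀ j ≤ M, xs k j ≤ x → (k i : ℤ) * (y + ys l j) ≤ - l i * (x - xs k j) := by
    intro j hj _
    have := chord hc hi hj
    nlinarith
  have : dep k l M x ≤ -y := by
    apply dep_le
    · have h1 := hmain 0 (Nat.zero_le _) (by rw [xs_zero]; exact hx.le)
      rw [xs_zero, ys_zero] at h1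
      push_cast at h1
      by_contra hcon
      have hy : 0 ≤ y := by omega
      nlinarith
    · intro j hj hjx _
      have h1 := hmain j hj.le hjx
      by_contra hcon
      have hy : 1 ≤ y + ys l j := by omega
      nlinarith
  linarith

theorem sum_half (hk : ∀ i < M, 1 ≤ k i) : ∀ J ≤ M,
    ∑ j ∈ range J, (k j : ℤ) * ys l j ≤ ∑ x ∈ Ioo 0 (xs k J), dep k l M x := by
  intro J
  induction J with
  | zero => intro _; simp [xs_zero]
  | succ J ih =>
    intro hJ
    have h1 := ih (by omega)
    rcases Nat.eq_zero_or_pos J with rfl | hpos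
    · rw [sum_range_one, ys_zero]
      simp only [Nat.cast_zero, mul_zero]
      apply Finset.sum_nonneg
      intro x _
      have := one_le_dep (k := k) (l := l) (M := M) x
      omega
    · have hx1 : 0 < xs k J := by
        have := xs_mono (k := k) (show 1 ≤ J from hpos)
        rw [xs_succ, xs_zero] at this
        have hk0 := hk 0 (by omega)
        have : (1 : ℤ) ≤ k 0 := by exact_mod_cast hk0
        omega
      have hx2 := xs_mono (k := k) (show J ≤ J + 1 by omega)
      have hun : Ioo 0 (xs k (J + 1)) = Ioo 0 (xs k J) ∪ Ico (xs k J) (xs k (J + 1)) := by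
        ext x
        rw [mem_union, mem_Ioo, mem_Ioo, mem_Ico]
        omega
      have hdis : Disjoint (Ioo 0 (xs k J)) (Ico (xs k J) (xs k (J + 1))) := by
        rw [Finset.disjoint_left]
        intro x hx hx'
        rw [mem_Ioo] at hx
        rw [mem_Ico] at hx'
        omega
      rw [hun, sum_union hdis, sum_range_succ]
      apply add_le_add h1
      have hcard : ((Ico (xs k J) (xs k (J + 1))).card : ℤ) = k J := by
        rw [Int.card_Ico, xs_succ]
        simp
      calc (k J : ℤ) * ys l J = ∑ x ∈ Ico (xs k J) (xs k (J + 1)), (ys l J : ℤ) := by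
            rw [sum_const, nsmul_eq_mul, hcard]
        _ ≤ _ := by
            apply Finset.sum_le_sum
            intro x hx
            rw [mem_Ico] at hx
            apply le_dep (by omega) hx.1
            have h3 := xs_mono (k := k) (show J + 1 ≤ M from hJ)
            have h4 := xs_mono (k := k) (show J ≤ M by omega)
            unfold Xw
            omega

theorem cells (hk : ∀ i < M, 1 ≤ k i) (hM : 1 ≤ M) :
    ((4 * ∑ j ∈ range M, ∑ i ∈ range j, l i * k j : ℕ) : ℤ) ≤
      ∑ x ∈ Ioo 0 (Xw k M), 2 * dep k l M x := by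
  have hx1 : 0 < xs k M := by
    have := xs_mono (k := k) (show 1 ≤ M from hM)
    rw [xs_succ, xs_zero] at this
    have hk0 := hk 0 (by omega)
    have : (1 : ℤ) ≤ k 0 := by exact_mod_cast hk0
    omega
  have h1 := sum_half (l := l) hk M le_rfl
  have e1 : ((4 * ∑ j ∈ range M, ∑ i ∈ range j, l i * k j : ℕ) : ℤ) =
      4 * ∑ j ∈ range M, (k j : ℤ) * ys l j := by
    push_cast
    congr 1
    apply Finset.sum_congr rfl
    intro j _
    unfold ys
    push_cast
    rw [Finset.mul_sum]
    apply Finset.sum_congr rfl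
    intro i _
    ring
  rw [e1, ← Finset.mul_sum]
  have hsub : Ioo 0 (xs k M) ∪ Ioo (xs k M) (Xw k M) ⊆ Ioo 0 (Xw k M) := by
    intro x hx
    rw [mem_union, mem_Ioo, mem_Ioo] at hx
    rw [mem_Ioo]
    unfold Xw at *
    omega
  have hdis : Disjoint (Ioo 0 (xs k M)) (Ioo (xs k M) (Xw k M)) := by
    rw [Finset.disjoint_left]
    intro x hx hx'
    rw [mem_Ioo] at hx hx'
    omega
  have h2 : ∑ x ∈ Ioo 0 (xs k M) ∪ Ioo (xs k M) (Xw k M), dep k l M x ≤
      ∑ x ∈ Ioo 0 (Xw k M), dep k l M x := by
    apply Finset.sum_le_sum_of_subset_of_nonneg hsub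
    intro x _ _
    have := one_le_dep (k := k) (l := l) (M := M) x
    omega
  rw [sum_union hdis] at h2
  have h3 : ∑ x ∈ Ioo (xs k M) (Xw k M), dep k l M x = ∑ x ∈ Ioo 0 (xs k M), dep k l M x := by
    apply Finset.sum_bij (fun x _ => Xw k M - x)
    · intro x hx
      rw [mem_Ioo] at hx ⊢
      unfold Xw at *
      omega
    · intro x _ y _ h
      omega
    · intro y hy
      rw [mem_Ioo] at hy
      refine ⟨Xw k M - y, ?_, by ring⟩
      rw [mem_Ioo]
      unfold Xw at *
      omega
    · intro x _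
      exact (dep_symm x).symm
  rw [h3] at h2
  linarith

end Pool.Agent.K6.H23.WA.P3
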