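import Pool.Agent.K6.H23.WA.PieceP1
import Pool.Agent.K6.H23.WA.P3a

/-!
Convex chains of self-avoiding words.
-/

set_option autoImplicit false
namespace Pool.Agent.K6.H23.WA
open Pool.Agent.TH795.EP Pool.Agent.TH795.EP2 Pool.Agent.TH795.SE2 Pool.Agent.TH262.SawL H981 Finset
open Pool.Agent.Y981.L2 (Rate an ln)
open Pool.Agent.K6.H5.JW (ps)

namespace P3

theorem wr_zero {R : ℤ × ℤ → Prop} (hR : R (0, 0)) : 1 ≤ wr R (0, 0) 0 := by
  unfold wr
  rw [Nat.succ_le_iff, Finset.card_pos]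
  refine ⟨[], mem_fs.2 ⟨⟨saw_nil, rfl, rfl, fun i => ?_⟩, rfl⟩⟩
  have : path ([] : List St) i = (0, 0) := by
    unfold path
    rw [List.take_nil]
    rfl
  rw [this]
  exact hR

theorem run {n : ℕ} (hn : 2 ≤ n) {K K1 : ℝ} (hK : Up n K)
    (R : ℤ × ℤ → Prop) (z w : ℕ → ℤ × ℤ) (ml : ℕ → ℕ) (B : ℕ → ℝ) (L : ℕ)
    (hz0 : z 0 = (0, 0)) (hz : ∀ s < L, z (s + 1) = ((z s).1 + (w s).1, (z s).2 + (w s).2))
    (hR0 : R (0, 0))
    (hR : ∀ s < L, ∀ p, ps (w s).1 (w s).2 p ≤ 0 → R ((z s).1 + p.1, (z s).2 + p.2))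
    (hml : ∑ s ∈ range L, ml s ≤ n)
    (hw : ∀ s < L, ∃ m' ≤ ml s, mu ^ m' * Real.exp (-(B s + K1 * Real.log n ^ 2)) ≤
      wr (fun p => ps (w s).1 (w s).2 p ≤ 0) (w s) m') :
    ∀ S ≤ L, ∃ m' ≤ ∑ s ∈ range S, ml s,
      mu ^ m' * Real.exp (-(∑ s ∈ range S, B s + S * (K1 + (2 * K + 13)) * Real.log n ^ 2)) ≤
        wr R (z S) m' := by
  intro S
  induction S with
  | zero =>
    intro _
    refine ⟨0, le_rfl, ?_⟩
    rw [hz0]
    have h1 := wr_zero hR0
    have h2 : (1 : ℝ) ≤ wr R (0, 0) 0 := by exact_mod_cast h1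
    simpa using h2
  | succ S ih =>
    intro hS
    obtain ⟨m1, hm1, g1⟩ := ih (by omega)
    obtain ⟨m2, hm2, g2⟩ := hw S (by omega)
    have hle : ∑ s ∈ range (S + 1), ml s ≤ n :=
      (Finset.sum_le_sum_of_subset (range_subset_range.2 hS)).trans hml
    rw [sum_range_succ] at hle
    obtain ⟨m, hm, g⟩ := glue_region hn hK (R1 := R) (R := R) (z1 := z S) (z2 := w S)
      (fun p hp => hp) (fun p hp => hR S (by omega) p hp) (by omega) (by omega) g1 g2
    refine ⟨m, ?_, ?_⟩
    · rw [sum_range_succ]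
      omega
    · rw [hz S (by omega)]
      refine le_trans (le_of_eq ?_) g
      congr 2
      rw [sum_range_succ]
      push_cast
      ring

theorem sum_refl {α : Type*} [AddCommMonoid α] (g : ℕ → α) (M : ℕ) :
    ∑ s ∈ range (2 * M), (if s < M then g s else g (2 * M - 1 - s)) =
      ∑ i ∈ range M, g i + ∑ i ∈ range M, g i := by
  rw [two_mul, sum_range_add]
  congr 1
  · apply Finset.sum_congr rfl
    intro s hs
    rw [if_pos (mem_range.1 hs)]
  · rw [← Finset.sum_range_reflect]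
    apply Finset.sum_congr rfl
    intro s hs
    have := mem_range.1 hs
    rw [if_neg (by omega)]
    congr 1
    omega

end P3

open P3 in
/-- PIECE P3 -/
theorem chain : ∃ K : ℝ, 0 ≤ K ∧ ∀ n : ℕ, 2 ≤ n → ∀ M : ℕ, 1 ≤ M → ∀ k l m : ℕ → ℕ,
    (∀ i < M, 1 ≤ k i ∧ 1 ≤ l i ∧ 2 ≤ m i ∧ (k i + l i) % 2 = m i % 2 ∧ k i + l i ≤ m i) →
    (∀ i j, i ≤ j → j < M → l j * k i ≤ l i * k j) → 2 * ∑ i ∈ range M, m i ≤ n →
    ∃ (X : ℤ) (D : ℤ → ℤ), 2 ≤ X ∧ (∀ x, 0 < x → x < X → 1 ≤ D x ∧ D (X - x) = D x) ∧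
      ((4 * ∑ j ∈ range M, ∑ i ∈ range j, l i * k j : ℕ) : ℤ) ≤ ∑ x ∈ Ioo 0 X, 2 * D x ∧
      ∃ m' ≤ 2 * ∑ i ∈ range M, m i, mu ^ m' *
        Real.exp (-(2 * ∑ i ∈ range M, m i * Rate ((k i : ℝ) / m i, (l i : ℝ) / m i) +
          K * M * Real.log n ^ 2)) ≤ ss X D m' := by
  obtain ⟨K1, hK1, hline⟩ := wr_line
  obtain ⟨K, hK0, hUp, -⟩ := exists_K
  refine ⟨2 * (K1 + (2 * K + 13)), by positivity, ?_⟩
  intro n hn M hM k l m hklm hc hmn
  have hk : ∀ i < M, 1 ≤ k i := fun i hi => (hklm i hi).1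
  have hl : ∀ i < M, 1 ≤ l i := fun i hi => (hklm i hi).2.1
  have hx1 : 1 ≤ xs k M := by
    have := xs_mono (k := k) (show 1 ≤ M from hM)
    rw [xs_succ, xs_zero] at this
    have : (1 : ℤ) ≤ k 0 := by exact_mod_cast hk 0 (by omega)
    omega
  refine ⟨Xw k M, dep k l M, by unfold Xw; omega,
    fun x _ _ => ⟨one_le_dep x, dep_symm x⟩, cells hk hM, ?_⟩
  set R : ℤ × ℤ → Prop := fun p => 0 < p.1 → p.1 < Xw k M → p.2 ≤ -dep k l M p.1 with hRdef
  set w : ℕ → ℤ × ℤ := fun s => if s < M then ((k s : ℤ), -(l s : ℤ)) else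
    ((k (2 * M - 1 - s) : ℤ), (l (2 * M - 1 - s) : ℤ)) with hw
  set z : ℕ → ℤ × ℤ := fun s => if s < M then (xs k s, -(ys l s : ℤ)) else
    (Xw k M - xs k (2 * M - s), -(ys l (2 * M - s) : ℤ)) with hz
  set ml : ℕ → ℕ := fun s => if s < M then m s else m (2 * M - 1 - s) with hml
  set B : ℕ → ℝ := fun s => if s < M then m s * Rate ((k s : ℝ) / m s, (l s : ℝ) / m s) else
    m (2 * M - 1 - s) * Rate ((k (2 * M - 1 - s) : ℝ) / m (2 * M - 1 - s),
      (l (2 * M - 1 - s) : ℝ) / m (2 * M - 1 - s)) with hB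
  have hmlsum : ∑ s ∈ range (2 * M), ml s = 2 * ∑ i ∈ range M, m i := by
    rw [hml, sum_refl m M]; ring
  have hBsum : ∑ s ∈ range (2 * M), B s =
      2 * ∑ i ∈ range M, m i * Rate ((k i : ℝ) / m i, (l i : ℝ) / m i) := by
    rw [hB, sum_refl (fun i => m i * Rate ((k i : ℝ) / m i, (l i : ℝ) / m i)) M]; ring
  have hmi : ∀ i < M, m i ≤ n := by
    intro i hi
    have := Finset.single_le_sum (f := m) (fun j _ => Nat.zero_le _) (mem_range.2 hi)
    omega
  have hrun := run hn (K := K) (K1 := K1) (fun j hj => hUp n hn j hj) R z w ml B (2 * M)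
    ?_ ?_ ?_ ?_ (by rw [hmlsum]; exact hmn) ?_ (2 * M) le_rfl
  · obtain ⟨m', hm', g⟩ := hrun
    refine ⟨m', by rw [← hmlsum]; exact hm', ?_⟩
    have hz2 : z (2 * M) = (Xw k M, 0) := by
      simp only [hz]
      rw [if_neg (by omega), Nat.sub_self, xs_zero, ys_zero]
      simp
    rw [hz2, hBsum] at g
    have e : wr R (Xw k M, 0) m' = ss (Xw k M) (dep k l M) m' := rfl
    rw [e] at g
    refine le_trans (le_of_eq ?_) g
    congr 2
    push_cast
    ring
  · simp only [hz]
    rw [if_pos (by omega), xs_zero, ys_zero]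
    simp
  · intro s hs
    simp only [hz, hw]
    rcases lt_trichotomy (s + 1) M with h | h | h
    · rw [if_pos h, if_pos (by omega), if_pos (by omega), xs_succ, ys_succ]
      push_cast
      simp only [Prod.mk.injEq]
      constructor <;> first | trivial | ring
    · rw [if_neg (by omega), if_pos (by omega), if_pos (by omega)]
      have e : 2 * M - (s + 1) = s + 1 := by omega
      have e2 : M = s + 1 := h.symm
      rw [e, xs_succ, ys_succ]
      unfold Xw
      rw [e2, xs_succ]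
      push_cast
      simp only [Prod.mk.injEq]
      constructor <;> first | trivial | ring
    · rw [if_neg (by omega), if_neg (by omega), if_neg (by omega)]
      have e : 2 * M - s = (2 * M - (s + 1)) + 1 := by omega
      have e2 : 2 * M - 1 - s = 2 * M - (s + 1) := by omega
      rw [e, e2, xs_succ, ys_succ]
      push_cast
      simp only [Prod.mk.injEq]
      constructor <;> first | trivial | ring
  · intro h
    exact absurd h (lt_irrefl _)
  · intro s hs p hp h1 h2
    simp only [hz, hw] at hp h1 h2 ⊢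
    rcases lt_or_ge s M with h | h
    · rw [if_pos h] at hp h1 h2 ⊢
      simp only at hp h1 h2 ⊢
      unfold ps at hp
      refine below hk hl hc h ?_ h1
      linarith
    · rw [if_neg (by omega)] at hp h1 h2 ⊢
      simp only at hp h1 h2 ⊢
      unfold ps at hp
      have hi : 2 * M - 1 - s < M := by omega
      have e : 2 * M - s = (2 * M - 1 - s) + 1 := by omega
      set i := 2 * M - 1 - s with hidef
      rw [e, xs_succ] at h1 h2 ⊢
      rw [ys_succ]
      push_cast
      have hb := below (k := k) (l := l) (M := M) hk hl hc hi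
        (x := Xw k M - (Xw k M - (xs k i + k i) + p.1)) (y := -((ys l i : ℤ) + l i) + p.2)
        (by linarith) (by linarith)
      rw [dep_symm] at hb
      exact hb
  · intro s hs
    have key : ∀ i < M, ∀ sg : ℤ, (sg = 1 ∨ sg = -1) → ∃ m' ≤ m i,
        mu ^ m' * Real.exp (-(m i * Rate ((k i : ℝ) / m i, (l i : ℝ) / m i) +
          K1 * Real.log n ^ 2)) ≤
        wr (fun p => ps (k i) (sg * l i) p ≤ 0) ((k i : ℤ), sg * l i) m' := by
      intro i hi sg hsg
      obtain ⟨h1, h2, h3, h4, h5⟩ := hklm i hi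
      have hm0 : (0 : ℝ) < m i := by
        have : 0 < m i := by omega
        exact_mod_cast this
      obtain ⟨m', hm', g⟩ := hline n hn (m i) h3 (hmi i hi) (k i) (sg * l i)
        (by
          intro h
          rw [Prod.mk.injEq] at h
          have := h.1
          omega)
        (by rcases hsg with rfl | rfl <;> omega)
        (by
          have e1 : |sg * (l i : ℤ)| = l i := by
            rcases hsg with rfl | rfl
            · rw [one_mul, abs_of_nonneg (by positivity)]
            · rw [neg_one_mul, abs_neg, abs_of_nonneg (by positivity)]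
          rw [e1, abs_of_nonneg (by positivity)]
          exact_mod_cast h5)
      refine ⟨m', hm', ?_⟩
      have er : Rate (((k i : ℤ) : ℝ) / m i, ((sg * (l i : ℤ) : ℤ) : ℝ) / m i) =
          Rate ((k i : ℝ) / m i, (l i : ℝ) / m i) := by
        have ha1 : |((k i : ℤ) : ℝ) / m i| = (k i : ℝ) / m i := by
          rw [Int.cast_natCast, abs_of_nonneg (by positivity)]
        have ha2 : |((sg * (l i : ℤ) : ℤ) : ℝ) / m i| = (l i : ℝ) / m i := by
          rcases hsg with rfl | rfl
          · rw [one_mul, Int.cast_natCast, abs_of_nonneg (by positivity)]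
          · rw [neg_one_mul, Int.cast_neg, Int.cast_natCast, neg_div, abs_neg,
              abs_of_nonneg (by positivity)]
        have hd : (((k i : ℤ) : ℝ) / m i, ((sg * (l i : ℤ) : ℤ) : ℝ) / m i) ∈
            Pool.Agent.Y981.L2.Dia := by
          change |((k i : ℤ) : ℝ) / m i| + |((sg * (l i : ℤ) : ℤ) : ℝ) / m i| ≤ 1
          rw [ha1, ha2, ← add_div, div_le_one hm0]
          exact_mod_cast h5
        have := Pool.Agent.K6.H5.JW.rate_abs _ hd
        rw [← this]
        simp only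
        rw [ha1, ha2]
      rw [er] at g
      exact g
    simp only [hw, hml, hB]
    rcases lt_or_ge s M with h | h
    · have hk1 := key s h (-1) (Or.inr rfl)
      simp only [neg_one_mul] at hk1
      simp only [if_pos h]
      exact hk1
    · have hk1 := key (2 * M - 1 - s) (by omega) 1 (Or.inl rfl)
      simp only [one_mul] at hk1
      simp only [if_neg (show ¬ s < M by omega)]
      exact hk1

end Pool.Agent.K6.H23.WA
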