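import Pool.Agent.K6.H23.WA.Defs

/-!
# Piece A: the area of a loop is bounded by a sampled sum
-/

set_option autoImplicit false

namespace Pool.Agent.K6.H23.WA.PA

open Finset

/-- the `k`-th edge crosses the column `a` -/
def Cr (m : ℕ) (f : ZMod m → ℤ × ℤ) (a : ℤ) (k : ZMod m) : Prop :=
  ((f k).1 = a ∧ (f (k + 1)).1 = a + 1) ∨ ((f k).1 = a + 1 ∧ (f (k + 1)).1 = a)

lemma even_cr {m : ℕ} [NeZero m] {f : ZMod m → ℤ × ℤ} (hs : NN m f) (a : ℤ) :
    Even (Nat.card {k : ZMod m // Cr m f a k}) := by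
  classical
  have h1 : ((Nat.card {k : ZMod m // Cr m f a k} : ℕ) : ZMod 2) = 0 := by
    rw [Nat.card_eq_fintype_card, Fintype.card_subtype]
    let g : ZMod m → ZMod 2 := fun k => if (f k).1 ≤ a then 1 else 0
    have h2 : ∀ k, (g (k + 1) + g k) = if Cr m f a k then 1 else 0 := by
      intro k
      have hk := hs k
      have h0 : |(f (k + 1)).1 - (f k).1| ≤ 1 := by
        have := abs_nonneg ((f (k + 1)).2 - (f k).2)
        linarith
      rw [abs_le] at h0
      by_cases c1 : (f k).1 ≤ a
      · by_cases c2 : (f (k + 1)).1 ≤ a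
        · have : ¬ Cr m f a k := by
            rintro (⟨h, h'⟩ | ⟨h, h'⟩) <;> omega
          rw [if_neg this]
          show (if (f (k + 1)).1 ≤ a then (1 : ZMod 2) else 0) +
            (if (f k).1 ≤ a then (1 : ZMod 2) else 0) = 0
          rw [if_pos c1, if_pos c2]
          decide
        · have : Cr m f a k := by
            left
            constructor <;> omega
          rw [if_pos this]
          show (if (f (k + 1)).1 ≤ a then (1 : ZMod 2) else 0) +
            (if (f k).1 ≤ a then (1 : ZMod 2) else 0) = 1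
          rw [if_pos c1, if_neg c2, zero_add]
      · by_cases c2 : (f (k + 1)).1 ≤ a
        · have : Cr m f a k := by
            right
            constructor <;> omega
          rw [if_pos this]
          show (if (f (k + 1)).1 ≤ a then (1 : ZMod 2) else 0) +
            (if (f k).1 ≤ a then (1 : ZMod 2) else 0) = 1
          rw [if_neg c1, if_pos c2, add_zero]
        · have : ¬ Cr m f a k := by
            rintro (⟨h, h'⟩ | ⟨h, h'⟩) <;> omega
          rw [if_neg this]
          show (if (f (k + 1)).1 ≤ a then (1 : ZMod 2) else 0) +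
            (if (f k).1 ≤ a then (1 : ZMod 2) else 0) = 0
          rw [if_neg c1, if_neg c2, add_zero]
    have h3 : ∑ k, (g (k + 1) + g k) = 0 := by
      rw [Finset.sum_add_distrib]
      have h4 : ∑ k, g (k + 1) = ∑ k, g k :=
        Fintype.sum_equiv (Equiv.addRight 1) _ _ (fun k => rfl)
      have h5 : (2 : ZMod 2) = 0 := by decide
      rw [h4, ← two_mul, h5, zero_mul]
    rw [Finset.card_filter]
    push_cast
    refine Eq.trans ?_ h3
    exact Finset.sum_congr rfl fun k _ => (h2 k).symm
  exact (ZMod.natCast_eq_zero_iff_even).1 h1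

lemma lip {m : ℕ} {f : ZMod m → ℤ × ℤ} (hs : NN m f) (n : ℕ) : ∀ k : ℕ,
    |(f ((n + k : ℕ) : ZMod m)).1 - (f (n : ZMod m)).1| ≤ k ∧
    |(f ((n + k : ℕ) : ZMod m)).2 - (f (n : ZMod m)).2| ≤ k := by
  intro k
  induction k with
  | zero => simp
  | succ k ih =>
    have hk := hs ((n + k : ℕ) : ZMod m)
    have e : (((n + k : ℕ) : ZMod m)) + 1 = ((n + (k + 1) : ℕ) : ZMod m) := by
      push_cast
      ring
    rw [e] at hk
    have a1 := abs_nonneg ((f ((n + (k + 1) : ℕ) : ZMod m)).1 - (f ((n + k : ℕ) : ZMod m)).1)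
    have a2 := abs_nonneg ((f ((n + (k + 1) : ℕ) : ZMod m)).2 - (f ((n + k : ℕ) : ZMod m)).2)
    have b1 := abs_sub_le (f ((n + (k + 1) : ℕ) : ZMod m)).1 (f ((n + k : ℕ) : ZMod m)).1
      (f (n : ZMod m)).1
    have b2 := abs_sub_le (f ((n + (k + 1) : ℕ) : ZMod m)).2 (f ((n + k : ℕ) : ZMod m)).2
      (f (n : ZMod m)).2
    obtain ⟨i1, i2⟩ := ih
    constructor
    · push_cast
      push_cast at *
      linarith
    · push_cast
      push_cast at *
      linarith

lemma card_sdiff_le (p q L : ℤ) : (((Icc p (p + L)) \ (Icc q (q + L))).card : ℤ) ≤ |q - p| := by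
  rcases le_total p q with h | h
  · have h1 : (Icc p (p + L)) \ (Icc q (q + L)) ⊆ Ico p q := by
      intro x hx
      rw [mem_sdiff, mem_Icc, mem_Icc] at hx
      rw [mem_Ico]
      omega
    have h2 := card_le_card h1
    rw [Int.card_Ico] at h2
    rw [abs_of_nonneg (by omega)]
    omega
  · have h1 : (Icc p (p + L)) \ (Icc q (q + L)) ⊆ Ioc (q + L) (p + L) := by
      intro x hx
      rw [mem_sdiff, mem_Icc, mem_Icc] at hx
      rw [mem_Ioc]
      omega
    have h2 := card_le_card h1
    rw [Int.card_Ioc] at h2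
    rw [abs_of_nonpos (by omega)]
    omega

lemma exists_idx {T : ℕ → ℕ} (i0 k : ℕ) (h0 : T i0 ≤ k) : ∀ j, k < T (i0 + j) →
    ∃ i, i0 ≤ i ∧ i < i0 + j ∧ T i ≤ k ∧ k < T (i + 1) := by
  intro j
  induction j with
  | zero =>
    intro h
    rw [add_zero] at h
    omega
  | succ j ih =>
    intro h
    by_cases h1 : k < T (i0 + j)
    · obtain ⟨i, a, b, c, d⟩ := ih h1
      exact ⟨i, a, by omega, c, d⟩
    · exact ⟨i0 + j, by omega, by omega, by omega, h⟩

lemma up_bound {m : ℕ} [NeZero m] {f : ZMod m → ℤ × ℤ} (hs : NN m f) {M r : ℕ}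
    {T : ℕ → ℕ} (hT : Samp m M r T) (i0 : ℕ) (c : ℤ)
    (hc : (f ((T i0 : ℕ) : ZMod m)).2 = c) :
    ∃ U : Finset (ℤ × ℤ), (∀ a b : ℤ, c ≤ b → (∃ k, Cr m f a k ∧ b < (f k).2) → (a, b) ∈ U) ∧
      (U.card : ℤ) ≤ ∑ i ∈ Ico i0 (i0 + M),
        hX f T i * max ((f ((T i : ℕ) : ZMod m)).2 - c) 0 + (3 * r + 2) * m := by
  classical
  set x : ℕ → ℤ := fun i => (f ((T i : ℕ) : ZMod m)).1 with hx
  set h : ℕ → ℤ := fun i => (f ((T i : ℕ) : ZMod m)).2 with hh
  let I : ℕ → Finset ℤ := fun i => Icc (x i - r - 1) (x i - r - 1 + (2 * r + 1))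
  let J : ℕ → ℤ → Finset ℤ := fun i b => if b < h (i + 1) then I i \ I (i + 1) else I i
  let U1 : Finset (ℤ × ℤ) :=
    (univ.image fun k : ZMod m => min (f k).1 (f (k + 1)).1) ×ˢ Ico c (c + r)
  let U2 : Finset (ℤ × ℤ) := (Ico i0 (i0 + M)).biUnion fun i =>
    (Ico c (h i)).biUnion fun b => (J i b).image fun a => (a, b + r)
  have hper : h (i0 + M) = c := by
    show (f ((T (i0 + M) : ℕ) : ZMod m)).2 = c
    rw [hT.per, ← hc]
    congr 2
    push_cast
    simp
  refine ⟨U1 ∪ U2, ?_, ?_⟩
  · rintro a b hcb ⟨k, hk, hbk⟩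
    rw [mem_union]
    by_cases hbr : b < c + r
    · left
      rw [mem_product, mem_Ico, mem_image]
      refine ⟨⟨k, mem_univ _, ?_⟩, hcb, hbr⟩
      rcases hk with ⟨h1, h2⟩ | ⟨h1, h2⟩
      · rw [h1, h2]
        exact min_eq_left (by omega)
      · rw [h1, h2]
        exact min_eq_right (by omega)
    · right
      -- the lift of `k`
      set k' : ℕ := T i0 + (k - ((T i0 : ℕ) : ZMod m)).val with hk'
      have hkk : ((k' : ℕ) : ZMod m) = k := by
        rw [hk']
        push_cast
        rw [ZMod.natCast_zmod_val]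
        ring
      have hlt : k' < T (i0 + M) := by
        rw [hT.per, hk']
        have := ZMod.val_lt (k - ((T i0 : ℕ) : ZMod m))
        omega
      obtain ⟨i, hi1, hi2, hi3, hi4⟩ := exists_idx i0 k' (by omega) M hlt
      have hgap := hT.gap i
      obtain ⟨l1, l2⟩ := lip hs (T i) (k' - T i)
      have e : T i + (k' - T i) = k' := by omega
      rw [e, hkk] at l1 l2
      have hki : ((k' - T i : ℕ) : ℤ) ≤ r := by omega
      rw [abs_le] at l1 l2
      have hP : i ∈ (Ico i0 (i0 + M)).filter (fun i => b - r < h i ∧ a ∈ I i) := by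
        rw [mem_filter, mem_Ico]
        refine ⟨⟨hi1, hi2⟩, ?_, ?_⟩
        · show b - r < (f ((T i : ℕ) : ZMod m)).2
          omega
        · rw [mem_Icc]
          show (f ((T i : ℕ) : ZMod m)).1 - r - 1 ≤ a ∧
            a ≤ (f ((T i : ℕ) : ZMod m)).1 - r - 1 + (2 * r + 1)
          rcases hk with ⟨h1, h2⟩ | ⟨h1, h2⟩
          · constructor <;> omega
          · constructor <;> omega
      obtain ⟨j, hj, hjmax⟩ := Finset.exists_max_image _ (fun i => i) ⟨i, hP⟩
      rw [mem_filter, mem_Ico] at hj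
      obtain ⟨⟨hj1, hj2⟩, hj3, hj4⟩ := hj
      rw [mem_biUnion]
      refine ⟨j, mem_Ico.2 ⟨hj1, hj2⟩, ?_⟩
      rw [mem_biUnion]
      refine ⟨b - r, mem_Ico.2 ⟨by omega, hj3⟩, ?_⟩
      rw [mem_image]
      refine ⟨a, ?_, by rw [sub_add_cancel]⟩
      show a ∈ (if b - r < h (j + 1) then I j \ I (j + 1) else I j)
      split_ifs with hc1
      · rw [mem_sdiff]
        refine ⟨hj4, fun hcon => ?_⟩
        have hjM : j + 1 < i0 + M := by
          rcases Nat.lt_or_ge (j + 1) (i0 + M) with h5 | h5
          · exact h5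
          · have : j + 1 = i0 + M := by omega
            rw [this, hper] at hc1
            omega
        have := hjmax (j + 1) (by
          rw [mem_filter, mem_Ico]
          exact ⟨⟨by omega, hjM⟩, hc1, hcon⟩)
        simp at this
      · exact hj4
  · have hU1 : (U1.card : ℤ) ≤ r * m := by
      have h1 : U1.card = (univ.image fun k : ZMod m => min (f k).1 (f (k + 1)).1).card *
          (Ico c (c + r)).card := card_product _ _
      have h2 : (univ.image fun k : ZMod m => min (f k).1 (f (k + 1)).1).card ≤ m := by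
        refine card_image_le.trans ?_
        rw [card_univ, ZMod.card]
      have h3 : (Ico c (c + r)).card = r := by
        rw [Int.card_Ico]
        omega
      rw [h1, h3]
      have : (univ.image fun k : ZMod m => min (f k).1 (f (k + 1)).1).card * r ≤ m * r :=
        Nat.mul_le_mul_right _ h2
      calc (((univ.image fun k : ZMod m => min (f k).1 (f (k + 1)).1).card * r : ℕ) : ℤ)
          ≤ ((m * r : ℕ) : ℤ) := by exact_mod_cast this
        _ = r * m := by push_cast; ring
    have hJ : ∀ i b, ((J i b).card : ℤ) ≤ hX f T i + if h (i + 1) ≤ b then (2 * r + 2 : ℤ) else 0 := by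
      intro i b
      show (((if b < h (i + 1) then I i \ I (i + 1) else I i : Finset ℤ).card : ℕ) : ℤ) ≤ _
      have hX0 : 0 ≤ hX f T i := abs_nonneg _
      split_ifs with h1 h2 h2
      · omega
      · have := card_sdiff_le (x i - r - 1) (x (i + 1) - r - 1) (2 * r + 1)
        have e : |x (i + 1) - r - 1 - (x i - r - 1)| = hX f T i := by
          unfold hX
          congr 1
          show x (i + 1) - r - 1 - (x i - r - 1) = x (i + 1) - x i
          ring
        rw [e] at this
        rw [add_zero]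
        exact this
      · have : (I i).card = 2 * r + 2 := by
          show (Icc (x i - r - 1) (x i - r - 1 + (2 * r + 1))).card = _
          rw [Int.card_Icc]
          omega
        rw [this]
        push_cast
        linarith
      · omega
    have hin : ∀ i, ((((Ico c (h i)).biUnion fun b => (J i b).image fun a => (a, b + (r : ℤ))).card
        : ℕ) : ℤ) ≤ hX f T i * max (h i - c) 0 + (2 * r + 2) * ((T (i + 1) : ℤ) - T i) := by
      intro i
      have h1 : ((((Ico c (h i)).biUnion fun b => (J i b).image fun a => (a, b + (r : ℤ))).card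
          : ℕ) : ℤ) ≤ ∑ b ∈ Ico c (h i), (hX f T i + if h (i + 1) ≤ b then (2 * r + 2 : ℤ) else 0) := by
        have h2 := card_biUnion_le (s := Ico c (h i))
          (t := fun b => (J i b).image fun a => (a, b + (r : ℤ)))
        calc ((((Ico c (h i)).biUnion fun b => (J i b).image fun a => (a, b + (r : ℤ))).card
          : ℕ) : ℤ) ≤ ((∑ b ∈ Ico c (h i), ((J i b).image fun a => (a, b + (r : ℤ))).card : ℕ) : ℤ) := by
              exact_mod_cast h2
          _ = ∑ b ∈ Ico c (h i), (((J i b).image fun a => (a, b + (r : ℤ))).card : ℤ) := by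
              push_cast
              rfl
          _ ≤ _ := by
              refine sum_le_sum fun b _ => ?_
              refine le_trans ?_ (hJ i b)
              exact_mod_cast card_image_le
      refine h1.trans ?_
      rw [sum_add_distrib, sum_const, ← sum_filter, sum_const, nsmul_eq_mul, nsmul_eq_mul]
      have h3 : ((Ico c (h i)).card : ℤ) = max (h i - c) 0 := by
        rw [Int.card_Ico, Int.toNat_eq_max]
      have h4 : (((Ico c (h i)).filter fun b => h (i + 1) ≤ b).card : ℤ) ≤ (T (i + 1) : ℤ) - T i := by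
        have h5 : ((Ico c (h i)).filter fun b => h (i + 1) ≤ b) ⊆ Ico (h (i + 1)) (h i) := by
          intro b hb
          rw [mem_filter, mem_Ico] at hb
          rw [mem_Ico]
          omega
        have h6 := card_le_card h5
        rw [Int.card_Ico] at h6
        have h7 := (lip hs (T i) (T (i + 1) - T i)).2
        have hmono := hT.mono i
        have e : T i + (T (i + 1) - T i) = T (i + 1) := by omega
        rw [e, abs_le] at h7
        have h8 : h (i + 1) - h i ≤ ((T (i + 1) - T i : ℕ) : ℤ) ∧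
          -((T (i + 1) - T i : ℕ) : ℤ) ≤ h (i + 1) - h i := ⟨h7.2, h7.1⟩
        omega
      rw [h3]
      have h9 : ((((Ico c (h i)).filter fun b => h (i + 1) ≤ b).card : ℕ) : ℤ) * (2 * r + 2) ≤
          ((T (i + 1) : ℤ) - T i) * (2 * r + 2) :=
        mul_le_mul_of_nonneg_right h4 (by positivity)
      linarith
    have hU2 : (U2.card : ℤ) ≤ ∑ i ∈ Ico i0 (i0 + M), hX f T i * max (h i - c) 0 +
        (2 * r + 2) * m := by
      have h1 : (U2.card : ℤ) ≤ ∑ i ∈ Ico i0 (i0 + M),
          (hX f T i * max (h i - c) 0 + (2 * r + 2) * ((T (i + 1) : ℤ) - T i)) := by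
        have h2 := card_biUnion_le (s := Ico i0 (i0 + M)) (t := fun i =>
          (Ico c (h i)).biUnion fun b => (J i b).image fun a => (a, b + (r : ℤ)))
        calc (U2.card : ℤ) ≤ ((∑ i ∈ Ico i0 (i0 + M), ((Ico c (h i)).biUnion fun b =>
                (J i b).image fun a => (a, b + (r : ℤ))).card : ℕ) : ℤ) := by
              exact_mod_cast h2
          _ = ∑ i ∈ Ico i0 (i0 + M), ((((Ico c (h i)).biUnion fun b =>
                (J i b).image fun a => (a, b + (r : ℤ))).card : ℕ) : ℤ) := by
              push_cast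
              rfl
          _ ≤ _ := sum_le_sum fun i _ => hin i
      refine h1.trans (le_of_eq ?_)
      rw [sum_add_distrib, ← mul_sum]
      congr 2
      rw [sum_Ico_eq_sum_range, Nat.add_sub_cancel_left]
      have := sum_range_sub (fun i => (T (i0 + i) : ℤ)) M
      rw [add_zero] at this
      have e : ∑ k ∈ range M, ((T (i0 + k + 1) : ℤ) - T (i0 + k)) =
          ∑ k ∈ range M, ((T (i0 + (k + 1)) : ℤ) - T (i0 + k)) := rfl
      rw [e, this, hT.per]
      push_cast
      ring
    have h3 : ((U1 ∪ U2).card : ℤ) ≤ U1.card + U2.card := by exact_mod_cast card_union_le _ _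
    calc ((U1 ∪ U2).card : ℤ) ≤ U1.card + U2.card := h3
      _ ≤ r * m + (∑ i ∈ Ico i0 (i0 + M), hX f T i * max (h i - c) 0 + (2 * r + 2) * m) :=
          add_le_add hU1 hU2
      _ = _ := by ring

end Pool.Agent.K6.H23.WA.PA

namespace Pool.Agent.K6.H23.WA

open Finset Pool.Agent.K6.H23.WA.PA

/-- PIECE A -/
theorem area_sample {m : ℕ} [NeZero m] {f : ZMod m → ℤ × ℤ} (hs : NN m f) {M r : ℕ} (hM : 1 ≤ M)
    (hr : 1 ≤ r) {T : ℕ → ℕ} (hT : Samp m M r T) (i0 : ℕ) :
    (area m f : ℤ) ≤ ∑ i ∈ Ico i0 (i0 + M),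
      hX f T i * |(f ((T i : ℕ) : ZMod m)).2 - (f ((T i0 : ℕ) : ZMod m)).2| + 16 * r * m := by
  classical
  set c : ℤ := (f ((T i0 : ℕ) : ZMod m)).2 with hc
  obtain ⟨U, hU1, hU2⟩ := up_bound hs hT i0 c hc.symm
  let f' : ZMod m → ℤ × ℤ := fun k => ((f k).1, -(f k).2)
  have hs' : NN m f' := by
    intro k
    have := hs k
    show |(f (k + 1)).1 - (f k).1| + |-(f (k + 1)).2 - -(f k).2| = 1
    have e : -(f (k + 1)).2 - -(f k).2 = -((f (k + 1)).2 - (f k).2) := by ring
    rw [e, abs_neg]
    exact this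
  obtain ⟨V, hV1, hV2⟩ := up_bound hs' hT i0 (-c) rfl
  have hsub : ∀ p : ℤ × ℤ, Encl m f p → p ∈ U ∪ V.image fun q => (q.1, -q.2 - 1) := by
    rintro ⟨a, b⟩ hp
    rw [mem_union]
    by_cases hb : c ≤ b
    · left
      apply hU1 a b hb
      by_contra hcon
      push Not at hcon
      have : IsEmpty {k : ZMod m // Above m f a b k} := by
        constructor
        rintro ⟨k, hk⟩
        have := hcon k hk.1
        have h2 := hk.2
        omega
      have hp' : Odd (Nat.card {k : ZMod m // Above m f a b k}) := hp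
      rw [Nat.card_of_isEmpty] at hp'
      exact absurd hp' (by decide)
    · right
      rw [mem_image]
      refine ⟨(a, -b - 1), ?_, by simp⟩
      apply hV1 a (-b - 1) (by omega)
      by_contra hcon
      push Not at hcon
      have hall : ∀ k : ZMod m, Above m f a b k ↔ Cr m f a k := by
        intro k
        constructor
        · exact fun h => h.1
        · intro h
          refine ⟨h, ?_⟩
          have h2 := hcon k h
          have h3 : (f' k).2 = -(f k).2 := rfl
          rw [h3] at h2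
          omega
      have hp' : Odd (Nat.card {k : ZMod m // Above m f a b k}) := hp
      have he := even_cr hs a
      rw [Nat.card_congr (Equiv.subtypeEquivRight hall)] at hp'
      exact (Nat.not_even_iff_odd.2 hp') he
  have h1 : area m f ≤ (U ∪ V.image fun q => (q.1, -q.2 - 1)).card := by
    have h2 : area m f = Nat.card {c : ℤ × ℤ // Encl m f c} := rfl
    have h3 : Nat.card {x // x ∈ U ∪ V.image fun q : ℤ × ℤ => (q.1, -q.2 - 1)} =
        (U ∪ V.image fun q => (q.1, -q.2 - 1)).card := by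
      rw [Nat.card_eq_fintype_card, Fintype.card_coe]
    rw [h2, ← h3]
    refine Nat.card_le_card_of_injective
      (fun p : {c : ℤ × ℤ // Encl m f c} =>
        (⟨p.1, hsub p.1 p.2⟩ : {x // x ∈ U ∪ V.image fun q : ℤ × ℤ => (q.1, -q.2 - 1)})) ?_
    intro p q hpq
    have h5 : p.1 = q.1 := congrArg
      (fun z : {x // x ∈ U ∪ V.image fun q : ℤ × ℤ => (q.1, -q.2 - 1)} => z.1) hpq
    exact Subtype.ext h5
  have h4 : ((U ∪ V.image fun q => (q.1, -q.2 - 1)).card : ℤ) ≤ U.card + V.card := by
    have h5 := card_union_le U (V.image fun q : ℤ × ℤ => (q.1, -q.2 - 1))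
    have h6 : (V.image fun q : ℤ × ℤ => (q.1, -q.2 - 1)).card ≤ V.card := card_image_le
    exact_mod_cast h5.trans (Nat.add_le_add_left h6 _)
  have hXX : ∀ i, hX f' T i = hX f T i := fun i => rfl
  have hfi : ∀ i, (f' ((T i : ℕ) : ZMod m)).2 = -(f ((T i : ℕ) : ZMod m)).2 := fun i => rfl
  simp only [hXX, hfi] at hV2
  have hsum : ∑ i ∈ Ico i0 (i0 + M), hX f T i * |(f ((T i : ℕ) : ZMod m)).2 - c| =
      ∑ i ∈ Ico i0 (i0 + M), hX f T i * max ((f ((T i : ℕ) : ZMod m)).2 - c) 0 +
      ∑ i ∈ Ico i0 (i0 + M), hX f T i * max (-(f ((T i : ℕ) : ZMod m)).2 - -c) 0 := by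
    rw [← sum_add_distrib]
    refine sum_congr rfl fun i _ => ?_
    rw [← mul_add]
    congr 1
    rcases le_total (f ((T i : ℕ) : ZMod m)).2 c with h | h
    · rw [abs_of_nonpos (by omega), max_eq_right (by omega), max_eq_left (by omega)]
      ring
    · rw [abs_of_nonneg (by omega), max_eq_left (by omega), max_eq_right (by omega)]
      ring
  have hmr : (m : ℤ) ≤ r * m := by
    have : m ≤ r * m := Nat.le_mul_of_pos_left _ (by omega)
    exact_mod_cast this
  have hrm0 : (0 : ℤ) ≤ r * m := by positivity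
  have h1' : (area m f : ℤ) ≤ (U ∪ V.image fun q => (q.1, -q.2 - 1)).card := by exact_mod_cast h1
  rw [hsum]
  nlinarith [h1', h4, hU2, hV2, hmr, hrm0]

end Pool.Agent.K6.H23.WA
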