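import Pool.Agent.K6.H23.WA.Defs

/-!
An energy inequality for four groups of vectors (piece B).

The kernel `min (a i * b j) (a j * b i)` is positive semidefinite, hence for two groups `p`, `q`
with masses `A_p, A_q, B_p, B_q` one has `M(p,p) + M(q,q) ≤ 2 M(p,q) + 2 (A_p - A_q) (B_p - B_q)`
with `M(p,q) = ∑_{i ∈ p, j ∈ q} max (a i * b j) (a j * b i)`.
-/

set_option autoImplicit false

namespace Pool.Agent.K6.H23.WA

open Finset

/-- the kernel `min (s i) (s j)` is positive semidefinite -/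
theorem psd_min {ι : Type*} (S : Finset ι) (s c : ι → ℝ) (hs : ∀ i ∈ S, 0 ≤ s i) :
    0 ≤ ∑ i ∈ S, ∑ j ∈ S, c i * c j * min (s i) (s j) := by
  classical
  have key : ∀ i ∈ S, ∀ j ∈ S, min (s i) (s j) =
      ∫ x, (Set.Ioc 0 (s i)).indicator (fun _ => (1 : ℝ)) x *
        (Set.Ioc 0 (s j)).indicator (fun _ => (1 : ℝ)) x := by
    intro i hi j hj
    have h1 : (fun x => (Set.Ioc 0 (s i)).indicator (fun _ => (1 : ℝ)) x *
        (Set.Ioc 0 (s j)).indicator (fun _ => (1 : ℝ)) x) =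
        (Set.Ioc 0 (min (s i) (s j))).indicator (fun _ => (1 : ℝ)) := by
      funext x
      rw [← Set.inter_indicator_mul]
      congr 1
      · rw [Set.Ioc_inter_Ioc, sup_idem]
      · funext y
        simp
    rw [h1, MeasureTheory.integral_indicator measurableSet_Ioc]
    simp [le_min (hs i hi) (hs j hj)]
  have hint : ∀ i ∈ S, ∀ j ∈ S, MeasureTheory.Integrable
      (fun x => c i * c j * ((Set.Ioc 0 (s i)).indicator (fun _ => (1 : ℝ)) x *
        (Set.Ioc 0 (s j)).indicator (fun _ => (1 : ℝ)) x)) := by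
    intro i hi j hj
    refine MeasureTheory.Integrable.const_mul ?_ _
    have h1 : (fun x => (Set.Ioc 0 (s i)).indicator (fun _ => (1 : ℝ)) x *
        (Set.Ioc 0 (s j)).indicator (fun _ => (1 : ℝ)) x) =
        (Set.Ioc 0 (min (s i) (s j))).indicator (fun _ => (1 : ℝ)) := by
      funext x
      rw [← Set.inter_indicator_mul]
      congr 1
      · rw [Set.Ioc_inter_Ioc, sup_idem]
      · funext y
        simp
    rw [h1]
    rw [MeasureTheory.integrable_indicator_iff measurableSet_Ioc]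
    refine MeasureTheory.integrableOn_const ?_ ?_
    · simp
    · simp
  have h2 : ∑ i ∈ S, ∑ j ∈ S, c i * c j * min (s i) (s j) =
      ∫ x, (∑ i ∈ S, c i * (Set.Ioc 0 (s i)).indicator (fun _ => (1 : ℝ)) x) ^ 2 := by
    have h3 : ∀ x : ℝ, (∑ i ∈ S, c i * (Set.Ioc 0 (s i)).indicator (fun _ => (1 : ℝ)) x) ^ 2 =
        ∑ i ∈ S, ∑ j ∈ S, c i * c j * ((Set.Ioc 0 (s i)).indicator (fun _ => (1 : ℝ)) x *
        (Set.Ioc 0 (s j)).indicator (fun _ => (1 : ℝ)) x) := by
      intro x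
      rw [sq, Finset.sum_mul_sum]
      refine Finset.sum_congr rfl fun i _ => Finset.sum_congr rfl fun j _ => ?_
      ring
    simp_rw [h3]
    rw [MeasureTheory.integral_finsetSum _ (fun i hi =>
      MeasureTheory.integrable_finsetSum _ (fun j hj => hint i hi j hj))]
    refine Finset.sum_congr rfl fun i hi => ?_
    rw [MeasureTheory.integral_finsetSum _ (fun j hj => hint i hi j hj)]
    refine Finset.sum_congr rfl fun j hj => ?_
    rw [MeasureTheory.integral_const_mul, ← key i hi j hj]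
  rw [h2]
  exact MeasureTheory.integral_nonneg fun x => sq_nonneg _

/-- the kernel `min (a i * b j) (a j * b i)` is positive semidefinite -/
theorem psd_min_mul {ι : Type*} (S : Finset ι) (a b e : ι → ℝ)
    (ha : ∀ i ∈ S, 0 ≤ a i) (hb : ∀ i ∈ S, 0 ≤ b i) :
    0 ≤ ∑ i ∈ S, ∑ j ∈ S, e i * e j * min (a i * b j) (a j * b i) := by
  have h := psd_min S (fun i => b i / a i) (fun i => e i * a i)
    (fun i hi => div_nonneg (hb i hi) (ha i hi))
  refine h.trans_eq (Finset.sum_congr rfl fun i hi => Finset.sum_congr rfl fun j hj => ?_)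
  rcases (ha i hi).eq_or_lt with h1 | h1
  · rw [← h1]
    have : min (0 * b j) (a j * b i) = 0 := by
      rw [zero_mul]
      exact min_eq_left (mul_nonneg (ha j hj) (hb i hi))
    rw [this]
    simp
  rcases (ha j hj).eq_or_lt with h2 | h2
  · rw [← h2]
    have : min (a i * b j) (0 * b i) = 0 := by
      rw [zero_mul]
      exact min_eq_right (mul_nonneg (ha i hi) (hb j hj))
    rw [this]
    simp
  have h3 : min (a i * b j) (a j * b i) = a i * a j * min (b i / a i) (b j / a j) := by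
    rw [mul_min_of_nonneg _ _ (mul_pos h1 h2).le, min_comm]
    congr 1
    · field_simp
    · field_simp
  rw [h3]
  ring

/-- two groups -/
theorem two_groups {ι : Type*} (s : Finset ι) (g : ι → Fin 4) (a b : ι → ℝ)
    (ha : ∀ i ∈ s, 0 ≤ a i) (hb : ∀ i ∈ s, 0 ≤ b i) {δ : ℝ}
    (hδ : ∀ p q : Fin 4, ∑ i ∈ s with g i = p, a i ≤ (∑ i ∈ s with g i = q, a i) + δ)
    (p q : Fin 4) (hpq : p ≠ q) :
    (∑ i ∈ s with g i = p, ∑ j ∈ s with g j = p, max (a i * b j) (a j * b i)) +
      (∑ i ∈ s with g i = q, ∑ j ∈ s with g j = q, max (a i * b j) (a j * b i)) ≤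
      (∑ i ∈ s with g i = p, ∑ j ∈ s with g j = q, max (a i * b j) (a j * b i)) +
      (∑ i ∈ s with g i = q, ∑ j ∈ s with g j = p, max (a i * b j) (a j * b i)) +
      2 * δ * ∑ i ∈ s, b i := by
  classical
  set e : ι → ℝ := fun i => if g i = p then 1 else if g i = q then -1 else 0 with he
  have hpsd := psd_min_mul s a b e ha hb
  have hsum1 : ∀ F : ι → ℝ, ∑ i ∈ s, e i * F i =
      (∑ i ∈ s with g i = p, F i) - ∑ i ∈ s with g i = q, F i := by
    intro F
    rw [Finset.sum_filter, Finset.sum_filter, ← Finset.sum_sub_distrib]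
    refine Finset.sum_congr rfl fun i _ => ?_
    simp only [he]
    by_cases h1 : g i = p
    · have h2 : g i ≠ q := fun h => hpq (h1.symm.trans h)
      simp [h1, hpq]
    · by_cases h2 : g i = q
      · simp [h1, h2, hpq.symm]
      · simp [h1, h2]
  have hsum2 : ∀ F : ι → ι → ℝ, ∑ i ∈ s, ∑ j ∈ s, e i * e j * F i j =
      (∑ i ∈ s with g i = p, ∑ j ∈ s with g j = p, F i j) +
      (∑ i ∈ s with g i = q, ∑ j ∈ s with g j = q, F i j) -
      (∑ i ∈ s with g i = p, ∑ j ∈ s with g j = q, F i j) -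
      (∑ i ∈ s with g i = q, ∑ j ∈ s with g j = p, F i j) := by
    intro F
    have h1 : ∑ i ∈ s, ∑ j ∈ s, e i * e j * F i j =
        ∑ i ∈ s, e i * ((∑ j ∈ s with g j = p, F i j) - ∑ j ∈ s with g j = q, F i j) := by
      refine Finset.sum_congr rfl fun i _ => ?_
      rw [← hsum1, Finset.mul_sum]
      exact Finset.sum_congr rfl fun j _ => by ring
    rw [h1, hsum1]
    simp only [Finset.sum_sub_distrib]
    ring
  have hmax : ∀ x y : ℝ, max x y = x + y - min x y := by
    intro x y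
    linarith [min_add_max x y]
  have h4 : (∑ i ∈ s, ∑ j ∈ s, e i * e j * max (a i * b j) (a j * b i)) =
      2 * (∑ i ∈ s, e i * a i) * (∑ i ∈ s, e i * b i) -
        ∑ i ∈ s, ∑ j ∈ s, e i * e j * min (a i * b j) (a j * b i) := by
    have h5 : (∑ i ∈ s, e i * a i) * (∑ i ∈ s, e i * b i) =
        ∑ i ∈ s, ∑ j ∈ s, e i * e j * (a i * b j) := by
      rw [Finset.sum_mul_sum]
      exact Finset.sum_congr rfl fun i _ => Finset.sum_congr rfl fun j _ => by ring
    have h6 : (∑ i ∈ s, e i * a i) * (∑ i ∈ s, e i * b i) =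
        ∑ i ∈ s, ∑ j ∈ s, e i * e j * (a j * b i) := by
      rw [mul_comm, Finset.sum_mul_sum]
      exact Finset.sum_congr rfl fun i _ => Finset.sum_congr rfl fun j _ => by ring
    have h7 : 2 * (∑ i ∈ s, e i * a i) * (∑ i ∈ s, e i * b i) =
        (∑ i ∈ s, ∑ j ∈ s, e i * e j * (a i * b j)) +
        ∑ i ∈ s, ∑ j ∈ s, e i * e j * (a j * b i) := by
      rw [← h5, ← h6]; ring
    rw [h7, ← Finset.sum_add_distrib, ← Finset.sum_sub_distrib]
    refine Finset.sum_congr rfl fun i _ => ?_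
    rw [← Finset.sum_add_distrib, ← Finset.sum_sub_distrib]
    refine Finset.sum_congr rfl fun j _ => ?_
    rw [hmax]; ring
  have hD : |∑ i ∈ s, e i * a i| ≤ δ := by
    rw [hsum1, abs_le]
    constructor
    · linarith [hδ q p]
    · linarith [hδ p q]
  have hE : |∑ i ∈ s, e i * b i| ≤ ∑ i ∈ s, b i := by
    refine (Finset.abs_sum_le_sum_abs _ _).trans (Finset.sum_le_sum fun i hi => ?_)
    rw [abs_mul, abs_of_nonneg (hb i hi)]
    have : |e i| ≤ 1 := by
      simp only [he]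
      split_ifs <;> simp
    calc |e i| * b i ≤ 1 * b i := mul_le_mul_of_nonneg_right this (hb i hi)
      _ = b i := one_mul _
  have hDE : (∑ i ∈ s, e i * a i) * (∑ i ∈ s, e i * b i) ≤ δ * ∑ i ∈ s, b i := by
    calc (∑ i ∈ s, e i * a i) * (∑ i ∈ s, e i * b i)
        ≤ |(∑ i ∈ s, e i * a i) * (∑ i ∈ s, e i * b i)| := le_abs_self _
      _ = |∑ i ∈ s, e i * a i| * |∑ i ∈ s, e i * b i| := abs_mul _ _
      _ ≤ δ * ∑ i ∈ s, b i := mul_le_mul hD hE (abs_nonneg _) ((abs_nonneg _).trans hD)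
  have h8 := hsum2 fun i j => max (a i * b j) (a j * b i)
  linarith

/-- PIECE B -/
theorem four_groups {ι : Type*} (s : Finset ι) (g : ι → Fin 4) (a b : ι → ℝ)
    (ha : ∀ i ∈ s, 0 ≤ a i) (hb : ∀ i ∈ s, 0 ≤ b i) {δ : ℝ} (hδ0 : 0 ≤ δ)
    (hδ : ∀ p q : Fin 4, ∑ i ∈ s with g i = p, a i ≤ (∑ i ∈ s with g i = q, a i) + δ) :
    ∑ p : Fin 4, ∑ i ∈ s with g i = p, ∑ j ∈ s with g j = p, max (a i * b j) (a j * b i) ≤
      (1 / 4) * ∑ i ∈ s, ∑ j ∈ s, max (a i * b j) (a j * b i) + 3 * δ * ∑ i ∈ s, b i := by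
  classical
  have hfib : ∀ F : ι → ℝ, ∑ i ∈ s, F i = ∑ p : Fin 4, ∑ i ∈ s with g i = p, F i := by
    intro F
    exact (Finset.sum_fiberwise s g F).symm
  have htot : ∑ i ∈ s, ∑ j ∈ s, max (a i * b j) (a j * b i) =
      ∑ p : Fin 4, ∑ q : Fin 4, ∑ i ∈ s with g i = p, ∑ j ∈ s with g j = q,
        max (a i * b j) (a j * b i) := by
    rw [hfib]
    refine Finset.sum_congr rfl fun p _ => ?_
    rw [Finset.sum_comm]
    rw [Finset.sum_comm]
    rw [Finset.sum_congr rfl fun i _ => hfib _]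
    rw [Finset.sum_comm]
  have h2 := fun p q hpq => two_groups s g a b ha hb hδ p q hpq
  rw [htot]
  have h01 := h2 0 1 (by decide)
  have h02 := h2 0 2 (by decide)
  have h03 := h2 0 3 (by decide)
  have h12 := h2 1 2 (by decide)
  have h13 := h2 1 3 (by decide)
  have h23 := h2 2 3 (by decide)
  simp only [Fin.sum_univ_four]
  linarith

end Pool.Agent.K6.H23.WA
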