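import Pool.Agent.K6.H23.WA.PieceC0
import Pool.Agent.K6.H23.WA.PieceA
import Pool.Agent.K6.H23.WA.PieceB

/-!
Quartering of a closed loop (Piece C).
-/

set_option autoImplicit false

namespace Pool.Agent.K6.H23.WA

open Finset

/-- a walk with nearest-neighbour steps is Lipschitz -/
theorem dist_le {m : ℕ} {f : ZMod m → ℤ × ℤ} (hs : NN m f) (u n : ℕ) :
    |(f ((u + n : ℕ) : ZMod m)).1 - (f (u : ZMod m)).1| +
      |(f ((u + n : ℕ) : ZMod m)).2 - (f (u : ZMod m)).2| ≤ n := by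
  induction n with
  | zero => simp
  | succ n ih =>
    have h1 := hs ((u + n : ℕ) : ZMod m)
    have h2 : (((u + n : ℕ) : ZMod m) + 1) = ((u + (n + 1) : ℕ) : ZMod m) := by
      push_cast
      ring
    rw [h2] at h1
    have e1 := abs_add_le ((f ((u + (n + 1) : ℕ) : ZMod m)).1 - (f ((u + n : ℕ) : ZMod m)).1)
      ((f ((u + n : ℕ) : ZMod m)).1 - (f (u : ZMod m)).1)
    have e2 := abs_add_le ((f ((u + (n + 1) : ℕ) : ZMod m)).2 - (f ((u + n : ℕ) : ZMod m)).2)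
      ((f ((u + n : ℕ) : ZMod m)).2 - (f (u : ZMod m)).2)
    rw [sub_add_sub_cancel] at e1 e2
    push_cast at *
    linarith

/-- the displacements between two sampling times -/
theorem hXY_le {m : ℕ} {f : ZMod m → ℤ × ℤ} (hs : NN m f) {M r : ℕ} {T : ℕ → ℕ}
    (hT : Samp m M r T) (i : ℕ) : hX f T i + hY f T i ≤ T (i + 1) - T i := by
  have h1 := dist_le hs (T i) (T (i + 1) - T i)
  have h2 := hT.mono i
  rw [Nat.add_sub_cancel' h2] at h1
  unfold hX hY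
  push_cast [h2] at h1
  exact h1

theorem hX_nonneg {m : ℕ} (f : ZMod m → ℤ × ℤ) (T : ℕ → ℕ) (i : ℕ) : 0 ≤ hX f T i := abs_nonneg _

theorem hY_nonneg {m : ℕ} (f : ZMod m → ℤ × ℤ) (T : ℕ → ℕ) (i : ℕ) : 0 ≤ hY f T i := abs_nonneg _

theorem hX_le_r {m : ℕ} {f : ZMod m → ℤ × ℤ} (hs : NN m f) {M r : ℕ} {T : ℕ → ℕ}
    (hT : Samp m M r T) (i : ℕ) : hX f T i ≤ r := by
  have h1 := hXY_le hs hT i
  have h2 := hY_nonneg f T i
  have h3 : ((T (i + 1) : ℕ) : ℤ) ≤ T i + r := by exact_mod_cast hT.gap i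
  linarith

theorem hY_le_r {m : ℕ} {f : ZMod m → ℤ × ℤ} (hs : NN m f) {M r : ℕ} {T : ℕ → ℕ}
    (hT : Samp m M r T) (i : ℕ) : hY f T i ≤ r := by
  have h1 := hXY_le hs hT i
  have h2 := hX_nonneg f T i
  have h3 : ((T (i + 1) : ℕ) : ℤ) ≤ T i + r := by exact_mod_cast hT.gap i
  linarith

theorem f_per {m : ℕ} (f : ZMod m → ℤ × ℤ) {M r : ℕ} {T : ℕ → ℕ}
    (hT : Samp m M r T) (i : ℕ) : f ((T (i + M) : ℕ) : ZMod m) = f ((T i : ℕ) : ZMod m) := by
  rw [hT.per]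
  push_cast
  simp

theorem hX_per {m : ℕ} (f : ZMod m → ℤ × ℤ) {M r : ℕ} {T : ℕ → ℕ}
    (hT : Samp m M r T) (i : ℕ) : hX f T (i + M) = hX f T i := by
  unfold hX
  rw [show i + M + 1 = (i + 1) + M by omega, f_per f hT, f_per f hT]

theorem hY_per {m : ℕ} (f : ZMod m → ℤ × ℤ) {M r : ℕ} {T : ℕ → ℕ}
    (hT : Samp m M r T) (i : ℕ) : hY f T (i + M) = hY f T i := by
  unfold hY
  rw [show i + M + 1 = (i + 1) + M by omega, f_per f hT, f_per f hT]

theorem sum_hXY_le {m : ℕ} {f : ZMod m → ℤ × ℤ} (hs : NN m f) {M r : ℕ} {T : ℕ → ℕ}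
    (hT : Samp m M r T) : ∑ i ∈ range M, hX f T i + ∑ i ∈ range M, hY f T i ≤ m := by
  have h1 : ∑ i ∈ range M, (((T (i + 1) : ℕ) : ℤ) - (T i : ℕ)) = m := by
    rw [sum_range_sub (fun i => ((T i : ℕ) : ℤ))]
    have := hT.per 0
    rw [zero_add] at this
    rw [this]
    push_cast
    ring
  rw [← sum_add_distrib, ← h1]
  exact sum_le_sum (fun i _ => hXY_le hs hT i)

/-- PIECE C -/
theorem area_le_sum {m : ℕ} [NeZero m] {f : ZMod m → ℤ × ℤ} (hs : NN m f) {M r : ℕ} (hM : 1 ≤ M)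
    (hr : 1 ≤ r) {T : ℕ → ℕ} (hT : Samp m M r T) :
    (area m f : ℝ) ≤ (1 / 8) * ∑ i ∈ range M, ∑ j ∈ range M,
      max ((hX f T i : ℝ) * hY f T j) (hX f T j * hY f T i) + 60 * r * m := by
  have hB : FourGroups := fun s g a b ha hb δ h0 hδ => four_groups s g a b ha hb h0 hδ
  obtain ⟨i0, h0⟩ := quartering hB (M := M) (r := (r : ℝ)) (a := fun i => (hX f T i : ℝ))
    (b := fun i => (hY f T i : ℝ)) (h := fun i => (((f ((T i : ℕ) : ZMod m)).2 : ℤ) : ℝ))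
    (fun i => by exact_mod_cast hX_nonneg f T i) (fun i => by exact_mod_cast hX_le_r hs hT i)
    (fun i => by exact_mod_cast hY_nonneg f T i) (fun i => by exact_mod_cast hY_le_r hs hT i)
    (fun i => by simp only [hY]; exact_mod_cast le_rfl)
    (fun i => by exact_mod_cast hX_per f hT i) (fun i => by exact_mod_cast hY_per f hT i)
    (fun i => by simp only [f_per f hT])
  have h1 := area_sample hs hM hr hT i0
  have h2 : (area m f : ℝ) ≤ (∑ i ∈ Ico i0 (i0 + M), (hX f T i : ℝ) *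
      |(((f ((T i : ℕ) : ZMod m)).2 : ℤ) : ℝ) - (((f ((T i0 : ℕ) : ZMod m)).2 : ℤ) : ℝ)|) +
        16 * r * m := by
    exact_mod_cast h1
  have h3 : (∑ i ∈ range M, (hX f T i : ℝ)) + ∑ i ∈ range M, (hY f T i : ℝ) ≤ m := by
    exact_mod_cast sum_hXY_le hs hT
  have h4 : (0 : ℝ) ≤ ∑ i ∈ range M, (hX f T i : ℝ) :=
    sum_nonneg (fun i _ => by exact_mod_cast hX_nonneg f T i)
  have h5 : (0 : ℝ) ≤ ∑ i ∈ range M, (hY f T i : ℝ) :=
    sum_nonneg (fun i _ => by exact_mod_cast hY_nonneg f T i)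
  have h6 : (0 : ℝ) ≤ r := Nat.cast_nonneg r
  have h7 : (0 : ℝ) ≤ m := Nat.cast_nonneg m
  have h8 := mul_le_mul_of_nonneg_left h3 h6
  have h9 := mul_nonneg h6 h4
  have h10 := mul_nonneg h6 h5
  have h11 := mul_nonneg h6 h7
  refine h2.trans ?_
  nlinarith

end Pool.Agent.K6.H23.WA
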