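import Pool.Agent.K6.H23.WA.Defs3
import Pool.Agent.K6.H23.WA.PieceC

/-!
The upper bound for the number of self-avoiding polygons of large area.
-/

set_option autoImplicit false

namespace Pool.Agent.K6.H23.WA

open Pool.Agent.TH795.EP Pool.Agent.TH795.EP2 Pool.Agent.TH795.SE2 Pool.Agent.TH262.SawL H981 Finset
open Pool.Agent.Y981.L2 (Rate an ln)
open Pool.Agent.K6.H5.JW (ps)

namespace P4

/-- the cutting times -/
def cut (n N M : ℕ) (i : ℕ) : ℕ := if i < M then i * N else 2 * n - 1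

/-- the sampling times -/
def Tm (n N M : ℕ) (i : ℕ) : ℕ := 2 * n * (i / (M + 1)) + cut n N M (i % (M + 1))

structure Par (n N M : ℕ) : Prop where
  hN : 2 ≤ N
  hNn : N ≤ n
  h1 : M * N ≤ 2 * n - 1
  h2 : 2 * n - 1 < (M + 1) * N

theorem exists_par {n N : ℕ} (hN : 2 ≤ N) (hNn : N ≤ n) : Par n N ((2 * n - 1) / N) :=
  ⟨hN, hNn, Nat.div_mul_le_self _ _, by
    have := Nat.lt_div_mul_add (a := 2 * n - 1) (b := N) (by omega)
    rw [add_mul, one_mul]
    exact this⟩

variable {n N M : ℕ}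

theorem Par.M_pos (h : Par n N M) : 1 ≤ M := by
  by_contra hcon
  have hM : M = 0 := by omega
  have := h.h2
  rw [hM] at this
  have := h.hNn
  have := h.hN
  omega

theorem cut_zero (h : Par n N M) : cut n N M 0 = 0 := by
  unfold cut
  rw [if_pos (show 0 < M from h.M_pos), zero_mul]

theorem cut_M : cut n N M M = 2 * n - 1 := by
  unfold cut
  rw [if_neg (lt_irrefl _)]

theorem cut_step (h : Par n N M) {i : ℕ} (hi : i < M) :
    cut n N M i + N ≤ cut n N M (i + 1) ∧ cut n N M (i + 1) ≤ cut n N M i + 2 * N := by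
  unfold cut
  rw [if_pos hi]
  have h1 := h.h1
  have h2 := h.h2
  by_cases h3 : i + 1 < M
  · rw [if_pos h3]
    constructor <;> nlinarith
  · rw [if_neg h3]
    have h4 : M = i + 1 := by omega
    subst h4
    constructor <;> nlinarith

theorem cut_le (h : Par n N M) {i : ℕ} (hi : i ≤ M) : cut n N M i ≤ 2 * n - 1 := by
  unfold cut
  by_cases h3 : i < M
  · rw [if_pos h3]
    exact (Nat.mul_le_mul_right _ h3.le).trans h.h1
  · rw [if_neg h3]

theorem Tm_small {i : ℕ} (hi : i ≤ M) : Tm n N M i = cut n N M i := by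
  unfold Tm
  rw [Nat.div_eq_of_lt (by omega), Nat.mod_eq_of_lt (by omega)]
  omega

theorem Tm_step (h : Par n N M) (i : ℕ) :
    Tm n N M i + 1 ≤ Tm n N M (i + 1) ∧ Tm n N M (i + 1) ≤ Tm n N M i + 2 * N := by
  have hN := h.hN
  have hNn := h.hNn
  have e := Nat.div_add_mod i (M + 1)
  set qd := i / (M + 1) with hqd
  set r := i % (M + 1) with hr
  have hrM : r < M + 1 := Nat.mod_lt _ (Nat.succ_pos _)
  have e1 : i + 1 = (M + 1) * qd + (r + 1) := by omega
  unfold Tm
  rw [← hqd, ← hr, e1, Nat.mul_add_div (Nat.succ_pos _), Nat.mul_add_mod]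
  by_cases h3 : r < M
  · rw [Nat.div_eq_of_lt (by omega), Nat.mod_eq_of_lt (by omega), add_zero]
    obtain ⟨h4, h5⟩ := cut_step h h3
    constructor <;> omega
  · have h4 : r = M := by omega
    rw [h4, Nat.div_self (Nat.succ_pos _), Nat.mod_self, cut_M, cut_zero h, mul_add, mul_one]
    constructor <;> omega

theorem Tm_per (i : ℕ) : Tm n N M (i + (M + 1)) = Tm n N M i + 2 * n := by
  unfold Tm
  rw [Nat.add_div_right _ (Nat.succ_pos _), Nat.add_mod_right, Nat.succ_eq_add_one, mul_add,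
    mul_one]
  omega

/-- the pieces of a word -/
def pc (n N M : ℕ) (V : List St) (i : ℕ) : List St :=
  (V.drop (cut n N M i)).take (cut n N M (i + 1) - cut n N M i)

theorem take_cut (h : Par n N M) (V : List St) {i : ℕ} (hi : i < M) :
    V.take (cut n N M (i + 1)) = V.take (cut n N M i) ++ pc n N M V i := by
  unfold pc
  have h1 := (cut_step h hi).1
  rw [← List.take_add]
  congr 1
  omega

theorem pc_length (h : Par n N M) {V : List St} (hV : V.length = 2 * n - 1) {i : ℕ} (hi : i < M) :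
    (pc n N M V i).length = cut n N M (i + 1) - cut n N M i := by
  unfold pc
  rw [List.length_take, List.length_drop, hV]
  have h1 := cut_le h (by omega : i + 1 ≤ M)
  omega

theorem pc_saw {V : List St} (hV : Saw V) (i : ℕ) : Saw (pc n N M V i) := by
  unfold pc
  refine hV.subw ?_
  exact (List.take_prefix _ _).isInfix.trans (List.drop_suffix _ _).isInfix

theorem pc_dx (h : Par n N M) (V : List St) {i : ℕ} (hi : i < M) :
    dx (pc n N M V i) = (path V (cut n N M (i + 1))).1 - (path V (cut n N M i)).1 := by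
  unfold path
  rw [take_cut h V hi]
  simp

theorem pc_dy (h : Par n N M) (V : List St) {i : ℕ} (hi : i < M) :
    dy (pc n N M V i) = (path V (cut n N M (i + 1))).2 - (path V (cut n N M i)).2 := by
  unfold path
  rw [take_cut h V hi]
  simp

/-- counting words with given displacements of the pieces -/
theorem card_pieces (h : Par n N M) (S : Finset (List St)) (d : Fin M → ℤ × ℤ)
    (hS : ∀ V ∈ S, Saw V ∧ V.length = 2 * n - 1 ∧ ∀ i : Fin M,
      path V (cut n N M (i + 1)) - path V (cut n N M i) = d i) :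
    S.card ≤ ∏ i : Fin M, a (cut n N M (i + 1) - cut n N M i) (d i).1 (d i).2 := by
  classical
  unfold a
  rw [← Fintype.card_piFinset]
  refine Finset.card_le_card_of_injOn (fun V => fun i : Fin M => pc n N M V i) ?_ ?_
  · intro V hV
    obtain ⟨h1, h2, h3⟩ := hS V (Finset.mem_coe.1 hV)
    rw [Finset.mem_coe, Fintype.mem_piFinset]
    intro i
    rw [mem_fs]
    refine ⟨⟨pc_saw h1 i, ?_, ?_⟩, pc_length h h2 i.2⟩
    · rw [pc_dx h V i.2, ← h3 i]; rfl
    · rw [pc_dy h V i.2, ← h3 i]; rfl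
  · intro V hV V' hV' he
    obtain ⟨h1, h2, _⟩ := hS V (Finset.mem_coe.1 hV)
    obtain ⟨h1', h2', _⟩ := hS V' (Finset.mem_coe.1 hV')
    have key : ∀ i, i ≤ M → V.take (cut n N M i) = V'.take (cut n N M i) := by
      intro i
      induction i with
      | zero => intro _; rw [cut_zero h, List.take_zero, List.take_zero]
      | succ i ih =>
        intro hi
        rw [take_cut h V (by omega), take_cut h V' (by omega), ih (by omega)]
        congr 1
        exact congrFun he ⟨i, by omega⟩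
    have h5 := key M le_rfl
    rwa [cut_M, List.take_of_length_le h2.le, List.take_of_length_le h2'.le] at h5


theorem samp (h : Par n N M) : Samp (2 * n) (M + 1) (2 * N) (Tm n N M) :=
  ⟨Tm_per, fun i => (Nat.le_succ _).trans (Tm_step h i).1, fun i => (Tm_step h i).2⟩

/-- the closed loop of a word -/
def lp (n : ℕ) (V : List St) : ZMod (2 * n) → ℤ × ℤ := fun i => path V i.val

theorem lp_Tm (h : Par n N M) (V : List St) {i : ℕ} (hi : i ≤ M) :
    lp n V ((Tm n N M i : ℕ) : ZMod (2 * n)) = path V (cut n N M i) := by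
  unfold lp
  have h1 := cut_le h hi
  have h2 := h.hN
  have h3 := h.hNn
  rw [Tm_small hi, ZMod.val_cast_of_lt (by omega)]

theorem Tm_last (h : Par n N M) : Tm n N M (M + 1) = 2 * n := by
  have h1 := Tm_per (n := n) (N := N) (M := M) 0
  rw [zero_add, Tm_small (Nat.zero_le _), cut_zero h, zero_add] at h1
  exact h1

theorem lp_last (h : Par n N M) (V : List St) :
    lp n V ((Tm n N M (M + 1) : ℕ) : ZMod (2 * n)) = (0, 0) := by
  unfold lp
  rw [Tm_last h, ZMod.natCast_self, ZMod.val_zero, path_zero]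

/-- the signed displacements between the sampling times -/
def Dp (n N M : ℕ) (V : List St) (i : ℕ) : ℤ × ℤ :=
  lp n V ((Tm n N M (i + 1) : ℕ) : ZMod (2 * n)) - lp n V ((Tm n N M i : ℕ) : ZMod (2 * n))

theorem hX_eq (V : List St) (i : ℕ) : hX (lp n V) (Tm n N M) i = |(Dp n N M V i).1| := rfl

theorem hY_eq (V : List St) (i : ℕ) : hY (lp n V) (Tm n N M) i = |(Dp n N M V i).2| := rfl

/-- the lengths -/
noncomputable def len (n N M : ℕ) (i : ℕ) : ℝ := (Tm n N M (i + 1) : ℝ) - Tm n N M i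

theorem len_pos (h : Par n N M) (i : ℕ) : 1 ≤ len n N M i := by
  unfold len
  have := (Tm_step h i).1
  have h2 : (Tm n N M i : ℝ) + 1 ≤ Tm n N M (i + 1) := by exact_mod_cast this
  linarith

noncomputable def tt (n N M : ℕ) (i : ℕ) : ℝ := len n N M i / (2 * n)

noncomputable def vv (n N M : ℕ) (V : List St) (i : ℕ) : ℝ × ℝ :=
  (((Dp n N M V i).1 : ℝ) / len n N M i, ((Dp n N M V i).2 : ℝ) / len n N M i)

theorem vv_dia (h : Par n N M) {V : List St} (hs : NN (2 * n) (lp n V)) (i : ℕ) :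
    |(vv n N M V i).1| + |(vv n N M V i).2| ≤ 1 := by
  have h1 := hXY_le hs (samp h) i
  rw [hX_eq, hY_eq] at h1
  have h2 : (|((Dp n N M V i).1 : ℝ)|) + |((Dp n N M V i).2 : ℝ)| ≤ len n N M i := by
    unfold len
    have : ((|(Dp n N M V i).1| + |(Dp n N M V i).2| : ℤ) : ℝ) ≤
        (((Tm n N M (i + 1) : ℤ) - (Tm n N M i : ℤ) : ℤ) : ℝ) := by exact_mod_cast h1
    push_cast at this
    exact this
  have h3 := len_pos h i
  have h4 : (0 : ℝ) < len n N M i := by linarith
  unfold vv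
  simp only
  rw [abs_div, abs_div, abs_of_pos h4, ← add_div, div_le_one h4]
  exact h2

theorem sum_tt (h : Par n N M) : ∑ i ∈ range (M + 1), tt n N M i = 1 := by
  unfold tt len
  rw [← Finset.sum_div, Finset.sum_range_sub (fun i => (Tm n N M i : ℝ))]
  have h1 := Tm_per (n := n) (N := N) (M := M) 0
  rw [zero_add] at h1
  rw [h1]
  have h2 := h.hN
  have h3 := h.hNn
  have h4 : (0 : ℝ) < n := by exact_mod_cast (by omega : 0 < n)
  push_cast
  rw [add_sub_cancel_left]
  field_simp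

theorem Mf_eq (h : Par n N M) (V : List St) :
    Mf (fun i : Fin (M + 1) => tt n N M i) (fun i : Fin (M + 1) => vv n N M V i) * (n : ℝ) ^ 2 =
    (1 / 8) * ∑ i ∈ range (M + 1), ∑ j ∈ range (M + 1),
      max ((hX (lp n V) (Tm n N M) i : ℝ) * hY (lp n V) (Tm n N M) j)
        (hX (lp n V) (Tm n N M) j * hY (lp n V) (Tm n N M) i) := by
  have h2 := h.hN
  have h3 := h.hNn
  have h4 : (0 : ℝ) < n := by exact_mod_cast (by omega : 0 < n)
  unfold Mf
  rw [Finset.sum_range, Finset.mul_sum, Finset.mul_sum, Finset.sum_mul]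
  refine Finset.sum_congr rfl fun i _ => ?_
  rw [Finset.sum_range, Finset.mul_sum, Finset.mul_sum, Finset.sum_mul]
  refine Finset.sum_congr rfl fun j _ => ?_
  have h5 := len_pos h (i : ℕ)
  have h6 := len_pos h (j : ℕ)
  have h7 : (0 : ℝ) < len n N M i := by linarith
  have h8 : (0 : ℝ) < len n N M j := by linarith
  have e1 : tt n N M i * tt n N M j * max (|(vv n N M V i).1| * |(vv n N M V j).2|)
      (|(vv n N M V j).1| * |(vv n N M V i).2|) * (n : ℝ) ^ 2 = (1 / 4) *
      max ((hX (lp n V) (Tm n N M) i : ℝ) * hY (lp n V) (Tm n N M) j)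
        (hX (lp n V) (Tm n N M) j * hY (lp n V) (Tm n N M) i) := by
    rw [hX_eq, hY_eq, hX_eq, hY_eq]
    unfold vv tt
    simp only
    rw [abs_div, abs_div, abs_div, abs_div, abs_of_pos h7, abs_of_pos h8]
    push_cast
    have e2 : |((Dp n N M V i).1 : ℝ)| / len n N M i * (|((Dp n N M V j).2 : ℝ)| / len n N M j) =
        (|((Dp n N M V i).1 : ℝ)| * |((Dp n N M V j).2 : ℝ)|) / (len n N M i * len n N M j) := by
      field_simp
    have e3 : |((Dp n N M V j).1 : ℝ)| / len n N M j * (|((Dp n N M V i).2 : ℝ)| / len n N M i) =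
        (|((Dp n N M V j).1 : ℝ)| * |((Dp n N M V i).2 : ℝ)|) / (len n N M i * len n N M j) := by
      field_simp
    rw [e2, e3, max_div_div_right (by positivity)]
    field_simp
    ring
  calc _ = (1 / 2) * (tt n N M i * tt n N M j * max (|(vv n N M V i).1| * |(vv n N M V j).2|)
      (|(vv n N M V j).1| * |(vv n N M V i).2|) * (n : ℝ) ^ 2) := by ring
    _ = _ := by rw [e1]; ring

theorem Mf_le {m : ℕ} (t : Fin m → ℝ) (v : Fin m → ℝ × ℝ) (ht : ∀ i, 0 ≤ t i)
    (ht1 : ∑ i, t i = 1) (hv : ∀ i, |(v i).1| + |(v i).2| ≤ 1) : Mf t v ≤ 1 / 4 := by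
  unfold Mf
  have h1 : ∑ i, ∑ j, t i * t j * max (|(v i).1| * |(v j).2|) (|(v j).1| * |(v i).2|) ≤
      ∑ i, ∑ j, (t i * |(v i).1| * (t j * |(v j).2|) + t j * |(v j).1| * (t i * |(v i).2|)) := by
    refine Finset.sum_le_sum fun i _ => Finset.sum_le_sum fun j _ => ?_
    have h2 : max (|(v i).1| * |(v j).2|) (|(v j).1| * |(v i).2|) ≤
        |(v i).1| * |(v j).2| + |(v j).1| * |(v i).2| :=
      max_le (le_add_of_nonneg_right (by positivity)) (le_add_of_nonneg_left (by positivity))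
    have h3 := mul_le_mul_of_nonneg_left h2 (mul_nonneg (ht i) (ht j))
    refine h3.trans (le_of_eq (by ring))
  have h2 : ∑ i, ∑ j, (t i * |(v i).1| * (t j * |(v j).2|) + t j * |(v j).1| * (t i * |(v i).2|)) =
      2 * ((∑ i, t i * |(v i).1|) * ∑ i, t i * |(v i).2|) := by
    have h3 : ∑ i, ∑ j, t i * |(v i).1| * (t j * |(v j).2|) =
        (∑ i, t i * |(v i).1|) * ∑ i, t i * |(v i).2| := by
      rw [Finset.sum_mul_sum]
    have h4 : ∑ i, ∑ j, t j * |(v j).1| * (t i * |(v i).2|) =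
        (∑ i, t i * |(v i).1|) * ∑ i, t i * |(v i).2| := by
      rw [Finset.sum_comm, Finset.sum_mul_sum]
    simp only [Finset.sum_add_distrib]
    rw [h3, h4]
    ring
  have h5 : (∑ i, t i * |(v i).1|) + ∑ i, t i * |(v i).2| ≤ 1 := by
    rw [← Finset.sum_add_distrib, ← ht1]
    refine Finset.sum_le_sum fun i _ => ?_
    have h6 := mul_le_mul_of_nonneg_left (hv i) (ht i)
    linarith
  have h6 : 0 ≤ ∑ i, t i * |(v i).1| := Finset.sum_nonneg fun i _ => mul_nonneg (ht i) (abs_nonneg _)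
  have h7 : 0 ≤ ∑ i, t i * |(v i).2| := Finset.sum_nonneg fun i _ => mul_nonneg (ht i) (abs_nonneg _)
  nlinarith [sq_nonneg ((∑ i, t i * |(v i).1|) - ∑ i, t i * |(v i).2|)]

theorem Dp_small (h : Par n N M) (V : List St) {i : ℕ} (hi : i < M) :
    Dp n N M V i = path V (cut n N M (i + 1)) - path V (cut n N M i) := by
  unfold Dp
  rw [lp_Tm h V (by omega : i + 1 ≤ M), lp_Tm h V hi.le]

theorem len_small (h : Par n N M) {i : ℕ} (hi : i < M) :
    len n N M i = ((cut n N M (i + 1) - cut n N M i : ℕ) : ℝ) := by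
  unfold len
  rw [Tm_small (by omega : i + 1 ≤ M), Tm_small hi.le]
  have h1 := (cut_step h hi).1
  rw [Nat.cast_sub (by omega)]

theorem len_last (h : Par n N M) : len n N M M = 1 := by
  unfold len
  have h2 := h.hN
  have h3 := h.hNn
  rw [Tm_last h, Tm_small le_rfl, cut_M, Nat.cast_sub (by omega)]
  push_cast
  ring

theorem rate_nonneg {v : ℝ × ℝ} (hv : |v.1| + |v.2| ≤ 1) : 0 ≤ Rate v := by
  have h1 := Pool.Agent.Y981.L2.le_rate (v := v) hv (0, 0)
  have h2 : Pool.Agent.Y981.L2.Lam (0, 0) = 0 := Pool.Agent.Y981.L2.psi_zero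
  rw [h2] at h1
  simpa using h1

theorem J_le (h : Par n N M) {V : List St} (hs : NN (2 * n) (lp n V)) {A : ℕ}
    (hA : A ≤ area (2 * n) (lp n V)) :
    (A : ℝ) ≤ (n : ℝ) ^ 2 / 4 + 240 * N * n ∧
    J Rate ((A - 240 * N * n) / (n : ℝ) ^ 2) ≤
      ∑ i ∈ range (M + 1), tt n N M i * Rate (vv n N M V i) := by
  have h2 := h.hN
  have h3 := h.hNn
  have h4 : (0 : ℝ) < n := by exact_mod_cast (by omega : 0 < n)
  have : NeZero (2 * n) := ⟨by omega⟩
  have ht0 : ∀ i : Fin (M + 1), 0 ≤ tt n N M i := by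
    intro i
    unfold tt
    have := len_pos h (i : ℕ)
    positivity
  have ht1 : ∑ i : Fin (M + 1), tt n N M i = 1 := by
    rw [← sum_tt h, Finset.sum_range]
  have hv : ∀ i : Fin (M + 1), |(vv n N M V i).1| + |(vv n N M V i).2| ≤ 1 :=
    fun i => vv_dia h hs i
  have h5 := area_le_sum hs (M := M + 1) (r := 2 * N) (by omega) (by omega) (samp h)
  rw [← Mf_eq h V] at h5
  have h6 : (A : ℝ) ≤ Mf (fun i : Fin (M + 1) => tt n N M i)
      (fun i : Fin (M + 1) => vv n N M V i) * (n : ℝ) ^ 2 + 240 * N * n := by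
    have h7 : (A : ℝ) ≤ area (2 * n) (lp n V) := by exact_mod_cast hA
    push_cast at h5
    linarith
  have h8 := Mf_le (fun i : Fin (M + 1) => tt n N M i) (fun i : Fin (M + 1) => vv n N M V i)
    ht0 ht1 hv
  constructor
  · have h9 := mul_le_mul_of_nonneg_right h8 (by positivity : (0 : ℝ) ≤ (n : ℝ) ^ 2)
    linarith
  · unfold J
    refine csInf_le ⟨0, ?_⟩ ?_
    · rintro x ⟨m, t, v, h10, _, h11, _, rfl⟩
      exact Finset.sum_nonneg fun i _ => mul_nonneg (h10 i) (rate_nonneg (h11 i))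
    · refine ⟨M + 1, fun i => tt n N M i, fun i => vv n N M V i, ht0, ht1, hv, ?_, ?_⟩
      · rw [div_le_iff₀ (by positivity)]
        linarith
      · rw [Finset.sum_range]

theorem prod_le {K1 : ℝ} (hK1 : 0 ≤ K1) (hlaw : ∀ n : ℕ, 2 ≤ n → ∀ x y : ℤ, (x, y) ≠ (0, 0) →
    (x + y - n) % 2 = 0 → |x| + |y| ≤ n → 0 < (a n x y : ℝ) ∧
    |Real.log (a n x y) - (n * Real.log mu - n * Rate ((x : ℝ) / n, (y : ℝ) / n))| ≤
      K1 * Real.log n ^ 2) (h : Par n N M) {V : List St} (hs : Saw V)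
    (hl : V.length = 2 * n - 1) (hNN : NN (2 * n) (lp n V)) :
    ((∏ i : Fin M, a (cut n N M (i + 1) - cut n N M i)
      (path V (cut n N M (i + 1)) - path V (cut n N M i)).1
      (path V (cut n N M (i + 1)) - path V (cut n N M i)).2 : ℕ) : ℝ) ≤
    Real.exp (2 * n * Real.log mu - 2 * n * ∑ i ∈ range (M + 1), tt n N M i *
      Rate (vv n N M V i) + 4 * K1 * M * Real.log n ^ 2) := by
  have h2 := h.hN
  have h3 := h.hNn
  have hn2 : 2 ≤ n := h2.trans h3
  have h4 : (0 : ℝ) < n := by exact_mod_cast (by omega : 0 < n)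
  have hlogn : 0 < Real.log n := Real.log_pos (by exact_mod_cast (by omega : 1 < n))
  have hterm : ∀ i : Fin M, (a (cut n N M (i + 1) - cut n N M i)
      (path V (cut n N M (i + 1)) - path V (cut n N M i)).1
      (path V (cut n N M (i + 1)) - path V (cut n N M i)).2 : ℝ) ≤
      Real.exp (len n N M i * Real.log mu - len n N M i * Rate (vv n N M V i) +
        4 * K1 * Real.log n ^ 2) := by
    intro i
    have hc := cut_step h i.2
    have hcl := cut_le h (by omega : (i : ℕ) + 1 ≤ M)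
    set L := cut n N M (i + 1) - cut n N M i with hL
    have hL2 : 2 ≤ L := by omega
    have hLn : L ≤ 2 * n := by omega
    have hpl := pc_length h hl i.2
    have hpx := pc_dx h V i.2
    have hpy := pc_dy h V i.2
    rw [← hL] at hpl
    have e1 : (path V (cut n N M (i + 1)) - path V (cut n N M i)).1 = dx (pc n N M V i) := hpx.symm
    have e2 : (path V (cut n N M (i + 1)) - path V (cut n N M i)).2 = dy (pc n N M V i) := hpy.symm
    rw [e1, e2]
    have hne : (dx (pc n N M V i), dy (pc n N M V i)) ≠ (0, 0) := by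
      intro h0
      have h5 : dx (pc n N M V i) = 0 := congrArg Prod.fst h0
      have h6 : dy (pc n N M V i) = 0 := congrArg Prod.snd h0
      have h7 := pc_saw (n := n) (N := N) (M := M) hs i _ (List.infix_refl _) h5 h6
      rw [h7] at hpl
      simp at hpl
      omega
    have hpar := parity (pc n N M V i)
    rw [hpl] at hpar
    have habs := abs_add_abs_le (pc n N M V i)
    rw [hpl] at habs
    obtain ⟨hpos, hlog⟩ := hlaw L hL2 _ _ hne hpar habs
    have h8 := (abs_le.1 hlog).2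
    have hv : vv n N M V i = ((dx (pc n N M V i) : ℝ) / L, (dy (pc n N M V i) : ℝ) / L) := by
      unfold vv
      rw [Dp_small h V i.2, len_small h i.2, ← hL, e1, e2]
    have hlen : len n N M i = (L : ℝ) := by rw [len_small h i.2, ← hL]
    rw [hv, hlen]
    rw [← Real.log_le_iff_le_exp hpos]
    have h9 : Real.log L ≤ 2 * Real.log n := by
      have h10 : (L : ℝ) ≤ (n : ℝ) ^ 2 := by
        have : L ≤ n ^ 2 := by nlinarith
        exact_mod_cast this
      have h11 : (0 : ℝ) < L := by exact_mod_cast (by omega : 0 < L)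
      calc Real.log L ≤ Real.log ((n : ℝ) ^ 2) := Real.log_le_log h11 h10
        _ = 2 * Real.log n := by rw [Real.log_pow]; norm_num
    have h12 : 0 ≤ Real.log L := Real.log_nonneg (by exact_mod_cast (by omega : 1 ≤ L))
    have h13 : Real.log L ^ 2 ≤ 4 * Real.log n ^ 2 := by nlinarith
    have h14 := mul_le_mul_of_nonneg_left h13 hK1
    linarith
  have hprod : ((∏ i : Fin M, a (cut n N M (i + 1) - cut n N M i)
      (path V (cut n N M (i + 1)) - path V (cut n N M i)).1
      (path V (cut n N M (i + 1)) - path V (cut n N M i)).2 : ℕ) : ℝ) ≤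
      ∏ i : Fin M, Real.exp (len n N M i * Real.log mu - len n N M i * Rate (vv n N M V i) +
        4 * K1 * Real.log n ^ 2) := by
    rw [Nat.cast_prod]
    exact Finset.prod_le_prod (fun i _ => Nat.cast_nonneg _) fun i _ => hterm i
  refine hprod.trans ?_
  rw [← Real.exp_sum]
  refine Real.exp_le_exp.2 ?_
  have hM0 : ∑ i : Fin M, (len n N M i * Real.log mu - len n N M i * Rate (vv n N M V i) +
        4 * K1 * Real.log n ^ 2) = (∑ i ∈ range M, len n N M i) * Real.log mu -
        ∑ i ∈ range M, len n N M i * Rate (vv n N M V i) + M * (4 * K1 * Real.log n ^ 2) := by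
    rw [Finset.sum_add_distrib, Finset.sum_sub_distrib, ← Finset.sum_mul, Finset.sum_const,
      card_univ, Fintype.card_fin, nsmul_eq_mul, Finset.sum_range, Finset.sum_range]
  rw [hM0]
  have hsum : ∑ i ∈ range (M + 1), tt n N M i * Rate (vv n N M V i) =
      (∑ i ∈ range M, len n N M i * Rate (vv n N M V i) + Rate (vv n N M V M)) / (2 * n) := by
    rw [Finset.sum_range_succ, add_div, Finset.sum_div]
    congr 1
    · refine Finset.sum_congr rfl fun i _ => ?_
      unfold tt
      ring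
    · unfold tt
      rw [len_last h]
      ring
  have hlen : ∑ i ∈ range M, len n N M i = 2 * n - 1 := by
    have h5 := sum_tt h
    rw [Finset.sum_range_succ] at h5
    unfold tt at h5
    rw [← Finset.sum_div, len_last h, ← add_div, div_eq_one_iff_eq (by positivity)] at h5
    linarith
  have hrate : Rate (vv n N M V M) ≤ Real.log mu :=
    Pool.Agent.Y981.L2.rate_le (vv_dia h hNN M)
  rw [hsum, hlen]
  have e3 : 2 * (n : ℝ) * ((∑ i ∈ range M, len n N M i * Rate (vv n N M V i) +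
      Rate (vv n N M V M)) / (2 * n)) = ∑ i ∈ range M, len n N M i * Rate (vv n N M V i) +
      Rate (vv n N M V M) := by
    field_simp
  rw [e3]
  linarith

end P4

/-- PIECE P4 -/
theorem an_upper : ∃ K C : ℝ, 0 ≤ K ∧ 0 ≤ C ∧ ∀ n : ℕ, 2 ≤ n → ∀ N : ℕ, 2 ≤ N → N ≤ n →
    ∀ A : ℕ, 0 < an n A → (A : ℝ) ≤ (n : ℝ) ^ 2 / 4 + C * N * n ∧
    Real.log (an n A) ≤ 2 * n * Real.log mu - 2 * n * J Rate ((A - C * N * n) / (n : ℝ) ^ 2) +
      K * ((n : ℝ) / N + 1) * Real.log n ^ 2 := by
  classical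
  obtain ⟨K1, hK1, hlaw⟩ := Pool.Agent.K6.H5.JW.a_law
  refine ⟨8 * K1 + 64, 240, by positivity, by norm_num, ?_⟩
  intro n hn N hN hNn A hA
  have h := P4.exists_par hN hNn
  set M := (2 * n - 1) / N with hM
  have hnz : NeZero (2 * n) := ⟨by omega⟩
  set S := fs (fun V => Saw V ∧ |dx V| + |dy V| = 1 ∧ A ≤ area (2 * n) (P4.lp n V)) (2 * n - 1)
    with hS
  have hSmem : ∀ V ∈ S, Saw V ∧ V.length = 2 * n - 1 ∧ NN (2 * n) (P4.lp n V) ∧
      A ≤ area (2 * n) (P4.lp n V) := by
    intro V hV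
    rw [hS, mem_fs] at hV
    obtain ⟨⟨h1, h2, h3⟩, h4⟩ := hV
    exact ⟨h1, h4, (Pool.Agent.Y981.L2.loop_close (M := 2 * n) (by omega) (by omega) h1 h2).2.2, h3⟩
  have hanS : an n A ≤ S.card := by
    have hsub : {f : ZMod (2 * n) → ℤ × ℤ | IsLoop (2 * n) f ∧
        A ≤ Pool.Agent.Y981.L2.area (2 * n) f} ⊆
        ((S.image (P4.lp n) : Finset (ZMod (2 * n) → ℤ × ℤ)) : Set (ZMod (2 * n) → ℤ × ℤ)) := by
      rintro f ⟨hf, hA'⟩
      obtain ⟨w, hw, hwl, hp⟩ := Pool.Agent.Y981.L2.loop_word (by omega) hf 0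
      have hp' : ∀ i : ZMod (2 * n), path w i.val = f i := by
        intro i
        rw [hp _ (ZMod.val_lt i), ZMod.natCast_zmod_val, zero_add, hf.1]
        simp
      have hlp : P4.lp n w = f := funext hp'
      rw [Finset.mem_coe, Finset.mem_image]
      refine ⟨w, ?_, hlp⟩
      rw [hS, mem_fs]
      refine ⟨⟨hw, ?_, ?_⟩, hwl⟩
      · have h3 := hf.2.2 (((2 * n - 1 : ℕ) : ZMod (2 * n)))
        have e1 : ((2 * n - 1 : ℕ) : ZMod (2 * n)) + 1 = 0 := by
          have h4 : ((2 * n - 1 + 1 : ℕ) : ZMod (2 * n)) = 0 := by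
            rw [show 2 * n - 1 + 1 = 2 * n by omega]
            exact ZMod.natCast_self _
          push_cast at h4
          exact h4
        rw [e1, hf.1] at h3
        have h5 := hp' ((2 * n - 1 : ℕ) : ZMod (2 * n))
        rw [ZMod.val_cast_of_lt (by omega), ← hwl, path_len] at h5
        rw [← hwl, ← h5] at h3
        simp only [Prod.fst_zero, Prod.snd_zero, zero_sub, abs_neg] at h3
        exact h3
      · rw [hlp]
        exact hA'
    unfold an
    refine (Set.ncard_le_ncard hsub (Set.toFinite _)).trans ?_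
    rw [Set.ncard_coe_finset]
    exact Finset.card_image_le
  have hSpos : 0 < S.card := lt_of_lt_of_le hA hanS
  obtain ⟨V₁, hV₁⟩ := Finset.card_pos.1 hSpos
  obtain ⟨-, -, hNN₁, hA₁⟩ := hSmem V₁ hV₁
  refine ⟨(P4.J_le h hNN₁ hA₁).1, ?_⟩
  set E : ℝ := 2 * n * Real.log mu - 2 * n * J Rate ((A - 240 * N * n) / (n : ℝ) ^ 2) +
    4 * K1 * M * Real.log n ^ 2 with hE
  let g : List St → Fin M → ℤ × ℤ := fun V i =>
    path V (P4.cut n N M (i + 1)) - path V (P4.cut n N M i)
  set I := Finset.Icc (-(2 * n : ℤ)) (2 * n) with hI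
  set T : Finset (Fin M → ℤ × ℤ) := Fintype.piFinset (fun _ : Fin M => I ×ˢ I) with hT
  have hmaps : ∀ V ∈ S, g V ∈ T := by
    intro V hV
    obtain ⟨h1, h2, -, -⟩ := hSmem V hV
    rw [hT, Fintype.mem_piFinset]
    intro i
    have hpl := P4.pc_length h h2 i.2
    have hpx := P4.pc_dx h V i.2
    have hpy := P4.pc_dy h V i.2
    have habs := abs_add_abs_le (P4.pc n N M V i)
    have hcl := P4.cut_le h (by omega : (i : ℕ) + 1 ≤ M)
    have h3 := abs_nonneg (dx (P4.pc n N M V i))
    have h4 := abs_nonneg (dy (P4.pc n N M V i))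
    have h5 : |dx (P4.pc n N M V i)| ≤ 2 * n := by omega
    have h6 : |dy (P4.pc n N M V i)| ≤ 2 * n := by omega
    rw [Finset.mem_product, hI, Finset.mem_Icc, Finset.mem_Icc]
    have e1 : (g V i).1 = dx (P4.pc n N M V i) := hpx.symm
    have e2 : (g V i).2 = dy (P4.pc n N M V i) := hpy.symm
    rw [e1, e2]
    rw [abs_le] at h5 h6
    exact ⟨h5, h6⟩
  have hTcard : T.card = ((4 * n + 1) ^ 2) ^ M := by
    rw [hT, Fintype.card_piFinset]
    simp only [Finset.card_product, Finset.prod_const, Finset.card_univ, Fintype.card_fin]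
    rw [hI, Int.card_Icc]
    have : (2 * (n : ℤ) + 1 - -(2 * (n : ℤ))).toNat = 4 * n + 1 := by omega
    rw [this, sq]
  have hfib : ∀ b ∈ T, (S.filter fun V => g V = b).card ≤ ⌊Real.exp E⌋₊ := by
    intro b _
    rcases Finset.eq_empty_or_nonempty (S.filter fun V => g V = b) with he | ⟨V₀, hV₀⟩
    · rw [he, Finset.card_empty]; exact Nat.zero_le _
    · rw [Finset.mem_filter] at hV₀
      obtain ⟨hV₀S, hb⟩ := hV₀
      obtain ⟨h1, h2, h3, h4⟩ := hSmem V₀ hV₀S
      have h5 := P4.card_pieces h (S.filter fun V => g V = b) b (fun V hV => by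
        rw [Finset.mem_filter] at hV
        obtain ⟨g1, g2, -, -⟩ := hSmem V hV.1
        exact ⟨g1, g2, fun i => congrFun hV.2 i⟩)
      have h6 := P4.prod_le hK1 hlaw h h1 h2 h3
      have h7 := (P4.J_le h h3 h4).2
      apply Nat.le_floor
      subst hb
      have h8 : (((S.filter fun V => g V = g V₀).card : ℕ) : ℝ) ≤
          ((∏ i : Fin M, a (P4.cut n N M (i + 1) - P4.cut n N M i) (g V₀ i).1 (g V₀ i).2 : ℕ) :
            ℝ) := Nat.cast_le.2 h5
      refine (h8.trans h6).trans (Real.exp_le_exp.2 ?_)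
      rw [hE]
      have hn0 : (0 : ℝ) ≤ 2 * n := by positivity
      have h9 := mul_le_mul_of_nonneg_left h7 hn0
      linarith
  have hcard : S.card ≤ ⌊Real.exp E⌋₊ * T.card :=
    Finset.card_le_mul_card_image_of_maps_to hmaps _ hfib
  have han0 : (0 : ℝ) < an n A := by exact_mod_cast hA
  have h10 : (an n A : ℝ) ≤ Real.exp E * ((4 * n + 1 : ℝ) ^ 2) ^ M := by
    have h11 : (an n A : ℝ) ≤ (⌊Real.exp E⌋₊ : ℝ) * T.card := by
      exact_mod_cast hanS.trans hcard
    refine h11.trans ?_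
    rw [hTcard]
    push_cast
    exact mul_le_mul_of_nonneg_right (Nat.floor_le (Real.exp_pos _).le) (by positivity)
  have h12 : Real.log (an n A) ≤ E + M * (2 * Real.log (4 * n + 1)) := by
    have h13 := Real.log_le_log han0 h10
    rw [Real.log_mul (Real.exp_pos _).ne' (by positivity), Real.log_exp, Real.log_pow,
      Real.log_pow] at h13
    push_cast at h13
    exact h13
  have hn0 : (0 : ℝ) < n := by exact_mod_cast (by omega : 0 < n)
  have hN0 : (0 : ℝ) < N := by exact_mod_cast (by omega : 0 < N)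
  have hlog2 : Real.log 2 ≤ Real.log n :=
    Real.log_le_log (by norm_num) (by exact_mod_cast hn)
  have hl2 : 1 / 2 < Real.log 2 := by
    have := Real.log_two_gt_d9
    linarith
  have h14 : Real.log (4 * n + 1) ≤ 8 * Real.log n ^ 2 := by
    have h15 : (4 * (n : ℝ) + 1) ≤ (n : ℝ) ^ 4 := by
      have hn2 : (2 : ℝ) ≤ n := by exact_mod_cast hn
      have h16 : (8 : ℝ) ≤ (n : ℝ) ^ 3 := by
        have := pow_le_pow_left₀ (by norm_num : (0 : ℝ) ≤ 2) hn2 3
        linarith
      nlinarith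
    have h16 := Real.log_le_log (by positivity) h15
    rw [Real.log_pow] at h16
    push_cast at h16
    nlinarith
  have hMle : (M : ℝ) ≤ 2 * (n / N) := by
    have h17 : (M : ℝ) * N ≤ 2 * n := by
      have : M * N ≤ 2 * n := h.h1.trans (Nat.sub_le _ _)
      exact_mod_cast this
    rw [← le_div_iff₀ hN0] at h17
    rw [← mul_div_assoc]
    exact h17
  have hM0 : (0 : ℝ) ≤ M := Nat.cast_nonneg _
  have hL : 0 ≤ Real.log n ^ 2 := sq_nonneg _
  have h18 : (M : ℝ) * (2 * Real.log (4 * n + 1)) ≤ 16 * M * Real.log n ^ 2 := by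
    have := mul_le_mul_of_nonneg_left h14 hM0
    linarith
  have h19 : (4 * K1 + 16) * (M * Real.log n ^ 2) ≤
      (4 * K1 + 16) * (2 * ((n : ℝ) / N) * Real.log n ^ 2) := by
    refine mul_le_mul_of_nonneg_left ?_ (by positivity)
    exact mul_le_mul_of_nonneg_right hMle hL
  have h20 : (0 : ℝ) ≤ (n : ℝ) / N := by positivity
  have h21 : (4 * K1 + 16) * (2 * ((n : ℝ) / N) * Real.log n ^ 2) ≤
      (8 * K1 + 64) * ((n : ℝ) / N + 1) * Real.log n ^ 2 := by
    have h22 : (4 * K1 + 16) * (2 * ((n : ℝ) / N)) ≤ (8 * K1 + 64) * ((n : ℝ) / N + 1) := by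
      nlinarith [mul_nonneg hK1 h20]
    have := mul_le_mul_of_nonneg_right h22 hL
    linarith
  rw [hE] at h12
  linarith


end Pool.Agent.K6.H23.WA
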