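import Pool.Agent.K6.H23.WA.AsmT
import Pool.Agent.K6.H23.WA.PieceP2
import Pool.Agent.K6.H23.WA.PieceP3
import Pool.Agent.K6.H23.WA.PieceP4
import Pool.Agent.K6.H23.WA.PieceD
set_option autoImplicit false
namespace Pool.Agent.K6.H23.WA
open Pool.Agent.TH795.EP Pool.Agent.TH795.EP2 Pool.Agent.TH795.SE2 Pool.Agent.TH262.SawL H981 Finset
open Pool.Agent.Y981.L2 (Rate an ln)
open Pool.Agent.K6.H5.JW (ps)
open Filter Topology

/-- even integer part -/
noncomputable def ev (x : ℝ) : ℕ := 2 * ⌊x / 2⌋₊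

theorem ev_le {x : ℝ} (hx : 0 ≤ x) : (ev x : ℝ) ≤ x := by
  unfold ev
  push_cast
  have := Nat.floor_le (show 0 ≤ x / 2 by positivity)
  linarith

theorem ev_gt (x : ℝ) : x - 2 < (ev x : ℝ) := by
  unfold ev
  push_cast
  have := Nat.lt_floor_add_one (x / 2)
  linarith

theorem ev_even (x : ℝ) : ev x % 2 = 0 := by unfold ev; omega

/-- the rate function is monotone in each coordinate -/
theorem rateFn_mono {I : ℝ × ℝ → ℝ} {κ : ℝ} (hI : RateFn I κ) {x y x' y' : ℝ} (h1 : 0 ≤ x')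
    (h2 : x' ≤ x) (h3 : 0 ≤ y') (h4 : y' ≤ y) (h5 : x + y ≤ 1) : I (x', y') ≤ I (x, y) := by
  have key : ∀ {I : ℝ × ℝ → ℝ}, RateFn I κ → ∀ {x y x' : ℝ}, 0 ≤ x' → x' ≤ x → 0 ≤ y → x + y ≤ 1 →
      I (x', y) ≤ I (x, y) := by
    intro I hI x y x' h1 h2 h3 h4
    rcases eq_or_lt_of_le (h1.trans h2) with h0 | h0
    · have : x' = x := by linarith
      rw [this]
    obtain ⟨s, hs⟩ : ∃ s, s = (1 + x' / x) / 2 := ⟨_, rfl⟩
    have hx : x' / x ≤ 1 := by rw [div_le_one h0]; exact h2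
    have hx0 : 0 ≤ x' / x := by positivity
    have m1 : ((x, y) : ℝ × ℝ) ∈ {v : ℝ × ℝ | |v.1| + |v.2| ≤ 1} := by
      show |x| + |y| ≤ 1
      rw [abs_of_pos h0, abs_of_nonneg h3]; exact h4
    have m2 : ((-x, y) : ℝ × ℝ) ∈ {v : ℝ × ℝ | |v.1| + |v.2| ≤ 1} := by
      show |(-x)| + |y| ≤ 1
      rw [abs_neg, abs_of_pos h0, abs_of_nonneg h3]; exact h4
    have h6 := hI.conv.2 m1 m2 (show 0 ≤ s by rw [hs]; positivity)
      (show 0 ≤ 1 - s by rw [hs]; linarith) (by ring)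
    have e1 : s • ((x, y) : ℝ × ℝ) + (1 - s) • ((-x, y) : ℝ × ℝ) = (x', y) := by
      ext
      · simp only [Prod.fst_add, Prod.smul_fst, smul_eq_mul]
        rw [hs]
        field_simp
        ring
      · simp only [Prod.snd_add, Prod.smul_snd, smul_eq_mul]
        ring
    rw [e1] at h6
    have e2 : I (-x, y) = I (x, y) := by
      have g1 := hI.abs (-x, y) m2
      have g2 := hI.abs (x, y) m1
      simp only [abs_neg] at g1 g2
      rw [← g1, g2]
    rw [e2, smul_eq_mul, smul_eq_mul] at h6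
    linarith
  have hsw : RateFn (fun v => I (v.2, v.1)) κ := by
    have e : (fun v : ℝ × ℝ => I (v.2, v.1)) = fun v => I (v.2, v.1) := rfl
    refine ⟨?_, ?_, ?_, hI.zero, ?_, ?_⟩
    · refine ⟨hI.conv.1, ?_⟩
      intro v hv w hw s r hs hr hsr
      have hv' : ((v.2, v.1) : ℝ × ℝ) ∈ {v : ℝ × ℝ | |v.1| + |v.2| ≤ 1} := by
        have : |v.1| + |v.2| ≤ 1 := hv
        show |v.2| + |v.1| ≤ 1
        linarith
      have hw' : ((w.2, w.1) : ℝ × ℝ) ∈ {v : ℝ × ℝ | |v.1| + |v.2| ≤ 1} := by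
        have : |w.1| + |w.2| ≤ 1 := hw
        show |w.2| + |w.1| ≤ 1
        linarith
      exact hI.conv.2 hv' hw' hs hr hsr
    · intro v hv
      exact hI.abs (v.2, v.1) (by simpa [add_comm] using hv)
    · intro v hv
      exact hI.swap (v.2, v.1) (by simpa [add_comm] using hv)
    · intro v hv
      exact hI.nonneg (v.2, v.1) (by simpa [add_comm] using hv)
    · intro v hv
      exact hI.le (v.2, v.1) (by simpa [add_comm] using hv)
  have s1 : I (x', y') ≤ I (x, y') := key hI h1 h2 h3 (by linarith)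
  have s2 := key hsw (x := y) (y := x) (x' := y') h3 h4 (h1.trans h2) (by linarith)
  simp only at s2
  linarith

/-- pairs of a symmetric function -/
theorem pair_sum {M : ℕ} (f : Fin M → Fin M → ℕ) (hf : ∀ i j, f i j = f j i) :
    2 * ∑ j, ∑ i ∈ univ.filter (· < j), f i j + ∑ i, f i i = ∑ j, ∑ i, f i j := by
  have e1 : ∀ j : Fin M, ∑ i, f i j = ∑ i ∈ univ.filter (· < j), f i j +
      (f j j + ∑ i ∈ univ.filter (j < ·), f i j) := by
    intro j
    have h1 := Finset.sum_filter_add_sum_filter_not univ (fun i => i < j) (fun i => f i j)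
    rw [← h1]
    congr 1
    have h2 : (univ.filter fun i : Fin M => ¬ i < j) = insert j (univ.filter (j < ·)) := by
      ext i
      simp only [mem_filter, mem_univ, true_and, mem_insert, not_lt]
      rw [le_iff_eq_or_lt]
      constructor
      · rintro (h | h)
        · exact Or.inl h.symm
        · exact Or.inr h
      · rintro (h | h)
        · exact Or.inl h.symm
        · exact Or.inr h
    rw [h2, Finset.sum_insert (by simp)]
  have e2 : ∑ j, ∑ i ∈ univ.filter (j < ·), f i j = ∑ j, ∑ i ∈ univ.filter (· < j), f i j := by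
    simp only [Finset.sum_filter]
    rw [Finset.sum_comm]
    refine Finset.sum_congr rfl fun i _ => Finset.sum_congr rfl fun j _ => ?_
    rw [hf]
  simp_rw [e1]
  rw [Finset.sum_add_distrib, Finset.sum_add_distrib, e2]
  ring

theorem Mf_quarter {M : ℕ} (hM : 1 ≤ M) {v : Fin M → ℝ × ℝ}
    (hv : ∀ i, 0 ≤ (v i).1 ∧ 0 ≤ (v i).2 ∧ (v i).1 + (v i).2 ≤ 1) :
    Mf (fun _ => 1 / (M : ℝ)) v ≤ 1 / 4 := by
  have hM0 : (0 : ℝ) < M := by exact_mod_cast hM
  have h1 := PieceD.Mf_le (fun _ => 1 / (M : ℝ)) v (fun _ => by positivity)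
  obtain ⟨x, hx⟩ : ∃ x, x = ∑ i, 1 / (M : ℝ) * |(v i).1| := ⟨_, rfl⟩
  obtain ⟨y, hy⟩ : ∃ y, y = ∑ i, 1 / (M : ℝ) * |(v i).2| := ⟨_, rfl⟩
  rw [← hx, ← hy] at h1
  have hxy : x + y ≤ 1 := by
    rw [hx, hy, ← Finset.sum_add_distrib]
    have h2 : ∀ i ∈ (univ : Finset (Fin M)), 1 / (M : ℝ) * |(v i).1| + 1 / (M : ℝ) * |(v i).2| ≤
        1 / (M : ℝ) := by
      intro i _
      rw [abs_of_nonneg (hv i).1, abs_of_nonneg (hv i).2.1, ← mul_add]
      have := (hv i).2.2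
      calc 1 / (M : ℝ) * ((v i).1 + (v i).2) ≤ 1 / (M : ℝ) * 1 := by gcongr
        _ = _ := mul_one _
    refine (Finset.sum_le_sum h2).trans ?_
    rw [Finset.sum_const, Finset.card_univ, Fintype.card_fin, nsmul_eq_mul]
    rw [mul_one_div_cancel hM0.ne']
  have hx0 : 0 ≤ x := by rw [hx]; positivity
  have hy0 : 0 ≤ y := by rw [hy]; positivity
  nlinarith [sq_nonneg (x - y)]

theorem lower_unif : ∃ K : ℝ, 0 ≤ K ∧ ∀ n : ℕ, 2 ≤ n → ∀ M : ℕ, 1 ≤ M → ∀ v : Fin M → ℝ × ℝ,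
    (∀ i, 0 ≤ (v i).1 ∧ 0 ≤ (v i).2 ∧ (v i).1 + (v i).2 ≤ 1) → 4 * M ≤ n → ∀ A : ℕ,
    (A : ℝ) + 8 * M * n + (n : ℝ) ^ 2 / M ≤ (n : ℝ) ^ 2 * Mf (fun _ => 1 / (M : ℝ)) v →
    0 < an n A ∧ 2 * n * Real.log mu -
      (2 * n * ∑ i, (1 / (M : ℝ)) * Rate (v i) + K * M * Real.log n ^ 2) ≤ Real.log (an n A) := by
  obtain ⟨K1, hK1, hch⟩ := chain_max chain
  obtain ⟨K2, hK2, hss⟩ := ss_bound
  have hmu := mu_pos
  have hlmu : 0 ≤ Real.log mu := Real.log_nonneg one_le_mu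
  refine ⟨2 * K1 + 4 * K2 + 32 * Real.log mu, by positivity, ?_⟩
  intro n hn M hM v hv hMn A hA
  have hn0 : (0 : ℝ) < n := by exact_mod_cast (by omega : 0 < n)
  have hM0 : (0 : ℝ) < M := by exact_mod_cast hM
  obtain ⟨m, hm⟩ : ∃ m, m = 2 * (n / (4 * M)) := ⟨_, rfl⟩
  have hm2 : 2 ≤ m := by
    have : 1 ≤ n / (4 * M) := by
      rw [Nat.one_le_div_iff (by omega)]
      omega
    omega
  have hmM : 2 * (M * m) ≤ n := by
    have h1 := Nat.div_mul_le_self n (4 * M)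
    rw [hm]
    nlinarith
  have hmM' : n < 2 * (M * m) + 4 * M := by
    have h1 := Nat.lt_div_mul_add (a := n) (b := 4 * M) (by omega)
    rw [hm]
    nlinarith
  have hmMr : 2 * ((M : ℝ) * m) ≤ n := by exact_mod_cast hmM
  have hmMr' : (n : ℝ) < 2 * (M * m) + 4 * M := by exact_mod_cast hmM'
  have hm2r : (2 : ℝ) ≤ m := by exact_mod_cast hm2
  let k : Fin M → ℕ := fun i => 1 + ev ((v i).1 * (m - 2))
  let l : Fin M → ℕ := fun i => 1 + ev ((v i).2 * (m - 2))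
  have hu0 : (0 : ℝ) ≤ (m : ℝ) - 2 := by linarith
  have hkl : ∀ i, (k i : ℝ) ≤ 1 + (v i).1 * (m - 2) ∧ (l i : ℝ) ≤ 1 + (v i).2 * (m - 2) ∧
      (v i).1 * (m - 2) - 1 ≤ k i ∧ (v i).2 * (m - 2) - 1 ≤ l i := by
    intro i
    have g1 := ev_le (mul_nonneg (hv i).1 hu0)
    have g2 := ev_le (mul_nonneg (hv i).2.1 hu0)
    have g3 := ev_gt ((v i).1 * (m - 2))
    have g4 := ev_gt ((v i).2 * (m - 2))
    simp only [k, l]
    push_cast
    refine ⟨by linarith, by linarith, by linarith, by linarith⟩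
  have hcond : ∀ i, 1 ≤ k i ∧ 1 ≤ l i ∧ 2 ≤ m ∧ (k i + l i) % 2 = m % 2 ∧ k i + l i ≤ m := by
    intro i
    refine ⟨by simp only [k]; omega, by simp only [l]; omega, hm2, ?_, ?_⟩
    · have e1 := ev_even ((v i).1 * (m - 2))
      have e2 := ev_even ((v i).2 * (m - 2))
      simp only [k, l]
      omega
    · obtain ⟨g1, g2, -, -⟩ := hkl i
      have g3 := (hv i).2.2
      have g4 : ((k i + l i : ℕ) : ℝ) ≤ (m : ℕ) := by
        push_cast
        nlinarith
      exact_mod_cast g4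
  obtain ⟨X, D, hX, hD, hAr, m', hm', hlow⟩ := hch n hn M hM k l (fun _ => m) hcond
    (by rw [Finset.sum_const, Finset.card_univ, Fintype.card_fin, smul_eq_mul]; exact hmM)
  rw [Finset.sum_const, Finset.card_univ, Fintype.card_fin, smul_eq_mul] at hm'
  have h2 := hss n (by omega) X D hX hD m' m' (by omega)
  -- the area
  have hprod : ∀ i j, (v i).2 * (v j).1 * (m - 2) ^ 2 - 2 * (m - 2) ≤ (l i : ℝ) * k j := by
    intro i j
    obtain ⟨-, -, -, g1⟩ := hkl i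
    obtain ⟨-, -, g2, -⟩ := hkl j
    have g3 : (1 : ℝ) ≤ l i := by exact_mod_cast (hcond i).2.1
    have g4 : (1 : ℝ) ≤ k j := by exact_mod_cast (hcond j).1
    have y1 : (v i).2 ≤ 1 := by linarith [(hv i).1, (hv i).2.2]
    have x1 : (v j).1 ≤ 1 := by linarith [(hv j).2.1, (hv j).2.2]
    have y0 := (hv i).2.1
    have x0 := (hv j).1
    obtain ⟨u, hu⟩ : ∃ u, u = (m : ℝ) - 2 := ⟨_, rfl⟩
    rw [← hu] at g1 g2 hu0 ⊢
    rcases le_or_gt 1 ((v i).2 * u) with h | h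
    · rcases le_or_gt 1 ((v j).1 * u) with h' | h'
      · nlinarith [mul_le_mul g1 g2 (by linarith) (by linarith)]
      · have : (v i).2 * (v j).1 * u ^ 2 ≤ 1 * u := by
          calc (v i).2 * (v j).1 * u ^ 2 = ((v j).1 * u) * ((v i).2 * u) := by ring
            _ ≤ 1 * (1 * u) := by gcongr
            _ = 1 * u := by ring
        nlinarith
    · have : (v i).2 * (v j).1 * u ^ 2 ≤ 1 * u := by
        calc (v i).2 * (v j).1 * u ^ 2 = ((v i).2 * u) * ((v j).1 * u) := by ring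
          _ ≤ 1 * (1 * u) := by gcongr
          _ = 1 * u := by ring
      nlinarith
  obtain ⟨S, hS⟩ : ∃ S, S = ∑ j, ∑ i ∈ univ.filter (· < j), max (l i * k j) (l j * k i) := ⟨_, rfl⟩
  rw [← hS] at hAr
  have hpairs := pair_sum (fun i j => max (l i * k j) (l j * k i)) (fun i j => max_comm _ _)
  rw [← hS] at hpairs
  have hMf : Mf (fun _ => 1 / (M : ℝ)) v = (1 / 2) * ((1 / (M : ℝ)) ^ 2 *
      ∑ i, ∑ j, max ((v i).1 * (v j).2) ((v j).1 * (v i).2)) := by
    unfold Mf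
    congr 1
    rw [Finset.mul_sum]
    refine Finset.sum_congr rfl fun i _ => ?_
    rw [Finset.mul_sum]
    refine Finset.sum_congr rfl fun j _ => ?_
    rw [abs_of_nonneg (hv i).1, abs_of_nonneg (hv i).2.1, abs_of_nonneg (hv j).1,
      abs_of_nonneg (hv j).2.1]
    ring
  obtain ⟨Sg, hSg⟩ : ∃ Sg : ℝ, Sg = ∑ i : Fin M, ∑ j : Fin M,
      max ((v i).1 * (v j).2) ((v j).1 * (v i).2) := ⟨_, rfl⟩
  rw [← hSg] at hMf
  have hsum1 : ((m : ℝ) - 2) ^ 2 * Sg - 2 * (m - 2) * M ^ 2 ≤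
      ((∑ j, ∑ i, max (l i * k j) (l j * k i) : ℕ) : ℝ) := by
    have e1 : ((m : ℝ) - 2) ^ 2 * Sg - 2 * (m - 2) * M ^ 2 =
        ∑ j : Fin M, ∑ i : Fin M, (((m : ℝ) - 2) ^ 2 * max ((v j).1 * (v i).2) ((v i).1 * (v j).2) -
          2 * (m - 2)) := by
      simp only [Finset.sum_sub_distrib, Finset.sum_const, Finset.card_univ, Fintype.card_fin,
        nsmul_eq_mul, ← Finset.mul_sum]
      rw [hSg]
      ring
    rw [e1]
    push_cast
    refine Finset.sum_le_sum fun j _ => Finset.sum_le_sum fun i _ => ?_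
    have p1 := hprod i j
    have p2 := hprod j i
    rcases le_total ((v j).1 * (v i).2) ((v i).1 * (v j).2) with h | h
    · rw [max_eq_right h]
      refine le_trans ?_ (le_max_right _ _)
      linarith
    · rw [max_eq_left h]
      refine le_trans ?_ (le_max_left _ _)
      linarith
  have hdiag : ((∑ i, max (l i * k i) (l i * k i) : ℕ) : ℝ) ≤ M * (m ^ 2 / 4) := by
    push_cast
    have : ∀ i ∈ (univ : Finset (Fin M)), max ((l i : ℝ) * k i) (l i * k i) ≤ (m : ℝ) ^ 2 / 4 := by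
      intro i _
      rw [max_self]
      have h3 : (k i : ℝ) + l i ≤ m := by exact_mod_cast (hcond i).2.2.2.2
      have h4 : (0 : ℝ) ≤ k i := Nat.cast_nonneg _
      have h5 : (0 : ℝ) ≤ l i := Nat.cast_nonneg _
      nlinarith [sq_nonneg ((k i : ℝ) - l i)]
    refine (Finset.sum_le_sum this).trans ?_
    rw [Finset.sum_const, Finset.card_univ, Fintype.card_fin, nsmul_eq_mul]
  have hquarter := Mf_quarter hM hv
  have hMf0 : 0 ≤ Mf (fun _ => 1 / (M : ℝ)) v 
    := PieceD.Mf_nonneg _ _ (fun _ => by positivity)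
  obtain ⟨μf, hμf⟩ : ∃ μf, μf = Mf (fun _ => 1 / (M : ℝ)) v := ⟨_, rfl⟩
  rw [← hμf] at hMf hA hquarter hMf0
  have hSg : Sg = 2 * (M : ℝ) ^ 2 * μf := by
    rw [hMf]
    field_simp
  have hAle : (A : ℝ) ≤ ((4 * S : ℕ) : ℝ) := by
    have g1 : (2 : ℝ) * S + ((∑ i, max (l i * k i) (l i * k i) : ℕ) : ℝ) =
        ((∑ j, ∑ i, max (l i * k j) (l j * k i) : ℕ) : ℝ) := by exact_mod_cast hpairs
    push_cast at g1 hsum1 hdiag ⊢
    obtain ⟨W, hW⟩ : ∃ W, W = (M : ℝ) * m := ⟨_, rfl⟩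
    rw [← hW] at hmMr hmMr'
    have g2 : ((m : ℝ) - 2) ^ 2 * Sg = 2 * (W - 2 * M) ^ 2 * μf := by
      rw [hSg, hW]
      ring
    rw [g2] at hsum1
    have g3 : 2 * ((m : ℝ) - 2) * M ^ 2 ≤ M * n := by
      have : 2 * ((m : ℝ) - 2) * M ^ 2 = 2 * M * (W - 2 * M) := by rw [hW]; ring
      rw [this]
      nlinarith
    have g4 : (M : ℝ) * (m ^ 2 / 4) ≤ n ^ 2 / M / 16 := by
      have : (M : ℝ) * (m ^ 2 / 4) = W ^ 2 / (4 * M) := by
        rw [hW]
        field_simp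
      rw [this, div_div, div_le_div_iff₀ (by positivity) (by positivity)]
      have hW0 : 0 ≤ W := by rw [hW]; positivity
      nlinarith [mul_le_mul hmMr hmMr (by linarith) hn0.le]
    have g5 : (n : ℝ) ^ 2 * μf - 4 * (W - 2 * M) ^ 2 * μf ≤ 4 * M * n := by
      have hW0 : 0 ≤ W - 2 * M := by
        rw [hW]
        nlinarith
      have e1 : (n : ℝ) ^ 2 * μf - 4 * (W - 2 * M) ^ 2 * μf =
          (n - 2 * (W - 2 * M)) * (n + 2 * (W - 2 * M)) * μf := by ring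
      rw [e1]
      have e2 : (n : ℝ) - 2 * (W - 2 * M) ≤ 8 * M := by linarith
      have e3 : (n : ℝ) + 2 * (W - 2 * M) ≤ 2 * n := by linarith
      have e4 : 0 ≤ (n : ℝ) - 2 * (W - 2 * M) := by linarith
      calc (n - 2 * (W - 2 * M)) * (n + 2 * (W - 2 * M)) * μf ≤ (8 * M) * (2 * n) * (1 / 4) := by
            gcongr
        _ = 4 * M * n := by ring
    have g6 : (0 : ℝ) ≤ (n : ℝ) ^ 2 / M := by positivity
    have g7 : (0 : ℝ) ≤ (M : ℝ) * n := by positivity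
    nlinarith
  have hAnat : A ≤ 4 * S := by exact_mod_cast hAle
  have hmono : an n (∑ x ∈ Ioo 0 X, 2 * D x).toNat ≤ an n A := by
    unfold an
    apply Set.ncard_le_ncard
    · rintro f ⟨hf1, hf2⟩
      refine ⟨hf1, le_trans ?_ hf2⟩
      have h3 : ((A : ℕ) : ℤ) ≤ ∑ x ∈ Ioo 0 X, 2 * D x := le_trans (by exact_mod_cast hAnat) hAr
      omega
    · exact (Pool.Agent.Y981.L2.loops_finite (by omega)).subset (fun f hf => hf.1)
  -- the cost
  have hrate : ∀ i, (m : ℝ) * Rate ((k i : ℝ) / m, (l i : ℝ) / m) ≤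
      2 * Real.log mu + (n : ℝ) / (2 * M) * Rate (v i) := by
    intro i
    obtain ⟨g1, g2, -, -⟩ := hkl i
    have hm0 : (0 : ℝ) < m := by linarith
    have hDia : ((v i).1, (v i).2) ∈ {v : ℝ × ℝ | |v.1| + |v.2| ≤ 1} := by
      show |(v i).1| + |(v i).2| ≤ 1
      rw [abs_of_nonneg (hv i).1, abs_of_nonneg (hv i).2.1]
      exact (hv i).2.2
    have hDia2 : ((1 / 2, 1 / 2) : ℝ × ℝ) ∈ {v : ℝ × ℝ | |v.1| + |v.2| ≤ 1} := by
      show |(1 / 2 : ℝ)| + |(1 / 2 : ℝ)| ≤ 1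
      norm_num
    have h3 : Rate ((k i : ℝ) / m, (l i : ℝ) / m) ≤
        Rate ((1 + (v i).1 * (m - 2)) / m, (1 + (v i).2 * (m - 2)) / m) := by
      apply rateFn_mono rateFn
      · positivity
      · gcongr
      · positivity
      · gcongr
      · rw [← add_div, div_le_one hm0]
        have := (hv i).2.2
        nlinarith
    have h4 := rateFn.conv.2 hDia2 hDia (show (0 : ℝ) ≤ 2 / m by positivity)
      (show (0 : ℝ) ≤ (m - 2) / m by positivity) (by field_simp; ring)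
    have e1 : (2 / (m : ℝ)) • ((1 / 2, 1 / 2) : ℝ × ℝ) + (((m : ℝ) - 2) / m) • ((v i).1, (v i).2) =
        ((1 + (v i).1 * (m - 2)) / m, (1 + (v i).2 * (m - 2)) / m) := by
      ext
      · simp only [Prod.fst_add, Prod.smul_fst, smul_eq_mul]
        field_simp
      · simp only [Prod.snd_add, Prod.smul_snd, smul_eq_mul]
        field_simp
    rw [e1, smul_eq_mul, smul_eq_mul] at h4
    have h5 := rateFn.le (1 / 2, 1 / 2) hDia2
    have h6 := rateFn.nonneg (v i) hDia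
    have h7 : (m : ℝ) * Rate ((k i : ℝ) / m, (l i : ℝ) / m) ≤
        2 * Rate (1 / 2, 1 / 2) + (m - 2) * Rate ((v i).1, (v i).2) := by
      calc (m : ℝ) * Rate ((k i : ℝ) / m, (l i : ℝ) / m)
          ≤ m * (2 / m * Rate (1 / 2, 1 / 2) + (m - 2) / m * Rate ((v i).1, (v i).2)) := by
            refine mul_le_mul_of_nonneg_left (h3.trans h4) hm0.le
        _ = _ := by field_simp
    have h8 : ((m : ℝ) - 2) ≤ (n : ℝ) / (2 * M) := by
      rw [le_div_iff₀ (by positivity)]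
      nlinarith
    have h9 := mul_le_mul_of_nonneg_right h8 h6
    have h10 : Rate ((v i).1, (v i).2) = Rate (v i) := rfl
    rw [h10] at h7
    linarith
  have hcost : 4 * ∑ i, (m : ℝ) * Rate ((k i : ℝ) / m, (l i : ℝ) / m) ≤
      8 * M * Real.log mu + 2 * n * ∑ i, (1 / (M : ℝ)) * Rate (v i) := by
    have h3 := Finset.sum_le_sum (fun i (_ : i ∈ (univ : Finset (Fin M))) => hrate i)
    rw [Finset.sum_add_distrib, Finset.sum_const, Finset.card_univ, Fintype.card_fin,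
      nsmul_eq_mul, ← Finset.mul_sum, ← Finset.mul_sum] at h3
    rw [← Finset.mul_sum]
    have e1 : 2 * (n : ℝ) * (∑ i, (1 / (M : ℝ)) * Rate (v i)) =
        4 * ((n : ℝ) / (2 * M) * ∑ i, Rate (v i)) := by
      rw [← Finset.mul_sum]
      field_simp
      ring
    rw [e1]
    linarith
  obtain ⟨B, hB⟩ : ∃ B, B = 2 * ∑ i, (m : ℝ) * Rate ((k i : ℝ) / m, (l i : ℝ) / m) +
    K1 * M * Real.log n ^ 2 := ⟨_, rfl⟩
  rw [← hB] at hlow
  have h4 : mu ^ (2 * n) * Real.exp (-(2 * B)) ≤ q (2 * n) K2 * (an n A : ℝ) := by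
    calc mu ^ (2 * n) * Real.exp (-(2 * B))
        = (mu ^ m' * Real.exp (-B)) * (mu ^ m' * Real.exp (-B)) * mu ^ (2 * n - (m' + m')) := by
          rw [show (mu ^ m' * Real.exp (-B)) * (mu ^ m' * Real.exp (-B)) *
            mu ^ (2 * n - (m' + m')) = (mu ^ m' * mu ^ m' * mu ^ (2 * n - (m' + m'))) *
            (Real.exp (-B) * Real.exp (-B)) by ring, ← pow_add, ← pow_add, ← Real.exp_add]
          congr 2
          · omega
          · ring
      _ ≤ (ss X D m' : ℝ) * ss X D m' * mu ^ (2 * n - (m' + m')) := by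
          gcongr
      _ ≤ _ := h2
      _ ≤ _ := by
          refine mul_le_mul_of_nonneg_left ?_ (q_pos _ _).le
          exact_mod_cast hmono
  have hLpos : 0 < mu ^ (2 * n) * Real.exp (-(2 * B)) := by positivity
  have hanpos : (0 : ℝ) < an n A := by
    by_contra hcon
    have h5 : (an n A : ℝ) ≤ 0 := not_lt.1 hcon
    have h6 := q_pos (2 * n) K2
    nlinarith
  refine ⟨by exact_mod_cast hanpos, ?_⟩
  have h5 := Real.log_le_log hLpos h4
  rw [Real.log_mul (by positivity) (by positivity), Real.log_mul (q_pos _ _).ne' hanpos.ne',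
    Real.log_exp, Real.log_pow] at h5
  have h6 : Real.log (q (2 * n) K2) = K2 * Real.log ((2 * n : ℕ) : ℝ) ^ 2 := by
    unfold q
    rw [Real.log_exp]
  rw [h6] at h5
  have h7 := mul_le_mul_of_nonneg_left (Pool.Agent.K6.H5.JW.logsq_two hn) hK2
  have hl1 := log_sq_ge hn
  have hM1 : (1 : ℝ) ≤ M := by exact_mod_cast hM
  have h8 : K2 * (4 * Real.log n ^ 2) ≤ 4 * K2 * M * Real.log n ^ 2 := by
    have : 0 ≤ K2 * Real.log n ^ 2 := by positivity
    nlinarith
  have h9 : 8 * M * Real.log mu ≤ 32 * Real.log mu * M * Real.log n ^ 2 := by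
    have : 0 ≤ (M : ℝ) * Real.log mu := by positivity
    nlinarith
  push_cast at h5 h7 ⊢
  rw [hB] at h5
  nlinarith

end Pool.Agent.K6.H23.WA
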