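import Pool.Agent.K6.H23.WA.PieceF

/-!
# The rate function of the area for a rate function of the end point which is radial near zero
-/

set_option autoImplicit false

namespace Pool.Agent.K6.H23.WA

open Finset Filter Topology

/-- the tangent line inequality -/
lemma tangent_line {x s θ : ℝ} (hx : 0 ≤ x) (hs : 0 < s) (hθ : 1 ≤ θ) :
    s ^ θ + θ * s ^ (θ - 1) * (x - s) ≤ x ^ θ := by
  have h1 : 1 + θ * (x / s - 1) ≤ (1 + (x / s - 1)) ^ θ :=
    one_add_mul_self_le_rpow_one_add (by have := div_nonneg hx hs.le; linarith) hθ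
  rw [add_sub_cancel, Real.div_rpow hx hs.le] at h1
  have h2 : 0 < s ^ θ := Real.rpow_pos_of_pos hs _
  have h3 : s ^ (θ - 1) = s ^ θ / s := Real.rpow_sub_one hs.ne' θ
  rw [h3]
  rw [le_div_iff₀ h2] at h1
  refine le_trans (le_of_eq ?_) h1
  field_simp

lemma nrm_pos {v : ℝ × ℝ} (h : 0 < √(v.1 ^ 2 + v.2 ^ 2)) : v ≠ 0 := by
  rintro rfl
  simp at h

lemma dist_le_nrm (v : ℝ × ℝ) : dist v 0 ≤ √(v.1 ^ 2 + v.2 ^ 2) := by
  rw [dist_zero_right, Prod.norm_def, max_le_iff]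
  constructor
  · rw [Real.norm_eq_abs, ← Real.sqrt_sq_eq_abs]
    exact Real.sqrt_le_sqrt (by nlinarith [sq_nonneg v.2])
  · rw [Real.norm_eq_abs, ← Real.sqrt_sq_eq_abs]
    exact Real.sqrt_le_sqrt (by nlinarith [sq_nonneg v.1])

lemma RateFn.smul_le {I : ℝ × ℝ → ℝ} {κ : ℝ} (hI : RateFn I κ) {c : ℝ} (h0 : 0 ≤ c) (h1 : c ≤ 1)
    {v : ℝ × ℝ} (hv : |v.1| + |v.2| ≤ 1) : I (c • v) ≤ c * I v := by
  have := hI.conv.2 (x := v) (y := 0) hv (by simp) h0 (sub_nonneg.2 h1) (by ring)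
  have h0' : I 0 = 0 := hI.zero
  simpa [h0'] using this

/-- lower bound for the rate function -/
lemma rate_lower {I : ℝ × ℝ → ℝ} {κ : ℝ} (hI : RateFn I κ) {θ K ρ s : ℝ} (hθ : 1 ≤ θ)
    (hK : 0 ≤ K) (hρ : 0 < ρ) (hs : 0 < s) (hsρ : θ * s ^ (θ - 1) ≤ ρ ^ (θ - 1))
    (hlow : ∀ v : ℝ × ℝ, 0 < √(v.1 ^ 2 + v.2 ^ 2) → √(v.1 ^ 2 + v.2 ^ 2) ≤ ρ →
      K * (√(v.1 ^ 2 + v.2 ^ 2)) ^ θ ≤ I v)
    {v : ℝ × ℝ} (hv : |v.1| + |v.2| ≤ 1) :
    K * (s ^ θ + θ * s ^ (θ - 1) * (√(v.1 ^ 2 + v.2 ^ 2) - s)) ≤ I v := by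
  set r := √(v.1 ^ 2 + v.2 ^ 2) with hr
  have hr0 : 0 ≤ r := Real.sqrt_nonneg _
  have hsθ : 0 < s ^ (θ - 1) := Real.rpow_pos_of_pos hs _
  have hss : s ^ θ = s ^ (θ - 1) * s := by
    rw [Real.rpow_sub_one hs.ne']; field_simp
  rcases eq_or_lt_of_le hr0 with h0 | h0
  · rw [← h0]
    have h1 : K * (s ^ θ + θ * s ^ (θ - 1) * (0 - s)) ≤ 0 := by
      rw [hss]
      have : s ^ (θ - 1) * s + θ * s ^ (θ - 1) * (0 - s) = - ((θ - 1) * (s ^ (θ - 1) * s)) := by ring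
      rw [this]
      have : 0 ≤ (θ - 1) * (s ^ (θ - 1) * s) := mul_nonneg (by linarith) (by positivity)
      nlinarith
    exact h1.trans (hI.nonneg v hv)
  rcases le_or_gt r ρ with h1 | h1
  · exact (mul_le_mul_of_nonneg_left (tangent_line hr0 hs hθ) hK).trans (hlow v h0 h1)
  · set c := ρ / r with hc
    have hc0 : 0 < c := div_pos hρ h0
    have hc1 : c ≤ 1 := (div_le_one h0).2 h1.le
    have h2 := hI.smul_le hc0.le hc1 hv
    have h3 : √((c • v).1 ^ 2 + (c • v).2 ^ 2) = ρ := by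
      have : (c • v).1 ^ 2 + (c • v).2 ^ 2 = c ^ 2 * (v.1 ^ 2 + v.2 ^ 2) := by
        simp only [Prod.smul_fst, Prod.smul_snd, smul_eq_mul]; ring
      rw [this, Real.sqrt_mul (sq_nonneg _), Real.sqrt_sq hc0.le, ← hr, hc]
      field_simp
    have h4 := hlow (c • v) (by rw [h3]; exact hρ) (by rw [h3])
    rw [h3] at h4
    have h5 : K * ρ ^ θ ≤ c * I v := h4.trans h2
    have h6 : ρ ^ θ = ρ ^ (θ - 1) * ρ := by
      rw [Real.rpow_sub_one hρ.ne']; field_simp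
    have h7 : K * (ρ ^ (θ - 1) * r) ≤ I v := by
      have : K * (ρ ^ (θ - 1) * r) = (K * ρ ^ θ) / c := by
        rw [h6, hc]; field_simp
      rw [this, div_le_iff₀ hc0]
      linarith
    refine le_trans (mul_le_mul_of_nonneg_left ?_ hK) h7
    have h8 : 0 ≤ (θ - 1) * (s ^ (θ - 1) * s) := mul_nonneg (by linarith) (by positivity)
    have h9 : θ * s ^ (θ - 1) * r ≤ ρ ^ (θ - 1) * r := mul_le_mul_of_nonneg_right hsρ hr0
    rw [hss]
    nlinarith

/-- lower bound for the costs -/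
lemma cost_lower {I : ℝ × ℝ → ℝ} {θ K s : ℝ} (hθ : 1 ≤ θ) (hK : 0 ≤ K) (hs : 0 < s)
    (hlow : ∀ v : ℝ × ℝ, |v.1| + |v.2| ≤ 1 →
      K * (s ^ θ + θ * s ^ (θ - 1) * (√(v.1 ^ 2 + v.2 ^ 2) - s)) ≤ I v)
    {a : ℝ} (ha : s ^ 2 ≤ Real.pi * a) {c : ℝ} (hc : c ∈ costs I a) : K * s ^ θ ≤ c := by
  obtain ⟨m, t, v, ht, ht1, hv, hM, rfl⟩ := hc
  set S := ∑ i, t i * √((v i).1 ^ 2 + (v i).2 ^ 2) with hS
  have hS0 : 0 ≤ S := sum_nonneg fun i _ => mul_nonneg (ht i) (Real.sqrt_nonneg _)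
  have h1 := isoperimetric t v ht
  have hsS : s ≤ S := by
    have h2 : s ^ 2 ≤ S ^ 2 := by
      have h3 : a ≤ S ^ 2 / Real.pi := hM.trans h1
      rw [le_div_iff₀ Real.pi_pos] at h3
      linarith
    exact (sq_le_sq₀ hs.le hS0).1 h2
  have h4 : ∑ i, t i * (K * (s ^ θ + θ * s ^ (θ - 1) * (√((v i).1 ^ 2 + (v i).2 ^ 2) - s))) ≤
      ∑ i, t i * I (v i) := sum_le_sum fun i _ => mul_le_mul_of_nonneg_left (hlow _ (hv i)) (ht i)
  refine le_trans ?_ h4
  have h5 : ∑ i, t i * (K * (s ^ θ + θ * s ^ (θ - 1) * (√((v i).1 ^ 2 + (v i).2 ^ 2) - s))) =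
      K * (s ^ θ + θ * s ^ (θ - 1) * (S - s)) := by
    have : ∀ i, t i * (K * (s ^ θ + θ * s ^ (θ - 1) * (√((v i).1 ^ 2 + (v i).2 ^ 2) - s))) =
        K * (s ^ θ - θ * s ^ (θ - 1) * s) * t i +
          K * (θ * s ^ (θ - 1)) * (t i * √((v i).1 ^ 2 + (v i).2 ^ 2)) := fun i => by ring
    simp_rw [this]
    rw [sum_add_distrib, ← mul_sum, ← mul_sum, ht1, ← hS]
    ring
  rw [h5]
  apply mul_le_mul_of_nonneg_left _ hK
  have h6 : 0 ≤ θ * s ^ (θ - 1) * (S - s) :=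
    mul_nonneg (mul_nonneg (by linarith) (Real.rpow_pos_of_pos hs _).le) (by linarith)
  linarith

/-- the family `(1, 0), (0, 1)` -/
lemma costs_nonempty {I : ℝ × ℝ → ℝ} {a : ℝ} (ha : a ≤ 1 / 4) : (costs I a).Nonempty := by
  refine ⟨_, 2, fun _ => 1 / 2, ![(1, 0), (0, 1)], fun _ => by norm_num, by simp, ?_, ?_, rfl⟩
  · intro i
    fin_cases i <;> simp
  · refine ha.trans (le_of_eq ?_)
    unfold Mf
    simp [Fin.sum_univ_two]
    norm_num

/-! ### Regular polygons -/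

lemma two_sin_mul_sum_cos (φ : ℝ) (j : ℕ) :
    2 * Real.sin φ * ∑ i ∈ range j, Real.cos ((2 * i + 1) * φ) = Real.sin (2 * j * φ) := by
  induction j with
  | zero => simp
  | succ j ih =>
    rw [sum_range_succ, mul_add, ih]
    have e1 : (2 * ((j : ℝ) + 1) * φ) = (2 * j + 1) * φ + φ := by ring
    have e2 : (2 * (j : ℝ) * φ) = (2 * j + 1) * φ - φ := by ring
    push_cast
    rw [e1, e2, Real.sin_add, Real.sin_sub]
    ring

lemma two_sin_mul_sum_cos' (φ : ℝ) (n : ℕ) :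
    2 * Real.sin (2 * φ) * ∑ j ∈ range n, Real.cos (2 * ((2 * j + 1) * φ)) =
      Real.sin (4 * n * φ) := by
  have := two_sin_mul_sum_cos (2 * φ) n
  have e : (4 * (n : ℝ) * φ) = 2 * n * (2 * φ) := by ring
  rw [e, ← this]
  congr 1
  exact sum_congr rfl fun j _ => by congr 1; ring

/-- the area of the regular polygon -/
lemma polygon_area {n : ℕ} (hn : 0 < n) {φ : ℝ} (hφ : φ = Real.pi / (4 * n)) (s : ℝ) :
    Mf (m := n) (fun _ => 1 / (n : ℝ))
      (fun j => (s * Real.cos ((2 * (j : ℕ) + 1) * φ), s * Real.sin ((2 * (j : ℕ) + 1) * φ))) =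
      s ^ 2 * (Real.cos φ / (4 * n * Real.sin φ)) := by
  have hn' : (0 : ℝ) < n := by exact_mod_cast hn
  have hpi := Real.pi_pos
  have hφ0 : 0 < φ := by rw [hφ]; positivity
  have hn1 : (1 : ℝ) ≤ n := by exact_mod_cast hn
  have hφn : 4 * n * φ = Real.pi := by rw [hφ]; field_simp
  have hφ4 : 4 * φ ≤ Real.pi := by rw [← hφn]; nlinarith
  have hsin : 0 < Real.sin φ := Real.sin_pos_of_pos_of_lt_pi hφ0 (by linarith)
  have hsin2 : 0 < Real.sin (2 * φ) := Real.sin_pos_of_pos_of_lt_pi (by linarith) (by linarith)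
  have hang : ∀ j < n, 0 ≤ (2 * (j : ℝ) + 1) * φ ∧ (2 * (j : ℝ) + 1) * φ ≤ Real.pi / 2 := by
    intro j hj
    have hj' : (j : ℝ) + 1 ≤ n := by exact_mod_cast hj
    refine ⟨by positivity, ?_⟩
    have : Real.pi / 2 = 2 * n * φ := by linarith
    rw [this]
    apply mul_le_mul_of_nonneg_right _ hφ0.le
    linarith
  have hc : ∀ j < n, 0 ≤ Real.cos ((2 * (j : ℝ) + 1) * φ) := fun j hj =>
    Real.cos_nonneg_of_neg_pi_div_two_le_of_le (by linarith [(hang j hj).1]) (hang j hj).2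
  have hsn : ∀ j < n, 0 ≤ Real.sin ((2 * (j : ℝ) + 1) * φ) := fun j hj =>
    Real.sin_nonneg_of_nonneg_of_le_pi (hang j hj).1 (by linarith [(hang j hj).2])
  have h1 : Mf (m := n) (fun _ => 1 / (n : ℝ))
      (fun j => (s * Real.cos ((2 * (j : ℕ) + 1) * φ), s * Real.sin ((2 * (j : ℕ) + 1) * φ))) =
      (1 / 2) * ∑ i ∈ range n, ∑ j ∈ range n, (1 / (n : ℝ)) * (1 / n) *
        max (|s * Real.cos ((2 * (i : ℝ) + 1) * φ)| * |s * Real.sin ((2 * (j : ℝ) + 1) * φ)|)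
          (|s * Real.cos ((2 * (j : ℝ) + 1) * φ)| * |s * Real.sin ((2 * (i : ℝ) + 1) * φ)|) := by
    unfold Mf
    congr 1
    rw [← Fin.sum_univ_eq_sum_range (fun i => ∑ j ∈ range n, (1 / (n : ℝ)) * (1 / n) *
        max (|s * Real.cos ((2 * (i : ℝ) + 1) * φ)| * |s * Real.sin ((2 * (j : ℝ) + 1) * φ)|)
          (|s * Real.cos ((2 * (j : ℝ) + 1) * φ)| * |s * Real.sin ((2 * (i : ℝ) + 1) * φ)|)) n]
    refine sum_congr rfl fun i _ => ?_
    rw [← Fin.sum_univ_eq_sum_range (fun j => (1 / (n : ℝ)) * (1 / n) *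
        max (|s * Real.cos ((2 * ((i : ℕ) : ℝ) + 1) * φ)| * |s * Real.sin ((2 * (j : ℝ) + 1) * φ)|)
          (|s * Real.cos ((2 * (j : ℝ) + 1) * φ)| * |s * Real.sin ((2 * ((i : ℕ) : ℝ) + 1) * φ)|)) n]
  rw [h1, sum_sym _ (fun i j => by rw [max_comm]) n]
  have h2 : ∀ j ∈ range n, (2 * ∑ i ∈ range j, (1 / (n : ℝ)) * (1 / n) *
        max (|s * Real.cos ((2 * (i : ℝ) + 1) * φ)| * |s * Real.sin ((2 * (j : ℝ) + 1) * φ)|)
          (|s * Real.cos ((2 * (j : ℝ) + 1) * φ)| * |s * Real.sin ((2 * (i : ℝ) + 1) * φ)|) +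
        (1 / (n : ℝ)) * (1 / n) *
        max (|s * Real.cos ((2 * (j : ℝ) + 1) * φ)| * |s * Real.sin ((2 * (j : ℝ) + 1) * φ)|)
          (|s * Real.cos ((2 * (j : ℝ) + 1) * φ)| * |s * Real.sin ((2 * (j : ℝ) + 1) * φ)|)) =
      s ^ 2 / n ^ 2 * (Real.cos φ / Real.sin φ) * (Real.sin ((2 * (j : ℝ) + 1) * φ)) ^ 2 := by
    intro j hj
    have hj' : j < n := by simpa using hj
    have h3 : ∑ i ∈ range j, (1 / (n : ℝ)) * (1 / n) *
        max (|s * Real.cos ((2 * (i : ℝ) + 1) * φ)| * |s * Real.sin ((2 * (j : ℝ) + 1) * φ)|)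
          (|s * Real.cos ((2 * (j : ℝ) + 1) * φ)| * |s * Real.sin ((2 * (i : ℝ) + 1) * φ)|) =
        s ^ 2 / n ^ 2 * Real.sin ((2 * (j : ℝ) + 1) * φ) *
          ∑ i ∈ range j, Real.cos ((2 * (i : ℝ) + 1) * φ) := by
      rw [mul_sum]
      refine sum_congr rfl fun i hi => ?_
      have hi' : i < j := by simpa using hi
      have hin : i < n := hi'.trans hj'
      have hle : |s * Real.cos ((2 * (j : ℝ) + 1) * φ)| * |s * Real.sin ((2 * (i : ℝ) + 1) * φ)| ≤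
          |s * Real.cos ((2 * (i : ℝ) + 1) * φ)| * |s * Real.sin ((2 * (j : ℝ) + 1) * φ)| := by
        rw [abs_mul, abs_mul, abs_mul, abs_mul, abs_of_nonneg (hc j hj'), abs_of_nonneg (hc i hin),
          abs_of_nonneg (hsn j hj'), abs_of_nonneg (hsn i hin)]
        have h4 : 0 ≤ Real.sin ((2 * (j : ℝ) + 1) * φ - (2 * (i : ℝ) + 1) * φ) := by
          apply Real.sin_nonneg_of_nonneg_of_le_pi
          · have : (i : ℝ) ≤ j := by exact_mod_cast hi'.le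
            nlinarith
          · linarith [(hang j hj').2, (hang i hin).1]
        rw [Real.sin_sub] at h4
        have h5 : 0 ≤ |s| * |s| := by positivity
        nlinarith
      rw [max_eq_left hle, abs_mul, abs_mul, abs_of_nonneg (hc i hin), abs_of_nonneg (hsn j hj')]
      have : |s| * |s| = s ^ 2 := by rw [← sq, sq_abs]
      calc 1 / (n : ℝ) * (1 / n) * (|s| * Real.cos ((2 * (i : ℝ) + 1) * φ) *
            (|s| * Real.sin ((2 * (j : ℝ) + 1) * φ))) =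
          (|s| * |s|) / n ^ 2 * Real.sin ((2 * (j : ℝ) + 1) * φ) *
            Real.cos ((2 * (i : ℝ) + 1) * φ) := by field_simp
        _ = _ := by rw [this]
    rw [h3, max_self, abs_mul, abs_mul, abs_of_nonneg (hc j hj'), abs_of_nonneg (hsn j hj')]
    have h6 := two_sin_mul_sum_cos φ j
    have h7 : 2 * ∑ i ∈ range j, Real.cos ((2 * (i : ℝ) + 1) * φ) =
        Real.sin (2 * j * φ) / Real.sin φ := by
      rw [eq_div_iff hsin.ne', ← h6]; ring
    have h8 : Real.sin (2 * j * φ) = Real.sin ((2 * (j : ℝ) + 1) * φ) * Real.cos φ -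
        Real.cos ((2 * (j : ℝ) + 1) * φ) * Real.sin φ := by
      rw [← Real.sin_sub]; congr 1; ring
    have h9 : |s| * |s| = s ^ 2 := by rw [← sq, sq_abs]
    calc 2 * (s ^ 2 / n ^ 2 * Real.sin ((2 * (j : ℝ) + 1) * φ) *
          ∑ i ∈ range j, Real.cos ((2 * (i : ℝ) + 1) * φ)) +
        1 / (n : ℝ) * (1 / n) * (|s| * Real.cos ((2 * (j : ℝ) + 1) * φ) *
          (|s| * Real.sin ((2 * (j : ℝ) + 1) * φ))) =
        s ^ 2 / n ^ 2 * Real.sin ((2 * (j : ℝ) + 1) * φ) *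
          (2 * ∑ i ∈ range j, Real.cos ((2 * (i : ℝ) + 1) * φ)) +
        (|s| * |s|) / n ^ 2 * Real.cos ((2 * (j : ℝ) + 1) * φ) *
          Real.sin ((2 * (j : ℝ) + 1) * φ) := by ring
      _ = _ := by
        rw [h7, h8, h9]
        field_simp
        ring
  rw [sum_congr rfl h2, ← mul_sum]
  have h10 : ∑ j ∈ range n, (Real.sin ((2 * (j : ℝ) + 1) * φ)) ^ 2 = n / 2 := by
    have h11 := two_sin_mul_sum_cos' φ n
    rw [hφn, Real.sin_pi] at h11
    have h12 : ∑ j ∈ range n, Real.cos (2 * ((2 * (j : ℝ) + 1) * φ)) = 0 := by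
      rcases mul_eq_zero.1 h11 with h | h
      · exact absurd h (by positivity)
      · exact h
    have h13 : ∀ x : ℝ, (Real.sin x) ^ 2 = 1 / 2 - Real.cos (2 * x) / 2 := fun x =>
      Real.sin_sq_eq_half_sub x
    have h14 : ∑ j ∈ range n, Real.cos (2 * ((2 * (j : ℝ) + 1) * φ)) / 2 = 0 := by
      rw [← sum_div, h12, zero_div]
    simp_rw [h13]
    rw [sum_sub_distrib, h14, sum_const, card_range, nsmul_eq_mul]
    ring
  rw [h10]
  field_simp
  ring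

/-- upper bound for `J` -/
lemma J_upper {I : ℝ × ℝ → ℝ} {κ : ℝ} (hI : RateFn I κ) {θ K ρ : ℝ} {n : ℕ} (hn : 0 < n)
    {a s : ℝ} (hs : 0 < s) (hsρ : s ≤ ρ) (hs1 : 2 * s ≤ 1)
    (hup : ∀ v : ℝ × ℝ, 0 < √(v.1 ^ 2 + v.2 ^ 2) → √(v.1 ^ 2 + v.2 ^ 2) ≤ ρ →
      I v ≤ K * (√(v.1 ^ 2 + v.2 ^ 2)) ^ θ)
    (ha : a ≤ s ^ 2 * (Real.cos (Real.pi / (4 * n)) / (4 * n * Real.sin (Real.pi / (4 * n))))) :
    J I a ≤ K * s ^ θ := by
  have hn' : (0 : ℝ) < n := by exact_mod_cast hn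
  set φ := Real.pi / (4 * n) with hφ
  set v : Fin n → ℝ × ℝ := fun j =>
    (s * Real.cos ((2 * (j : ℕ) + 1) * φ), s * Real.sin ((2 * (j : ℕ) + 1) * φ)) with hv
  have hbdd : BddBelow (costs I a) := by
    refine ⟨0, ?_⟩
    rintro c ⟨m, t, v, ht, -, hv, -, rfl⟩
    exact sum_nonneg fun i _ => mul_nonneg (ht i) (hI.nonneg _ (hv i))
  have hnrm : ∀ j, √((v j).1 ^ 2 + (v j).2 ^ 2) = s := by
    intro j
    simp only [hv]
    rw [mul_pow, mul_pow, ← mul_add, Real.cos_sq_add_sin_sq, mul_one, Real.sqrt_sq hs.le]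
  have hdom : ∀ j, |(v j).1| + |(v j).2| ≤ 1 := by
    intro j
    simp only [hv, abs_mul, abs_of_pos hs]
    have h1 := Real.abs_cos_le_one ((2 * ((j : ℕ) : ℝ) + 1) * φ)
    have h2 := Real.abs_sin_le_one ((2 * ((j : ℕ) : ℝ) + 1) * φ)
    nlinarith
  have hsum : ∑ _i : Fin n, (1 / (n : ℝ)) = 1 := by
    simp
    field_simp
  have hmem : ∑ j : Fin n, (1 / (n : ℝ)) * I (v j) ∈ costs I a := by
    refine ⟨n, fun _ => 1 / n, v, fun _ => by positivity, hsum, hdom, ?_, rfl⟩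
    rw [hv, polygon_area hn hφ s]
    exact ha
  refine (csInf_le hbdd hmem).trans ?_
  calc ∑ j : Fin n, (1 / (n : ℝ)) * I (v j) ≤ ∑ _j : Fin n, (1 / (n : ℝ)) * (K * s ^ θ) := by
        refine sum_le_sum fun j _ => mul_le_mul_of_nonneg_left ?_ (by positivity)
        have := hup (v j) (by rw [hnrm]; exact hs) (by rw [hnrm]; exact hsρ)
        rwa [hnrm] at this
    _ = K * s ^ θ := by rw [← sum_mul, hsum, one_mul]

/-- the areas of the regular polygons of length four tend to that of the disc -/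
lemma tendsto_polygon : Tendsto (fun n : ℕ =>
    Real.cos (Real.pi / (4 * n)) / (4 * n * Real.sin (Real.pi / (4 * n)))) atTop
      (𝓝 (1 / Real.pi)) := by
  have hpi := Real.pi_pos
  have h1 : Tendsto (fun n : ℕ => Real.pi / (4 * (n : ℝ))) atTop (𝓝[≠] 0) := by
    rw [tendsto_nhdsWithin_iff]
    constructor
    · have : Tendsto (fun n : ℕ => 4 * (n : ℝ)) atTop atTop :=
        tendsto_natCast_atTop_atTop.const_mul_atTop (by norm_num)
      exact this.const_div_atTop _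
    · filter_upwards [eventually_gt_atTop 0] with n hn
      have : (0 : ℝ) < n := by exact_mod_cast hn
      simp only [Set.mem_compl_iff, Set.mem_singleton_iff]
      positivity
  have h2 : Tendsto (fun x : ℝ => Real.sin x / x) (𝓝[≠] 0) (𝓝 1) := by
    have := (hasDerivAt_iff_tendsto_slope.1 (Real.hasDerivAt_sin 0))
    rw [Real.cos_zero] at this
    refine this.congr fun x => ?_
    rw [slope_def_field, Real.sin_zero, sub_zero, sub_zero]
  have h3 : Tendsto (fun x : ℝ => Real.cos x) (𝓝[≠] 0) (𝓝 1) := by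
    have : Tendsto (fun x : ℝ => Real.cos x) (𝓝 0) (𝓝 (Real.cos 0)) := Real.continuous_cos.tendsto 0
    rw [Real.cos_zero] at this
    exact this.mono_left nhdsWithin_le_nhds
  have h4 : Tendsto (fun x : ℝ => Real.cos x / (Real.pi * (Real.sin x / x))) (𝓝[≠] 0)
      (𝓝 (1 / (Real.pi * 1))) := h3.div (h2.const_mul _) (by simp [hpi.ne'])
  rw [mul_one] at h4
  refine (h4.comp h1).congr' ?_
  filter_upwards [eventually_gt_atTop 0] with n hn
  have hn' : (0 : ℝ) < n := by exact_mod_cast hn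
  simp only [Function.comp]
  congr 1
  field_simp

/-- PIECE G -/
theorem J_radial {I : ℝ × ℝ → ℝ} {κ : ℝ} (hI : RateFn I κ) {θ κ' : ℝ} (hθ : 1 ≤ θ) (hκ : 0 < κ')
    (hrad : Filter.Tendsto (fun v : ℝ × ℝ => I v / (√(v.1 ^ 2 + v.2 ^ 2)) ^ θ)
      (nhdsWithin 0 {0}ᶜ) (nhds κ')) :
    Filter.Tendsto (fun a : ℝ => J I a / a ^ (θ / 2)) (nhdsWithin 0 (Set.Ioi 0))
      (nhds (κ' * Real.pi ^ (θ / 2))) := by
  have hpi := Real.pi_pos
  have hpθ : 0 < Real.pi ^ (θ / 2) := Real.rpow_pos_of_pos hpi _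
  have hid : Tendsto (fun a : ℝ => a) (𝓝[>] 0) (𝓝 0) := tendsto_id.mono_left nhdsWithin_le_nhds
  -- the bounds near zero
  have hnear : ∀ P : ℝ → Prop, (∀ᶠ v : ℝ × ℝ in 𝓝[≠] 0, P (I v / (√(v.1 ^ 2 + v.2 ^ 2)) ^ θ)) →
      ∃ ρ > 0, ∀ v : ℝ × ℝ, 0 < √(v.1 ^ 2 + v.2 ^ 2) → √(v.1 ^ 2 + v.2 ^ 2) ≤ ρ →
        P (I v / (√(v.1 ^ 2 + v.2 ^ 2)) ^ θ) := by
    intro P hP
    rw [eventually_nhdsWithin_iff, Metric.eventually_nhds_iff] at hP
    obtain ⟨ρ, hρ, h⟩ := hP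
    refine ⟨ρ / 2, by positivity, fun v h0 h1 => h ?_ (nrm_pos h0)⟩
    exact (dist_le_nrm v).trans_lt (by linarith)
  rw [tendsto_order]
  constructor
  · -- lower bound
    intro l hl
    obtain ⟨K, hK0, hKκ, hKl⟩ : ∃ K, 0 < K ∧ K < κ' ∧ l < K * Real.pi ^ (θ / 2) := by
      have h1 : l / Real.pi ^ (θ / 2) < κ' := (div_lt_iff₀ hpθ).2 hl
      refine ⟨(max 0 (l / Real.pi ^ (θ / 2)) + κ') / 2, ?_, ?_, ?_⟩
      · have := le_max_left 0 (l / Real.pi ^ (θ / 2)); linarith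
      · have : max 0 (l / Real.pi ^ (θ / 2)) < κ' := max_lt hκ h1
        linarith
      · rw [← div_lt_iff₀ hpθ]
        have := le_max_right 0 (l / Real.pi ^ (θ / 2))
        linarith
    obtain ⟨ρ, hρ, hlow⟩ := hnear (fun x => K < x) ((tendsto_order.1 hrad).1 K hKκ)
    have hlow' : ∀ v : ℝ × ℝ, 0 < √(v.1 ^ 2 + v.2 ^ 2) → √(v.1 ^ 2 + v.2 ^ 2) ≤ ρ →
        K * (√(v.1 ^ 2 + v.2 ^ 2)) ^ θ ≤ I v := by
      intro v h0 h1
      have h2 := hlow v h0 h1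
      have h3 : 0 < (√(v.1 ^ 2 + v.2 ^ 2)) ^ θ := Real.rpow_pos_of_pos h0 _
      exact ((lt_div_iff₀ h3).1 h2).le
    -- the condition on `s`
    have hsmall : ∀ᶠ a : ℝ in 𝓝[>] 0, θ * (√(Real.pi * a)) ^ (θ - 1) ≤ ρ ^ (θ - 1) := by
      rcases eq_or_lt_of_le hθ with h1 | h1
      · filter_upwards with a
        rw [← h1]; simp
      · have h2 : Tendsto (fun a : ℝ => θ * (√(Real.pi * a)) ^ (θ - 1)) (𝓝[>] 0)
            (𝓝 (θ * (√(Real.pi * 0)) ^ (θ - 1))) := by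
          have hc : ContinuousAt (fun a : ℝ => θ * (√(Real.pi * a)) ^ (θ - 1)) 0 := by
            apply ContinuousAt.mul continuousAt_const
            apply ContinuousAt.rpow_const
            · fun_prop
            · right; linarith
          exact hc.tendsto.mono_left nhdsWithin_le_nhds
        rw [mul_zero, Real.sqrt_zero, Real.zero_rpow (by linarith), mul_zero] at h2
        exact ((tendsto_order.1 h2).2 _ (Real.rpow_pos_of_pos hρ _)).mono fun _ h => h.le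
    filter_upwards [hsmall, self_mem_nhdsWithin, hid.eventually (gt_mem_nhds (show (0:ℝ) < 1 / 4 by norm_num))]
      with a ha ha0 ha4
    have ha0' : (0:ℝ) < a := ha0
    have hs : 0 < √(Real.pi * a) := Real.sqrt_pos.2 (by positivity)
    have hJ : K * (√(Real.pi * a)) ^ θ ≤ J I a := by
      apply le_csInf (costs_nonempty ha4.le)
      intro c hc
      exact cost_lower hθ hK0.le hs (fun v hv => rate_lower hI hθ hK0.le hρ hs ha hlow' hv)
        (by rw [Real.sq_sqrt (by positivity)]) hc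
    rw [lt_div_iff₀ (Real.rpow_pos_of_pos ha0' _)]
    refine lt_of_lt_of_le ?_ hJ
    have h5 : (√(Real.pi * a)) ^ θ = Real.pi ^ (θ / 2) * a ^ (θ / 2) := by
      rw [Real.sqrt_eq_rpow, ← Real.rpow_mul (by positivity), ← Real.mul_rpow hpi.le ha0'.le]
      congr 1; ring
    rw [h5, ← mul_assoc]
    exact mul_lt_mul_of_pos_right hKl (Real.rpow_pos_of_pos ha0' _)
  · -- upper bound
    intro u hu
    set cn : ℕ → ℝ := fun n => Real.cos (Real.pi / (4 * n)) / (4 * n * Real.sin (Real.pi / (4 * n)))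
      with hcn
    have h1 : Tendsto (fun n : ℕ => (κ' + 1 / ((n : ℝ) + 1)) * ((cn n) ^ (θ / 2))⁻¹) atTop
        (𝓝 (κ' * Real.pi ^ (θ / 2))) := by
      have h2 : Tendsto (fun n : ℕ => κ' + 1 / ((n : ℝ) + 1)) atTop (𝓝 (κ' + 0)) :=
        tendsto_const_nhds.add tendsto_one_div_add_atTop_nhds_zero_nat
      have h3 : Tendsto (fun n : ℕ => ((cn n) ^ (θ / 2))⁻¹) atTop
          (𝓝 (((1 / Real.pi) ^ (θ / 2))⁻¹)) := by
        apply Tendsto.inv₀
        · exact tendsto_polygon.rpow_const (Or.inl (by positivity))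
        · positivity
      have := h2.mul h3
      rwa [add_zero, one_div, Real.inv_rpow hpi.le, inv_inv] at this
    obtain ⟨n, hn0, hcn0, hn⟩ := ((eventually_gt_atTop 0).and
      ((tendsto_polygon.eventually (lt_mem_nhds (show (0:ℝ) < 1 / Real.pi by positivity))).and
        ((tendsto_order.1 h1).2 u hu))).exists
    set K := κ' + 1 / ((n : ℝ) + 1) with hK
    have hKκ : κ' < K := by
      have : 0 < 1 / ((n : ℝ) + 1) := by positivity
      linarith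
    obtain ⟨ρ, hρ, hup⟩ := hnear (fun x => x < K) ((tendsto_order.1 hrad).2 K hKκ)
    have hup' : ∀ v : ℝ × ℝ, 0 < √(v.1 ^ 2 + v.2 ^ 2) → √(v.1 ^ 2 + v.2 ^ 2) ≤ ρ →
        I v ≤ K * (√(v.1 ^ 2 + v.2 ^ 2)) ^ θ := by
      intro v h0 h1
      have h2 := hup v h0 h1
      have h3 : 0 < (√(v.1 ^ 2 + v.2 ^ 2)) ^ θ := Real.rpow_pos_of_pos h0 _
      exact ((div_lt_iff₀ h3).1 h2).le
    have hcn0' : 0 < cn n := hcn0
    have hsm : Tendsto (fun a : ℝ => √(a / cn n)) (𝓝[>] 0) (𝓝 (√(0 / cn n))) := by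
      have hc : Continuous (fun a : ℝ => √(a / cn n)) := by fun_prop
      exact (hc.tendsto 0).mono_left nhdsWithin_le_nhds
    rw [zero_div, Real.sqrt_zero] at hsm
    filter_upwards [self_mem_nhdsWithin, (tendsto_order.1 hsm).2 (min ρ (1 / 2)) (by positivity)]
      with a ha0 has
    have ha0' : (0:ℝ) < a := ha0
    have hs : 0 < √(a / cn n) := Real.sqrt_pos.2 (by positivity)
    have hJ : J I a ≤ K * (√(a / cn n)) ^ θ := by
      apply J_upper hI hn0 hs (has.le.trans (min_le_left _ _))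
        (by have := has.le.trans (min_le_right _ _); linarith) hup'
      rw [Real.sq_sqrt (by positivity)]
      rw [div_mul_cancel₀ _ hcn0'.ne']
    rw [div_lt_iff₀ (Real.rpow_pos_of_pos ha0' _)]
    refine lt_of_le_of_lt hJ ?_
    have h5 : (√(a / cn n)) ^ θ = ((cn n) ^ (θ / 2))⁻¹ * a ^ (θ / 2) := by
      rw [Real.sqrt_eq_rpow, ← Real.rpow_mul (by positivity), ← Real.inv_rpow hcn0'.le,
        ← Real.mul_rpow (by positivity) ha0'.le]
      congr 1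
      · rw [div_eq_mul_inv, mul_comm]
      · ring
    rw [h5, ← mul_assoc]
    exact mul_lt_mul_of_pos_right hn (Real.rpow_pos_of_pos ha0' _)

end Pool.Agent.K6.H23.WA
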