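import Pool.Agent.K6.H23.WA.Defs

/-!
Quartering of a closed loop: the abstract part of Piece C (two pointers, partial sums).
-/

set_option autoImplicit false

namespace Pool.Agent.K6.H23.WA

open Finset

/-- two pointers -/
theorem two_pointer_aux {A h : ℕ → ℝ} {X r : ℝ} {j0 M : ℕ} (hA : ∀ i, A i ≤ A (i + 1))
    (hAr : ∀ i, A (i + 1) ≤ A i + r) (hh : ∀ i, |h (i + 1) - h i| ≤ r)
    (hlow : ∀ i < j0, 2 * A i < X) (hj0 : X ≤ 2 * A j0) (hAM : A M = X)
    (hend : h j0 ≤ h M) (hr : 0 ≤ r) :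
    ∀ n i j : ℕ, (j0 - i) + (M - j) = n → i ≤ j0 → j0 ≤ j → j ≤ M →
      |2 * (A j - A i) - X| ≤ 2 * r → h j ≤ h i →
      ∃ i' j', i' ≤ j0 ∧ j0 ≤ j' ∧ j' ≤ M ∧ |2 * (A j' - A i') - X| ≤ 2 * r ∧ |h i' - h j'| ≤ r := by
  have hmono : Monotone A := monotone_nat_of_le_succ hA
  intro n
  induction n using Nat.strong_induction_on with
  | _ n ih =>
    intro i j hn hi hj hjM hD hs
    by_cases hle : h i - h j ≤ r
    · exact ⟨i, j, hi, hj, hjM, hD, by rw [abs_le]; constructor <;> linarith⟩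
    push Not at hle
    have hne : ¬ (i = j0 ∧ j = M) := by
      rintro ⟨rfl, rfl⟩
      linarith
    -- the next step
    by_cases hstep : (i < j0 ∧ (j = M ∨ X ≤ 2 * (A j - A i)))
    · obtain ⟨hlt, hc⟩ := hstep
      have hge : X ≤ 2 * (A j - A i) := by
        rcases hc with rfl | hc
        · have := hlow i hlt
          linarith
        · exact hc
      refine ih ((j0 - (i + 1)) + (M - j)) (by omega) (i + 1) j rfl (by omega) hj hjM ?_ ?_
      · rw [abs_le] at hD ⊢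
        have h1 := hA i
        have h2 := hAr i
        constructor <;> linarith
      · have := abs_le.1 (hh i)
        linarith
    · have hjlt : j < M := by
        by_contra hcon
        have hjM' : j = M := by omega
        rcases Nat.lt_or_ge i j0 with hlt | hge
        · exact hstep ⟨hlt, Or.inl hjM'⟩
        · exact hne ⟨by omega, hjM'⟩
      refine ih ((j0 - i) + (M - (j + 1))) (by omega) i (j + 1) rfl hi (by omega) (by omega) ?_ ?_
      · rw [abs_le] at hD ⊢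
        have h1 := hA j
        have h2 := hAr j
        rcases Nat.lt_or_ge i j0 with hlt | hge
        · have hlt2 : 2 * (A j - A i) < X := by
            by_contra hcon
            exact hstep ⟨hlt, Or.inr (not_lt.1 hcon)⟩
          constructor <;> linarith
        · have hij : i = j0 := by omega
          subst hij
          have h3 : A (j + 1) ≤ A M := hmono (by omega)
          constructor <;> linarith
      · have := abs_le.1 (hh j)
        linarith

/-- two pointers -/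
theorem two_pointer {A h : ℕ → ℝ} {X r : ℝ} {M : ℕ} (hA : ∀ i, A i ≤ A (i + 1))
    (hAr : ∀ i, A (i + 1) ≤ A i + r) (hh : ∀ i, |h (i + 1) - h i| ≤ r)
    (hA0 : A 0 = 0) (hAM : A M = X) (hper : h M = h 0) (hX : 0 ≤ X) (hr : 0 ≤ r) :
    ∃ i j, i ≤ j ∧ j ≤ M ∧ |2 * (A j - A i) - X| ≤ 2 * r ∧ |h i - h j| ≤ r := by
  classical
  have hex : ∃ j, X ≤ 2 * A j := ⟨M, by linarith⟩
  set j0 := Nat.find hex with hj0def
  have hj0 : X ≤ 2 * A j0 := Nat.find_spec hex
  have hlow : ∀ i < j0, 2 * A i < X := fun i hi => not_le.1 (Nat.find_min hex hi)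
  have hj0M : j0 ≤ M := Nat.find_min' hex (by linarith)
  have hstart : |2 * (A j0 - A 0) - X| ≤ 2 * r := by
    rw [hA0, abs_le]
    rcases Nat.eq_zero_or_pos j0 with h0 | h0
    · rw [h0] at hj0 ⊢
      rw [hA0] at hj0 ⊢
      constructor <;> linarith
    · have h1 := hlow (j0 - 1) (by omega)
      have h2 := hAr (j0 - 1)
      rw [show j0 - 1 + 1 = j0 by omega] at h2
      constructor <;> linarith
  rcases le_total (h j0) (h 0) with hc | hc
  · obtain ⟨i, j, h1, h2, h3, h4, h5⟩ := two_pointer_aux hA hAr hh hlow hj0 hAM (by linarith) hr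
      _ 0 j0 rfl (Nat.zero_le _) le_rfl hj0M hstart hc
    exact ⟨i, j, h1.trans h2, h3, h4, h5⟩
  · have hh' : ∀ i, |(fun k => - h k) (i + 1) - (fun k => - h k) i| ≤ r := by
      intro i
      have := hh i
      simp only
      rw [← abs_neg]
      convert this using 2
      ring
    obtain ⟨i, j, h1, h2, h3, h4, h5⟩ := two_pointer_aux (h := fun k => - h k) hA hAr hh' hlow hj0 hAM
      (by linarith) hr
      _ 0 j0 rfl (Nat.zero_le _) le_rfl hj0M hstart (by linarith)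
    refine ⟨i, j, h1.trans h2, h3, h4, ?_⟩
    rw [← abs_neg]
    convert h5 using 2
    ring

/-- an index where a slowly increasing sequence is half way -/
theorem halfway {A : ℕ → ℝ} {r : ℝ} (hAr : ∀ i, A (i + 1) ≤ A i + r) {u v : ℕ} (huv : u ≤ v)
    (hA : A u ≤ A v) (hr : 0 ≤ r) :
    ∃ p, u ≤ p ∧ p ≤ v ∧ A u + A v ≤ 2 * A p ∧ 2 * A p ≤ A u + A v + 2 * r := by
  classical
  have hex : ∃ k, u ≤ k ∧ A u + A v ≤ 2 * A k := ⟨v, huv, by linarith⟩
  set p := Nat.find hex with hp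
  have h1 := Nat.find_spec hex
  rw [← hp] at h1
  refine ⟨p, h1.1, Nat.find_min' hex ⟨huv, by linarith⟩, h1.2, ?_⟩
  rcases Nat.eq_or_lt_of_le h1.1 with h0 | h0
  · rw [← h0]
    linarith
  · have h2 := Nat.find_min hex (m := p - 1) (by omega)
    have h3 : ¬ (A u + A v ≤ 2 * A (p - 1)) := fun hc => h2 ⟨by omega, hc⟩
    have h4 := hAr (p - 1)
    rw [show p - 1 + 1 = p by omega] at h4
    linarith

/-- pairs in increasing order -/
theorem pairs_lt {a b : ℕ → ℝ} (ha : ∀ i, 0 ≤ a i) (hb : ∀ i, 0 ≤ b i) {u v : ℕ} (huv : u ≤ v) :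
    2 * ∑ i ∈ Ico u v, a i * ∑ j ∈ Ico u i, b j ≤
      ∑ i ∈ Ico u v, ∑ j ∈ Ico u v, max (a i * b j) (a j * b i) := by
  induction v, huv using Nat.le_induction with
  | base => simp
  | succ v hv ih =>
    have e1 : ∑ i ∈ Ico u (v + 1), ∑ j ∈ Ico u (v + 1), max (a i * b j) (a j * b i) =
        (∑ i ∈ Ico u v, ∑ j ∈ Ico u v, max (a i * b j) (a j * b i)) +
          2 * (∑ j ∈ Ico u v, max (a v * b j) (a j * b v)) + a v * b v := by
      rw [sum_Ico_succ_top hv]
      simp_rw [sum_Ico_succ_top hv]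
      rw [sum_add_distrib]
      have : ∑ i ∈ Ico u v, max (a i * b v) (a v * b i) =
          ∑ j ∈ Ico u v, max (a v * b j) (a j * b v) :=
        sum_congr rfl (fun i _ => max_comm _ _)
      rw [this, max_self]
      ring
    rw [e1, sum_Ico_succ_top hv, mul_add]
    have e2 : a v * ∑ j ∈ Ico u v, b j ≤ ∑ j ∈ Ico u v, max (a v * b j) (a j * b v) := by
      rw [mul_sum]
      exact sum_le_sum (fun i _ => le_max_left _ _)
    have e3 := mul_nonneg (ha v) (hb v)
    linarith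

/-- pairs in decreasing order -/
theorem pairs_ge {a b : ℕ → ℝ} (ha : ∀ i, 0 ≤ a i) (hb : ∀ i, 0 ≤ b i) {u v : ℕ} (huv : u ≤ v) :
    2 * ∑ i ∈ Ico u v, a i * ∑ j ∈ Ico i v, b j ≤
      (∑ i ∈ Ico u v, ∑ j ∈ Ico u v, max (a i * b j) (a j * b i)) + ∑ i ∈ Ico u v, a i * b i := by
  induction v, huv using Nat.le_induction with
  | base => simp
  | succ v hv ih =>
    have e1 : ∑ i ∈ Ico u (v + 1), ∑ j ∈ Ico u (v + 1), max (a i * b j) (a j * b i) =
        (∑ i ∈ Ico u v, ∑ j ∈ Ico u v, max (a i * b j) (a j * b i)) +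
          2 * (∑ j ∈ Ico u v, max (a v * b j) (a j * b v)) + a v * b v := by
      rw [sum_Ico_succ_top hv]
      simp_rw [sum_Ico_succ_top hv]
      rw [sum_add_distrib]
      have : ∑ i ∈ Ico u v, max (a i * b v) (a v * b i) =
          ∑ j ∈ Ico u v, max (a v * b j) (a j * b v) :=
        sum_congr rfl (fun i _ => max_comm _ _)
      rw [this, max_self]
      ring
    have e4 : ∑ i ∈ Ico u (v + 1), a i * ∑ j ∈ Ico i (v + 1), b j =
        (∑ i ∈ Ico u v, a i * ∑ j ∈ Ico i v, b j) + (∑ i ∈ Ico u v, a i * b v) + a v * b v := by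
      rw [sum_Ico_succ_top hv]
      rw [← sum_add_distrib]
      congr 1
      · refine sum_congr rfl (fun i hi => ?_)
        rw [sum_Ico_succ_top (mem_Ico.1 hi).2.le]
        ring
      · simp
    rw [e1, e4, sum_Ico_succ_top hv]
    have e2 : ∑ i ∈ Ico u v, a i * b v ≤ ∑ j ∈ Ico u v, max (a v * b j) (a j * b v) :=
      sum_le_sum (fun i _ => le_max_right _ _)
    have e3 := mul_nonneg (ha v) (hb v)
    linarith

/-- sums over a period -/
theorem sum_period {F : ℕ → ℝ} {M : ℕ} (hF : ∀ i, F (i + M) = F i) (k : ℕ) :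
    ∑ i ∈ Ico k (k + M), F i = ∑ i ∈ range M, F i := by
  induction k with
  | zero => simp
  | succ k ih =>
    rw [← ih]
    have h1 : ∑ i ∈ Ico k (k + M + 1), F i = (∑ i ∈ Ico k (k + M), F i) + F (k + M) :=
      sum_Ico_succ_top (by omega) _
    have h2 : ∑ i ∈ Ico k (k + M + 1), F i = F k + ∑ i ∈ Ico (k + 1) (k + M + 1), F i :=
      sum_eq_sum_Ico_succ_bot (by omega) _
    rw [show k + 1 + M = k + M + 1 by omega]
    rw [hF k] at h1
    linarith

/-- telescoping bound -/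
theorem tele {h b : ℕ → ℝ} (hh : ∀ i, |h (i + 1) - h i| ≤ b i) {u v : ℕ} (huv : u ≤ v) :
    |h v - h u| ≤ ∑ j ∈ Ico u v, b j := by
  induction v, huv using Nat.le_induction with
  | base => simp
  | succ v hv ih =>
    rw [sum_Ico_succ_top hv]
    have e1 : h (v + 1) - h u = (h (v + 1) - h v) + (h v - h u) := by ring
    rw [e1]
    have e2 := abs_add_le (h (v + 1) - h v) (h v - h u)
    have e3 := hh v
    linarith

/-- the part of one quarter, heights measured from its first point -/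
theorem quarter_up {a b h : ℕ → ℝ} {e c : ℝ} (ha : ∀ i, 0 ≤ a i) (hb : ∀ i, 0 ≤ b i)
    (hh : ∀ i, |h (i + 1) - h i| ≤ b i) {u v : ℕ} (huv : u ≤ v) (hc : |h u - c| ≤ e) :
    ∑ i ∈ Ico u v, a i * |h i - c| ≤
      (1 / 2) * (∑ i ∈ Ico u v, ∑ j ∈ Ico u v, max (a i * b j) (a j * b i)) +
        e * ∑ i ∈ Ico u v, a i := by
  have h1 := pairs_lt ha hb huv
  have h2 : ∑ i ∈ Ico u v, a i * |h i - c| ≤
      (∑ i ∈ Ico u v, a i * ∑ j ∈ Ico u i, b j) + e * ∑ i ∈ Ico u v, a i := by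
    rw [mul_sum, ← sum_add_distrib]
    refine sum_le_sum (fun i hi => ?_)
    have h3 := tele hh (mem_Ico.1 hi).1
    have h4 : |h i - c| ≤ (∑ j ∈ Ico u i, b j) + e := by
      have e1 : h i - c = (h i - h u) + (h u - c) := by ring
      rw [e1]
      have e2 := abs_add_le (h i - h u) (h u - c)
      linarith
    nlinarith [ha i]
  linarith

/-- the part of one quarter, heights measured from its last point -/
theorem quarter_down {a b h : ℕ → ℝ} {e c r : ℝ} (ha : ∀ i, 0 ≤ a i) (hb : ∀ i, 0 ≤ b i)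
    (hbr : ∀ i, b i ≤ r)
    (hh : ∀ i, |h (i + 1) - h i| ≤ b i) {u v : ℕ} (huv : u ≤ v) (hc : |h v - c| ≤ e) :
    ∑ i ∈ Ico u v, a i * |h i - c| ≤
      (1 / 2) * (∑ i ∈ Ico u v, ∑ j ∈ Ico u v, max (a i * b j) (a j * b i)) +
        (e + r) * ∑ i ∈ Ico u v, a i := by
  have h1 := pairs_ge ha hb huv
  have h2 : ∑ i ∈ Ico u v, a i * |h i - c| ≤
      (∑ i ∈ Ico u v, a i * ∑ j ∈ Ico i v, b j) + e * ∑ i ∈ Ico u v, a i := by
    rw [mul_sum, ← sum_add_distrib]
    refine sum_le_sum (fun i hi => ?_)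
    have h3 := tele hh (mem_Ico.1 hi).2.le
    have h4 : |h i - c| ≤ (∑ j ∈ Ico i v, b j) + e := by
      have e1 : h i - c = -(h v - h i) + (h v - c) := by ring
      rw [e1]
      have e2 := abs_add_le (-(h v - h i)) (h v - c)
      rw [abs_neg] at e2
      linarith
    nlinarith [ha i]
  have h5 : ∑ i ∈ Ico u v, a i * b i ≤ r * ∑ i ∈ Ico u v, a i := by
    rw [mul_sum]
    refine sum_le_sum (fun i _ => ?_)
    nlinarith [ha i, hbr i]
  have h6 : 0 ≤ ∑ i ∈ Ico u v, a i := sum_nonneg (fun i _ => ha i)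
  have h7 : 0 ≤ r := (hb 0).trans (hbr 0)
  nlinarith

/-- the statement of Piece B -/
def FourGroups : Prop := ∀ (s : Finset ℕ) (g : ℕ → Fin 4) (a b : ℕ → ℝ)
    (_ : ∀ i ∈ s, 0 ≤ a i) (_ : ∀ i ∈ s, 0 ≤ b i) (δ : ℝ) (_ : 0 ≤ δ)
    (_ : ∀ p q : Fin 4, ∑ i ∈ s with g i = p, a i ≤ (∑ i ∈ s with g i = q, a i) + δ),
    ∑ p : Fin 4, ∑ i ∈ s with g i = p, ∑ j ∈ s with g j = p, max (a i * b j) (a j * b i) ≤
      (1 / 4) * ∑ i ∈ s, ∑ j ∈ s, max (a i * b j) (a j * b i) + 3 * δ * ∑ i ∈ s, b i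

/-- quartering -/
theorem quartering (hB : FourGroups) {M : ℕ} {r : ℝ} {a b h : ℕ → ℝ}
    (ha : ∀ i, 0 ≤ a i) (har : ∀ i, a i ≤ r)
    (hb : ∀ i, 0 ≤ b i) (hbr : ∀ i, b i ≤ r) (hh : ∀ i, |h (i + 1) - h i| ≤ b i)
    (pa : ∀ i, a (i + M) = a i) (pb : ∀ i, b (i + M) = b i) (ph : ∀ i, h (i + M) = h i) :
    ∃ i0, ∑ i ∈ Ico i0 (i0 + M), a i * |h i - h i0| ≤
      (1 / 8) * ∑ i ∈ range M, ∑ j ∈ range M, max (a i * b j) (a j * b i) +
        2 * r * ∑ i ∈ range M, a i + 6 * r * ∑ i ∈ range M, b i := by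
  have hr : 0 ≤ r := (ha 0).trans (har 0)
  set A : ℕ → ℝ := fun k => ∑ i ∈ range k, a i with hAdef
  have hAs : ∀ i, A (i + 1) = A i + a i := fun i => sum_range_succ _ _
  have hA : ∀ i, A i ≤ A (i + 1) := fun i => by rw [hAs]; linarith [ha i]
  have hAr : ∀ i, A (i + 1) ≤ A i + r := fun i => by rw [hAs]; linarith [har i]
  have hmono : Monotone A := monotone_nat_of_le_succ hA
  have hIco : ∀ u v, u ≤ v → ∑ i ∈ Ico u v, a i = A v - A u := fun u v huv => by
    rw [hAdef]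
    exact sum_Ico_eq_sub _ huv
  have hA0 : A 0 = 0 := by simp [hAdef]
  set X := A M with hX
  have hX0 : 0 ≤ X := hA0 ▸ hmono (Nat.zero_le M)
  obtain ⟨i0, i1, h01, h1M, hD, hH⟩ := two_pointer (h := h) hA hAr
    (fun i => (hh i).trans (hbr i)) hA0 hX.symm (by simpa using ph 0) hX0 hr
  have hperA : ∑ i ∈ Ico i0 (i0 + M), a i = X := by
    rw [sum_period pa]
  have hAM : A (i0 + M) = A i0 + X := by
    have := hIco i0 (i0 + M) (by omega)
    linarith
  obtain ⟨p, hp0, hp1, hpl, hpr⟩ := halfway hAr h01 (hmono h01) hr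
  obtain ⟨q, hq0, hq1, hql, hqr⟩ := halfway hAr (show i1 ≤ i0 + M by omega)
    (hmono (show i1 ≤ i0 + M by omega)) hr
  refine ⟨i0, ?_⟩
  -- split the sum
  have hsplit : ∀ F : ℕ → ℝ, ∑ i ∈ Ico i0 (i0 + M), F i =
      (∑ i ∈ Ico i0 p, F i) + (∑ i ∈ Ico p i1, F i) + (∑ i ∈ Ico i1 q, F i) +
        ∑ i ∈ Ico q (i0 + M), F i := by
    intro F
    rw [sum_Ico_consecutive F hp0 hp1, sum_Ico_consecutive F h01 hq0,
      sum_Ico_consecutive F (h01.trans hq0) hq1]
  have hH' : |h i1 - h i0| ≤ r := by rw [abs_sub_comm]; exact hH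
  have q1 := quarter_up (c := h i0) (e := 0) ha hb hh hp0 (by simp)
  have q2 := quarter_down (c := h i0) (e := r) ha hb hbr hh hp1 hH'
  have q3 := quarter_up (c := h i0) (e := r) ha hb hh hq0 hH'
  have q4 := quarter_down (c := h i0) (e := 0) ha hb hbr hh hq1 (by rw [ph]; simp)
  -- the groups
  set g : ℕ → Fin 4 := fun i => if i < p then 0 else if i < i1 then 1 else if i < q then 2 else 3
    with hg
  have f0 : (Ico i0 (i0 + M)).filter (fun i => g i = 0) = Ico i0 p := by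
    ext i
    simp only [hg, mem_filter, mem_Ico]
    split_ifs <;> simp <;> omega
  have f1 : (Ico i0 (i0 + M)).filter (fun i => g i = 1) = Ico p i1 := by
    ext i
    simp only [hg, mem_filter, mem_Ico]
    split_ifs <;> simp <;> omega
  have f2 : (Ico i0 (i0 + M)).filter (fun i => g i = 2) = Ico i1 q := by
    ext i
    simp only [hg, mem_filter, mem_Ico]
    split_ifs <;> simp <;> omega
  have f3 : (Ico i0 (i0 + M)).filter (fun i => g i = 3) = Ico q (i0 + M) := by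
    ext i
    simp only [hg, mem_filter, mem_Ico]
    split_ifs <;> simp <;> omega
  have hbal : ∀ u v : Fin 4, ∑ i ∈ Ico i0 (i0 + M) with g i = u, a i ≤
      (∑ i ∈ Ico i0 (i0 + M) with g i = v, a i) + 3 * r := by
    rw [abs_le] at hD
    have l0 := hIco i0 p hp0
    have l1 := hIco p i1 hp1
    have l2 := hIco i1 q hq0
    have l3 := hIco q (i0 + M) hq1
    intro u v
    fin_cases u <;> fin_cases v <;> simp only [Fin.zero_eta, Fin.mk_one, Fin.reduceFinMk, f0, f1, f2, f3] <;>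
      linarith
  have hmain := hB (Ico i0 (i0 + M)) g a b (fun i _ => ha i) (fun i _ => hb i) (3 * r)
    (by linarith) hbal
  rw [Fin.sum_univ_four, f0, f1, f2, f3] at hmain
  have hper1 : ∑ i ∈ Ico i0 (i0 + M), ∑ j ∈ Ico i0 (i0 + M), max (a i * b j) (a j * b i) =
      ∑ i ∈ range M, ∑ j ∈ range M, max (a i * b j) (a j * b i) := by
    rw [sum_period (F := fun i => ∑ j ∈ Ico i0 (i0 + M), max (a i * b j) (a j * b i))
      (fun i => by simp only [pa, pb])]
    refine sum_congr rfl (fun i _ => ?_)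
    exact sum_period (F := fun j => max (a i * b j) (a j * b i)) (fun j => by simp only [pa, pb]) _
  have hper2 : ∑ i ∈ Ico i0 (i0 + M), b i = ∑ i ∈ range M, b i := sum_period pb _
  rw [hper1, hper2] at hmain
  have hXs : ∑ i ∈ range M, a i = X := rfl
  rw [hsplit, hXs]
  have s0 : 0 ≤ ∑ i ∈ Ico i0 p, a i := sum_nonneg (fun i _ => ha i)
  have s1 : 0 ≤ ∑ i ∈ Ico p i1, a i := sum_nonneg (fun i _ => ha i)
  have s2 : 0 ≤ ∑ i ∈ Ico i1 q, a i := sum_nonneg (fun i _ => ha i)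
  have s3 : 0 ≤ ∑ i ∈ Ico q (i0 + M), a i := sum_nonneg (fun i _ => ha i)
  have hsum := hsplit a
  rw [hperA] at hsum
  have hY0 : 0 ≤ ∑ i ∈ range M, b i := sum_nonneg (fun i _ => hb i)
  have t0 := mul_nonneg hr s0
  have t1 := mul_nonneg hr s1
  have t2 := mul_nonneg hr s2
  have t3 := mul_nonneg hr s3
  have tY := mul_nonneg hr hY0
  have hrX : r * X = r * ∑ i ∈ Ico i0 p, a i + r * ∑ i ∈ Ico p i1, a i +
      r * ∑ i ∈ Ico i1 q, a i + r * ∑ i ∈ Ico q (i0 + M), a i := by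
    rw [hsum]; ring
  nlinarith

end Pool.Agent.K6.H23.WA
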