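import Pool.Agent.K6.H23.WA.PieceB
import Pool.Agent.K6.H23.WA.PieceC0

/-!
The signed area of a closed polygon is at most `1/8` of the sum of
`max (|x_i| |y_j|) (|x_j| |y_i|)` over all pairs of edges: quartering of the polygon with
subdivided edges.
-/

set_option autoImplicit false

namespace Pool.Agent.K6.H23.WA

open Finset Filter Topology

/-- the block of an index -/
lemma block_div {N : ℕ} (hN : 0 < N) (q : ℕ) {s : ℕ} (hs : s < N) : (q * N + s) / N = q := by
  rw [Nat.mul_comm, Nat.mul_add_div hN, Nat.div_eq_of_lt hs, add_zero]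

/-- sums of a function of the block -/
lemma sum_block (F : ℕ → ℝ) {N : ℕ} (hN : 0 < N) (m : ℕ) :
    ∑ k ∈ range (m * N), F (k / N) = N * ∑ i ∈ range m, F i := by
  induction m with
  | zero => simp
  | succ m ih =>
    have h1 : ∑ x ∈ range N, F ((m * N + x) / N) = N * F m := by
      rw [sum_congr rfl (fun x hx => by rw [block_div hN m (mem_range.1 hx)]), sum_const,
        card_range, nsmul_eq_mul]
    rw [Nat.succ_mul, sum_range_add, ih, sum_range_succ, h1]
    ring

/-- heights of the subdivided polygon -/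
lemma height_block (y : ℕ → ℝ) {N : ℕ} (hN : 0 < N) (q : ℕ) {s : ℕ} (hs : s ≤ N) :
    ∑ k ∈ range (q * N + s), y (k / N) / N = ∑ i ∈ range q, y i + s * (y q / N) := by
  have hN' : (N : ℝ) ≠ 0 := by exact_mod_cast hN.ne'
  have h1 : ∑ x ∈ range s, y ((q * N + x) / N) / N = s * (y q / N) := by
    rw [sum_congr rfl (fun x hx => by
      rw [block_div hN q (lt_of_lt_of_le (mem_range.1 hx) hs)]), sum_const,
      card_range, nsmul_eq_mul]
  rw [sum_range_add, h1, sum_block (fun i => y i / N) hN, ← sum_div]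
  congr 1
  field_simp

lemma sum_odd (N : ℕ) : ∑ s ∈ range N, (2 * (s : ℝ) + 1) = (N : ℝ) ^ 2 := by
  induction N with
  | zero => simp
  | succ N ih =>
    rw [sum_range_succ, ih]
    push_cast
    ring

/-- the area of the subdivided polygon -/
lemma area_block (x y : ℕ → ℝ) {N : ℕ} (hN : 0 < N) (m : ℕ) :
    ∑ k ∈ range (m * N), x (k / N) / N *
      (∑ i ∈ range k, y (i / N) / N + ∑ i ∈ range (k + 1), y (i / N) / N) =
    ∑ j ∈ range m, x j * (∑ i ∈ range j, y i + ∑ i ∈ range (j + 1), y i) := by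
  have hN' : (N : ℝ) ≠ 0 := by exact_mod_cast hN.ne'
  induction m with
  | zero => simp
  | succ m ih =>
    have h1 : ∑ s ∈ range N, x ((m * N + s) / N) / N *
        (∑ i ∈ range (m * N + s), y (i / N) / N + ∑ i ∈ range (m * N + s + 1), y (i / N) / N) =
        x m * (∑ i ∈ range m, y i + ∑ i ∈ range (m + 1), y i) := by
      have h2 : ∀ s ∈ range N, x ((m * N + s) / N) / N *
          (∑ i ∈ range (m * N + s), y (i / N) / N +
            ∑ i ∈ range (m * N + s + 1), y (i / N) / N) =
          x m / N * (2 * ∑ i ∈ range m, y i) + x m / N * (y m / N) * (2 * (s : ℝ) + 1) := by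
        intro s hs
        have hs' := mem_range.1 hs
        rw [block_div hN m hs', height_block y hN m hs'.le, add_assoc (m * N) s 1,
          height_block y hN m (Nat.succ_le_of_lt hs')]
        push_cast
        ring
      rw [sum_congr rfl h2, sum_add_distrib, sum_const, card_range, nsmul_eq_mul, ← mul_sum,
        sum_odd, sum_range_succ]
      field_simp
      ring
    rw [Nat.succ_mul, sum_range_add, ih, sum_range_succ, h1]

/-- the sum of the cross products by Abel summation -/
lemma cross_abel (x y : ℕ → ℝ) (m : ℕ) :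
    ∑ j ∈ range m, ∑ i ∈ range j, (x i * y j - x j * y i) =
      (∑ i ∈ range m, x i) * (∑ i ∈ range m, y i) -
        ∑ j ∈ range m, x j * (∑ i ∈ range j, y i + ∑ i ∈ range (j + 1), y i) := by
  induction m with
  | zero => simp
  | succ m ih =>
    have h1 : ∑ i ∈ range m, (x i * y m - x m * y i) =
        (∑ i ∈ range m, x i) * y m - x m * ∑ i ∈ range m, y i := by
      rw [sum_sub_distrib, sum_mul, mul_sum]
    rw [sum_range_succ, ih, h1, sum_range_succ (fun j => x j *
      (∑ i ∈ range j, y i + ∑ i ∈ range (j + 1), y i)) m, sum_range_succ x m,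
      sum_range_succ y m]
    ring

/-- the inequality for periodic sequences, with an error -/
lemma closed_le_err {m : ℕ} (x y : ℕ → ℝ) (px : ∀ i, x (i + m) = x i)
    (py : ∀ i, y (i + m) = y i) (sx : ∑ i ∈ range m, x i = 0) (sy : ∑ i ∈ range m, y i = 0)
    {R : ℝ} (hRx : ∀ i, |x i| ≤ R) (hRy : ∀ i, |y i| ≤ R) {N : ℕ} (hN : 0 < N) :
    ∑ j ∈ range m, ∑ i ∈ range j, (x i * y j - x j * y i) ≤
      (1 / 4) * ∑ i ∈ range m, ∑ j ∈ range m, max (|x i| * |y j|) (|x j| * |y i|) +
        (R * (5 * ∑ i ∈ range m, |x i| + 12 * ∑ i ∈ range m, |y i|)) * (1 / N) := by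
  have hN' : (0 : ℝ) < N := by exact_mod_cast hN
  set x' : ℕ → ℝ := fun k => x (k / N) / N with hx'
  set y' : ℕ → ℝ := fun k => y (k / N) / N with hy'
  set h : ℕ → ℝ := fun k => ∑ i ∈ range k, y' i with hh
  have hdiv : ∀ k, (k + m * N) / N = k / N + m := fun k => by
    rw [Nat.add_mul_div_right _ _ hN]
  have px' : ∀ k, x' (k + m * N) = x' k := fun k => by simp only [hx', hdiv, px]
  have py' : ∀ k, y' (k + m * N) = y' k := fun k => by simp only [hy', hdiv, py]
  have sumx' : ∑ k ∈ range (m * N), x' k = 0 := by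
    rw [hx', sum_block (fun i => x i / N) hN, ← sum_div, sx]; simp
  have sumy' : ∑ k ∈ range (m * N), y' k = 0 := by
    rw [hy', sum_block (fun i => y i / N) hN, ← sum_div, sy]; simp
  have ph : ∀ k, h (k + m * N) = h k := by
    intro k
    have h1 : ∑ i ∈ Ico k (k + m * N), y' i = h (k + m * N) - h k :=
      sum_Ico_eq_sub _ (by omega)
    rw [sum_period py', sumy'] at h1
    linarith
  have hstep : ∀ k, h (k + 1) - h k = y' k := fun k => by
    simp only [hh, sum_range_succ]; ring
  have hax : ∀ k, |x' k| ≤ R / N := fun k => by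
    simp only [hx', abs_div, Nat.abs_cast]
    exact div_le_div_of_nonneg_right (hRx _) hN'.le
  have hay : ∀ k, |y' k| ≤ R / N := fun k => by
    simp only [hy', abs_div, Nat.abs_cast]
    exact div_le_div_of_nonneg_right (hRy _) hN'.le
  obtain ⟨i0, hq⟩ := quartering (fun s g a b ha hb δ h0 hδ => four_groups s g a b ha hb h0 hδ)
    (M := m * N) (r := R / N) (a := fun k => |x' k|) (b := fun k => |y' k|) (h := h)
    (fun k => abs_nonneg _) hax (fun k => abs_nonneg _) hay (fun k => by rw [hstep])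
    (fun k => by simp only [px']) (fun k => by simp only [py']) ph
  -- the sums over the subdivided polygon
  have sA : ∑ k ∈ range (m * N), |x' k| = ∑ i ∈ range m, |x i| := by
    have := sum_block (fun i => |x i| / N) hN m
    simp only [hx', abs_div, Nat.abs_cast]
    rw [this, ← sum_div]
    field_simp
  have sB : ∑ k ∈ range (m * N), |y' k| = ∑ i ∈ range m, |y i| := by
    have := sum_block (fun i => |y i| / N) hN m
    simp only [hy', abs_div, Nat.abs_cast]
    rw [this, ← sum_div]
    field_simp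
  have sM : ∑ i ∈ range (m * N), ∑ j ∈ range (m * N), max (|x' i| * |y' j|) (|x' j| * |y' i|) =
      ∑ i ∈ range m, ∑ j ∈ range m, max (|x i| * |y j|) (|x j| * |y i|) := by
    have h1 : ∀ i j, max (|x' i| * |y' j|) (|x' j| * |y' i|) =
        max (|x (i / N)| * |y (j / N)|) (|x (j / N)| * |y (i / N)|) / N / N := by
      intro i j
      simp only [hx', hy', abs_div, Nat.abs_cast]
      rw [div_div, ← max_div_div_right (by positivity)]
      congr 1
      · field_simp
      · field_simp
    simp_rw [h1]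
    have h2 : ∀ i, ∑ j ∈ range (m * N),
        max (|x (i / N)| * |y (j / N)|) (|x (j / N)| * |y (i / N)|) / N / N =
        (∑ j ∈ range m, max (|x (i / N)| * |y j|) (|x j| * |y (i / N)|)) / N := by
      intro i
      rw [sum_block (fun j => max (|x (i / N)| * |y j|) (|x j| * |y (i / N)|) / N / N) hN,
        ← sum_div, ← sum_div]
      have h3 : ∀ z : ℝ, (N : ℝ) * (z / N / N) = z / N := fun z => by field_simp
      exact h3 _
    simp_rw [h2]
    rw [sum_block (fun i => (∑ j ∈ range m, max (|x i| * |y j|) (|x j| * |y i|)) / N) hN,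
      ← sum_div]
    have h3 : ∀ z : ℝ, (N : ℝ) * (z / N) = z := fun z => by field_simp
    exact h3 _
  rw [sA, sB, sM] at hq
  -- the area
  have area1 : ∑ k ∈ range (m * N), x' k * (h k + h (k + 1)) =
      ∑ j ∈ range m, x j * (∑ i ∈ range j, y i + ∑ i ∈ range (j + 1), y i) :=
    area_block x y hN m
  have area2 : ∑ k ∈ Ico i0 (i0 + m * N), x' k * (h k + h (k + 1)) =
      ∑ k ∈ range (m * N), x' k * (h k + h (k + 1)) :=
    sum_period (fun k => by
      have e1 : h (k + m * N + 1) = h (k + 1) := by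
        rw [show k + m * N + 1 = (k + 1) + m * N by ring, ph]
      simp only [px', ph, e1]) i0
  have area3 : ∑ k ∈ Ico i0 (i0 + m * N), x' k = 0 := by rw [sum_period px', sumx']
  have area4 : -∑ k ∈ Ico i0 (i0 + m * N), x' k * (h k + h (k + 1)) ≤
      ∑ k ∈ Ico i0 (i0 + m * N), (2 * (|x' k| * |h k - h i0|) + R / N * |x' k|) := by
    have h1 : -∑ k ∈ Ico i0 (i0 + m * N), x' k * (h k + h (k + 1)) =
        ∑ k ∈ Ico i0 (i0 + m * N), (-(x' k * (h k + h (k + 1))) + 2 * h i0 * x' k) := by
      rw [sum_add_distrib, ← mul_sum, area3, sum_neg_distrib]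
      ring
    rw [h1]
    refine sum_le_sum fun k _ => ?_
    have h2 : -(x' k * (h k + h (k + 1))) + 2 * h i0 * x' k =
        2 * (-(x' k * (h k - h i0))) + -(x' k * y' k) := by
      rw [← hstep k]; ring
    rw [h2]
    have h3 : -(x' k * (h k - h i0)) ≤ |x' k| * |h k - h i0| := by
      rw [← abs_mul]; exact neg_le_abs _
    have h4 : -(x' k * y' k) ≤ R / N * |x' k| := by
      refine (neg_le_abs _).trans ?_
      rw [abs_mul, mul_comm]
      exact mul_le_mul_of_nonneg_right (hay k) (abs_nonneg _)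
    linarith
  have area5 : ∑ k ∈ Ico i0 (i0 + m * N), |x' k| = ∑ i ∈ range m, |x i| := by
    rw [sum_period (F := fun k => |x' k|) (fun k => by simp only [px']), sA]
  rw [sum_add_distrib, ← mul_sum, ← mul_sum, area5, area2, area1] at area4
  rw [cross_abel, sx, zero_mul, zero_sub]
  have e1 : (R * (5 * ∑ i ∈ range m, |x i| + 12 * ∑ i ∈ range m, |y i|)) * (1 / N) =
      2 * (2 * (R / N) * ∑ i ∈ range m, |x i| + 6 * (R / N) * ∑ i ∈ range m, |y i|) +
        R / N * ∑ i ∈ range m, |x i| := by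
    field_simp
    ring
  rw [e1]
  linarith

/-- the inequality for periodic sequences -/
lemma closed_le_per {m : ℕ} (x y : ℕ → ℝ) (px : ∀ i, x (i + m) = x i)
    (py : ∀ i, y (i + m) = y i) (sx : ∑ i ∈ range m, x i = 0) (sy : ∑ i ∈ range m, y i = 0)
    {R : ℝ} (hRx : ∀ i, |x i| ≤ R) (hRy : ∀ i, |y i| ≤ R) :
    ∑ j ∈ range m, ∑ i ∈ range j, (x i * y j - x j * y i) ≤
      (1 / 4) * ∑ i ∈ range m, ∑ j ∈ range m, max (|x i| * |y j|) (|x j| * |y i|) := by
  have h1 : Tendsto (fun N : ℕ =>
      (1 / 4) * ∑ i ∈ range m, ∑ j ∈ range m, max (|x i| * |y j|) (|x j| * |y i|) +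
        (R * (5 * ∑ i ∈ range m, |x i| + 12 * ∑ i ∈ range m, |y i|)) * (1 / (N : ℝ))) atTop
      (𝓝 ((1 / 4) * ∑ i ∈ range m, ∑ j ∈ range m, max (|x i| * |y j|) (|x j| * |y i|) +
        (R * (5 * ∑ i ∈ range m, |x i| + 12 * ∑ i ∈ range m, |y i|)) * 0)) :=
    tendsto_const_nhds.add (tendsto_const_nhds.mul tendsto_one_div_atTop_nhds_zero_nat)
  rw [mul_zero, add_zero] at h1
  refine ge_of_tendsto h1 ?_
  filter_upwards [eventually_gt_atTop 0] with N hN
  exact closed_le_err x y px py sx sy hRx hRy hN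

/-- PIECE H1 -/
theorem closed_le {m : ℕ} (e : Fin m → ℝ × ℝ) (hx : ∑ i, (e i).1 = 0) (hy : ∑ i, (e i).2 = 0) :
    ∑ j, ∑ i ∈ univ.filter (· < j), ((e i).1 * (e j).2 - (e j).1 * (e i).2) ≤
      (1 / 4) * ∑ i, ∑ j, max (|(e i).1| * |(e j).2|) (|(e j).1| * |(e i).2|) := by
  rcases Nat.eq_zero_or_pos m with rfl | hm
  · simp
  set x : ℕ → ℝ := fun i => (e ⟨i % m, Nat.mod_lt _ hm⟩).1 with hxdef
  set y : ℕ → ℝ := fun i => (e ⟨i % m, Nat.mod_lt _ hm⟩).2 with hydef
  have ex : ∀ i : Fin m, (e i).1 = x i := fun i => by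
    simp only [hxdef, Nat.mod_eq_of_lt i.2]
  have ey : ∀ i : Fin m, (e i).2 = y i := fun i => by
    simp only [hydef, Nat.mod_eq_of_lt i.2]
  have px : ∀ i, x (i + m) = x i := fun i => by simp only [hxdef, Nat.add_mod_right]
  have py : ∀ i, y (i + m) = y i := fun i => by simp only [hydef, Nat.add_mod_right]
  have hR : ∀ i, |x i| + |y i| ≤ ∑ i : Fin m, (|(e i).1| + |(e i).2|) := fun i =>
    single_le_sum (f := fun i : Fin m => |(e i).1| + |(e i).2|)
      (fun i _ => add_nonneg (abs_nonneg _) (abs_nonneg _)) (mem_univ (⟨i % m, Nat.mod_lt _ hm⟩ : Fin m))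
  simp_rw [ex, ey] at hx hy ⊢
  rw [Fin.sum_univ_eq_sum_range x] at hx
  rw [Fin.sum_univ_eq_sum_range y] at hy
  have key := closed_le_per x y px py hx hy
    (fun i => (le_add_of_nonneg_right (abs_nonneg (y i))).trans (hR i))
    (fun i => (le_add_of_nonneg_left (abs_nonneg (x i))).trans (hR i))
  have l1 : ∑ j : Fin m, ∑ i ∈ univ.filter (· < j), (x i * y j - x j * y i) =
      ∑ j ∈ range m, ∑ i ∈ range j, (x i * y j - x j * y i) := by
    rw [← Fin.sum_univ_eq_sum_range (fun j => ∑ i ∈ range j, (x i * y j - x j * y i))]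
    refine sum_congr rfl fun j _ => ?_
    rw [sum_filter]
    have h1 : ∀ i : Fin m, (if i < j then x i * y j - x j * y i else 0) =
        (fun k : ℕ => if k < (j : ℕ) then x k * y j - x j * y k else 0) i := fun i => rfl
    rw [sum_congr rfl fun i _ => h1 i, Fin.sum_univ_eq_sum_range
      (fun k : ℕ => if k < (j : ℕ) then x k * y j - x j * y k else 0), ← sum_filter]
    refine sum_congr ?_ fun _ _ => rfl
    ext k
    simp only [mem_filter, mem_range]
    have := j.2
    omega
  have l2 : ∑ i : Fin m, ∑ j : Fin m, max (|x i| * |y j|) (|x j| * |y i|) =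
      ∑ i ∈ range m, ∑ j ∈ range m, max (|x i| * |y j|) (|x j| * |y i|) := by
    rw [← Fin.sum_univ_eq_sum_range
      (fun i => ∑ j ∈ range m, max (|x i| * |y j|) (|x j| * |y i|))]
    refine sum_congr rfl fun i _ => ?_
    rw [← Fin.sum_univ_eq_sum_range (fun j => max (|x i| * |y j|) (|x j| * |y i|))]
  rw [l1, l2]
  exact key

end Pool.Agent.K6.H23.WA
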