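import Pool.Agent.K6.H23.WA.Defs

set_option autoImplicit false

namespace Pool.Agent.K6.H23.WA

open Finset

/-- the sum of the cross products `t i v i × t j v j`, `i < j` -/
noncomputable def xs {n : ℕ} (t : Fin n → ℝ) (v : Fin n → ℝ × ℝ) : ℝ :=
  ∑ j, ∑ i ∈ univ.filter (· < j), t i * t j * ((v i).1 * (v j).2 - (v j).1 * (v i).2)

lemma xs_eq {n : ℕ} (t : Fin n → ℝ) (v : Fin n → ℝ × ℝ) :
    xs t v = ∑ j, ∑ i, if i < j then t i * t j * ((v i).1 * (v j).2 - (v j).1 * (v i).2) else 0 :=
  sum_congr rfl fun _ _ => sum_filter _ _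

lemma xs_append {a b : ℕ} (t : Fin a → ℝ) (v : Fin a → ℝ × ℝ) (s : Fin b → ℝ) (w : Fin b → ℝ × ℝ) :
    xs (Fin.append t s) (Fin.append v w) = xs t v + xs s w +
      ((∑ i, t i * (v i).1) * (∑ j, s j * (w j).2) -
        (∑ i, t i * (v i).2) * (∑ j, s j * (w j).1)) := by
  simp only [xs_eq]
  rw [Fin.sum_univ_add]
  simp only [Fin.sum_univ_add, Fin.append_left, Fin.append_right]
  have h1 : ∀ (i j : Fin a), (Fin.castAdd b i < Fin.castAdd b j) ↔ i < j := fun i j => by
    simp only [Fin.lt_def, Fin.val_castAdd]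
  have h2 : ∀ (i : Fin a) (j : Fin b), Fin.castAdd b i < Fin.natAdd a j := fun i j => by
    simp only [Fin.lt_def, Fin.val_castAdd, Fin.val_natAdd]; omega
  have h3 : ∀ (i : Fin b) (j : Fin a), ¬ Fin.natAdd a i < Fin.castAdd b j := fun i j => by
    simp only [Fin.lt_def, Fin.val_castAdd, Fin.val_natAdd]; omega
  have h4 : ∀ (i j : Fin b), (Fin.natAdd a i < Fin.natAdd a j) ↔ i < j := fun i j => by
    simp only [Fin.lt_def, Fin.val_natAdd]; omega
  simp only [h1, h2, h3, h4, if_true, if_false, sum_const_zero, add_zero]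
  rw [sum_add_distrib]
  have h5 : ∑ j : Fin b, ∑ i : Fin a, t i * s j * ((v i).1 * (w j).2 - (w j).1 * (v i).2) =
      (∑ i, t i * (v i).1) * (∑ j, s j * (w j).2) -
        (∑ i, t i * (v i).2) * (∑ j, s j * (w j).1) := by
    rw [sum_mul_sum, sum_mul_sum, ← sum_sub_distrib, sum_comm]
    refine sum_congr rfl fun i _ => ?_
    rw [← sum_sub_distrib]
    exact sum_congr rfl fun j _ => by ring
  rw [h5]
  ring

lemma xs_rev {n : ℕ} (t : Fin n → ℝ) (v : Fin n → ℝ × ℝ) :
    xs (fun i => t i.rev) (fun i => v i.rev) = -xs t v := by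
  rw [xs_eq, xs_eq, ← Equiv.sum_comp Fin.revPerm]
  have h : ∀ j : Fin n, (∑ i : Fin n, if i < Fin.revPerm j then
      t i.rev * t (Fin.revPerm j).rev * ((v i.rev).1 * (v (Fin.revPerm j).rev).2 -
        (v (Fin.revPerm j).rev).1 * (v i.rev).2) else 0) =
      ∑ i, if j < i then t i * t j * ((v i).1 * (v j).2 - (v j).1 * (v i).2) else 0 := by
    intro j
    rw [← Equiv.sum_comp Fin.revPerm]
    refine sum_congr rfl fun i _ => ?_
    simp only [Fin.revPerm_apply, Fin.rev_rev, Fin.rev_lt_rev]
  rw [sum_congr rfl fun j _ => h j, sum_comm, ← sum_neg_distrib]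
  refine sum_congr rfl fun i _ => ?_
  rw [← sum_neg_distrib]
  refine sum_congr rfl fun j _ => ?_
  split_ifs <;> ring

/-- sorted by slope -/
lemma exists_sorted {m : ℕ} (v : Fin m → ℝ × ℝ) : ∃ σ : Equiv.Perm (Fin m),
    ∀ i j, i ≤ j → |(v (σ j)).1| * |(v (σ i)).2| ≤ |(v (σ i)).1| * |(v (σ j)).2| := by
  let key : Fin m → ℝ := fun i => |(v i).2| / (|(v i).1| + |(v i).2|)
  refine ⟨Tuple.sort key, fun i j hij => ?_⟩
  have h := Tuple.monotone_sort key hij
  simp only [Function.comp_apply, key] at h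
  have ha := abs_nonneg (v ((Tuple.sort key) i)).1
  have hb := abs_nonneg (v ((Tuple.sort key) i)).2
  have hc := abs_nonneg (v ((Tuple.sort key) j)).1
  have hd := abs_nonneg (v ((Tuple.sort key) j)).2
  set a := |(v ((Tuple.sort key) i)).1|
  set b := |(v ((Tuple.sort key) i)).2|
  set c := |(v ((Tuple.sort key) j)).1|
  set d := |(v ((Tuple.sort key) j)).2|
  rcases (add_nonneg ha hb).eq_or_lt with h1 | h1
  · have e1 : a = 0 := by linarith
    have e2 : b = 0 := by linarith
    rw [e1, e2]; simp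
  rcases (add_nonneg hc hd).eq_or_lt with h2 | h2
  · have e1 : c = 0 := by linarith
    have e2 : d = 0 := by linarith
    rw [e1, e2]; simp
  rw [div_le_div_iff₀ h1 h2] at h
  linarith

/-- PIECE H2 -/
theorem closed_of_family {m : ℕ} (t : Fin m → ℝ) (v : Fin m → ℝ × ℝ) (ht : ∀ i, 0 ≤ t i) :
    ∃ (m' : ℕ) (t' : Fin m' → ℝ) (v' : Fin m' → ℝ × ℝ), (∀ i, 0 ≤ t' i) ∧
      ∑ i, t' i = ∑ i, t i ∧
      (∀ i, ∃ j, |(v' i).1| = |(v j).1| ∧ |(v' i).2| = |(v j).2|) ∧
      ∑ i, t' i * (v' i).1 = 0 ∧ ∑ i, t' i * (v' i).2 = 0 ∧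
      (∀ g : ℝ × ℝ → ℝ, (∀ v, g (|v.1|, |v.2|) = g v) →
        ∑ i, t' i * g (v' i) = ∑ i, t i * g (v i)) ∧
      Mf t v ≤ 2 * ∑ j, ∑ i ∈ univ.filter (· < j),
        t' i * t' j * ((v' i).1 * (v' j).2 - (v' j).1 * (v' i).2) := by
  obtain ⟨σ, hσ⟩ := exists_sorted v
  -- the edges in the first quadrant
  set s : Fin m → ℝ := fun i => t (σ i) / 4 with hs
  set p : Fin m → ℝ × ℝ := fun i => (|(v (σ i)).1|, |(v (σ i)).2|) with hp
  set q : Fin m → ℝ × ℝ := fun i => (|(v (σ i)).1|, -|(v (σ i)).2|) with hq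
  set th : Fin (m + m) → ℝ := Fin.append (fun i => s i.rev) s with hth
  set vh : Fin (m + m) → ℝ × ℝ := Fin.append (fun i => q i.rev) p with hvh
  set vn : Fin (m + m) → ℝ × ℝ := fun i => (-(vh i).1, -(vh i).2) with hvn
  have hg : ∀ g : ℝ × ℝ → ℝ, (∀ v, g (|v.1|, |v.2|) = g v) →
      ∑ i, Fin.append th th i * g (Fin.append vh vn i) = ∑ i, t i * g (v i) := by
    intro g hg
    have e1 : ∀ i, g (vn i) = g (vh i) := fun i => by
      rw [← hg (vn i), ← hg (vh i)]
      simp only [hvn, abs_neg]
    have e2 : ∀ i, g (p i) = g (v (σ i)) := fun i => by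
      rw [hp]; exact hg _
    have e3 : ∀ i, g (q i) = g (v (σ i)) := fun i => by
      rw [← hg (q i), ← hg (v (σ i))]
      simp only [hq, abs_neg, abs_abs]
    rw [Fin.sum_univ_add]
    simp only [Fin.append_left, Fin.append_right, e1]
    rw [Fin.sum_univ_add]
    simp only [hth, hvh, Fin.append_left, Fin.append_right, e2, e3]
    have e4 : ∑ i : Fin m, s i.rev * g (v (σ i.rev)) = ∑ i, s i * g (v (σ i)) :=
      Equiv.sum_comp Fin.revPerm fun i => s i * g (v (σ i))
    rw [e4, ← Equiv.sum_comp σ fun i => t i * g (v i)]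
    simp only [hs, ← sum_add_distrib]
    exact sum_congr rfl fun i _ => by ring
  refine ⟨(m + m) + (m + m), Fin.append th th, Fin.append vh vn, ?_, ?_, ?_, ?_, ?_, hg, ?_⟩
  · have h0 : ∀ i, 0 ≤ th i := by
      intro i
      refine Fin.addCases (fun i => ?_) (fun i => ?_) i
      · rw [hth, Fin.append_left]
        exact div_nonneg (ht _) (by norm_num)
      · rw [hth, Fin.append_right]
        exact div_nonneg (ht _) (by norm_num)
    intro i
    refine Fin.addCases (fun i => ?_) (fun i => ?_) i
    · rw [Fin.append_left]; exact h0 i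
    · rw [Fin.append_right]; exact h0 i
  · have := hg (fun _ => 1) (fun _ => rfl)
    simpa using this
  · have h0 : ∀ i, ∃ j, |(vh i).1| = |(v j).1| ∧ |(vh i).2| = |(v j).2| := by
      intro i
      refine Fin.addCases (fun i => ?_) (fun i => ?_) i
      · rw [hvh, Fin.append_left]
        exact ⟨σ i.rev, by simp [hq], by simp [hq]⟩
      · rw [hvh, Fin.append_right]
        exact ⟨σ i, by simp [hp], by simp [hp]⟩
    intro i
    refine Fin.addCases (fun i => ?_) (fun i => ?_) i
    · rw [Fin.append_left]; exact h0 i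
    · rw [Fin.append_right]
      obtain ⟨j, h1, h2⟩ := h0 i
      exact ⟨j, by simp only [hvn, abs_neg]; exact h1, by simp only [hvn, abs_neg]; exact h2⟩
  · rw [Fin.sum_univ_add]
    simp only [Fin.append_left, Fin.append_right, hvn, mul_neg, sum_neg_distrib]
    ring
  · rw [Fin.sum_univ_add]
    simp only [Fin.append_left, Fin.append_right, hvn, mul_neg, sum_neg_distrib]
    ring
  · have h1 : xs (Fin.append th th) (Fin.append vh vn) = 2 * xs th vh := by
      rw [xs_append]
      have e1 : xs th vn = xs th vh := by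
        simp only [xs, hvn]
        exact sum_congr rfl fun j _ => sum_congr rfl fun i _ => by ring
      have e2 : ∑ j, th j * (vn j).2 = -∑ j, th j * (vh j).2 := by
        simp only [hvn, mul_neg, sum_neg_distrib]
      have e3 : ∑ j, th j * (vn j).1 = -∑ j, th j * (vh j).1 := by
        simp only [hvn, mul_neg, sum_neg_distrib]
      rw [e1, e2, e3]
      ring
    have h2 : xs th vh = 2 * xs s p + 2 * ((∑ i, s i * (p i).1) * (∑ j, s j * (p j).2)) := by
      rw [hth, hvh, xs_append]
      have e1 : xs (fun i => s i.rev) (fun i => q i.rev) = xs s p := by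
        rw [xs_rev, xs, xs, ← sum_neg_distrib]
        refine sum_congr rfl fun j _ => ?_
        rw [← sum_neg_distrib]
        exact sum_congr rfl fun i _ => by simp only [hp, hq]; ring
      have e2 : ∑ i : Fin m, s i.rev * (q i.rev).1 = ∑ i, s i * (p i).1 :=
        Equiv.sum_comp Fin.revPerm fun i => s i * (q i).1
      have e3 : ∑ i : Fin m, s i.rev * (q i.rev).2 = -∑ i, s i * (p i).2 := by
        rw [← sum_neg_distrib]
        rw [show ∑ i : Fin m, s i.rev * (q i.rev).2 = ∑ i, s i * (q i).2 from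
          Equiv.sum_comp Fin.revPerm fun i => s i * (q i).2]
        exact sum_congr rfl fun i _ => by simp only [hp, hq]; ring
      rw [e1, e2, e3]
      ring
    have hσ' : ∀ i j, i ≤ j → (p j).1 * (p i).2 ≤ (p i).1 * (p j).2 := hσ
    have h3 : xs s p + (∑ i, s i * (p i).1) * (∑ j, s j * (p j).2) =
        ∑ i, ∑ j, s i * s j * max ((p i).1 * (p j).2) ((p j).1 * (p i).2) := by
      rw [xs_eq, sum_mul_sum]
      have e1 : ∀ i j, s i * (p i).1 * (s j * (p j).2) =
          s i * s j * ((p i).1 * (p j).2) := fun i j => by ring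
      simp only [e1]
      -- symmetrise
      have e2 : ∑ j, ∑ i, (if i < j then s i * s j * ((p i).1 * (p j).2 - (p j).1 * (p i).2)
          else 0) + ∑ i, ∑ j, s i * s j * ((p i).1 * (p j).2) =
          ∑ i, ∑ j, ((if i < j then s i * s j * ((p i).1 * (p j).2) else 0) -
            (if j < i then s i * s j * ((p i).1 * (p j).2) else 0) +
            s i * s j * ((p i).1 * (p j).2)) := by
        simp only [sum_add_distrib, sum_sub_distrib]
        congr 1
        have e3 : ∀ i j : Fin m,
            (if i < j then s i * s j * ((p i).1 * (p j).2 - (p j).1 * (p i).2) else 0) =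
            (if i < j then s i * s j * ((p i).1 * (p j).2) else 0) -
            (if i < j then s i * s j * ((p j).1 * (p i).2) else 0) := fun i j => by
          split_ifs <;> ring
        simp only [e3, sum_sub_distrib]
        congr 1
        · rw [sum_comm]
        · refine sum_congr rfl fun i _ => sum_congr rfl fun j _ => ?_
          split_ifs <;> ring
      rw [e2]
      -- the same for the maximum
      have e4 : ∑ i, ∑ j, s i * s j * max ((p i).1 * (p j).2) ((p j).1 * (p i).2) =
          ∑ i, ∑ j, ((if i < j then s i * s j * ((p i).1 * (p j).2) else 0) +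
            (if j < i then s i * s j * ((p j).1 * (p i).2) else 0) +
            (if i = j then s i * s j * ((p i).1 * (p j).2) else 0)) := by
        refine sum_congr rfl fun i _ => sum_congr rfl fun j _ => ?_
        rcases lt_trichotomy i j with h | h | h
        · rw [max_eq_left (hσ' i j h.le)]
          simp [h, h.ne, h.le.not_gt]
        · subst h
          simp
        · rw [max_eq_right (hσ' j i h.le)]
          simp [h, h.ne', h.le.not_gt]
      have e5 : ∑ i, ∑ j, ((if i < j then s i * s j * ((p i).1 * (p j).2) else 0) -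
            (if j < i then s i * s j * ((p i).1 * (p j).2) else 0) +
            s i * s j * ((p i).1 * (p j).2)) =
          ∑ i, ∑ j, ((if i < j then s i * s j * ((p i).1 * (p j).2) else 0) +
            (if i < j then s i * s j * ((p i).1 * (p j).2) else 0) +
            (if i = j then s i * s j * ((p i).1 * (p j).2) else 0)) := by
        refine sum_congr rfl fun i _ => sum_congr rfl fun j _ => ?_
        rcases lt_trichotomy i j with h | h | h
        · simp [h, h.ne, h.le.not_gt]
        · subst h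
          simp
        · simp [h, h.ne', h.le.not_gt]
      rw [e4, e5]
      simp only [sum_add_distrib]
      congr 1
      congr 1
      rw [sum_comm]
      refine sum_congr rfl fun i _ => sum_congr rfl fun j _ => ?_
      split_ifs <;> ring
    have h4 : Mf t v = 8 * ∑ i, ∑ j, s i * s j * max ((p i).1 * (p j).2) ((p j).1 * (p i).2) := by
      rw [Mf, ← Equiv.sum_comp σ]
      have e1 : ∀ i, ∑ j, t (σ i) * t j * max (|(v (σ i)).1| * |(v j).2|)
          (|(v j).1| * |(v (σ i)).2|) = ∑ j, t (σ i) * t (σ j) *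
          max (|(v (σ i)).1| * |(v (σ j)).2|) (|(v (σ j)).1| * |(v (σ i)).2|) := fun i =>
        (Equiv.sum_comp σ _).symm
      simp only [e1, mul_sum]
      refine sum_congr rfl fun i _ => sum_congr rfl fun j _ => ?_
      simp only [hs, hp]
      ring
    show Mf t v ≤ 2 * xs (Fin.append th th) (Fin.append vh vn)
    rw [h1, h2, h4, ← h3]
    apply le_of_eq
    ring

end Pool.Agent.K6.H23.WA
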