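import Pool.Agent.K6.H23.WA.Defs
import Pool.Agent.K6.H23.WA.PieceD
import Pool.Agent.K6.H23.WA.PieceH2

set_option autoImplicit false

namespace Pool.Agent.K6.H23.WA

open Finset

namespace PieceQ1

lemma clamp_swap {a b c d : ℝ} (hab : a ≤ b) (hcd : c ≤ d) :
    min b (max a d) - min b (max a c) = min d (max c b) - min d (max c a) := by
  simp only [min_def, max_def]
  split_ifs <;> linarith

/-- length of the intersection of `[T i, T (i+1)]` and `[S j, S (j+1)]` -/
noncomputable def ov (T S : ℕ → ℝ) (i j : ℕ) : ℝ :=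
  min (T (i + 1)) (max (T i) (S (j + 1))) - min (T (i + 1)) (max (T i) (S j))

variable {T S : ℕ → ℝ}

lemma ov_nonneg (hS : Monotone S) (i j : ℕ) : 0 ≤ ov T S i j :=
  sub_nonneg.2 (min_le_min le_rfl (max_le_max le_rfl (hS (Nat.le_succ j))))

lemma ov_pos {i j : ℕ} (hS : Monotone S) (h : ov T S i j ≠ 0) :
    T i < S (j + 1) ∧ S j < T (i + 1) := by
  constructor
  · by_contra hc
    push Not at hc
    apply h
    rw [ov, max_eq_left hc, max_eq_left ((hS (Nat.le_succ j)).trans hc), sub_self]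
  · by_contra hc
    push Not at hc
    apply h
    rw [ov, min_eq_left, min_eq_left, sub_self]
    · exact hc.trans (le_max_right _ _)
    · exact (hc.trans (hS (Nat.le_succ j))).trans (le_max_right _ _)

lemma ov_order (hT : Monotone T) (hS : Monotone S) {i j i' j' : ℕ} (hj : j < j')
    (h : ov T S i j ≠ 0) (h' : ov T S i' j' ≠ 0) : i ≤ i' := by
  by_contra hc
  push Not at hc
  have h1 := (ov_pos hS h).1
  have h2 := (ov_pos hS h').2
  have h3 := hT (Nat.succ_le_of_lt hc)
  have h4 := hS (Nat.succ_le_of_lt hj)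
  simp only [Nat.succ_eq_add_one] at h3 h4
  linarith

lemma ov_row (hT : Monotone T) {M : ℕ} {i : ℕ} (h0 : S 0 ≤ T i) (h1 : T (i + 1) ≤ S M) :
    ∑ j ∈ range M, ov T S i j = T (i + 1) - T i := by
  have := Finset.sum_range_sub (fun j => min (T (i + 1)) (max (T i) (S j))) M
  simp only [ov]
  rw [this, max_eq_left h0, min_eq_right (hT (Nat.le_succ i)),
    min_eq_left (h1.trans (le_max_right _ _))]

lemma ov_col (hT : Monotone T) (hS : Monotone S) {m : ℕ} {j : ℕ} (h0 : T 0 ≤ S j)
    (h1 : S (j + 1) ≤ T m) : ∑ i ∈ range m, ov T S i j = S (j + 1) - S j := by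
  have h2 : ∀ i, ov T S i j = ov S T j i := fun i =>
    clamp_swap (hT (Nat.le_succ i)) (hS (Nat.le_succ j))
  simp only [h2]
  exact ov_row hS h0 h1

end PieceQ1

open PieceQ1

/-- PIECE Q1 -/
theorem equal_times {I : ℝ × ℝ → ℝ} {κ : ℝ} (hI : RateFn I κ) {a : ℝ} (ha : a ≤ 1 / 4) {M : ℕ}
    (hM : 1 ≤ M) {ε : ℝ} (hε : 0 < ε) : ∃ v : Fin M → ℝ × ℝ,
      (∀ i, 0 ≤ (v i).1 ∧ 0 ≤ (v i).2 ∧ (v i).1 + (v i).2 ≤ 1) ∧
      a - 2 / M ≤ Mf (fun _ => 1 / (M : ℝ)) v ∧ ∑ i, (1 / (M : ℝ)) * I (v i) ≤ J I a + ε := by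
  have hM0 : (0 : ℝ) < M := by exact_mod_cast hM
  obtain ⟨c, hc, hcJ⟩ := exists_lt_of_csInf_lt (PieceD.costs_ne I ha)
    (lt_add_of_pos_right (sInf (costs I a)) hε)
  obtain ⟨m, t0, v0, ht0, ht1, hv0, harea, rfl⟩ := hc
  obtain ⟨σ, hσ⟩ := exists_sorted v0
  -- the sorted family
  set t : Fin m → ℝ := fun i => t0 (σ i) with htdef
  set x : Fin m → ℝ := fun i => |(v0 (σ i)).1| with hx
  set y : Fin m → ℝ := fun i => |(v0 (σ i)).2| with hy
  have hxy : ∀ i j, i ≤ j → x j * y i ≤ x i * y j := hσ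
  have ht : ∀ i, 0 ≤ t i := fun i => ht0 _
  have hts : ∑ i, t i = 1 := by rw [← ht1]; exact Equiv.sum_comp σ t0
  have hx0 : ∀ i, 0 ≤ x i := fun i => abs_nonneg _
  have hy0 : ∀ i, 0 ≤ y i := fun i => abs_nonneg _
  have hxy1 : ∀ i, x i + y i ≤ 1 := fun i => hv0 _
  -- the partial sums
  set tt : ℕ → ℝ := fun k => if h : k < m then t ⟨k, h⟩ else 0 with htt
  have htt0 : ∀ k, 0 ≤ tt k := fun k => by
    simp only [htt]
    split_ifs
    · exact ht _
    · exact le_rfl
  have htti : ∀ i : Fin m, tt i = t i := fun i => by simp [htt]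
  set T : ℕ → ℝ := fun k => ∑ i ∈ range k, tt i with hT
  have hTs : ∀ k, T (k + 1) = T k + tt k := fun k => by simp only [hT, sum_range_succ]
  have hTm : Monotone T := monotone_nat_of_le_succ fun k => by
    rw [hTs]; linarith [htt0 k]
  have hT0 : T 0 = 0 := by simp [hT]
  have hT1 : T m = 1 := by
    rw [← hts]
    show ∑ i ∈ range m, tt i = _
    rw [← Fin.sum_univ_eq_sum_range]
    exact sum_congr rfl fun i _ => htti i
  set S : ℕ → ℝ := fun j => (j : ℝ) / M with hS
  have hSm : Monotone S := fun i j hij => by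
    simp only [hS]
    gcongr
  have hS0 : S 0 = 0 := by simp [hS]
  have hS1 : S M = 1 := by simp only [hS]; exact div_self hM0.ne'
  have hSs : ∀ j, S (j + 1) - S j = 1 / M := fun j => by
    simp only [hS]; push_cast; ring
  set w : Fin m → Fin M → ℝ := fun i j => ov T S i j with hw
  have hw0 : ∀ i j, 0 ≤ w i j := fun i j => ov_nonneg hSm _ _
  have hrow : ∀ i, ∑ j, w i j = t i := by
    intro i
    have h1 := Fin.sum_univ_eq_sum_range (fun j => ov T S i j) M
    simp only [hw]
    rw [h1, ov_row hTm, hTs, htti]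
    · ring
    · rw [hS0, ← hT0]; exact hTm (Nat.zero_le _)
    · rw [hS1, ← hT1]; exact hTm i.2
  have hcol : ∀ j, ∑ i, w i j = 1 / M := by
    intro j
    have h1 := Fin.sum_univ_eq_sum_range (fun i => ov T S i j) m
    simp only [hw]
    rw [h1, ov_col hTm hSm, hSs]
    · rw [hT0, ← hS0]; exact hSm (Nat.zero_le _)
    · rw [hT1, ← hS1]; exact hSm j.2
  have hord : ∀ i i' j j', j < j' → w i j ≠ 0 → w i' j' ≠ 0 → i ≤ i' := by
    intro i i' j j' hj h h'
    exact ov_order hTm hSm (i := i) (i' := i') hj h h'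
  -- the averaged family
  set X : Fin M → ℝ := fun j => M * ∑ i, w i j * x i with hX
  set Y : Fin M → ℝ := fun j => M * ∑ i, w i j * y i with hY
  have hX0 : ∀ j, 0 ≤ X j := fun j =>
    mul_nonneg hM0.le (sum_nonneg fun i _ => mul_nonneg (hw0 i j) (hx0 i))
  have hY0 : ∀ j, 0 ≤ Y j := fun j =>
    mul_nonneg hM0.le (sum_nonneg fun i _ => mul_nonneg (hw0 i j) (hy0 i))
  have hXY : ∀ j, X j + Y j ≤ 1 := by
    intro j
    have h1 : X j + Y j = M * ∑ i, w i j * (x i + y i) := by
      simp only [hX, hY, mul_add, sum_add_distrib]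
    have h2 : ∑ i, w i j * (x i + y i) ≤ ∑ i, w i j :=
      sum_le_sum fun i _ => mul_le_of_le_one_right (hw0 i j) (hxy1 i)
    rw [hcol j] at h2
    rw [h1]
    calc (M : ℝ) * ∑ i, w i j * (x i + y i) ≤ M * (1 / M) := by gcongr
      _ = 1 := by field_simp
  refine ⟨fun j => (X j, Y j), fun j => ⟨hX0 j, hY0 j, hXY j⟩, ?_, ?_⟩
  · -- the area
    set mx : Fin m → Fin m → ℝ := fun i j => max (x i * y j) (x j * y i) with hmx
    have hmx1 : ∀ i j, mx i j ≤ 1 := by
      intro i j
      have h1 := hxy1 i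
      have h2 := hxy1 j
      have h3 := hx0 i
      have h4 := hy0 i
      have h5 := hx0 j
      have h6 := hy0 j
      apply max_le
      · exact mul_le_one₀ (by linarith) h6 (by linarith)
      · exact mul_le_one₀ (by linarith) h4 (by linarith)
    have hMf : Mf t0 v0 = (1 / 2) * ∑ i, ∑ j, t i * t j * mx i j := by
      rw [Mf, ← Equiv.sum_comp σ]
      congr 1
      refine sum_congr rfl fun i _ => ?_
      exact (Equiv.sum_comp σ _).symm
    have h1 : ∑ i, ∑ i', t i * t i' * mx i i' =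
        ∑ j, ∑ j', ∑ i, ∑ i', w i j * w i' j' * mx i i' := by
      have e1 : ∀ i i', t i * t i' * mx i i' = ∑ j, ∑ j', w i j * w i' j' * mx i i' := by
        intro i i'
        rw [← hrow i, ← hrow i', sum_mul_sum, sum_mul]
        exact sum_congr rfl fun j _ => sum_mul _ _ _
      simp only [e1]
      calc ∑ i, ∑ i', ∑ j, ∑ j', w i j * w i' j' * mx i i'
          = ∑ i, ∑ j, ∑ i', ∑ j', w i j * w i' j' * mx i i' :=
            sum_congr rfl fun i _ => sum_comm
        _ = ∑ j, ∑ i, ∑ i', ∑ j', w i j * w i' j' * mx i i' := sum_comm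
        _ = ∑ j, ∑ i, ∑ j', ∑ i', w i j * w i' j' * mx i i' :=
            sum_congr rfl fun j _ => sum_congr rfl fun i _ => sum_comm
        _ = ∑ j, ∑ j', ∑ i, ∑ i', w i j * w i' j' * mx i i' :=
            sum_congr rfl fun j _ => sum_comm
    have h2 : ∀ j j', ∑ i, ∑ i', w i j * w i' j' * mx i i' ≤
        1 / (M : ℝ) * (1 / M) * max (|X j| * |Y j'|) (|X j'| * |Y j|) +
          if j = j' then 1 / (M : ℝ) * (1 / M) else 0 := by
      intro j j'
      rw [abs_of_nonneg (hX0 j), abs_of_nonneg (hX0 j'), abs_of_nonneg (hY0 j),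
        abs_of_nonneg (hY0 j')]
      have hp : (0 : ℝ) ≤ 1 / (M : ℝ) * (1 / M) := by positivity
      rcases lt_trichotomy j j' with h | h | h
      · rw [if_neg h.ne, add_zero]
        have e1 : ∑ i, ∑ i', w i j * w i' j' * mx i i' = 1 / (M : ℝ) * (1 / M) * (X j * Y j') := by
          have e2 : 1 / (M : ℝ) * (1 / M) * (X j * Y j') =
              (∑ i, w i j * x i) * ∑ i, w i j' * y i := by
            simp only [hX, hY]
            field_simp
          rw [e2, sum_mul_sum]
          refine sum_congr rfl fun i _ => sum_congr rfl fun i' _ => ?_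
          by_cases ha1 : w i j = 0
          · rw [ha1]; ring
          by_cases ha2 : w i' j' = 0
          · rw [ha2]; ring
          rw [hmx]
          simp only
          rw [max_eq_left (hxy i i' (hord i i' j j' h ha1 ha2))]
          ring
        rw [e1]
        exact mul_le_mul_of_nonneg_left (le_max_left _ _) hp
      · subst h
        rw [if_pos rfl]
        have e1 : ∑ i, ∑ i', w i j * w i' j * mx i i' ≤ ∑ i, ∑ i', w i j * w i' j :=
          sum_le_sum fun i _ => sum_le_sum fun i' _ =>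
            mul_le_of_le_one_right (mul_nonneg (hw0 i j) (hw0 i' j)) (hmx1 i i')
        have e2 : ∑ i, ∑ i', w i j * w i' j = 1 / (M : ℝ) * (1 / M) := by
          rw [← sum_mul_sum, hcol]
        have e3 : 0 ≤ 1 / (M : ℝ) * (1 / M) * max (X j * Y j) (X j * Y j) :=
          mul_nonneg hp (le_max_of_le_left (mul_nonneg (hX0 j) (hY0 j)))
        linarith
      · rw [if_neg h.ne', add_zero]
        have e1 : ∑ i, ∑ i', w i j * w i' j' * mx i i' = 1 / (M : ℝ) * (1 / M) * (X j' * Y j) := by
          have e2 : 1 / (M : ℝ) * (1 / M) * (X j' * Y j) =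
              (∑ i, w i j * y i) * ∑ i, w i j' * x i := by
            simp only [hX, hY]
            field_simp
          rw [e2, sum_mul_sum]
          refine sum_congr rfl fun i _ => sum_congr rfl fun i' _ => ?_
          by_cases ha1 : w i j = 0
          · rw [ha1]; ring
          by_cases ha2 : w i' j' = 0
          · rw [ha2]; ring
          rw [hmx]
          simp only
          rw [max_eq_right (hxy i' i (hord i' i j' j h ha2 ha1))]
          ring
        rw [e1]
        exact mul_le_mul_of_nonneg_left (le_max_right _ _) hp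
    have h3 : ∑ i, ∑ i', t i * t i' * mx i i' ≤
        (∑ j, ∑ j', 1 / (M : ℝ) * (1 / M) * max (|X j| * |Y j'|) (|X j'| * |Y j|)) + 1 / M := by
      rw [h1]
      refine (sum_le_sum fun j _ => sum_le_sum fun j' _ => h2 j j').trans (le_of_eq ?_)
      simp only [sum_add_distrib]
      congr 1
      simp only [sum_ite_eq, mem_univ, if_true, sum_const, card_univ, Fintype.card_fin,
        nsmul_eq_mul]
      field_simp
    have h4 : Mf (fun _ => 1 / (M : ℝ)) (fun j => (X j, Y j)) = (1 / 2) *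
        ∑ j, ∑ j', 1 / (M : ℝ) * (1 / M) * max (|X j| * |Y j'|) (|X j'| * |Y j|) := rfl
    rw [h4]
    have h5 : (1 : ℝ) / M ≤ 4 / M := by gcongr; norm_num
    have h6 : (4 : ℝ) / M = 2 * (2 / M) := by ring
    rw [hMf] at harea
    linarith
  · -- the cost
    have h1 : ∀ j, I (X j, Y j) ≤ ∑ i, (M * w i j) * I (v0 (σ i)) := by
      intro j
      have h2 := hI.conv.map_sum_le (t := (univ : Finset (Fin m))) (w := fun i => M * w i j)
        (p := fun i => (x i, y i)) (fun i _ => mul_nonneg hM0.le (hw0 i j))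
        (by rw [← mul_sum, hcol]; field_simp)
        (fun i _ => by
          show |x i| + |y i| ≤ 1
          rw [abs_of_nonneg (hx0 i), abs_of_nonneg (hy0 i)]
          exact hxy1 i)
      have h3 : ∑ i, (fun i => (M : ℝ) * w i j) i • (fun i => (x i, y i)) i = (X j, Y j) := by
        ext
        · simp only [Prod.fst_sum, Prod.smul_fst, smul_eq_mul, hX, mul_sum, mul_assoc]
        · simp only [Prod.snd_sum, Prod.smul_snd, smul_eq_mul, hY, mul_sum, mul_assoc]
      rw [h3] at h2
      refine h2.trans (le_of_eq ?_)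
      refine sum_congr rfl fun i _ => ?_
      simp only [smul_eq_mul]
      congr 1
      exact hI.abs _ (hv0 _)
    calc ∑ j, (1 / (M : ℝ)) * I (X j, Y j)
        ≤ ∑ j, (1 / (M : ℝ)) * ∑ i, (M * w i j) * I (v0 (σ i)) :=
          sum_le_sum fun j _ => mul_le_mul_of_nonneg_left (h1 j) (by positivity)
      _ = ∑ j, ∑ i, w i j * I (v0 (σ i)) := by
          refine sum_congr rfl fun j _ => ?_
          rw [mul_sum]
          exact sum_congr rfl fun i _ => by field_simp
      _ = ∑ i, ∑ j, w i j * I (v0 (σ i)) := sum_comm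
      _ = ∑ i, t i * I (v0 (σ i)) := by
          refine sum_congr rfl fun i _ => ?_
          rw [← sum_mul, hrow]
      _ = ∑ i, t0 i * I (v0 i) := Equiv.sum_comp σ fun i => t0 i * I (v0 i)
      _ ≤ J I a + ε := hcJ.le

end Pool.Agent.K6.H23.WA
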