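import Pool.Agent.K6.H23.WA.Low2T
import Pool.Agent.K6.H23.WA.PieceQ1
import Pool.Agent.K6.H23.WA.PieceH1
import Pool.Agent.K6.H23.WA.PieceH2
import Pool.Agent.K6.H23.WA.PieceG
set_option autoImplicit false
namespace Pool.Agent.K6.H23.WA
open Pool.Agent.TH795.EP Pool.Agent.TH795.EP2 Pool.Agent.TH795.SE2 Pool.Agent.TH262.SawL H981 Finset
open Pool.Agent.Y981.L2 (Rate an ln par)
open Filter Topology

theorem lower_J : ∃ K : ℝ, 0 ≤ K ∧ ∀ n : ℕ, 2 ≤ n → ∀ M : ℕ, 1 ≤ M → 4 * M ≤ n → ∀ A : ℕ,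
    (A : ℝ) / n ^ 2 + 8 * M / n + 3 / M ≤ 1 / 4 →
    0 < an n A ∧ 2 * n * Real.log mu -
      (2 * n * J Rate ((A : ℝ) / n ^ 2 + 8 * M / n + 3 / M) + K * M * Real.log n ^ 2) ≤
      Real.log (an n A) := by
  obtain ⟨K, hK, h⟩ := lower_unif
  refine ⟨K + 1, by positivity, ?_⟩
  intro n hn M hM hMn A hA
  have hn0 : (0 : ℝ) < n := by exact_mod_cast (by omega : 0 < n)
  have hM0 : (0 : ℝ) < M := by exact_mod_cast hM
  have hl : 0 < Real.log (n : ℝ) ^ 2 := by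
    have : 0 < Real.log (n : ℝ) := Real.log_pos (by exact_mod_cast hn)
    positivity
  obtain ⟨v, hv, h1, h2⟩ := equal_times rateFn hA hM
    (ε := M * Real.log n ^ 2 / (2 * n)) (by positivity)
  obtain ⟨g1, g2⟩ := h n hn M hM v hv hMn A (by
    have h3 := mul_le_mul_of_nonneg_left h1 (show (0 : ℝ) ≤ (n : ℝ) ^ 2 by positivity)
    have e1 : (n : ℝ) ^ 2 * ((A : ℝ) / n ^ 2 + 8 * M / n + 3 / M - 2 / M) =
        A + 8 * M * n + (n : ℝ) ^ 2 / M := by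
      field_simp
      ring
    linarith)
  refine ⟨g1, ?_⟩
  have h3 := mul_le_mul_of_nonneg_left h2 (show (0 : ℝ) ≤ 2 * n by positivity)
  have e1 : 2 * (n : ℝ) * (J Rate ((A : ℝ) / n ^ 2 + 8 * M / n + 3 / M) +
      M * Real.log n ^ 2 / (2 * n)) =
      2 * n * J Rate ((A : ℝ) / n ^ 2 + 8 * M / n + 3 / M) + M * Real.log n ^ 2 := by
    field_simp
  rw [e1] at h3
  linarith

theorem upper_J : ∃ K C : ℝ, 0 ≤ K ∧ 0 ≤ C ∧ ∀ n : ℕ, 2 ≤ n → ∀ M : ℕ, 1 ≤ M → 2 * M ≤ n →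
    ∀ A : ℕ, 0 < an n A → (A : ℝ) / n ^ 2 - C / M ≤ 1 / 4 ∧
      Real.log (an n A) ≤ 2 * n * Real.log mu -
        2 * n * J Rate ((A : ℝ) / n ^ 2 - C / M) + K * M * Real.log n ^ 2 := by
  obtain ⟨K, C, hK, hC, hup⟩ := an_upper
  refine ⟨2 * K, 2 * C, by positivity, by positivity, ?_⟩
  intro n hn M hM hMn A hA
  have hn0 : (0 : ℝ) < n := by exact_mod_cast (by omega : 0 < n)
  have hM0 : (0 : ℝ) < M := by exact_mod_cast hM
  have hMnr : 2 * (M : ℝ) ≤ n := by exact_mod_cast hMn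
  have hM1 : (1 : ℝ) ≤ M := by exact_mod_cast hM
  obtain ⟨N, hN⟩ : ∃ N : ℕ, N = ⌈(n : ℝ) / M⌉₊ := ⟨_, rfl⟩
  have hq : (0 : ℝ) ≤ (n : ℝ) / M := by positivity
  have hN1 : (n : ℝ) / M ≤ N := by rw [hN]; exact Nat.le_ceil _
  have hN2 : (N : ℝ) < n / M + 1 := by rw [hN]; exact Nat.ceil_lt_add_one hq
  have hN3 : 2 ≤ N := by
    have : (2 : ℝ) ≤ N := by
      refine le_trans ?_ hN1
      rw [le_div_iff₀ hM0]
      exact hMnr
    exact_mod_cast this
  have hN4 : N ≤ n := by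
    rw [hN, Nat.ceil_le]
    exact div_le_self hn0.le hM1
  obtain ⟨hA1, hB⟩ := hup n hn N hN3 hN4 A hA
  have hN0 : (0 : ℝ) < N := by exact_mod_cast (by omega : 0 < N)
  have hCN : C * N * n / (n : ℝ) ^ 2 ≤ 2 * C / M := by
    rw [div_le_div_iff₀ (by positivity) hM0]
    have h3 : (N : ℝ) * M ≤ 2 * n := by
      have h4 : (N : ℝ) * M ≤ (n / M + 1) * M := by gcongr
      have h5 : ((n : ℝ) / M + 1) * M = n + M := by field_simp
      linarith
    calc C * N * n * M = C * n * (N * M) := by ring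
      _ ≤ C * n * (2 * n) := by gcongr
      _ = 2 * C * (n : ℝ) ^ 2 := by ring
  have e2 : ((A : ℝ) - C * N * n) / (n : ℝ) ^ 2 = (A : ℝ) / n ^ 2 - C * N * n / (n : ℝ) ^ 2 :=
    sub_div _ _ _
  have hle1 : (A : ℝ) / n ^ 2 - 2 * C / M ≤ ((A : ℝ) - C * N * n) / (n : ℝ) ^ 2 := by
    rw [e2]
    linarith
  have hle2 : ((A : ℝ) - C * N * n) / (n : ℝ) ^ 2 ≤ 1 / 4 := by
    rw [div_le_iff₀ (by positivity)]
    linarith
  have hmono := J_mono rateFn hle1 hle2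
  refine ⟨hle1.trans hle2, ?_⟩
  have herr : K * ((n : ℝ) / N + 1) * Real.log n ^ 2 ≤ 2 * K * M * Real.log n ^ 2 := by
    have h3 : (n : ℝ) / N ≤ M := by
      rw [div_le_iff₀ hN0]
      rw [div_le_iff₀ hM0] at hN1
      linarith
    have h4 : (n : ℝ) / N + 1 ≤ 2 * M := by linarith
    calc K * ((n : ℝ) / N + 1) * Real.log n ^ 2 ≤ K * (2 * M) * Real.log n ^ 2 := by gcongr
      _ = _ := by ring
  have := mul_le_mul_of_nonneg_left hmono (show (0 : ℝ) ≤ 2 * n by positivity)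
  linarith

theorem par_ceil (n : ℕ) (r : ℝ) : par n r = par n (⌈r⌉₊ : ℕ) := by
  unfold Pool.Agent.Y981.L2.par
  congr 2
  congr 1
  ext f
  simp only [Set.mem_ofPred_eq, Nat.cast_le, Nat.ceil_le]

theorem par_unif3 : ∃ K C : ℝ, 0 ≤ K ∧ 0 ≤ C ∧ ∀ n : ℕ, 2 ≤ n → ∀ M : ℕ, 1 ≤ M → 16 * M ^ 2 ≤ n →
    ∀ r : ℝ, 0 ≤ r → (par n r ≤ Real.exp (-(2 * n * J Rate (r / n ^ 2 - C / M) -
        K * M * Real.log n ^ 2)) ∧ (0 < par n r → r / n ^ 2 - C / M ≤ 1 / 4)) ∧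
      (r / n ^ 2 + C / M ≤ 1 / 4 → Real.exp (-(2 * n * J Rate (r / n ^ 2 + C / M) +
        K * M * Real.log n ^ 2)) ≤ par n r) := by
  obtain ⟨K1, hK1, hlow⟩ := lower_J
  obtain ⟨K2, C, hK2, hC, hup⟩ := upper_J
  obtain ⟨K3, hK3, hln⟩ := Pool.Agent.K6.H5.JW.ln_law
  refine ⟨K1 + K2 + K3, C + 4, by positivity, by positivity, ?_⟩
  intro n hn M hM hMn r hr
  have hn0 : (0 : ℝ) < n := by exact_mod_cast (by omega : 0 < n)
  have hM0 : (0 : ℝ) < M := by exact_mod_cast hM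
  have hM1 : (1 : ℝ) ≤ M := by exact_mod_cast hM
  have hMn2 : 16 * M ≤ n := by nlinarith
  have hMr : 16 * (M : ℝ) ^ 2 ≤ n := by exact_mod_cast hMn
  have hl : 0 ≤ Real.log (n : ℝ) ^ 2 := by positivity
  have hlM : K3 * Real.log (n : ℝ) ^ 2 ≤ K3 * M * Real.log (n : ℝ) ^ 2 := by
    have : K3 * 1 * Real.log (n : ℝ) ^ 2 ≤ K3 * M * Real.log (n : ℝ) ^ 2 := by gcongr
    linarith
  obtain ⟨hln0, hln1⟩ := hln n hn
  rw [abs_le] at hln1
  have e0 : ((2 * n : ℕ) : ℝ) = 2 * n := by push_cast; ring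
  rw [e0] at hln1
  rw [par_ceil, Pool.Agent.Y981.L2.par_nat]
  have hA1 : r ≤ (⌈r⌉₊ : ℕ) := Nat.le_ceil r
  have hA2 : ((⌈r⌉₊ : ℕ) : ℝ) < r + 1 := Nat.ceil_lt_add_one hr
  obtain ⟨A, hA⟩ : ∃ A, A = ⌈r⌉₊ := ⟨_, rfl⟩
  rw [← hA] at hA1 hA2 ⊢
  have z1 : 0 ≤ K1 * M * Real.log (n : ℝ) ^ 2 := by positivity
  have z2 : 0 ≤ K2 * M * Real.log (n : ℝ) ^ 2 := by positivity
  have hCM : C / (M : ℝ) ≤ (C + 4) / M := by gcongr; linarith
  constructor
  · rcases Nat.eq_zero_or_pos (an n A) with h0 | h0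
    · rw [h0]
      simp only [Nat.cast_zero, zero_div]
      exact ⟨(Real.exp_pos _).le, fun h => absurd h (lt_irrefl _)⟩
    · have hpos : (0 : ℝ) < an n A := by exact_mod_cast h0
      obtain ⟨g0, g1⟩ := hup n hn M hM (by omega) A h0
      have hdiv : r / (n : ℝ) ^ 2 ≤ (A : ℝ) / n ^ 2 := by gcongr
      have hmono : J Rate (r / (n : ℝ) ^ 2 - (C + 4) / M) ≤ J Rate ((A : ℝ) / n ^ 2 - C / M) :=
        J_mono rateFn (by linarith) g0
      have := mul_le_mul_of_nonneg_left hmono (show (0 : ℝ) ≤ 2 * n by positivity)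
      refine ⟨?_, fun _ => by linarith⟩
      rw [← Real.exp_log (div_pos hpos hln0), Real.exp_le_exp, Real.log_div hpos.ne' hln0.ne']
      linarith [hln1.1]
  · intro hr4
    have h1 : (A : ℝ) / n ^ 2 + 8 * M / n + 3 / M ≤ r / n ^ 2 + (C + 4) / M := by
      have e1 : (A : ℝ) / n ^ 2 ≤ r / n ^ 2 + 1 / n ^ 2 := by
        rw [← add_div]
        gcongr
      have e2 : 1 / (n : ℝ) ^ 2 ≤ 1 / (2 * M) := by
        apply one_div_le_one_div_of_le (by positivity)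
        have q1 : (M : ℝ) ≤ M ^ 2 := by nlinarith
        have q2 : (1 : ℝ) ≤ n := by linarith
        have q3 : (n : ℝ) ≤ n ^ 2 := by nlinarith
        linarith
      have e3 : 8 * (M : ℝ) / n ≤ 1 / (2 * M) := by
        rw [div_le_div_iff₀ hn0 (by positivity)]
        nlinarith
      have e4 : (C + 4) / (M : ℝ) = C / M + 1 / (2 * M) + 1 / (2 * M) + 3 / M := by
        field_simp
        ring
      have e5 : 0 ≤ C / (M : ℝ) := by positivity
      linarith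
    obtain ⟨g1, g2⟩ := hlow n hn M hM (by omega) A (h1.trans hr4)
    have hpos : (0 : ℝ) < an n A := by exact_mod_cast g1
    have hmono := J_mono rateFn h1 hr4
    have := mul_le_mul_of_nonneg_left hmono (show (0 : ℝ) ≤ 2 * n by positivity)
    rw [← Real.exp_log (div_pos hpos hln0), Real.exp_le_exp, Real.log_div hpos.ne' hln0.ne']
    linarith [hln1.2]

theorem par_unif : ∃ K C : ℝ, 0 ≤ K ∧ 0 ≤ C ∧ ∀ n : ℕ, 2 ≤ n → ∀ M : ℕ, 1 ≤ M → 16 * M ^ 2 ≤ n →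
    ∀ r : ℝ, 0 ≤ r → par n r ≤ Real.exp (-(2 * n * J Rate (r / n ^ 2 - C / M) -
        K * M * Real.log n ^ 2)) ∧
      (r / n ^ 2 + C / M ≤ 1 / 4 → Real.exp (-(2 * n * J Rate (r / n ^ 2 + C / M) +
        K * M * Real.log n ^ 2)) ≤ par n r) := by
  obtain ⟨K, C, hK, hC, h⟩ := par_unif3
  exact ⟨K, C, hK, hC, fun n hn M hM hMn r hr =>
    ⟨(h n hn M hM hMn r hr).1.1, (h n hn M hM hMn r hr).2⟩⟩

theorem log_sq_div : Tendsto (fun n : ℕ => Real.log n ^ 2 / (n : ℝ)) atTop (𝓝 0) := by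
  have h1 := (isLittleO_log_rpow_rpow_atTop 2 (show (0 : ℝ) < 1 by norm_num)).tendsto_div_nhds_zero
  have h2 := h1.comp (tendsto_natCast_atTop_atTop (R := ℝ))
  refine h2.congr' ?_
  filter_upwards with n
  simp only [Function.comp_apply, Real.rpow_one]
  norm_cast

theorem main_tendsto {a : ℝ} (h0 : 0 < a) (h1 : a < 1 / 4) :
    Tendsto (fun n : ℕ => -Real.log (par n (a * (n : ℝ) ^ 2)) / (2 * n)) atTop
      (𝓝 (J Rate a)) := by
  obtain ⟨K, C, hK, hC, h⟩ := par_unif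
  rw [Metric.tendsto_atTop']
  intro ε hε
  obtain ⟨δ, hδ, hδ1, hJ⟩ := J_cont rateFn h0 h1 (ε := ε / 4) (by linarith)
  obtain ⟨M, hM⟩ := exists_nat_gt (C / δ + 1)
  have hM1 : 1 ≤ M := by
    have : (1 : ℝ) < M := by
      have : 0 ≤ C / δ := by positivity
      linarith
    exact_mod_cast this.le
  have hM0 : (0 : ℝ) < M := by exact_mod_cast hM1
  have hCM : C / M ≤ δ := by
    rw [div_le_iff₀ hM0]
    have h2 : C / δ < M := by linarith
    rw [div_lt_iff₀ hδ] at h2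
    linarith
  have hlog : Tendsto (fun n : ℕ => (K * M / 2) * (Real.log n ^ 2 / (n : ℝ))) atTop (𝓝 0) := by
    simpa using log_sq_div.const_mul (K * M / 2)
  obtain ⟨N0, hN0⟩ := eventually_atTop.1
    (hlog.eventually (gt_mem_nhds (show (0 : ℝ) < ε / 4 by linarith)))
  refine ⟨max N0 (16 * M ^ 2), ?_⟩
  intro n hn
  have hn1 : N0 ≤ n := (le_max_left _ _).trans hn.le
  have hn2 : 16 * M ^ 2 ≤ n := (le_max_right _ _).trans hn.le
  have hM2 : 1 ≤ M ^ 2 := Nat.one_le_pow _ _ hM1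
  have hn3 : 2 ≤ n := by omega
  have hnr : (0 : ℝ) < n := by exact_mod_cast (by omega : 0 < n)
  obtain ⟨g1, g2⟩ := h n hn3 M hM1 hn2 (a * (n : ℝ) ^ 2) (by positivity)
  have e1 : a * (n : ℝ) ^ 2 / n ^ 2 = a := by field_simp
  rw [e1] at g1 g2
  have g3 := g2 (by linarith)
  have hpos : 0 < par n (a * (n : ℝ) ^ 2) := lt_of_lt_of_le (Real.exp_pos _) g3
  have g4 := Real.log_le_log hpos g1
  have g5 := Real.log_le_log (Real.exp_pos _) g3
  rw [Real.log_exp] at g4 g5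
  have herr := hN0 n hn1
  have herr2 : K * M * Real.log (n : ℝ) ^ 2 ≤ (ε / 4) * (2 * n) := by
    have e2 : (K * M / 2) * (Real.log (n : ℝ) ^ 2 / n) = K * M * Real.log (n : ℝ) ^ 2 / (2 * n) := by
      field_simp
    rw [e2, div_lt_iff₀ (by positivity)] at herr
    exact herr.le
  have j1 : J Rate (a - δ) ≤ J Rate (a - C / M) := J_mono rateFn (by linarith) (by
    have : 0 ≤ C / (M : ℝ) := by positivity
    linarith)
  have j2 : J Rate (a + C / M) ≤ J Rate (a + δ) := J_mono rateFn (by linarith) hδ1.le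
  have j3 : J Rate a ≤ J Rate (a + δ) := J_mono rateFn (by linarith) hδ1.le
  have j4 : J Rate (a - δ) ≤ J Rate a := J_mono rateFn (by linarith) h1.le
  rw [Real.dist_eq, abs_lt]
  constructor
  · rw [lt_sub_iff_add_lt, lt_div_iff₀ (by positivity)]
    have : (-ε + J Rate a) * (2 * n) < (J Rate (a - C / M) - ε / 4) * (2 * n) := by
      apply mul_lt_mul_of_pos_right _ (by positivity)
      linarith
    linarith
  · rw [sub_lt_iff_lt_add, div_lt_iff₀ (by positivity)]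
    have : (J Rate (a + C / M) + ε / 4) * (2 * n) < (ε + J Rate a) * (2 * n) := by
      apply mul_lt_mul_of_pos_right _ (by positivity)
      linarith
    linarith

/-- closed polygons -/
def ccosts (I : ℝ × ℝ → ℝ) (a : ℝ) : Set ℝ :=
  {c | ∃ (m : ℕ) (t : Fin m → ℝ) (v : Fin m → ℝ × ℝ), (∀ i, 0 ≤ t i) ∧ ∑ i, t i = 1 ∧
    (∀ i, |(v i).1| + |(v i).2| ≤ 1) ∧ ∑ i, t i * (v i).1 = 0 ∧ ∑ i, t i * (v i).2 = 0 ∧
    a ≤ 2 * ∑ j, ∑ i ∈ univ.filter (· < j),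
      t i * t j * ((v i).1 * (v j).2 - (v j).1 * (v i).2) ∧ c = ∑ i, t i * I (v i)}

theorem ccosts_eq {I : ℝ × ℝ → ℝ} {κ : ℝ} (hI : RateFn I κ) (a : ℝ) : ccosts I a = costs I a := by
  apply Set.Subset.antisymm
  · rintro c ⟨m, t, v, ht, h1, hv, hx, hy, ha, hc⟩
    refine ⟨m, t, v, ht, h1, hv, ha.trans ?_, hc⟩
    have h := closed_le (fun i => (t i * (v i).1, t i * (v i).2)) hx hy
    simp only at h
    have e1 : ∑ j, ∑ i ∈ univ.filter (· < j), (t i * (v i).1 * (t j * (v j).2) -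
        t j * (v j).1 * (t i * (v i).2)) = ∑ j, ∑ i ∈ univ.filter (· < j),
        t i * t j * ((v i).1 * (v j).2 - (v j).1 * (v i).2) := by
      refine Finset.sum_congr rfl fun j _ => Finset.sum_congr rfl fun i _ => ?_
      ring
    have e2 : ∑ i, ∑ j, max (|t i * (v i).1| * |t j * (v j).2|) (|t j * (v j).1| * |t i * (v i).2|) =
        ∑ i, ∑ j, t i * t j * max (|(v i).1| * |(v j).2|) (|(v j).1| * |(v i).2|) := by
      refine Finset.sum_congr rfl fun i _ => Finset.sum_congr rfl fun j _ => ?_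
      rw [mul_max_of_nonneg _ _ (mul_nonneg (ht i) (ht j))]
      rw [abs_mul, abs_mul, abs_mul, abs_mul, abs_of_nonneg (ht i), abs_of_nonneg (ht j)]
      congr 1 <;> ring
    rw [e1, e2] at h
    unfold Mf
    linarith
  · rintro c ⟨m, t, v, ht, h1, hv, ha, hc⟩
    obtain ⟨m', t', v', ht', h1', hv', hx, hy, hg, hM⟩ := closed_of_family t v ht
    refine ⟨m', t', v', ht', by rw [h1', h1], ?_, hx, hy, ha.trans hM, ?_⟩
    · intro i
      obtain ⟨j, e1, e2⟩ := hv' i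
      rw [e1, e2]
      exact hv j
    · have h2 := hg (fun v => I (|v.1|, |v.2|)) (fun v => by simp only [abs_abs])
      have h3 : ∑ i, t' i * I (v' i) = ∑ i, t' i * I (|(v' i).1|, |(v' i).2|) := by
        refine Finset.sum_congr rfl fun i _ => ?_
        obtain ⟨j, e1, e2⟩ := hv' i
        rw [hI.abs (v' i) (by rw [e1, e2]; exact hv j)]
      have h4 : ∑ i, t i * I (v i) = ∑ i, t i * I (|(v i).1|, |(v i).2|) := by
        refine Finset.sum_congr rfl fun i _ => ?_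
        rw [hI.abs (v i) (hv i)]
      rw [hc, h4, h3]
      exact h2.symm

end Pool.Agent.K6.H23.WA
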