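import Pool.Agent.K6.H23.WA.MainT
set_option autoImplicit false
namespace Pool.Agent.K6.H23.WA
open Pool.Agent.TH795.EP Pool.Agent.TH795.EP2 Pool.Agent.TH795.SE2 Pool.Agent.TH262.SawL H981 Finset
open Pool.Agent.Y981.L2 (Rate an ln par)
open Filter Topology

theorem J_pert {I : ℝ × ℝ → ℝ} {s L : ℝ}
    (h : Tendsto (fun a : ℝ => J I a / a ^ s) (𝓝[>] 0) (𝓝 L)) {a u : ℕ → ℝ}
    (ha : ∀ᶠ n in atTop, 0 < a n) (ha0 : Tendsto a atTop (𝓝 0)) (hu : Tendsto u atTop (𝓝 0)) :
    Tendsto (fun n => J I (a n * (1 + u n)) / (a n) ^ s) atTop (𝓝 L) := by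
  have hu1 : Tendsto (fun n => 1 + u n) atTop (𝓝 1) := by simpa using hu.const_add 1
  have hb0 : Tendsto (fun n => a n * (1 + u n)) atTop (𝓝 0) := by simpa using ha0.mul hu1
  have hup : ∀ᶠ n in atTop, 0 < 1 + u n := hu1.eventually (lt_mem_nhds one_pos)
  have hb : Tendsto (fun n => a n * (1 + u n)) atTop (𝓝[>] 0) := by
    rw [tendsto_nhdsWithin_iff]
    refine ⟨hb0, ?_⟩
    filter_upwards [ha, hup] with n h1 h2
    exact mul_pos h1 h2
  have h2 := h.comp hb
  have h3 : Tendsto (fun n => (1 + u n) ^ s) atTop (𝓝 1) := by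
    have := hu1.rpow_const (p := s) (Or.inl one_ne_zero)
    simpa using this
  have h4 := h2.mul h3
  rw [mul_one] at h4
  refine h4.congr' ?_
  filter_upwards [ha, hup] with n g1 g2
  simp only [Function.comp_apply]
  rw [Real.mul_rpow g1.le g2.le]
  have p1 : 0 < (a n) ^ s := Real.rpow_pos_of_pos g1 _
  have p2 : 0 < (1 + u n) ^ s := Real.rpow_pos_of_pos g2 _
  field_simp

theorem main_moderate {θ κ' : ℝ} (hθ : 2 ≤ θ) (hκ : 0 < κ')
    (hrad : Tendsto (fun v : ℝ × ℝ => Rate v / (√(v.1 ^ 2 + v.2 ^ 2)) ^ θ) (𝓝[≠] 0) (𝓝 κ'))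
    {r : ℕ → ℝ} (h0 : Tendsto (fun n : ℕ => r n / (n : ℝ) ^ 2) atTop (𝓝 0))
    (hr : ∀ᶠ n in atTop, 0 < r n)
    (h1 : Tendsto (fun n : ℕ => (r n / (n : ℝ) ^ 2) ^ (1 + θ / 2) * n / Real.log n ^ 2)
      atTop atTop) :
    Tendsto (fun n : ℕ => -Real.log (par n (r n)) / (2 * n * (r n / (n : ℝ) ^ 2) ^ (θ / 2))) atTop
      (𝓝 (κ' * Real.pi ^ (θ / 2))) := by
  obtain ⟨K, C, hK, hC, h⟩ := par_unif
  have hJ := J_radial rateFn (by linarith : (1 : ℝ) ≤ θ) hκ hrad
  set a : ℕ → ℝ := fun n => r n / (n : ℝ) ^ 2 with ha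
  set x : ℕ → ℝ := fun n => (a n) ^ (1 + θ / 2) * n / Real.log n ^ 2 with hx
  set M : ℕ → ℕ := fun n => ⌈√(x n) / a n⌉₊ with hM
  have hsx : Tendsto (fun n => √(x n)) atTop atTop := Real.tendsto_sqrt_atTop.comp h1
  have hapos : ∀ᶠ n in atTop, 0 < a n := by
    filter_upwards [hr, eventually_ge_atTop 1] with n g1 g2
    have : (0 : ℝ) < n := by exact_mod_cast g2
    rw [ha]
    positivity
  have hinv : Tendsto (fun n => K / √(x n)) atTop (𝓝 0) := hsx.const_div_atTop K
  have hinv2 : Tendsto (fun n => C / √(x n)) atTop (𝓝 0) := hsx.const_div_atTop C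
  -- the relative error
  have hu : Tendsto (fun n => C / M n / a n) atTop (𝓝 0) := by
    refine squeeze_zero' ?_ ?_ hinv2
    · filter_upwards [hapos] with n g1
      positivity
    · filter_upwards [hapos, hsx.eventually_gt_atTop 0] with n g1 g2
      have hM1 : √(x n) / a n ≤ M n := Nat.le_ceil _
      have hM2 : (0 : ℝ) < M n := lt_of_lt_of_le (by positivity) hM1
      rw [div_div, div_le_div_iff₀ (by positivity) g2]
      rw [div_le_iff₀ g1] at hM1
      exact mul_le_mul_of_nonneg_left hM1 hC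
  have hJ1 := J_pert hJ hapos h0 hu
  have hJ2 := J_pert hJ hapos h0 (u := fun n => -(C / M n / a n)) (by simpa using hu.neg)
  have hbnd : Tendsto (fun n => a n * (1 + C / M n / a n)) atTop (𝓝 0) := by
    have h3 : Tendsto (fun n => 1 + C / M n / a n) atTop (𝓝 1) := by simpa using hu.const_add 1
    simpa using h0.mul h3
  have hlogt : Tendsto (fun n : ℕ => Real.log (n : ℝ)) atTop atTop :=
    Real.tendsto_log_atTop.comp tendsto_natCast_atTop_atTop
  have hall : ∀ᶠ n : ℕ in atTop,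
      J Rate (a n * (1 + -(C / M n / a n))) / (a n) ^ (θ / 2) - K / √(x n) ≤
        -Real.log (par n (r n)) / (2 * n * (a n) ^ (θ / 2)) ∧
      -Real.log (par n (r n)) / (2 * n * (a n) ^ (θ / 2)) ≤
        J Rate (a n * (1 + C / M n / a n)) / (a n) ^ (θ / 2) + K / √(x n) := by
    filter_upwards [hapos, hsx.eventually_ge_atTop 1, eventually_ge_atTop 2,
      hlogt.eventually_ge_atTop 8, h0.eventually (gt_mem_nhds (show (0 : ℝ) < 1 by norm_num)),
      hbnd.eventually (gt_mem_nhds (show (0 : ℝ) < 1 / 4 by norm_num)), hr] with n g1 g2 g3 g4 g5 g6 g7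
    have hn0 : (0 : ℝ) < n := by exact_mod_cast (by omega : 0 < n)
    have hl0 : (0 : ℝ) < Real.log n := by linarith
    have hp : 0 < (a n) ^ (θ / 2) := Real.rpow_pos_of_pos g1 _
    have hp1 : 0 < (a n) ^ (1 + θ / 2) := Real.rpow_pos_of_pos g1 _
    have hxp : 0 < x n := by rw [hx]; positivity
    have hsx0 : 0 < √(x n) := by linarith
    have hss : √(x n) * √(x n) = x n := Real.mul_self_sqrt hxp.le
    have hM1 : √(x n) / a n ≤ M n := Nat.le_ceil _
    have hM2 : (M n : ℝ) < √(x n) / a n + 1 := Nat.ceil_lt_add_one (by positivity)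
    have hone : 1 ≤ √(x n) / a n := by
      rw [le_div_iff₀ g1]
      linarith
    have hM3 : (M n : ℝ) ≤ 2 * (√(x n) / a n) := by linarith
    have hM4 : 1 ≤ M n := by
      have : (1 : ℝ) ≤ M n := hone.trans hM1
      exact_mod_cast this
    have hM0 : (0 : ℝ) < M n := by exact_mod_cast hM4
    have hx2 : x n ≤ (a n) ^ 2 * n / Real.log n ^ 2 := by
      have h3 : (a n) ^ (1 + θ / 2) ≤ (a n) ^ 2 := by
        have := Real.rpow_le_rpow_of_exponent_ge g1 g5.le (show (2 : ℝ) ≤ 1 + θ / 2 by linarith)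
        rwa [Real.rpow_two] at this
      show (a n) ^ (1 + θ / 2) * n / Real.log n ^ 2 ≤ (a n) ^ 2 * n / Real.log n ^ 2
      gcongr
    have hM5 : 16 * (M n) ^ 2 ≤ n := by
      have h3 : (16 : ℝ) * (M n : ℝ) ^ 2 ≤ n := by
        calc (16 : ℝ) * (M n : ℝ) ^ 2 ≤ 16 * (2 * (√(x n) / a n)) ^ 2 := by gcongr
          _ = 64 * (√(x n) * √(x n) / (a n) ^ 2) := by
              field_simp
              ring
          _ = 64 * (x n / (a n) ^ 2) := by rw [hss]
          _ ≤ 64 * ((a n) ^ 2 * n / Real.log n ^ 2 / (a n) ^ 2) := by gcongr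
          _ = n * (64 / Real.log n ^ 2) := by field_simp
          _ ≤ n * 1 := by
              gcongr
              rw [div_le_one (by positivity)]
              nlinarith
          _ = n := mul_one _
      exact_mod_cast h3
    obtain ⟨b1, b2⟩ := h n g3 (M n) hM4 hM5 (r n) g7.le
    have e1 : a n * (1 + C / M n / a n) = r n / (n : ℝ) ^ 2 + C / M n := by
      show a n * (1 + C / M n / a n) = a n + C / M n
      field_simp
    have e2 : a n * (1 + -(C / M n / a n)) = r n / (n : ℝ) ^ 2 - C / M n := by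
      show a n * (1 + -(C / M n / a n)) = a n - C / M n
      field_simp
      ring
    have b3 := b2 (by rw [← e1]; exact g6.le)
    have hpos : 0 < par n (r n) := lt_of_lt_of_le (Real.exp_pos _) b3
    have c1 := Real.log_le_log hpos b1
    have c2 := Real.log_le_log (Real.exp_pos _) b3
    rw [Real.log_exp] at c1 c2
    have herr : K * M n * Real.log (n : ℝ) ^ 2 ≤ K / √(x n) * (2 * n * (a n) ^ (θ / 2)) := by
      have e3 : (a n) ^ (1 + θ / 2) = a n * (a n) ^ (θ / 2) := by
        rw [Real.rpow_add g1, Real.rpow_one]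
      have e4 : x n * Real.log n ^ 2 = a n * (a n) ^ (θ / 2) * n := by
        rw [← e3]
        show (a n) ^ (1 + θ / 2) * n / Real.log n ^ 2 * Real.log n ^ 2 = _
        field_simp
      calc K * M n * Real.log (n : ℝ) ^ 2 ≤ K * (2 * (√(x n) / a n)) * Real.log (n : ℝ) ^ 2 := by
            gcongr
        _ = K / √(x n) * (2 * (√(x n) * √(x n)) * Real.log (n : ℝ) ^ 2 / a n) := by
            field_simp
        _ = K / √(x n) * (2 * (x n * Real.log (n : ℝ) ^ 2) / a n) := by rw [hss]; ring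
        _ = K / √(x n) * (2 * n * (a n) ^ (θ / 2)) := by
            rw [e4]
            field_simp
    rw [e1, e2]
    have hD : 0 < 2 * (n : ℝ) * (a n) ^ (θ / 2) := by positivity
    constructor
    · rw [le_div_iff₀ hD, sub_mul]
      have e5 : J Rate (r n / (n : ℝ) ^ 2 - C / M n) / (a n) ^ (θ / 2) *
          (2 * n * (a n) ^ (θ / 2)) = 2 * n * J Rate (r n / (n : ℝ) ^ 2 - C / M n) := by
        field_simp
      rw [e5]
      linarith
    · rw [div_le_iff₀ hD, add_mul]
      have e5 : J Rate (r n / (n : ℝ) ^ 2 + C / M n) / (a n) ^ (θ / 2) *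
          (2 * n * (a n) ^ (θ / 2)) = 2 * n * J Rate (r n / (n : ℝ) ^ 2 + C / M n) := by
        field_simp
      rw [e5]
      linarith
  refine tendsto_of_tendsto_of_tendsto_of_le_of_le' (by simpa using hJ2.sub hinv)
    (by simpa using hJ1.add hinv) (hall.mono fun n h => h.1) (hall.mono fun n h => h.2)

end Pool.Agent.K6.H23.WA
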