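import Pool.Agent.K6.H23.WA.Defs

/-!
# The isoperimetric inequality for the area functional (Erhard Schmidt's proof)
-/

set_option autoImplicit false

namespace Pool.Agent.K6.H23.WA

open Finset

/-- the area of a quarter of a disc -/
lemma quarter_disc {D : ℝ} (hD : 0 ≤ D) : ∫ x in (0:ℝ)..D, √(D ^ 2 - x ^ 2) = Real.pi * D ^ 2 / 4 := by
  rcases eq_or_lt_of_le hD with h0 | h0
  · subst h0; simp
  have h1 : ∫ x in (-1:ℝ)..1, √(1 - x ^ 2) = Real.pi / 2 := integral_sqrt_one_sub_sq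
  have hc : ∀ a b : ℝ, IntervalIntegrable (fun x : ℝ => √(1 - x ^ 2)) MeasureTheory.volume a b :=
    fun a b => (by fun_prop : Continuous fun x : ℝ => √(1 - x ^ 2)).intervalIntegrable a b
  have h2 : ∫ x in (-1:ℝ)..0, √(1 - x ^ 2) = ∫ x in (0:ℝ)..1, √(1 - x ^ 2) := by
    have := intervalIntegral.integral_comp_neg (a := (0:ℝ)) (b := 1) (fun x : ℝ => √(1 - x ^ 2))
    simp only [neg_zero, even_two, Even.neg_pow] at this
    rw [← this]
  have h3 : ∫ x in (0:ℝ)..1, √(1 - x ^ 2) = Real.pi / 4 := by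
    have := intervalIntegral.integral_add_adjacent_intervals (hc (-1) 0) (hc 0 1)
    rw [h1, h2] at this
    linarith
  have h4 : ∀ x : ℝ, √(D ^ 2 - x ^ 2) = D * √(1 - (x / D) ^ 2) := by
    intro x
    rw [show D ^ 2 - x ^ 2 = D ^ 2 * (1 - (x / D) ^ 2) by field_simp, Real.sqrt_mul (sq_nonneg D),
      Real.sqrt_sq h0.le]
  simp_rw [h4]
  rw [intervalIntegral.integral_const_mul]
  have h5 := intervalIntegral.integral_comp_div (a := (0:ℝ)) (b := D) (fun x : ℝ => √(1 - x ^ 2))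
    h0.ne'
  rw [h5, zero_div, div_self h0.ne', h3, smul_eq_mul]
  ring

/-- one edge -/
lemma edge {D x p q : ℝ} (hx : 0 ≤ x) (hp : 0 ≤ p) (hxp : x + p ≤ D) (hD : 0 ≤ D) :
    q * (x + p / 2) + ∫ y in x..(x + p), √(D ^ 2 - y ^ 2) ≤ D * √(p ^ 2 + q ^ 2) := by
  have hcont : Continuous fun s : ℝ => √(D ^ 2 - (x + p * s) ^ 2) := by fun_prop
  have h1 : ∫ y in x..(x + p), √(D ^ 2 - y ^ 2) = ∫ s in (0:ℝ)..1, p * √(D ^ 2 - (x + p * s) ^ 2) := by
    rw [intervalIntegral.integral_const_mul]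
    have := intervalIntegral.mul_integral_comp_add_mul (a := (0:ℝ)) (b := 1)
      (f := fun y : ℝ => √(D ^ 2 - y ^ 2)) p x
    rw [this]
    simp
  have h2 : q * (x + p / 2) = ∫ s in (0:ℝ)..1, q * (x + p * s) := by
    rw [intervalIntegral.integral_const_mul, intervalIntegral.integral_add (by simp)
      ((by fun_prop : Continuous fun s : ℝ => p * s).intervalIntegrable _ _),
      intervalIntegral.integral_const_mul, integral_id]
    simp
    left
    ring
  rw [h1, h2, ← intervalIntegral.integral_add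
    ((by fun_prop : Continuous fun s : ℝ => q * (x + p * s)).intervalIntegrable _ _)
    ((by fun_prop : Continuous fun s : ℝ => p * √(D ^ 2 - (x + p * s) ^ 2)).intervalIntegrable _ _)]
  have h3 : ∫ s in (0:ℝ)..1, (q * (x + p * s) + p * √(D ^ 2 - (x + p * s) ^ 2)) ≤
      ∫ _s in (0:ℝ)..1, D * √(p ^ 2 + q ^ 2) := by
    apply intervalIntegral.integral_mono_on (by norm_num)
    · exact (by fun_prop : Continuous fun s : ℝ =>
        q * (x + p * s) + p * √(D ^ 2 - (x + p * s) ^ 2)).intervalIntegrable _ _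
    · simp
    · intro s hs
      set X := x + p * s with hX
      have hX0 : 0 ≤ X := add_nonneg hx (mul_nonneg hp hs.1)
      have hXD : X ≤ D := by
        have : p * s ≤ p * 1 := mul_le_mul_of_nonneg_left hs.2 hp
        linarith
      have hY : 0 ≤ D ^ 2 - X ^ 2 := by nlinarith
      have hs1 := Real.sq_sqrt hY
      rw [show D * √(p ^ 2 + q ^ 2) = √(D ^ 2 * (p ^ 2 + q ^ 2)) by
        rw [Real.sqrt_mul (sq_nonneg D), Real.sqrt_sq hD]]
      apply Real.le_sqrt_of_sq_le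
      nlinarith [sq_nonneg (q * √(D ^ 2 - X ^ 2) - p * X)]
  simpa using h3

/-- Schmidt's inequality for a polygonal chain. -/
lemma schmidt (m : ℕ) (p q : ℕ → ℝ) (hp : ∀ i, 0 ≤ p i) (hq : ∀ i, 0 ≤ q i) :
    ∑ k ∈ range m, q k * (∑ i ∈ range k, p i + p k / 2) ≤
      (∑ k ∈ range m, √(p k ^ 2 + q k ^ 2)) ^ 2 / Real.pi := by
  set D := ∑ k ∈ range m, p k with hD
  set W := ∑ k ∈ range m, √(p k ^ 2 + q k ^ 2) with hW
  set A := ∑ k ∈ range m, q k * (∑ i ∈ range k, p i + p k / 2) with hA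
  have hD0 : 0 ≤ D := sum_nonneg fun i _ => hp i
  have hA0 : 0 ≤ A := sum_nonneg fun i _ => mul_nonneg (hq i)
    (add_nonneg (sum_nonneg fun j _ => hp j) (by have := hp i; linarith))
  have hpre : ∀ k ∈ range m, ∑ i ∈ range k, p i + p k ≤ D := by
    intro k hk
    rw [← sum_range_succ, hD]
    exact sum_le_sum_of_subset_of_nonneg (range_subset_range.2 (by simpa using hk))
      (fun i _ _ => hp i)
  have hcont : ∀ a b : ℝ, IntervalIntegrable (fun x : ℝ => √(D ^ 2 - x ^ 2)) MeasureTheory.volume a b :=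
    fun a b => (by fun_prop : Continuous fun x : ℝ => √(D ^ 2 - x ^ 2)).intervalIntegrable a b
  have hsum : ∑ k ∈ range m, ∫ y in (∑ i ∈ range k, p i)..(∑ i ∈ range k, p i + p k),
      √(D ^ 2 - y ^ 2) = Real.pi * D ^ 2 / 4 := by
    have := intervalIntegral.sum_integral_adjacent_intervals (a := fun k => ∑ i ∈ range k, p i)
      (n := m) (f := fun x : ℝ => √(D ^ 2 - x ^ 2)) (μ := MeasureTheory.volume)
      (fun k _ => hcont _ _)
    rw [← quarter_disc hD0]
    simp only [sum_range_zero, ← hD] at this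
    rw [← this]
    exact sum_congr rfl fun k _ => by rw [sum_range_succ]
  have hmain : A + Real.pi * D ^ 2 / 4 ≤ D * W := by
    rw [← hsum, hA, ← sum_add_distrib, hW, mul_sum]
    exact sum_le_sum fun k hk => edge (sum_nonneg fun i _ => hp i) (hp k) (hpre k hk) hD0
  have hpi := Real.pi_pos
  rw [le_div_iff₀ hpi]
  rcases eq_or_lt_of_le hD0 with h0 | h0
  · have : A ≤ 0 := by rw [← h0] at hmain; simpa using hmain
    have hA1 : A = 0 := le_antisymm this hA0
    rw [hA1, zero_mul]; positivity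
  · have h1 : D ^ 2 * (A * Real.pi) ≤ D ^ 2 * W ^ 2 := by
      have h2 : 0 ≤ A + Real.pi * D ^ 2 / 4 := by positivity
      have h3 : (A + Real.pi * D ^ 2 / 4) ^ 2 ≤ (D * W) ^ 2 := pow_le_pow_left₀ h2 hmain 2
      nlinarith [sq_nonneg (A - Real.pi * D ^ 2 / 4)]
    exact le_of_mul_le_mul_left h1 (by positivity)

/-- the comparison of slopes by the arguments -/
lemma cross_of_arg {x y x' y' : ℝ} (hy : 0 ≤ y)
    (h : Complex.arg ⟨x, y⟩ ≤ Complex.arg ⟨x', y'⟩) :
    x' * y ≤ x * y' := by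
  set z : ℂ := ⟨x, y⟩ with hz
  set z' : ℂ := ⟨x', y'⟩ with hz'
  have f1 : x = ‖z‖ * Real.cos z.arg := (Complex.norm_mul_cos_arg z).symm
  have f2 : y = ‖z‖ * Real.sin z.arg := (Complex.norm_mul_sin_arg z).symm
  have f3 : x' = ‖z'‖ * Real.cos z'.arg := (Complex.norm_mul_cos_arg z').symm
  have f4 : y' = ‖z'‖ * Real.sin z'.arg := (Complex.norm_mul_sin_arg z').symm
  have hs : 0 ≤ Real.sin (z'.arg - z.arg) := by
    apply Real.sin_nonneg_of_nonneg_of_le_pi (by linarith)
    have h1 : 0 ≤ z.arg := Complex.arg_nonneg_iff.2 hy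
    have h2 : z'.arg ≤ Real.pi := Complex.arg_le_pi z'
    linarith
  have key : x * y' - x' * y = ‖z‖ * ‖z'‖ * Real.sin (z'.arg - z.arg) := by
    rw [Real.sin_sub]
    calc x * y' - x' * y = (‖z‖ * Real.cos z.arg) * (‖z'‖ * Real.sin z'.arg) -
          (‖z'‖ * Real.cos z'.arg) * (‖z‖ * Real.sin z.arg) := by rw [← f1, ← f2, ← f3, ← f4]
      _ = _ := by ring
  have : 0 ≤ x * y' - x' * y := by rw [key]; positivity
  linarith

/-- a symmetric double sum -/
lemma sum_sym (S : ℕ → ℕ → ℝ) (hS : ∀ i j, S i j = S j i) (m : ℕ) :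
    ∑ i ∈ range m, ∑ j ∈ range m, S i j =
      ∑ j ∈ range m, (2 * ∑ i ∈ range j, S i j + S j j) := by
  induction m with
  | zero => simp
  | succ m ih =>
    rw [sum_range_succ, sum_range_succ (fun j => 2 * ∑ i ∈ range j, S i j + S j j), ← ih]
    simp_rw [sum_range_succ (fun j => S _ j) m]
    rw [sum_add_distrib]
    have : ∑ x ∈ range m, S m x = ∑ x ∈ range m, S x m := sum_congr rfl fun j _ => hS m j
    rw [this]
    ring

/-- PIECE F -/
theorem isoperimetric {m : ℕ} (t : Fin m → ℝ) (v : Fin m → ℝ × ℝ) (ht : ∀ i, 0 ≤ t i) :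
    Mf t v ≤ (∑ i, t i * √((v i).1 ^ 2 + (v i).2 ^ 2)) ^ 2 / Real.pi := by
  set κ : Fin m → ℝ := fun i => Complex.arg ⟨|(v i).1|, |(v i).2|⟩ with hκ
  set σ := Tuple.sort κ with hσ
  have hmono : Monotone (κ ∘ σ) := Tuple.monotone_sort κ
  set T : ℕ → ℝ := fun k => if h : k < m then t (σ ⟨k, h⟩) else 0 with hT
  set X : ℕ → ℝ := fun k => if h : k < m then |(v (σ ⟨k, h⟩)).1| else 0 with hX
  set Y : ℕ → ℝ := fun k => if h : k < m then |(v (σ ⟨k, h⟩)).2| else 0 with hY
  have eT : ∀ i : Fin m, T i = t (σ i) := fun i => by simp [hT]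
  have eX : ∀ i : Fin m, X i = |(v (σ i)).1| := fun i => by simp [hX]
  have eY : ∀ i : Fin m, Y i = |(v (σ i)).2| := fun i => by simp [hY]
  have T0 : ∀ k, 0 ≤ T k := by
    intro k
    simp only [hT]
    split_ifs
    · exact ht _
    · exact le_rfl
  have X0 : ∀ k, 0 ≤ X k := by
    intro k
    simp only [hX]
    split_ifs
    · exact abs_nonneg _
    · exact le_rfl
  have Y0 : ∀ k, 0 ≤ Y k := by
    intro k
    simp only [hY]
    split_ifs
    · exact abs_nonneg _
    · exact le_rfl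
  have hcross : ∀ i j, i ≤ j → j < m → X j * Y i ≤ X i * Y j := by
    intro i j hij hj
    have h1 : κ (σ ⟨i, hij.trans_lt hj⟩) ≤ κ (σ ⟨j, hj⟩) := hmono (by simpa using hij)
    have := cross_of_arg (abs_nonneg _) h1
    simpa only [hX, hY, dif_pos hj, dif_pos (hij.trans_lt hj)] using this
  have h1 : Mf t v = (1 / 2) * ∑ i ∈ range m, ∑ j ∈ range m,
      T i * T j * max (X i * Y j) (X j * Y i) := by
    unfold Mf
    congr 1
    rw [← Equiv.sum_comp σ, ← Fin.sum_univ_eq_sum_range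
      (fun i => ∑ j ∈ range m, T i * T j * max (X i * Y j) (X j * Y i)) m]
    refine sum_congr rfl fun i _ => ?_
    rw [← Equiv.sum_comp σ, ← Fin.sum_univ_eq_sum_range
      (fun j => T i * T j * max (X i * Y j) (X j * Y i)) m]
    refine sum_congr rfl fun j _ => ?_
    rw [eT, eT, eX, eX, eY, eY]
  have h2 : ∑ i, t i * √((v i).1 ^ 2 + (v i).2 ^ 2) =
      ∑ k ∈ range m, √((T k * X k) ^ 2 + (T k * Y k) ^ 2) := by
    rw [← Equiv.sum_comp σ, ← Fin.sum_univ_eq_sum_range
      (fun k => √((T k * X k) ^ 2 + (T k * Y k) ^ 2)) m]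
    refine sum_congr rfl fun i _ => ?_
    rw [eT, eX, eY, mul_pow, mul_pow, ← mul_add, Real.sqrt_mul (sq_nonneg _),
      Real.sqrt_sq (ht _), sq_abs, sq_abs]
  have h3 := schmidt m (fun k => T k * X k) (fun k => T k * Y k)
    (fun k => mul_nonneg (T0 k) (X0 k)) (fun k => mul_nonneg (T0 k) (Y0 k))
  rw [h2]
  refine le_trans (le_of_eq ?_) h3
  rw [h1, sum_sym _ (fun i j => by rw [max_comm, mul_comm (T i)]) m, mul_sum]
  refine sum_congr rfl fun j hj => ?_
  have hj' : j < m := by simpa using hj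
  have h4 : ∑ i ∈ range j, T i * T j * max (X i * Y j) (X j * Y i) =
      ∑ i ∈ range j, (T i * X i) * (T j * Y j) := by
    refine sum_congr rfl fun i hi => ?_
    have hi' : i < j := by simpa using hi
    rw [max_eq_left (hcross i j hi'.le hj')]
    ring
  rw [h4, max_self, ← sum_mul]
  ring

end Pool.Agent.K6.H23.WA
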