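import Pool.Agent.K6.H23.WA.Defs3

/-!
Gluing words in regions; words below a line.
-/

set_option autoImplicit false

namespace Pool.Agent.K6.H23.WA

open Pool.Agent.TH795.EP Pool.Agent.TH795.EP2 Pool.Agent.TH795.SE2 Pool.Agent.TH262.SawL H981 Finset
open Pool.Agent.Y981.L2 (Rate an ln)
open Pool.Agent.K6.H5.JW (ps)

/-- the glued word stays in the region -/
theorem region_glue {R1 R2 R : ℤ × ℤ → Prop} {z1 : ℤ × ℤ} (h1 : ∀ p, R1 p → R p)
    (h2 : ∀ p, R2 p → R (z1.1 + p.1, z1.2 + p.2)) {u v : List St} {i j : ℕ} (hi : i ≤ u.length)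
    (hu : ∀ n, R1 (path u n)) (hv : ∀ n, R2 (path v n)) (hux : dx u = z1.1) (huy : dy u = z1.2)
    (hx : dx (u.take i ++ v.drop j) = dx u + dx v)
    (hy : dy (u.take i ++ v.drop j) = dy u + dy v) :
    ∀ n, R (path (u.take i ++ v.drop j) n) := by
  have hlen : (u.take i).length = i := by rw [List.length_take]; omega
  intro n
  rcases le_or_gt n i with h3 | h3
  · rw [path_append_left (by omega), path_take h3]
    exact h1 _ (hu n)
  · obtain ⟨r, rfl⟩ : ∃ r, n = i + r := ⟨n - i, by omega⟩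
    have g := path_append_right (u.take i) (v.drop j) r
    rw [hlen] at g
    rw [g]
    have g1 := path_drop v j r
    have g2 : path v j = (dx (v.take j), dy (v.take j)) := rfl
    have f1 : dx v = dx (v.take j) + dx (v.drop j) := by
      rw [← dx_append, List.take_append_drop]
    have f2 : dy v = dy (v.take j) + dy (v.drop j) := by
      rw [← dy_append, List.take_append_drop]
    rw [dx_append] at hx
    rw [dy_append] at hy
    have g3 := h2 _ (hv (j + r))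
    rw [g1, g2] at g3
    have e1 : dx (u.take i) + (path (v.drop j) r).1 =
        z1.1 + (dx (v.take j) + (path (v.drop j) r).1) := by omega
    have e2 : dy (u.take i) + (path (v.drop j) r).2 =
        z1.2 + (dy (v.take j) + (path (v.drop j) r).2) := by omega
    rw [e1, e2]
    exact g3

theorem glue_wr {R1 R2 R : ℤ × ℤ → Prop}
    {z1 z2 : ℤ × ℤ} (h1 : ∀ p, R1 p → R p) (h2 : ∀ p, R2 p → R (z1.1 + p.1, z1.2 + p.2))
    (m1 m2 : ℕ) :
    wr R1 z1 m1 * wr R2 z2 m2 ≤ ∑ p ∈ range (m1 + 1) ×ˢ range (m2 + 1),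
      wr R (z1.1 + z2.1, z1.2 + z2.2) (p.1 + (m2 - p.2)) * (c (m1 - p.1) * c p.2) := by
  classical
  unfold wr c
  rw [← Finset.card_product]
  have e : ∀ p : ℕ × ℕ, (fs (fun w => Saw w ∧ dx w = (z1.1 + z2.1, z1.2 + z2.2).1 ∧
      dy w = (z1.1 + z2.1, z1.2 + z2.2).2 ∧ ∀ i, R (path w i))
      (p.1 + (m2 - p.2))).card * ((fs Saw (m1 - p.1)).card * (fs Saw p.2).card) =
      (fs (fun w => Saw w ∧ dx w = (z1.1 + z2.1, z1.2 + z2.2).1 ∧
      dy w = (z1.1 + z2.1, z1.2 + z2.2).2 ∧ ∀ i, R (path w i)) (p.1 + (m2 - p.2)) ×ˢ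
        (fs Saw (m1 - p.1) ×ˢ fs Saw p.2)).card := by
    intro p
    rw [Finset.card_product, Finset.card_product]
  simp only [e]
  rw [← Finset.card_sigma]
  apply card_le_of_decode (fun q => (q.2.1.take q.1.1 ++ q.2.2.1, q.2.2.2 ++ q.2.1.drop q.1.1))
  rintro ⟨u, v⟩ huv
  rw [Finset.mem_product, mem_fs, mem_fs] at huv
  obtain ⟨⟨⟨hu, hux, huy, huR⟩, hul⟩, ⟨hv, hvx, hvy, hvR⟩, hvl⟩ := huv
  simp only at hu hux huy hul hv hvx hvy hvl huR hvR
  obtain ⟨i, j, hi, hj, g1, g2, g3⟩ := glue_exists hu hv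
  have hlen : (u.take i).length = i := by rw [List.length_take]; omega
  refine ⟨⟨(i, j), (u.take i ++ v.drop j, u.drop i, v.take j)⟩, ?_, ?_⟩
  · rw [Finset.mem_sigma, Finset.mem_product, Finset.mem_product, Finset.mem_product,
      mem_fs, mem_fs, mem_fs, Finset.mem_range, Finset.mem_range]
    simp only
    refine ⟨⟨by omega, by omega⟩, ⟨⟨g1, by omega, by omega, ?_⟩, ?_⟩, ⟨?_, ?_⟩, ?_, ?_⟩
    · exact region_glue h1 h2 hi huR hvR hux huy g2 g3
    · rw [List.length_append, hlen, List.length_drop, hvl]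
    · exact hu.subw (List.drop_suffix _ _).isInfix
    · rw [List.length_drop, hul]
    · exact hv.subw (List.take_prefix _ _).isInfix
    · rw [List.length_take]; omega
  · simp only [Prod.mk.injEq]
    have g1 : (u.take i ++ v.drop j).take i = u.take i := by
      have := List.take_left (l₁ := u.take i) (l₂ := v.drop j)
      rwa [hlen] at this
    have g2 : (u.take i ++ v.drop j).drop i = v.drop j := by
      have := List.drop_left (l₁ := u.take i) (l₂ := v.drop j)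
      rwa [hlen] at this
    rw [g1, g2]
    exact ⟨List.take_append_drop _ _, List.take_append_drop _ _⟩

/-- PIECE P1 -/
theorem glue_region {n : ℕ} (hn : 2 ≤ n) {K : ℝ} (hK : Up n K) {R1 R2 R : ℤ × ℤ → Prop}
    {z1 z2 : ℤ × ℤ} (h1 : ∀ p, R1 p → R p) (h2 : ∀ p, R2 p → R (z1.1 + p.1, z1.2 + p.2))
    {m1 m2 : ℕ} (hm1 : m1 ≤ n) (hm2 : m2 ≤ n) {B1 B2 : ℝ}
    (g1 : mu ^ m1 * Real.exp (-B1) ≤ wr R1 z1 m1) (g2 : mu ^ m2 * Real.exp (-B2) ≤ wr R2 z2 m2) :
    ∃ m ≤ m1 + m2, mu ^ m * Real.exp (-(B1 + B2 + (2 * K + 13) * Real.log n ^ 2)) ≤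
      wr R (z1.1 + z2.1, z1.2 + z2.2) m := by
  by_contra hcon
  push Not at hcon
  have hmu := mu_pos
  have hL := pow_pos (log_pos' hn) 2
  set L : ℝ := Real.log n ^ 2 with hLdef
  have hqL : ∀ A : ℝ, q n A = Real.exp (A * L) := fun A => rfl
  have hcard := glue_wr (z2 := z2) h1 h2 m1 m2
  have hcard' : ((wr R1 z1 m1 : ℝ)) * wr R2 z2 m2 ≤ ∑ p ∈ range (m1 + 1) ×ˢ range (m2 + 1),
      (wr R (z1.1 + z2.1, z1.2 + z2.2) (p.1 + (m2 - p.2)) : ℝ) * (c (m1 - p.1) * c p.2) := by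
    exact_mod_cast hcard
  have hterm : ∀ p ∈ range (m1 + 1) ×ˢ range (m2 + 1),
      (wr R (z1.1 + z2.1, z1.2 + z2.2) (p.1 + (m2 - p.2)) : ℝ) * (c (m1 - p.1) * c p.2) ≤
        mu ^ (m1 + m2) * Real.exp (-(B1 + B2 + 13 * L)) := by
    intro p hp
    rw [Finset.mem_product, Finset.mem_range, Finset.mem_range] at hp
    have e1 := (hcon (p.1 + (m2 - p.2)) (by omega)).le
    have e2 := hK (m1 - p.1) (by omega)
    have e3 := hK p.2 (by omega)
    rw [hqL] at e2 e3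
    have hp1 : (0 : ℝ) < mu ^ (p.1 + (m2 - p.2)) := pow_pos hmu _
    have hp2 : (0 : ℝ) < mu ^ (m1 - p.1) := pow_pos hmu _
    have hp3 : (0 : ℝ) < mu ^ p.2 := pow_pos hmu _
    calc (wr R (z1.1 + z2.1, z1.2 + z2.2) (p.1 + (m2 - p.2)) : ℝ) * (c (m1 - p.1) * c p.2)
        ≤ (mu ^ (p.1 + (m2 - p.2)) * Real.exp (-(B1 + B2 + (2 * K + 13) * L))) *
          ((mu ^ (m1 - p.1) * Real.exp (K * L)) * (mu ^ p.2 * Real.exp (K * L))) := by
          gcongr
      _ = (mu ^ (p.1 + (m2 - p.2)) * mu ^ (m1 - p.1) * mu ^ p.2) *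
          (Real.exp (-(B1 + B2 + (2 * K + 13) * L)) * (Real.exp (K * L) * Real.exp (K * L))) := by
          ring
      _ = _ := by
          rw [← pow_add, ← pow_add, ← Real.exp_add, ← Real.exp_add]
          congr 2
          · omega
          · ring
  have hsum := Finset.sum_le_card_nsmul _ _ _ hterm
  rw [Finset.card_product, Finset.card_range, Finset.card_range, nsmul_eq_mul] at hsum
  have hnum : (((m1 + 1) * (m2 + 1) : ℕ) : ℝ) ≤ Real.exp (12 * L) := by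
    have h3 := pow_le_q hn 4
    norm_num at h3
    rw [hqL] at h3
    refine le_trans ?_ h3
    have h4 : (m1 + 1) * (m2 + 1) ≤ n ^ 4 := by
      calc (m1 + 1) * (m2 + 1) ≤ (n + 1) * (n + 1) := Nat.mul_le_mul (by omega) (by omega)
        _ ≤ n ^ 2 * n ^ 2 := by
            have : n + 1 ≤ n ^ 2 := by nlinarith
            exact Nat.mul_le_mul this this
        _ = n ^ 4 := by ring
    exact_mod_cast h4
  have hP : 0 < mu ^ (m1 + m2) := pow_pos hmu _
  have hlow : mu ^ (m1 + m2) * Real.exp (-(B1 + B2)) ≤ (wr R1 z1 m1 : ℝ) * wr R2 z2 m2 := by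
    have g0 : 0 ≤ mu ^ m2 * Real.exp (-B2) := by positivity
    have := mul_le_mul g1 g2 g0 (Nat.cast_nonneg _)
    refine le_trans (le_of_eq ?_) this
    rw [show mu ^ m1 * Real.exp (-B1) * (mu ^ m2 * Real.exp (-B2)) =
      (mu ^ m1 * mu ^ m2) * (Real.exp (-B1) * Real.exp (-B2)) by ring, ← pow_add, ← Real.exp_add]
    congr 2
    ring
  have hup : (((m1 + 1) * (m2 + 1) : ℕ) : ℝ) * (mu ^ (m1 + m2) *
      Real.exp (-(B1 + B2 + 13 * L))) < mu ^ (m1 + m2) * Real.exp (-(B1 + B2)) := by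
    calc (((m1 + 1) * (m2 + 1) : ℕ) : ℝ) * (mu ^ (m1 + m2) * Real.exp (-(B1 + B2 + 13 * L)))
        ≤ Real.exp (12 * L) * (mu ^ (m1 + m2) * Real.exp (-(B1 + B2 + 13 * L))) := by gcongr
      _ = mu ^ (m1 + m2) * Real.exp (-(B1 + B2) - L) := by
          rw [show Real.exp (12 * L) * (mu ^ (m1 + m2) * Real.exp (-(B1 + B2 + 13 * L))) =
            mu ^ (m1 + m2) * (Real.exp (12 * L) * Real.exp (-(B1 + B2 + 13 * L))) by ring,
            ← Real.exp_add]
          congr 2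
          ring
      _ < _ := mul_lt_mul_of_pos_left (Real.exp_lt_exp.2 (by linarith)) hP
  linarith

theorem wr_eq_lq (k l : ℤ) (m : ℕ) : wr (fun p => ps k l p ≤ 0) (k, l) m =
    Pool.Agent.K6.H5.JW.lq k l m := by
  unfold wr Pool.Agent.K6.H5.JW.lq
  congr 1
  ext w
  rw [mem_fs, mem_fs]
  constructor
  · rintro ⟨⟨a1, a2, a3, a4⟩, a5⟩
    exact ⟨⟨⟨a1, a2, a3⟩, a4⟩, a5⟩
  · rintro ⟨⟨⟨a1, a2, a3⟩, a4⟩, a5⟩
    exact ⟨⟨a1, a2, a3, a4⟩, a5⟩

/-- PIECE P1b -/
theorem wr_line : ∃ K : ℝ, 0 ≤ K ∧ ∀ n : ℕ, 2 ≤ n → ∀ m : ℕ, 2 ≤ m → m ≤ n → ∀ k l : ℤ,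
    (k, l) ≠ (0, 0) → (k + l - m) % 2 = 0 → |k| + |l| ≤ m → ∃ m' ≤ m,
    mu ^ m' * Real.exp (-(m * Rate ((k : ℝ) / m, (l : ℝ) / m) + K * Real.log n ^ 2)) ≤
      wr (fun p => ps k l p ≤ 0) (k, l) m' := by
  obtain ⟨K1, hK1, hlaw⟩ := Pool.Agent.K6.H5.JW.a_law
  obtain ⟨K2, hK2, hup, -⟩ := exists_K
  refine ⟨K1 + (2 * K2 + 18), by positivity, ?_⟩
  intro n hn m hm hmn k l hz hpar hle
  obtain ⟨ha, hb⟩ := hlaw m hm k l hz hpar hle
  obtain ⟨len, hlen, h3⟩ := Pool.Agent.K6.H5.JW.cyc_max hn (hup n hn) hmn k l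
  refine ⟨len, hlen, ?_⟩
  rw [wr_eq_lq]
  have hmu := mu_pos
  have hlogm : Real.log m ^ 2 ≤ Real.log n ^ 2 := by
    apply pow_le_pow_left₀ (log_pos' hm).le
    exact Real.log_le_log (by exact_mod_cast (by omega : 0 < m)) (by exact_mod_cast hmn)
  set L : ℝ := Real.log n ^ 2 with hLdef
  set Rt : ℝ := m * Rate ((k : ℝ) / m, (l : ℝ) / m) with hRt
  rw [abs_le] at hb
  have h4 : m * Real.log mu - Rt - K1 * L ≤ Real.log (a m k l) := by
    have := mul_le_mul_of_nonneg_left hlogm hK1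
    linarith [hb.1]
  have h5 : Real.exp (m * Real.log mu - Rt - K1 * L) ≤ a m k l := by
    calc Real.exp (m * Real.log mu - Rt - K1 * L) ≤ Real.exp (Real.log (a m k l)) :=
          Real.exp_le_exp.2 h4
      _ = a m k l := Real.exp_log ha
  have h6 : mu ^ m = Real.exp (m * Real.log mu) := by
    rw [← Real.log_pow, Real.exp_log (pow_pos hmu m)]
  have h7 : q n (2 * K2 + 18) = Real.exp ((2 * K2 + 18) * L) := rfl
  have h8 : mu ^ m = mu ^ len * mu ^ (m - len) := by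
    rw [← pow_add]
    congr 1
    omega
  have hp : 0 < mu ^ (m - len) := pow_pos hmu _
  have h9 : mu ^ len * mu ^ (m - len) * Real.exp (-(Rt + K1 * L)) ≤
      Real.exp ((2 * K2 + 18) * L) *
        ((Pool.Agent.K6.H5.JW.lq k l len : ℝ) * mu ^ (m - len)) := by
    rw [← h8, h6, ← Real.exp_add, ← h7]
    refine le_trans (le_of_eq ?_) (h5.trans h3)
    congr 1
    ring
  have h10 : Real.exp (-(Rt + (K1 + (2 * K2 + 18)) * L)) =
      Real.exp (-(Rt + K1 * L)) * Real.exp (-((2 * K2 + 18) * L)) := by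
    rw [← Real.exp_add]
    congr 1
    ring
  rw [h10]
  have h11 : Real.exp ((2 * K2 + 18) * L) * Real.exp (-((2 * K2 + 18) * L)) = 1 := by
    rw [← Real.exp_add, add_neg_cancel, Real.exp_zero]
  have h12 : 0 < Real.exp (-((2 * K2 + 18) * L)) := Real.exp_pos _
  have h13 := mul_le_mul_of_nonneg_left h9 h12.le
  have h14 : (mu ^ len * (Real.exp (-(Rt + K1 * L)) * Real.exp (-((2 * K2 + 18) * L)))) *
      mu ^ (m - len) ≤ (Pool.Agent.K6.H5.JW.lq k l len : ℝ) * mu ^ (m - len) := by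
    calc (mu ^ len * (Real.exp (-(Rt + K1 * L)) * Real.exp (-((2 * K2 + 18) * L)))) *
          mu ^ (m - len) = Real.exp (-((2 * K2 + 18) * L)) *
            (mu ^ len * mu ^ (m - len) * Real.exp (-(Rt + K1 * L))) := by ring
      _ ≤ _ := h13
      _ = (Real.exp ((2 * K2 + 18) * L) * Real.exp (-((2 * K2 + 18) * L))) *
            ((Pool.Agent.K6.H5.JW.lq k l len : ℝ) * mu ^ (m - len)) := by ring
      _ = _ := by rw [h11, one_mul]
  exact le_of_mul_le_mul_right h14 hp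

end Pool.Agent.K6.H23.WA
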