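import Pool.Agent.K6.H23.WA.PieceB
import Pool.Agent.K6.H23.WA.PieceD

set_option autoImplicit false

namespace Pool.Agent.K6.H23.WA

open Finset

namespace PieceR1

/-- the kernel -/
noncomputable def kk (u w : ℝ × ℝ) : ℝ := max (|u.1| * |w.2|) (|w.1| * |u.2|)

/-- the cross term of two families -/
noncomputable def cr {m n : ℕ} (t : Fin m → ℝ) (v : Fin m → ℝ × ℝ) (s : Fin n → ℝ)
    (w : Fin n → ℝ × ℝ) : ℝ := ∑ i, ∑ j, t i * s j * kk (v i) (w j)

lemma Mf_eq {m : ℕ} (t : Fin m → ℝ) (v : Fin m → ℝ × ℝ) : Mf t v = 1 / 2 * cr t v t v := rfl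

lemma kk_symm (u w : ℝ × ℝ) : kk u w = kk w u := by
  unfold kk
  rw [max_comm]

lemma kk_eq (u w : ℝ × ℝ) : kk u w = |u.1| * |w.2| + |w.1| * |u.2| -
    min (|u.1| * |w.2|) (|w.1| * |u.2|) := by
  have := max_add_min (|u.1| * |w.2|) (|w.1| * |u.2|)
  unfold kk
  linarith

lemma cr_symm {m n : ℕ} (t : Fin m → ℝ) (v : Fin m → ℝ × ℝ) (s : Fin n → ℝ)
    (w : Fin n → ℝ × ℝ) : cr t v s w = cr s w t v := by
  unfold cr
  rw [sum_comm]
  refine sum_congr rfl fun i _ => sum_congr rfl fun j _ => ?_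
  rw [kk_symm]
  ring

lemma cr_nonneg {m n : ℕ} {t : Fin m → ℝ} (v : Fin m → ℝ × ℝ) {s : Fin n → ℝ}
    (w : Fin n → ℝ × ℝ) (ht : ∀ i, 0 ≤ t i) (hs : ∀ i, 0 ≤ s i) : 0 ≤ cr t v s w :=
  sum_nonneg fun i _ => sum_nonneg fun j _ => mul_nonneg (mul_nonneg (ht i) (hs j))
    (le_max_of_le_left (mul_nonneg (abs_nonneg _) (abs_nonneg _)))

/-- the cross term is bilinear in the weights and additive for the concatenation -/
lemma Mf_append {m n : ℕ} (a b : ℝ) (t : Fin m → ℝ) (v : Fin m → ℝ × ℝ) (s : Fin n → ℝ)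
    (w : Fin n → ℝ × ℝ) :
    Mf (Fin.append (fun i => a * t i) (fun i => b * s i)) (Fin.append v w) =
      a ^ 2 * Mf t v + b ^ 2 * Mf s w + a * b * cr t v s w := by
  have h1 : cr (Fin.append (fun i => a * t i) (fun i => b * s i)) (Fin.append v w)
      (Fin.append (fun i => a * t i) (fun i => b * s i)) (Fin.append v w) =
      a ^ 2 * cr t v t v + a * b * cr t v s w + (a * b * cr s w t v + b ^ 2 * cr s w s w) := by
    unfold cr
    rw [Fin.sum_univ_add]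
    simp only [Fin.sum_univ_add, Fin.append_left, Fin.append_right, sum_add_distrib]
    have e : ∀ {m n : ℕ} (c : ℝ) (f : Fin m → Fin n → ℝ) (g : Fin m → Fin n → ℝ),
        (∀ i j, f i j = c * g i j) → ∑ i, ∑ j, f i j = c * ∑ i, ∑ j, g i j := by
      intro m n c f g h
      rw [mul_sum]
      refine sum_congr rfl fun i _ => ?_
      rw [mul_sum]
      exact sum_congr rfl fun j _ => h i j
    congr 1
    · congr 1
      · exact e _ _ _ fun i j => by ring
      · exact e _ _ _ fun i j => by ring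
    · congr 1
      · exact e _ _ _ fun i j => by ring
      · exact e _ _ _ fun i j => by ring
  rw [Mf_eq, h1, Mf_eq, Mf_eq, cr_symm s w t v]
  ring

/-- the quadratic form of the kernel `kk` on vectors with vanishing horizontal mean -/
lemma quad_nonpos {k : ℕ} (e : Fin k → ℝ) (v : Fin k → ℝ × ℝ) (h0 : ∑ i, e i * |(v i).1| = 0) :
    ∑ i, ∑ j, e i * e j * kk (v i) (v j) ≤ 0 := by
  have h1 := psd_min_mul (univ : Finset (Fin k)) (fun i => |(v i).1|) (fun i => |(v i).2|) e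
    (fun i _ => abs_nonneg _) (fun i _ => abs_nonneg _)
  have h2 : ∑ i, ∑ j, e i * e j * kk (v i) (v j) =
      2 * ((∑ i, e i * |(v i).1|) * ∑ j, e j * |(v j).2|) -
        ∑ i, ∑ j, e i * e j * min (|(v i).1| * |(v j).2|) (|(v j).1| * |(v i).2|) := by
    simp only [kk_eq, mul_sub, mul_add, sum_sub_distrib, sum_add_distrib]
    congr 1
    rw [two_mul]
    congr 1
    · rw [sum_mul_sum]
      exact sum_congr rfl fun i _ => sum_congr rfl fun j _ => by ring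
    · rw [sum_mul_sum, sum_comm]
      exact sum_congr rfl fun i _ => sum_congr rfl fun j _ => by ring
  rw [h2, h0]
  linarith

/-- the Brunn-Minkowski inequality -/
lemma cross_ge {m n : ℕ} {t : Fin m → ℝ} {v : Fin m → ℝ × ℝ} {s : Fin n → ℝ}
    {w : Fin n → ℝ × ℝ} (ht : ∀ i, 0 ≤ t i) (hs : ∀ i, 0 ≤ s i) {p q : ℝ} (hp : 0 ≤ p)
    (hq : 0 ≤ q) (h1 : p ^ 2 ≤ Mf t v) (h2 : q ^ 2 ≤ Mf s w) : 2 * (p * q) ≤ cr t v s w := by
  have hB := cr_nonneg v w ht hs
  rcases hp.eq_or_lt with rfl | hp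
  · linarith
  rcases hq.eq_or_lt with rfl | hq
  · linarith
  have hX : ∀ {k : ℕ} {t : Fin k → ℝ} {v : Fin k → ℝ × ℝ}, (∀ i, 0 ≤ t i) → 0 < Mf t v →
      0 < ∑ i, t i * |(v i).1| := by
    intro k t v ht h
    have h3 := PieceD.Mf_le t v ht
    have h4 : 0 ≤ ∑ i, t i * |(v i).1| := sum_nonneg fun i _ => mul_nonneg (ht i) (abs_nonneg _)
    rcases h4.eq_or_lt with h5 | h5
    · rw [← h5, zero_mul] at h3
      linarith
    · exact h5
  have hX1 := hX ht (lt_of_lt_of_le (pow_pos hp 2) h1)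
  have hX2 := hX hs (lt_of_lt_of_le (pow_pos hq 2) h2)
  set X1 := ∑ i, t i * |(v i).1| with hX1d
  set X2 := ∑ i, s i * |(w i).1| with hX2d
  set σ : ℝ := X1 / X2 with hσ
  have hσ0 : 0 < σ := div_pos hX1 hX2
  have h0 : ∑ i, (Fin.append t (fun i => -σ * s i)) i * |((Fin.append v w) i).1| = 0 := by
    rw [Fin.sum_univ_add]
    simp only [Fin.append_left, Fin.append_right]
    have : ∑ i, -σ * s i * |(w i).1| = -σ * X2 := by
      rw [hX2d, mul_sum]
      exact sum_congr rfl fun i _ => by ring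
    rw [this, ← hX1d, hσ]
    field_simp
    ring
  have h3 := quad_nonpos (Fin.append t (fun i => -σ * s i)) (Fin.append v w) h0
  have h4 := Mf_append 1 (-σ) t v s w
  have h5 : Mf (Fin.append t (fun i => -σ * s i)) (Fin.append v w) ≤ 0 := by
    rw [Mf_eq]
    unfold cr
    linarith
  have h6 : (fun i => 1 * t i) = t := by
    funext i; ring
  rw [h6] at h4
  rw [h4] at h5
  have h7 : Mf t v + σ ^ 2 * Mf s w ≤ σ * cr t v s w := by linarith
  have h8 : 2 * (p * q) * σ ≤ p ^ 2 + σ ^ 2 * q ^ 2 := by nlinarith [sq_nonneg (p - σ * q)]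
  have h9 : σ ^ 2 * q ^ 2 ≤ σ ^ 2 * Mf s w := by gcongr
  have h10 : σ * (2 * (p * q)) ≤ σ * cr t v s w := by linarith
  exact le_of_mul_le_mul_left h10 hσ0

end PieceR1

open PieceR1

/-- PIECE R1 -/
theorem J_convex {I : ℝ × ℝ → ℝ} {κ : ℝ} (hI : RateFn I κ) :
    ConvexOn ℝ (Set.Icc (0 : ℝ) (1 / 2)) (fun s => J I (s ^ 2)) := by
  refine ⟨convex_Icc _ _, ?_⟩
  intro s1 hs1 s2 hs2 a b ha hb hab
  simp only [smul_eq_mul]
  have hq : ∀ s : ℝ, s ∈ Set.Icc (0 : ℝ) (1 / 2) → s ^ 2 ≤ 1 / 4 := fun s hs => by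
    nlinarith [hs.1, hs.2]
  apply le_of_forall_pos_le_add
  intro ε hε
  obtain ⟨c1, hc1, hc1'⟩ := exists_lt_of_csInf_lt (PieceD.costs_ne I (hq s1 hs1))
    (lt_add_of_pos_right (sInf (costs I (s1 ^ 2))) hε)
  obtain ⟨c2, hc2, hc2'⟩ := exists_lt_of_csInf_lt (PieceD.costs_ne I (hq s2 hs2))
    (lt_add_of_pos_right (sInf (costs I (s2 ^ 2))) hε)
  obtain ⟨m1, t1, v1, ht1, hs1', hv1, hM1, rfl⟩ := hc1
  obtain ⟨m2, t2, v2, ht2, hs2', hv2, hM2, rfl⟩ := hc2
  have hmem : a * (∑ i, t1 i * I (v1 i)) + b * (∑ i, t2 i * I (v2 i)) ∈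
      costs I ((a * s1 + b * s2) ^ 2) := by
    refine ⟨m1 + m2, Fin.append (fun i => a * t1 i) (fun i => b * t2 i), Fin.append v1 v2,
      ?_, ?_, ?_, ?_, ?_⟩
    · intro i
      refine Fin.addCases (fun i => ?_) (fun i => ?_) i
      · rw [Fin.append_left]; exact mul_nonneg ha (ht1 i)
      · rw [Fin.append_right]; exact mul_nonneg hb (ht2 i)
    · rw [Fin.sum_univ_add]
      simp only [Fin.append_left, Fin.append_right, ← mul_sum, hs1', hs2']
      linarith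
    · intro i
      refine Fin.addCases (fun i => ?_) (fun i => ?_) i
      · rw [Fin.append_left]; exact hv1 i
      · rw [Fin.append_right]; exact hv2 i
    · rw [Mf_append]
      have h1 := cross_ge ht1 ht2 hs1.1 hs2.1 hM1 hM2
      have h2 : a ^ 2 * s1 ^ 2 ≤ a ^ 2 * Mf t1 v1 := by gcongr
      have h3 : b ^ 2 * s2 ^ 2 ≤ b ^ 2 * Mf t2 v2 := by gcongr
      have h4 : a * b * (2 * (s1 * s2)) ≤ a * b * cr t1 v1 t2 v2 :=
        mul_le_mul_of_nonneg_left h1 (mul_nonneg ha hb)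
      nlinarith
    · rw [Fin.sum_univ_add]
      simp only [Fin.append_left, Fin.append_right, mul_sum, mul_assoc]
  have h1 : J I ((a * s1 + b * s2) ^ 2) ≤ _ := csInf_le (PieceD.costs_bdd hI _) hmem
  have h2 : a * (∑ i, t1 i * I (v1 i)) ≤ a * (J I (s1 ^ 2) + ε) :=
    mul_le_mul_of_nonneg_left hc1'.le ha
  have h3 : b * (∑ i, t2 i * I (v2 i)) ≤ b * (J I (s2 ^ 2) + ε) :=
    mul_le_mul_of_nonneg_left hc2'.le hb
  have h4 : a * ε + b * ε = ε := by rw [← add_mul, hab, one_mul]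
  linarith

end Pool.Agent.K6.H23.WA
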