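import Pool.Agent.K6.H23.WA.PieceD

/-!
Piece R2: the value of the rate function `J` of the area at its end point `1 / 4`.
-/

set_option autoImplicit false

namespace Pool.Agent.K6.H23.WA

open Finset

namespace PieceR2

/-- `2 Mf = 2 x y - sum of the minima` -/
theorem Mf_eq {m : ℕ} (t : Fin m → ℝ) (v : Fin m → ℝ × ℝ) :
    2 * Mf t v + ∑ i, ∑ j, t i * t j * min (|(v i).1| * |(v j).2|) (|(v j).1| * |(v i).2|)
      = 2 * ((∑ i, t i * |(v i).1|) * (∑ i, t i * |(v i).2|)) := by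
  have h2 : ∑ i, ∑ j, ((t i * |(v i).1|) * (t j * |(v j).2|) + (t i * |(v i).2|) * (t j * |(v j).1|))
      = 2 * ((∑ i, t i * |(v i).1|) * (∑ i, t i * |(v i).2|)) := by
    rw [two_mul]
    nth_rewrite 2 [mul_comm]
    rw [Finset.sum_mul_sum, Finset.sum_mul_sum, ← Finset.sum_add_distrib]
    refine Finset.sum_congr rfl fun i _ => ?_
    rw [← Finset.sum_add_distrib]
  rw [← h2]
  unfold Mf
  rw [← mul_assoc, show (2 : ℝ) * (1 / 2) = 1 by norm_num, one_mul, ← Finset.sum_add_distrib]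
  refine Finset.sum_congr rfl fun i _ => ?_
  rw [← Finset.sum_add_distrib]
  refine Finset.sum_congr rfl fun j _ => ?_
  rw [← mul_add, max_add_min]
  ring

/-- a vector of `ℓ¹` norm one on one of the axes has the cost of the unit vector -/
theorem I_axis {I : ℝ × ℝ → ℝ} {κ : ℝ} (hI : RateFn I κ) (v : ℝ × ℝ) (h1 : |v.1| + |v.2| = 1)
    (h0 : |v.1| * |v.2| = 0) : I v = I (1, 0) := by
  have e10 : |((1 : ℝ), (0 : ℝ)).1| + |((1 : ℝ), (0 : ℝ)).2| ≤ 1 := by norm_num
  have hs := hI.swap (1, 0) e10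
  rcases mul_eq_zero.1 h0 with h | h
  · have h2 : |v.2| = 1 := by rw [h] at h1; linarith
    rw [← hI.abs v h1.le, h, h2]
    exact hs
  · have h2 : |v.1| = 1 := by rw [h] at h1; linarith
    rw [← hI.abs v h1.le, h, h2]

/-- the only cost at `1 / 4` is that of the unit vector -/
theorem cost_eq {I : ℝ × ℝ → ℝ} {κ : ℝ} (hI : RateFn I κ) {c : ℝ} (hc : c ∈ costs I (1 / 4)) :
    c = I (1, 0) := by
  obtain ⟨m, t, v, ht, h1, hv, ha, rfl⟩ := hc
  have hM := Mf_eq t v
  obtain ⟨x, hx⟩ : ∃ x, x = ∑ i, t i * |(v i).1| := ⟨_, rfl⟩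
  obtain ⟨y, hy⟩ : ∃ y, y = ∑ i, t i * |(v i).2| := ⟨_, rfl⟩
  have hnn : ∀ i j, 0 ≤ t i * t j * min (|(v i).1| * |(v j).2|) (|(v j).1| * |(v i).2|) :=
    fun i j => mul_nonneg (mul_nonneg (ht i) (ht j))
      (le_min (mul_nonneg (abs_nonneg _) (abs_nonneg _)) (mul_nonneg (abs_nonneg _) (abs_nonneg _)))
  have hS : 0 ≤ ∑ i, ∑ j, t i * t j * min (|(v i).1| * |(v j).2|) (|(v j).1| * |(v i).2|) :=
    Finset.sum_nonneg fun i _ => Finset.sum_nonneg fun j _ => hnn i j
  have hD : ∑ i, t i * (1 - (|(v i).1| + |(v i).2|)) = 1 - (x + y) := by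
    have e : ∀ i, t i * (1 - (|(v i).1| + |(v i).2|))
        = t i - (t i * |(v i).1| + t i * |(v i).2|) := fun i => by ring
    rw [Finset.sum_congr rfl fun i _ => e i, Finset.sum_sub_distrib, Finset.sum_add_distrib, h1,
      ← hx, ← hy]
  have hDn : ∀ i ∈ (Finset.univ : Finset (Fin m)), 0 ≤ t i * (1 - (|(v i).1| + |(v i).2|)) :=
    fun i _ => mul_nonneg (ht i) (by linarith [hv i])
  have hD0 : 0 ≤ 1 - (x + y) := by rw [← hD]; exact Finset.sum_nonneg hDn
  have hx0 : 0 ≤ x := by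
    rw [hx]; exact Finset.sum_nonneg fun i _ => mul_nonneg (ht i) (abs_nonneg _)
  have hy0 : 0 ≤ y := by
    rw [hy]; exact Finset.sum_nonneg fun i _ => mul_nonneg (ht i) (abs_nonneg _)
  rw [← hx, ← hy] at hM
  have hxy : (x + y) ^ 2 ≤ 1 := by nlinarith
  have hsum : x + y = 1 := by nlinarith [sq_nonneg (x - y)]
  have hS0 : ∑ i, ∑ j, t i * t j * min (|(v i).1| * |(v j).2|) (|(v j).1| * |(v i).2|) = 0 := by
    refine le_antisymm ?_ hS
    nlinarith [sq_nonneg (x - y)]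
  have hdiag : ∀ i, t i * t i * (|(v i).1| * |(v i).2|) = 0 := by
    intro i
    have a1 := (Finset.sum_eq_zero_iff_of_nonneg
      (fun i _ => Finset.sum_nonneg fun j _ => hnn i j)).1 hS0 i (Finset.mem_univ i)
    have a2 := (Finset.sum_eq_zero_iff_of_nonneg (fun j _ => hnn i j)).1 a1 i (Finset.mem_univ i)
    rwa [min_self] at a2
  have hone : ∀ i, t i * (1 - (|(v i).1| + |(v i).2|)) = 0 := fun i =>
    (Finset.sum_eq_zero_iff_of_nonneg hDn).1 (by rw [hD, hsum]; norm_num) i (Finset.mem_univ i)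
  have key : ∀ i, t i * I (v i) = t i * I (1, 0) := by
    intro i
    rcases (ht i).eq_or_lt with h | h
    · rw [← h, zero_mul, zero_mul]
    · have b1 : |(v i).1| * |(v i).2| = 0 := by
        rcases mul_eq_zero.1 (hdiag i) with h' | h'
        · exact absurd h' (mul_pos h h).ne'
        · exact h'
      have b2 : |(v i).1| + |(v i).2| = 1 := by
        rcases mul_eq_zero.1 (hone i) with h' | h'
        · exact absurd h' h.ne'
        · linarith
      rw [I_axis hI (v i) b2 b1]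
  rw [Finset.sum_congr rfl fun i _ => key i, ← Finset.sum_mul, h1, one_mul]

end PieceR2

/-- PIECE R2 -/
theorem J_quarter {I : ℝ × ℝ → ℝ} {κ : ℝ} (hI : RateFn I κ) : J I (1 / 4) = I (1, 0) := by
  obtain ⟨c, hc⟩ := PieceD.costs_ne I (le_refl (1 / 4 : ℝ))
  have h : costs I (1 / 4) = {I (1, 0)} := by
    refine Set.Subset.antisymm (fun d hd => PieceR2.cost_eq hI hd) ?_
    rintro d rfl
    rw [← PieceR2.cost_eq hI hc]
    exact hc
  unfold J
  rw [h, csInf_singleton]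

end Pool.Agent.K6.H23.WA
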